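import Pool.Agent.H53.RM.Defs
import Pool.Agent.H65.RM.Four

/-!
# A10: Fourier inversion in `w`, and the derivative coefficients `DD`

`fc (MM p N 0) m j = 1` if `m = j = 0`, else `0` (`MM p N 0 = 1`: the iteration is constant `1`).
Decay (`fc_decay`): `KT` against `r' = 0` (replace `r` by `r·[i ≤ N]`: only `i ≤ N` enters `MM`).
`g(s) = (1/2π) ∫_0^{2π} M(e^{ix}, e^{is}) e^{-imx} dx` is continuous and `2π`-periodic, its Fourier
coefficients are `fc (MM p N r) m j` (exchange of the integrals, `swap_cont`), summable by `fc_decay`; so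
`g(s) = ∑_j fc m j e^{ijs}` (`has_pointwise_sum_fourier_series_of_summable`).
`kernel_int`: multiply by `(2 sin t)^p e^{-2iKt}`, `s = 2t`, integrate termwise;
`∫_0^π (2 sin t)^p e^{2i(j-K)t} dt = Cn p (K-j)` (`Cn_exp`: the sine part vanishes by `t ↦ π - t`).
-/

namespace Pool.Agent.H53.RM

open Complex Pool.Agent.H65.RM

lemma A10_q_congr {N : ℕ} {r r' : ℕ → ℝ} (h : ∀ i ∈ Finset.Icc 1 N, r i = r' i) : q N r = q N r' := by
  funext U X
  unfold q
  congr 1
  apply Finset.sum_congr rfl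
  intro i hi
  rw [h i hi]

lemma A10_MM_congr {N : ℕ} {r r' : ℕ → ℝ} (h : ∀ i ∈ Finset.Icc 1 N, r i = r' i) (p : ℝ) :
    MM p N r = MM p N r' := by
  have hq := A10_q_congr h
  have hqs : qs N r = qs N r' := by
    funext U X
    unfold qs
    rw [hq]
  have hchi : chi N r = chi N r' := by
    funext U X
    unfold chi
    congr 1
    apply Finset.sum_congr rfl
    intro i hi
    rw [h i hi]
  have hgg : gg N r = gg N r' := by
    funext U w E
    unfold gg
    rw [hq, hqs]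
  have hit : it N r = it N r' := by
    funext U w n
    induction n with
    | zero => rfl
    | succ n ih =>
      simp only [it]
      rw [ih, hgg]
  have hE : EE N r = EE N r' := by
    funext U w
    unfold EE
    rw [hit]
  have hden : den N r = den N r' := by
    funext U w
    unfold den
    rw [hq, hqs, hchi, hE]
  have hmm : mm N r = mm N r' := by
    funext U w
    unfold mm
    rw [hq, hqs, hE, hden]
  have hrh : rh N r = rh N r' := by
    funext U
    unfold rh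
    congr 1
    apply Finset.sum_congr rfl
    intro i hi
    rw [h i hi]
  funext U w
  unfold MM
  rw [hmm, hrh]

theorem MM_zero (p : ℝ) (N : ℕ) (U w : ℂ) : MM p N (fun _ => 0) U w = 1 := by
  have hq : ∀ U X : ℂ, q N (fun _ => 0) U X = 1 := by
    intro U X
    unfold q
    simp
  have hqs : ∀ U X : ℂ, qs N (fun _ => 0) U X = 1 := fun U X => hq _ _
  have hchi : ∀ U X : ℂ, chi N (fun _ => 0) U X = 0 := by
    intro U X
    unfold chi
    simp
  unfold MM mm den rh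
  rw [hq, hqs, hchi]
  simp
  norm_num

theorem fc_zero (p : ℝ) (N : ℕ) (m j : ℤ) :
    fc (MM p N (fun _ => 0)) m j = if m = 0 ∧ j = 0 then 1 else 0 := by
  have hpi : (Real.pi : ℂ) ≠ 0 := by exact_mod_cast Real.pi_ne_zero
  have hint : ∀ n : ℤ, (∫ a in (0:ℝ)..2 * Real.pi, ex (-(n * a))) =
      if n = 0 then ((2 * Real.pi : ℝ) : ℂ) else 0 := by
    intro n
    split_ifs with hn
    · subst hn
      simp [ex_zero]
    · have hc : (-((n:ℂ) * I)) ≠ 0 := by
        have : (n : ℂ) ≠ 0 := by exact_mod_cast hn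
        simp [this, I_ne_zero]
      have e : ∀ a : ℝ, ex (-(n * a)) = exp ((-((n:ℂ) * I)) * a) := by
        intro a
        unfold ex
        congr 1
        push_cast
        ring
      simp only [e]
      rw [integral_exp_mul_complex hc]
      have : exp (-((n:ℂ) * I) * ((2 * Real.pi : ℝ) : ℂ)) = 1 := by
        rw [Complex.exp_eq_one_iff]
        refine ⟨-n, ?_⟩
        push_cast
        ring
      rw [this]
      simp
  unfold fc
  simp only [MM_zero, one_mul]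
  have e2 : ∀ a : ℝ, (∫ b in (0:ℝ)..2 * Real.pi, ex (-(m * a)) * ex (-(j * b))) =
      ex (-(m * a)) * if j = 0 then ((2 * Real.pi : ℝ) : ℂ) else 0 := by
    intro a
    rw [intervalIntegral.integral_const_mul, hint]
  simp only [e2]
  rw [intervalIntegral.integral_mul_const, hint]
  by_cases hm : m = 0 <;> by_cases hj : j = 0
  · simp only [hm, hj, if_true, and_self]
    push_cast
    field_simp
  · simp [hm, hj]
  · simp [hm, hj]
  · simp [hm, hj]

/-- decay of the coefficients of one kernel (minus the disc) -/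
theorem fc_decay {N : ℕ} (hN : 1 ≤ N) {r : ℕ → ℝ} {p : ℝ} (hp1 : 1.9 < p) (hp2 : p < 2)
    (hr : wt N r 1 ≤ 1 / 1000) (m j : ℤ) :
    ‖fc (MM p N r) m j - if m = 0 ∧ j = 0 then 1 else 0‖ ≤
      210 * wt N r 1 * Real.exp (-(|(m:ℝ)| + |(j:ℝ)|) / (20 * N)) := by
  set s : ℕ → ℝ := fun i => if i ≤ N then r i else 0 with hs
  have hsr : ∀ i ∈ Finset.Icc 1 N, r i = s i := by
    intro i hi
    rw [hs]
    simp only
    rw [if_pos (Finset.mem_Icc.1 hi).2]
  have hwt : wt N r 1 = wt N s 1 := by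
    unfold wt
    apply Finset.sum_congr rfl
    intro i hi
    rw [hsr i hi]
  have hMM := A10_MM_congr hsr p
  have h := KT (N := N) (J := N) (r := s) (r' := fun _ => 0) hp1 hp2 hN
    (fun i hi => by rw [hs]; simp only; rw [if_neg (by omega)]) (fun i _ => rfl)
    (by rw [← hwt]; exact hr) (by unfold wt; simp) m j
  rw [fc_zero] at h
  rw [hMM, hwt]
  simpa using h

lemma A10_Sm {N : ℕ} (hN : 1 ≤ N) {r : ℕ → ℝ} (hr : wt N r 1 ≤ 1 / 1000) :
    ∃ s : ℕ → ℝ, (∀ p : ℝ, MM p N r = MM p N s) ∧ Sm N s (Real.exp (1 / (5 * N))) := by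
  set s : ℕ → ℝ := fun i => if i ≤ N then r i else 0 with hs
  have hsr : ∀ i ∈ Finset.Icc 1 N, r i = s i := by
    intro i hi
    rw [hs]
    simp only
    rw [if_pos (Finset.mem_Icc.1 hi).2]
  have hwt : wt N r 1 = wt N s 1 := by
    unfold wt
    apply Finset.sum_congr rfl
    intro i hi
    rw [hsr i hi]
  refine ⟨s, fun p => A10_MM_congr hsr p, Sm_of_small hN ?_ ?_⟩
  · intro i hi
    rw [hs]
    simp only
    rw [if_neg (by omega)]
  · rw [← hwt]
    exact hr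

lemma A10_cont {N : ℕ} (hN : 1 ≤ N) {r : ℕ → ℝ} (hr : wt N r 1 ≤ 1 / 1000) (p : ℝ) :
    Continuous fun x : ℝ × ℝ => MM p N r (ex x.1) (ex x.2) := by
  obtain ⟨s, hs1, hs2⟩ := A10_Sm hN hr
  rw [hs1 p]
  exact hs2.MM_cont p

lemma A10_bound {N : ℕ} (hN : 1 ≤ N) {r : ℕ → ℝ} {p : ℝ} (hp1 : 1.9 < p) (hp2 : p < 2)
    (hr : wt N r 1 ≤ 1 / 1000) (m j : ℤ) :
    ‖fc (MM p N r) m j‖ ≤ 2 * Real.exp (-(1 / (20 * (N:ℝ))) * |(j:ℝ)|) := by
  have hN' : (1:ℝ) ≤ N := by exact_mod_cast hN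
  have h := fc_decay hN hp1 hp2 hr m j
  have h0 : 0 ≤ wt N r 1 := wt_nonneg (by norm_num)
  have h1 : Real.exp (-(|(m:ℝ)| + |(j:ℝ)|) / (20 * N)) ≤
      Real.exp (-(1 / (20 * (N:ℝ))) * |(j:ℝ)|) := by
    apply Real.exp_le_exp.2
    have hm : 0 ≤ |(m:ℝ)| := abs_nonneg _
    have : -(1 / (20 * (N:ℝ))) * |(j:ℝ)| - -(|(m:ℝ)| + |(j:ℝ)|) / (20 * N) = |(m:ℝ)| / (20 * N) := by
      field_simp
      ring
    have h2 : 0 ≤ |(m:ℝ)| / (20 * N) := by positivity
    linarith
  have h3 : ‖(if m = 0 ∧ j = 0 then (1:ℂ) else 0)‖ ≤ Real.exp (-(1 / (20 * (N:ℝ))) * |(j:ℝ)|) := by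
    split_ifs with h4
    · rw [h4.2]
      simp
    · rw [norm_zero]
      exact (Real.exp_pos _).le
  have h5 : ‖fc (MM p N r) m j‖ ≤ ‖fc (MM p N r) m j - if m = 0 ∧ j = 0 then 1 else 0‖ +
      ‖(if m = 0 ∧ j = 0 then (1:ℂ) else 0)‖ := by
    have := norm_add_le (fc (MM p N r) m j - if m = 0 ∧ j = 0 then 1 else 0)
      (if m = 0 ∧ j = 0 then (1:ℂ) else 0)
    rwa [sub_add_cancel] at this
  have h6 := Real.exp_pos (-(|(m:ℝ)| + |(j:ℝ)|) / (20 * N))
  have h7 : 210 * wt N r 1 * Real.exp (-(|(m:ℝ)| + |(j:ℝ)|) / (20 * N)) ≤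
      1 * Real.exp (-(|(m:ℝ)| + |(j:ℝ)|) / (20 * N)) :=
    mul_le_mul_of_nonneg_right (by linarith) h6.le
  linarith

lemma A10_fc_summable {N : ℕ} (hN : 1 ≤ N) {r : ℕ → ℝ} {p : ℝ} (hp1 : 1.9 < p) (hp2 : p < 2)
    (hr : wt N r 1 ≤ 1 / 1000) (m : ℤ) : Summable fun j : ℤ => fc (MM p N r) m j := by
  have hN' : (1:ℝ) ≤ N := by exact_mod_cast hN
  apply Summable.of_norm_bounded
    ((summable_exp_abs (show 0 < 1 / (20 * (N:ℝ)) by positivity)).mul_left 2)
  exact fun j => A10_bound hN hp1 hp2 hr m j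

theorem fc_inv {N : ℕ} (hN : 1 ≤ N) {r : ℕ → ℝ} {p : ℝ} (hp1 : 1.9 < p) (hp2 : p < 2)
    (hr : wt N r 1 ≤ 1 / 1000) (m : ℤ) (s : ℝ) :
    HasSum (fun j : ℤ => fc (MM p N r) m j * ex (j * s))
      (((1 / (2 * Real.pi) : ℝ) : ℂ) * ∫ x in (0:ℝ)..(2 * Real.pi),
        MM p N r (ex x) (ex s) * ex (-(m * x))) :=
  pf_inv (A10_cont hN hr p) m (A10_fc_summable hN hp1 hp2 hr m) s

theorem Cn_exp (p : ℝ) (hp : 0 ≤ p) (n : ℤ) :
    ∫ t in (0:ℝ)..Real.pi, (((2 * Real.sin t) ^ p : ℝ) : ℂ) * ex (2 * n * t) =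
      (Cn p n : ℂ) := by
  rw [← Cn_neg, ← Cn_ex hp (-n)]
  congr 1
  funext t
  congr 2
  push_cast
  ring

theorem DD_summable {N : ℕ} (hN : 1 ≤ N) {r : ℕ → ℝ} {p : ℝ} (hp1 : 1.9 < p) (hp2 : p < 2)
    (hr : wt N r 1 ≤ 1 / 1000) (K m : ℤ) :
    Summable (fun j : ℤ => ‖fc (MM p N r) m j * (Cn p (K - j) : ℂ)‖) := by
  have hN' : (1:ℝ) ≤ N := by exact_mod_cast hN
  apply Summable.of_nonneg_of_le (fun j => norm_nonneg _) _
    (((summable_exp_abs (show 0 < 1 / (20 * (N:ℝ)) by positivity)).mul_left 2).mul_right 10)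
  intro j
  rw [norm_mul, Complex.norm_real, Real.norm_eq_abs]
  exact mul_le_mul (A10_bound hN hp1 hp2 hr m j) (Cn_abs_le hp1 hp2 _) (abs_nonneg _) (by positivity)

/-- the double integral of the kernel against one mode -/
theorem kernel_int {N : ℕ} (hN : 1 ≤ N) {r : ℕ → ℝ} {p : ℝ} (hp1 : 1.9 < p) (hp2 : p < 2)
    (hr : wt N r 1 ≤ 1 / 1000) (K m : ℤ) :
    ∫ t in (0:ℝ)..Real.pi, (((2 * Real.sin t) ^ p : ℝ) : ℂ) * ex (-(2 * K * t)) *
        (((1 / (2 * Real.pi) : ℝ) : ℂ) * ∫ α in (0:ℝ)..(2 * Real.pi),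
          MM p N r (ex (2 * α)) (ex (2 * t)) * ex (-(2 * m * α))) =
      ∑' j : ℤ, fc (MM p N r) m j * (Cn p (K - j) : ℂ) := by
  have hp0 : 0 ≤ p := by linarith
  have hN' : (1:ℝ) ≤ N := by exact_mod_cast hN
  have hG := A10_cont hN hr p
  have hκ : 0 < 1 / (20 * (N:ℝ)) := by positivity
  -- the inner integral
  have hin : ∀ t : ℝ, (((1 / (2 * Real.pi) : ℝ) : ℂ) * ∫ α in (0:ℝ)..(2 * Real.pi),
      MM p N r (ex (2 * α)) (ex (2 * t)) * ex (-(2 * m * α))) = pf (MM p N r) m (2 * t) := by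
    intro t
    unfold pf
    congr 1
    have hc4 : Continuous fun a : ℝ => MM p N r (ex a) (ex (2 * t)) * ex (-(m * a)) :=
      (cont2 hG continuous_id continuous_const).mul (continuous_ex_comp (by fun_prop))
    have hper : Function.Periodic (fun a : ℝ => MM p N r (ex a) (ex (2 * t)) * ex (-(m * a)))
        (2 * Real.pi) := by
      intro a
      simp only
      rw [ex_periodic]
      congr 1
      have : -((m : ℝ) * (a + 2 * Real.pi)) = -(m * a) + ((-m : ℤ) : ℝ) * (2 * Real.pi) := by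
        push_cast; ring
      rw [this, ex_add, ← ex_zpow, ex_two_pi, one_zpow, mul_one]
    rw [← int_double hper hc4]
    congr 1
    funext α
    congr 2
    ring
  simp only [hin]
  have hS : ∀ t : ℝ, HasSum (fun j : ℤ => fc (MM p N r) m j *
      ((((2 * Real.sin t) ^ p : ℝ) : ℂ) * ex (-(2 * ((K - j : ℤ) : ℝ) * t))))
      ((((2 * Real.sin t) ^ p : ℝ) : ℂ) * ex (-(2 * K * t)) * pf (MM p N r) m (2 * t)) := by
    intro t
    have h1 := pf_inv hG m (A10_fc_summable hN hp1 hp2 hr m) (2 * t)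
    have h2 := h1.mul_left ((((2 * Real.sin t) ^ p : ℝ) : ℂ) * ex (-(2 * K * t)))
    have e : (fun j : ℤ => fc (MM p N r) m j *
        ((((2 * Real.sin t) ^ p : ℝ) : ℂ) * ex (-(2 * ((K - j : ℤ) : ℝ) * t)))) =
        fun j : ℤ => (((2 * Real.sin t) ^ p : ℝ) : ℂ) * ex (-(2 * K * t)) *
          (fc (MM p N r) m j * ex (j * (2 * t))) := by
      funext j
      have f1 : ex (-(2 * ((K - j : ℤ) : ℝ) * t)) = ex (-(2 * K * t)) * ex (j * (2 * t)) := by
        rw [← ex_add]; congr 1; push_cast; ring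
      rw [f1]
      ring
    rw [e]
    exact h2
  have hfin := intervalIntegral.hasSum_integral_of_dominated_convergence (a := 0) (b := Real.pi)
    (μ := MeasureTheory.volume)
    (F := fun (j : ℤ) (t : ℝ) => fc (MM p N r) m j *
      ((((2 * Real.sin t) ^ p : ℝ) : ℂ) * ex (-(2 * ((K - j : ℤ) : ℝ) * t))))
    (f := fun t => (((2 * Real.sin t) ^ p : ℝ) : ℂ) * ex (-(2 * K * t)) * pf (MM p N r) m (2 * t))
    (fun j _ => 2 * Real.exp (-(1 / (20 * (N:ℝ))) * |(j : ℝ)|) * 4) ?_ ?_ ?_ ?_ ?_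
  · have e : (fun j : ℤ => fc (MM p N r) m j * (Cn p (K - j) : ℂ)) =
        fun j : ℤ => ∫ t in (0 : ℝ)..Real.pi, fc (MM p N r) m j *
      ((((2 * Real.sin t) ^ p : ℝ) : ℂ) * ex (-(2 * ((K - j : ℤ) : ℝ) * t))) := by
      funext j
      rw [intervalIntegral.integral_const_mul, Cn_ex hp0]
    rw [e]
    exact hfin.tsum_eq.symm
  · intro j
    apply Continuous.aestronglyMeasurable
    exact continuous_const.mul ((Complex.continuous_ofReal.comp (cn_cont_pow hp0)).mul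
      (continuous_ex_comp (by fun_prop)))
  · intro j
    refine Filter.Eventually.of_forall fun t ht => ?_
    rw [Set.uIoc_of_le Real.pi_pos.le] at ht
    have hs : 0 ≤ Real.sin t := Real.sin_nonneg_of_mem_Icc ⟨ht.1.le, ht.2⟩
    have hs1 := Real.sin_le_one t
    rw [norm_mul, norm_mul, ex_norm, mul_one, Complex.norm_real, Real.norm_eq_abs,
      abs_of_nonneg (by positivity)]
    have g2 : (2 * Real.sin t) ^ p ≤ 4 := by
      calc (2 * Real.sin t) ^ p ≤ (2 : ℝ) ^ p :=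
            Real.rpow_le_rpow (by positivity) (by linarith) hp0
        _ ≤ (2 : ℝ) ^ (2 : ℝ) := Real.rpow_le_rpow_of_exponent_le (by norm_num) hp2.le
        _ = 4 := by norm_num
    exact mul_le_mul (A10_bound hN hp1 hp2 hr m j) g2 (by positivity) (by positivity)
  · refine Filter.Eventually.of_forall fun t _ => ?_
    exact ((summable_exp_abs hκ).mul_left 2).mul_right 4
  · exact intervalIntegrable_const
  · exact Filter.Eventually.of_forall fun t _ => hS t

end Pool.Agent.H53.RM
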