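import Pool.Agent.H53.RM.Defs

/-! # B0: the second order expansion of the base kernel, explicit Laurent polynomials -/

namespace Pool.Agent.H53.RM

noncomputable section

/-- Laurent polynomial given by a list of `(m, j, c)` -/
def lp (l : List (ℤ × ℤ × ℝ)) (U w : ℂ) : ℂ :=
  (l.map fun t => ((t.2.2 : ℝ) : ℂ) * U ^ t.1 * w ^ t.2.1).sum

/-- its coefficients -/
def lc (l : List (ℤ × ℤ × ℝ)) (m j : ℤ) : ℝ :=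
  (l.map fun t => if t.1 = m ∧ t.2.1 = j then t.2.2 else 0).sum

def N1 : List (ℤ × ℤ × ℝ) :=
  [(2, 0, 7/5), (2, 1, 4/5), (2, 2, 8/15), (2, 3, 4/15),
   (-2, 0, 7/5), (-2, -1, 4/5), (-2, -2, 8/15), (-2, -3, 4/15)]

def N2 : List (ℤ × ℤ × ℝ) :=
  [(4, 0, 11/25), (4, 1, 22/25), (4, 2, 56/75), (4, 3, 26/45), (4, 4, 16/45), (4, 5, 26/225),
   (4, 6, -8/225), (4, 7, -2/25),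
   (-4, 0, 11/25), (-4, -1, 22/25), (-4, -2, 56/75), (-4, -3, 26/45), (-4, -4, 16/45),
   (-4, -5, 26/225), (-4, -6, -8/225), (-4, -7, -2/25),
   (0, 3, 12/25), (0, 2, 64/75), (0, 1, 52/45), (0, 0, 46/45), (0, -1, 52/45), (0, -2, 64/75),
   (0, -3, 12/25)]

/-- `A(U,X)`: for the base body `q = 1 + r A(U,X)`, `q* = 1 + r A(U⁻¹,X⁻¹)` -/
def AA (U X : ℂ) : ℂ :=
  U ^ 2 * (1 + X + X ^ 2 + X ^ 3 + X ^ 4) / 5 + U⁻¹ ^ 2 * (X⁻¹ + X⁻¹ ^ 2 + X⁻¹ ^ 3) / 3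

/-- `∂A/∂X` -/
def AX (U X : ℂ) : ℂ :=
  U ^ 2 * (1 + 2 * X + 3 * X ^ 2 + 4 * X ^ 3) / 5 -
    U⁻¹ ^ 2 * (X⁻¹ ^ 2 + 2 * X⁻¹ ^ 3 + 3 * X⁻¹ ^ 4) / 3

/-- `A*(U,X) = A(U⁻¹, X⁻¹)` -/
def AS (U X : ℂ) : ℂ :=
  U⁻¹ ^ 2 * (1 + X⁻¹ + X⁻¹ ^ 2 + X⁻¹ ^ 3 + X⁻¹ ^ 4) / 5 + U ^ 2 * (X + X ^ 2 + X ^ 3) / 3

/-- `∂A*/∂X` -/
def ASX (U X : ℂ) : ℂ :=
  -(U⁻¹ ^ 2 * (X⁻¹ ^ 2 + 2 * X⁻¹ ^ 3 + 3 * X⁻¹ ^ 4 + 4 * X⁻¹ ^ 5) / 5) +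
    U ^ 2 * (1 + 2 * X + 3 * X ^ 2) / 3

/-- `B(U,X)`: `χ = r B` -/
def Bb (U X : ℂ) : ℂ :=
  (X + 1) * (U ^ 2 * (-3 - X + X ^ 2 + 3 * X ^ 3) +
    U⁻¹ ^ 2 * (-3 * X⁻¹ - X⁻¹ ^ 2 + X⁻¹ ^ 3 + 3 * X⁻¹ ^ 4)) / 15

/-- `∂B/∂X` -/
def BX (U X : ℂ) : ℂ :=
  (U ^ 2 * (-3 - X + X ^ 2 + 3 * X ^ 3) +
    U⁻¹ ^ 2 * (-3 * X⁻¹ - X⁻¹ ^ 2 + X⁻¹ ^ 3 + 3 * X⁻¹ ^ 4)) / 15 +
  (X + 1) * (U ^ 2 * (-1 + 2 * X + 9 * X ^ 2) +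
    U⁻¹ ^ 2 * (3 * X⁻¹ ^ 2 + 2 * X⁻¹ ^ 3 - 3 * X⁻¹ ^ 4 - 12 * X⁻¹ ^ 5)) / 15

/-- first order coefficient of `E` -/
def E1 (U w : ℂ) : ℂ := AS U w - AA U w

/-- first and second order coefficients of `m` -/
def m1 (U w : ℂ) : ℂ := AA U w + AS U w - (AA U w + AS U w + Bb U w) / 2

def m2 (U w : ℂ) : ℂ :=
  (AA U w * AS U w + w * E1 U w * (AX U w + ASX U w))
    - (AA U w + AS U w) * ((AA U w + AS U w + Bb U w) / 2)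
    + ((AA U w + AS U w + Bb U w) / 2) ^ 2
    - w * E1 U w * (AX U w + ASX U w + BX U w) / 2

end

end Pool.Agent.H53.RM
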