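import Pool.Agent.H53.RM.B0_Defs

/-!
# B1: the two polynomial identities (DONE)

`N1 = 2 m1 + σ`, `N2 = m1² + 2 m2 + 2 m1 σ`, `σ = U² + U⁻²`.
-/

namespace Pool.Agent.H53.RM

theorem N1_id {U w : ℂ} (hU : U ≠ 0) (hw : w ≠ 0) :
    lp N1 U w = 2 * m1 U w + (U ^ 2 + U⁻¹ ^ 2) := by
  simp only [lp, N1, List.map_cons, List.map_nil, List.sum_cons, List.sum_nil, m1, AA, AS, Bb]
  push_cast
  simp only [zpow_neg, zpow_ofNat, inv_pow]
  field_simp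
  ring

theorem N2_id {U w : ℂ} (hU : U ≠ 0) (hw : w ≠ 0) :
    lp N2 U w = m1 U w ^ 2 + 2 * m2 U w + 2 * m1 U w * (U ^ 2 + U⁻¹ ^ 2) := by
  simp only [lp, N2, List.map_cons, List.map_nil, List.sum_cons, List.sum_nil, m1, m2, E1, AX, ASX,
    BX, AA, AS, Bb]
  push_cast
  simp only [zpow_neg, zpow_ofNat, inv_pow]
  field_simp
  ring

end Pool.Agent.H53.RM
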