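import Pool.Agent.H53.RM.Defs
import Pool.Agent.H53.RM.B1_Alg
import Pool.Agent.H65.RM.Base2

/-!
# B2: second order expansion of the base kernel on the annulus, `p = 2`

Base body: `r_2 = r = -15ε/2`, all other `r_i = 0`; `R = e^{1/10}`, `wt N (rr (aB ε)) R = 2|r|e ≤ 3/1000` for
`ε ≤ 1/20000`, so `Sm N (rr (aB ε)) R`.  The expansion is `H65.RM.base_jet`.
-/

namespace Pool.Agent.H53.RM

open Pool.Agent.H65.RM

lemma B2_rr (ε : ℝ) : rr (aB ε) = rb (-15 * ε / 2) := by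
  funext i
  unfold rr aB rb
  by_cases h : i = 2
  · subst h
    norm_num; try ring
  · simp [h]

theorem base_Sm {ε : ℝ} (h0 : 0 < ε) (h1 : ε ≤ 1 / 20000) (N : ℕ) :
    Sm N (rr (aB ε)) (Real.exp (1 / 10)) := by
  rw [B2_rr]
  by_cases hN : 2 ≤ N
  · refine Sm_rb hN ?_
    rw [abs_le]
    constructor <;> linarith
  · refine ⟨R0_one.le, R0_le, ?_⟩
    have : wt N (rb (-15 * ε / 2)) (Real.exp (1 / 10)) = 0 := by
      unfold wt
      apply Finset.sum_eq_zero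
      intro i hi
      have hi2 : i ≠ 2 := by
        rintro rfl
        exact hN (Finset.mem_Icc.1 hi).2
      simp [rb, hi2]
    rw [this]
    norm_num

lemma B2_N1 {U w : ℂ} (hU : U ≠ 0) (hw : w ≠ 0) :
    Pool.Agent.H65.RM.N1 U U⁻¹ w w⁻¹ = lp Pool.Agent.H53.RM.N1 U w := by
  simp only [lp, Pool.Agent.H53.RM.N1, List.map_cons, List.map_nil, List.sum_cons, List.sum_nil]
  unfold Pool.Agent.H65.RM.N1
  push_cast
  simp only [zpow_neg, zpow_ofNat, inv_pow]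
  field_simp
  ring

lemma B2_N2 {U w : ℂ} (hU : U ≠ 0) (hw : w ≠ 0) :
    Pool.Agent.H65.RM.N2 U U⁻¹ w w⁻¹ = lp Pool.Agent.H53.RM.N2 U w := by
  simp only [lp, Pool.Agent.H53.RM.N2, List.map_cons, List.map_nil, List.sum_cons, List.sum_nil]
  unfold Pool.Agent.H65.RM.N2
  push_cast
  simp only [zpow_neg, zpow_ofNat, inv_pow]
  field_simp
  ring

theorem base_exp : ∃ C : ℝ, 0 < C ∧ ∀ ε : ℝ, 0 < ε → ε ≤ 1 / 20000 → ∀ N : ℕ, 2 ≤ N →
    ∀ U w : ℂ, U ∈ An (Real.exp (1 / 10)) → w ∈ An (Real.exp (1 / 10)) →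
      ‖MM 2 N (rr (aB ε)) U w - 1 - ((-15 * ε / 2 : ℝ) : ℂ) * lp N1 U w
        - ((-15 * ε / 2 : ℝ) : ℂ) ^ 2 * lp N2 U w‖ ≤ C * ε ^ 3 := by
  obtain ⟨C, hC, h⟩ := base_jet
  refine ⟨(C + 1) * (15 / 2) ^ 3, by positivity, fun ε h0 h1 N hN U w hU hw => ?_⟩
  have hx : |(-15 * ε / 2 : ℝ)| ≤ 1 / 2000 := by
    rw [abs_le]
    constructor <;> linarith
  have h2 := h N hN (-15 * ε / 2) hx U hU w hw
  rw [B2_N1 (An_ne hU) (An_ne hw), B2_N2 (An_ne hU) (An_ne hw), ← B2_rr] at h2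
  have hM : MM 2 N (rr (aB ε)) U w = mm N (rr (aB ε)) U w ^ 2 * rh N (rr (aB ε)) U := by
    unfold MM
    congr 1
    have : (((2 : ℝ) : ℝ) : ℂ) = ((2 : ℕ) : ℂ) := by push_cast; rfl
    rw [this, Complex.cpow_natCast]
  rw [hM]
  refine h2.trans ?_
  have habs : |(-15 * ε / 2 : ℝ)| = 15 / 2 * ε := by
    rw [show (-15 * ε / 2 : ℝ) = -(15 / 2 * ε) by ring, abs_neg, abs_of_pos (by positivity)]
  rw [habs, mul_pow, ← mul_assoc]
  have : 0 ≤ ε ^ 3 := by positivity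
  have h3 : C * (15 / 2) ^ 3 ≤ (C + 1) * (15 / 2 : ℝ) ^ 3 := by
    nlinarith [show (0 : ℝ) ≤ (15 / 2) ^ 3 by norm_num]
  exact mul_le_mul_of_nonneg_right h3 this

end Pool.Agent.H53.RM
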