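import Pool.Agent.H53.RM.B2_Exp
import Pool.Agent.H65.RM.Base3

/-!
# B3: Fourier coefficients of the base kernel

`fc_le'` with `κ = 1/20` (holomorphic on the open annulus `An (e^{1/10})`, `Sm.MM_diff`, `base_Sm`) applied to
`G = MM 2 - 1 - r N1 - r² N2` and to `MM p - MM 2`: `|m^p - m^2| = |m|^2 |m^{p-2} - 1| ≤ 3 (2-p) |log m|`, `|m-1| ≤ 9 wt ≤ C ε`,
so `|MM p - MM 2| ≤ C (2-p) ε`.  `fc` of a Laurent polynomial `lp l` is `lc l`.
-/

namespace Pool.Agent.H53.RM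

open Pool.Agent.H65.RM

lemma B3_lp_cont (l : List (ℤ × ℤ × ℝ)) :
    Continuous fun x : ℝ × ℝ => lp l (ex x.1) (ex x.2) := by
  induction l with
  | nil => simpa [lp] using continuous_const
  | cons t l ih =>
    have : (fun x : ℝ × ℝ => lp (t :: l) (ex x.1) (ex x.2)) = fun x : ℝ × ℝ =>
        ((t.2.2 : ℝ) : ℂ) * (ex x.1 ^ t.1 * ex x.2 ^ t.2.1) + lp l (ex x.1) (ex x.2) := by
      funext x
      simp [lp, mul_assoc]
    rw [this]
    exact (continuous_const.mul (mono_cont _ _)).add ih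

theorem fc_lp (l : List (ℤ × ℤ × ℝ)) (m j : ℤ) : fc (lp l) m j = (lc l m j : ℂ) := by
  induction l with
  | nil =>
    have e : lp [] = fun _ _ => 0 := by
      funext U w
      simp [lp]
    rw [e]
    simp [fc, lc]
  | cons t l ih =>
    have e : lp (t :: l) = fun U w => ((t.2.2 : ℝ) : ℂ) * (U ^ t.1 * w ^ t.2.1) + lp l U w := by
      funext U w
      simp [lp, mul_assoc]
    rw [e, fc_add (G := fun U w => ((t.2.2 : ℝ) : ℂ) * (U ^ t.1 * w ^ t.2.1)) (H := lp l)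
      (continuous_const.mul (mono_cont _ _)) (B3_lp_cont l), fc_smul, fc_mono, ih]
    simp only [lc, List.map_cons, List.sum_cons]
    push_cast
    split_ifs <;> simp

/-- indicator of one exponent -/
noncomputable def B3_ind (a b m j : ℤ) : ℝ := if a = m ∧ b = j then 1 else 0

lemma B3_ite (a b m j : ℤ) (c : ℝ) : (if a = m ∧ b = j then c else 0) = c * B3_ind a b m j := by
  unfold B3_ind
  split_ifs <;> simp

lemma B3_N1 (m j : ℤ) : lc N1 m j = (lcoef L1 m j : ℝ) / 15 := by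
  unfold lc lcoef N1 L1
  simp only [List.map_cons, List.map_nil, List.sum_cons, List.sum_nil]
  push_cast
  simp only [B3_ite]
  ring

lemma B3_N2 (m j : ℤ) : lc N2 m j = (lcoef L2 m j : ℝ) / 225 := by
  unfold lc lcoef N2 L2
  simp only [List.map_cons, List.map_nil, List.sum_cons, List.sum_nil]
  push_cast
  simp only [B3_ite]
  ring

lemma B3_rb (ε : ℝ) : rr (aB ε) = rb (-15 * ε / 2) := by
  funext i
  unfold rr aB rb
  split_ifs with h
  · subst h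
    norm_num
  · simp

theorem base_coef : ∃ C : ℝ, 0 < C ∧ ∀ ε : ℝ, 0 < ε → ε ≤ 1 / 20000 → ∀ N : ℕ, 2 ≤ N →
    ∀ p : ℝ, 1.9 < p → p < 2 → ∀ m j : ℤ,
      ‖fc (MM p N (rr (aB ε))) m j - (if m = 0 ∧ j = 0 then 1 else 0)
        - (((-15 * ε / 2) * lc N1 m j + (-15 * ε / 2) ^ 2 * lc N2 m j : ℝ) : ℂ)‖ ≤
      C * (ε ^ 3 + (2 - p) * ε) * Real.exp (-(|(m:ℝ)| + |(j:ℝ)|) / 40) := by
  obtain ⟨C, hC, h⟩ := base_fc
  refine ⟨500 * (C + 1), by positivity, fun ε he he1 N hN p hp1 hp2 m j => ?_⟩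
  have hx : |(-15 * ε / 2)| = 15 / 2 * ε := by
    rw [show -15 * ε / 2 = -(15 / 2 * ε) by ring, abs_neg, abs_of_pos (by positivity)]
  have h1 := h p hp1 hp2 N hN (-15 * ε / 2) (by rw [hx]; linarith) m j
  rw [← B3_rb, hx] at h1
  have h2 : fc (MM p N (rr (aB ε))) m j - (if m = 0 ∧ j = 0 then 1 else 0)
      - (((-15 * ε / 2) * lc N1 m j + (-15 * ε / 2) ^ 2 * lc N2 m j : ℝ) : ℂ) =
      fc (MM p N (rr (aB ε))) m j - kr m j - ((-15 * ε / 2 / 15 : ℝ) : ℂ) * lcoef L1 m j -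
      (((-15 * ε / 2) ^ 2 / 225 : ℝ) : ℂ) * lcoef L2 m j := by
    rw [B3_N1, B3_N2]
    unfold kr
    push_cast
    ring
  rw [h2]
  refine h1.trans (mul_le_mul_of_nonneg_right ?_ (Real.exp_pos _).le)
  have h3 : 0 ≤ ε ^ 3 := by positivity
  have h4 : 0 ≤ (2 - p) * ε := mul_nonneg (by linarith) he.le
  have h5 : (15 / 2 * ε) ^ 3 + (2 - p) * (15 / 2 * ε) ≤ 500 * (ε ^ 3 + (2 - p) * ε) := by
    have : (15 / 2 * ε) ^ 3 = 3375 / 8 * ε ^ 3 := by ring
    rw [this]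
    nlinarith
  have h6 := mul_le_mul_of_nonneg_left h5 hC
  nlinarith

end Pool.Agent.H53.RM
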