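import Pool.Agent.H53.RM.B3_Coef
import Pool.Agent.H53.RM.A10_Inv
import Pool.Agent.H65.RM.Sums

/-!
# B4: the matrix of the base body

`143 ε² ≤ 2-p ≤ 145 ε²`.  `BD_{K,n} = DD - C(K)[K=n] = ∑_j ((M-1)_{K-n,j} + M_{K+n,j}) C(K-j)` (`K + n ≠ 0`).
Split `Cn p = C0 + (Cn p - C0)`.
* second part, `K ≥ 2`: `Cn_5c`: `|Cn p (K-j) - C0 (K-j)| ≤ 5 |Cn p K| (1+|j|)^3`, `|(M-1)_{m,j}| ≤ C ε e^{-(|m|+|j|)/40}`
  (from `base_coef`, since `lc` has finite support), so `≤ C ε |Cn p K| e^{-|K-n|/40}`.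
* first part: only `j ∈ {K-1,K,K+1}`, values `-π, 2π, -π`.  Insert `base_coef`.  The sums
  `s_i(K,n) = ∑_± ∑_j lc N_i (K∓n) j · C0 (K-j)` for odd `K ≥ 3`, odd `n ≥ 1`:
  `s_1 = 0` always; `s_2 = 0` except `s_2(3,3) = 8π/75`, `s_2(3,1) = 4π/75`, `s_2(5,1) = -4π/45`, `s_2(7,3) = -28π/225`
  (supports: `N1`: `m = ±2`, `|j| ≤ 3`; `N2`: `m = ±4`, `|j| ≤ 7`, `m = 0`, `|j| ≤ 3`).
  The error `C (ε³ + (2-p) ε) e^{-(|K-n| + K - 1)/40} ≤ C ε |Cn p K| e^{-|K-n|/80}` by `Cn_low` (`ε² e^{-K/40} ≤ C |Cn p K|`).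
* `(15/2)² · 8/75 = 6`.   `ε² ≤ C |Cn p K|` for `K ≤ 7`.
* `K = 1`: `|M-1| ≤ C ε e^{..}` and `|Cn| ≤ 10`.
-/

namespace Pool.Agent.H53.RM

open Pool.Agent.H65.RM

/-- the base matrix without the diagonal -/
noncomputable def BD (N : ℕ) (ε p : ℝ) (K n : ℕ) : ℂ :=
  DD N (rr (aB ε)) p K n - (if K = n then (Cn p K : ℂ) else 0)

/-! ### coefficients of the explicit Laurent polynomials -/

theorem B4_lc_zero (l : List (ℤ × ℤ × ℝ)) (m j : ℤ)
    (h : ∀ t ∈ l, ¬ (t.1 = m ∧ t.2.1 = j)) : lc l m j = 0 := by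
  unfold lc
  apply List.sum_eq_zero
  intro x hx
  obtain ⟨t, ht, rfl⟩ := List.mem_map.1 hx
  rw [if_neg (h t ht)]

theorem B4_lc_le (l : List (ℤ × ℤ × ℝ)) (h : ∀ t ∈ l, |t.1| + |t.2.1| ≤ 11) (m j : ℤ) :
    |lc l m j| ≤ (l.map fun t => |t.2.2|).sum *
      (Real.exp (11 / 40) * Real.exp (-(|(m:ℝ)| + |(j:ℝ)|) / 40)) := by
  induction l with
  | nil => simp [lc]
  | cons t l ih =>
    have h1 := ih fun s hs => h s (List.mem_cons_of_mem _ hs)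
    have h2 := h t List.mem_cons_self
    have h3 : lc (t :: l) m j = (if t.1 = m ∧ t.2.1 = j then t.2.2 else 0) + lc l m j := by
      simp [lc]
    rw [h3, List.map_cons, List.sum_cons, add_mul]
    refine (abs_add_le _ _).trans (add_le_add ?_ h1)
    split_ifs with hc
    · obtain ⟨rfl, rfl⟩ := hc
      have h4 : 1 ≤ Real.exp (11 / 40) * Real.exp (-(|(t.1:ℝ)| + |(t.2.1:ℝ)|) / 40) := by
        rw [← Real.exp_add]
        apply Real.one_le_exp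
        have h5 : (|(t.1:ℝ)| + |(t.2.1:ℝ)|) ≤ 11 := by exact_mod_cast h2
        linarith
      exact le_mul_of_one_le_right (abs_nonneg _) h4
    · rw [abs_zero]
      positivity

theorem B4_N1_supp : ∀ t ∈ N1, |t.1| + |t.2.1| ≤ 11 := by
  intro t ht
  simp only [N1, List.mem_cons, List.not_mem_nil, or_false] at ht
  rcases ht with rfl | rfl | rfl | rfl | rfl | rfl | rfl | rfl <;> norm_num

theorem B4_N2_supp : ∀ t ∈ N2, |t.1| + |t.2.1| ≤ 11 := by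
  intro t ht
  simp only [N2, List.mem_cons, List.not_mem_nil, or_false] at ht
  rcases ht with rfl | rfl | rfl | rfl | rfl | rfl | rfl | rfl | rfl | rfl | rfl | rfl | rfl |
    rfl | rfl | rfl | rfl | rfl | rfl | rfl | rfl | rfl | rfl <;> norm_num

theorem B4_N1_zero {m j : ℤ} (hj : 2 ≤ j) (h : ¬ (m = 2 ∧ j ≤ 3)) : lc N1 m j = 0 := by
  apply B4_lc_zero
  intro t ht
  simp only [N1, List.mem_cons, List.not_mem_nil, or_false] at ht
  rcases ht with rfl | rfl | rfl | rfl | rfl | rfl | rfl | rfl <;>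
  · rintro ⟨h1, h2⟩
    simp only at h1 h2
    omega

theorem B4_N2_zero {m j : ℤ} (hj : 2 ≤ j) (h : ¬ (m = 4 ∧ j ≤ 7)) (h' : ¬ (m = 0 ∧ j ≤ 3)) :
    lc N2 m j = 0 := by
  apply B4_lc_zero
  intro t ht
  simp only [N2, List.mem_cons, List.not_mem_nil, or_false] at ht
  rcases ht with rfl | rfl | rfl | rfl | rfl | rfl | rfl | rfl | rfl | rfl | rfl | rfl | rfl |
    rfl | rfl | rfl | rfl | rfl | rfl | rfl | rfl | rfl | rfl <;>
  · rintro ⟨h1, h2⟩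
    simp only at h1 h2
    omega

/-- the three term combination -/
noncomputable def B4_s (l : List (ℤ × ℤ × ℝ)) (K n : ℤ) : ℝ :=
  2 * Real.pi * (lc l (K - n) K + lc l (K + n) K)
    - Real.pi * (lc l (K - n) (K - 1) + lc l (K + n) (K - 1))
    - Real.pi * (lc l (K - n) (K + 1) + lc l (K + n) (K + 1))

theorem B4_s1 {K n : ℤ} (hK : 3 ≤ K) (hKo : K % 2 = 1) (hn : 1 ≤ n) (hno : n % 2 = 1) :
    B4_s N1 K n = 0 := by
  unfold B4_s
  rw [B4_N1_zero (m := K + n) (j := K) (by omega) (by omega),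
    B4_N1_zero (m := K + n) (j := K - 1) (by omega) (by omega),
    B4_N1_zero (m := K + n) (j := K + 1) (by omega) (by omega),
    B4_N1_zero (m := K - n) (j := K + 1) (by omega) (by omega)]
  by_cases h : K = 3 ∧ n = 1
  · obtain ⟨rfl, rfl⟩ := h
    norm_num [lc, N1]
    ring
  · rw [B4_N1_zero (m := K - n) (j := K) (by omega) (by omega),
      B4_N1_zero (m := K - n) (j := K - 1) (by omega) (by omega)]
    ring

theorem B4_s2_zero {K n : ℤ} (hK : 3 ≤ K) (hKo : K % 2 = 1) (hn : 1 ≤ n) (hno : n % 2 = 1)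
    (h : 5 ≤ n ∨ 9 ≤ K) : B4_s N2 K n = 0 := by
  unfold B4_s
  rw [B4_N2_zero (m := K + n) (j := K) (by omega) (by omega) (by omega),
    B4_N2_zero (m := K + n) (j := K - 1) (by omega) (by omega) (by omega),
    B4_N2_zero (m := K + n) (j := K + 1) (by omega) (by omega) (by omega),
    B4_N2_zero (m := K - n) (j := K + 1) (by omega) (by omega) (by omega),
    B4_N2_zero (m := K - n) (j := K) (by omega) (by omega) (by omega),
    B4_N2_zero (m := K - n) (j := K - 1) (by omega) (by omega) (by omega)]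
  ring

theorem B4_s2_33 : B4_s N2 3 3 = 8 * Real.pi / 75 := by
  unfold B4_s
  norm_num [lc, N2]
  ring

/-! ### bounds for the coefficients -/

/-- the hypotheses -/
structure B4_H (ε p : ℝ) (N : ℕ) : Prop where
  e0 : 0 < ε
  e1 : ε ≤ 1 / 20000
  p1 : 1.9 < p
  p2 : p < 2
  lo : 143 * ε ^ 2 ≤ 2 - p
  hi : 2 - p ≤ 145 * ε ^ 2
  hN : 2 ≤ N

/-- coefficients of the kernel minus the disc -/
noncomputable def B4_e (N : ℕ) (ε p : ℝ) (m j : ℤ) : ℂ :=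
  fc (MM p N (rr (aB ε))) m j - (if m = 0 ∧ j = 0 then 1 else 0)

theorem B4_coef : ∃ C : ℝ, 1 ≤ C ∧ ∀ (ε p : ℝ) (N : ℕ), B4_H ε p N → ∀ m j : ℤ,
    ‖B4_e N ε p m j‖ ≤ C * ε * Real.exp (-(|(m:ℝ)| + |(j:ℝ)|) / 40) ∧
    ‖B4_e N ε p m j - (((-15 * ε / 2) * lc N1 m j + (-15 * ε / 2) ^ 2 * lc N2 m j : ℝ) : ℂ)‖ ≤
      C * ε ^ 3 * Real.exp (-(|(m:ℝ)| + |(j:ℝ)|) / 40) := by
  obtain ⟨C, hC, hb⟩ := base_coef
  set a1 : ℝ := (N1.map fun t => |t.2.2|).sum * Real.exp (11 / 40) with ha1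
  set a2 : ℝ := (N2.map fun t => |t.2.2|).sum * Real.exp (11 / 40) with ha2
  have hs : ∀ l : List (ℤ × ℤ × ℝ), 0 ≤ (l.map fun t => |t.2.2|).sum := by
    intro l
    apply List.sum_nonneg
    intro x hx
    obtain ⟨t, _, rfl⟩ := List.mem_map.1 hx
    exact abs_nonneg _
  have ha1' : 0 ≤ a1 := mul_nonneg (hs _) (Real.exp_pos _).le
  have ha2' : 0 ≤ a2 := mul_nonneg (hs _) (Real.exp_pos _).le
  refine ⟨1 + 146 * C + 8 * a1 + 57 * a2, by linarith, ?_⟩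
  intro ε p N h m j
  have hε := h.e0
  have hε1 : ε ≤ 1 := h.e1.trans (by norm_num)
  set X : ℝ := Real.exp (-(|(m:ℝ)| + |(j:ℝ)|) / 40) with hX
  have hXp : 0 < X := Real.exp_pos _
  have h1 := hb ε h.e0 h.e1 N h.hN p h.p1 h.p2 m j
  have h2 : ε ^ 3 + (2 - p) * ε ≤ 146 * ε ^ 3 := by
    have := mul_le_mul_of_nonneg_right h.hi hε.le
    nlinarith
  have hε3 : 0 < ε ^ 3 := pow_pos hε 3
  have h3 : C * (ε ^ 3 + (2 - p) * ε) * X ≤ 146 * C * ε ^ 3 * X := by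
    apply mul_le_mul_of_nonneg_right _ hXp.le
    calc C * (ε ^ 3 + (2 - p) * ε) ≤ C * (146 * ε ^ 3) := mul_le_mul_of_nonneg_left h2 hC.le
      _ = 146 * C * ε ^ 3 := by ring
  have h4 : ‖B4_e N ε p m j - (((-15 * ε / 2) * lc N1 m j + (-15 * ε / 2) ^ 2 * lc N2 m j : ℝ) : ℂ)‖ ≤
      146 * C * ε ^ 3 * X := h1.trans h3
  have hl1 : |lc N1 m j| ≤ a1 * X := by
    have := B4_lc_le N1 B4_N1_supp m j
    rwa [← mul_assoc] at this
  have hl2 : |lc N2 m j| ≤ a2 * X := by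
    have := B4_lc_le N2 B4_N2_supp m j
    rwa [← mul_assoc] at this
  constructor
  · have h5 : ‖(((-15 * ε / 2) * lc N1 m j + (-15 * ε / 2) ^ 2 * lc N2 m j : ℝ) : ℂ)‖ ≤
        8 * a1 * ε * X + 57 * a2 * ε * X := by
      rw [Complex.norm_real, Real.norm_eq_abs]
      refine (abs_add_le _ _).trans (add_le_add ?_ ?_)
      · rw [abs_mul]
        have : |(-15 * ε / 2)| = 15 * ε / 2 := by
          rw [abs_div, abs_mul, abs_of_pos hε]; norm_num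
        rw [this]
        calc 15 * ε / 2 * |lc N1 m j| ≤ 15 * ε / 2 * (a1 * X) :=
              mul_le_mul_of_nonneg_left hl1 (by positivity)
          _ ≤ 8 * a1 * ε * X := by
              have : 0 ≤ a1 * ε * X := by positivity
              nlinarith
      · rw [abs_mul, abs_of_nonneg (by positivity : (0:ℝ) ≤ (-15 * ε / 2) ^ 2)]
        calc (-15 * ε / 2) ^ 2 * |lc N2 m j| ≤ (-15 * ε / 2) ^ 2 * (a2 * X) :=
              mul_le_mul_of_nonneg_left hl2 (by positivity)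
          _ = 225 / 4 * ε * (a2 * ε * X) := by ring
          _ ≤ 57 * 1 * (a2 * ε * X) := by
              apply mul_le_mul_of_nonneg_right _ (by positivity)
              nlinarith
          _ = 57 * a2 * ε * X := by ring
    have h6 := norm_add_le (B4_e N ε p m j -
      (((-15 * ε / 2) * lc N1 m j + (-15 * ε / 2) ^ 2 * lc N2 m j : ℝ) : ℂ))
      ((((-15 * ε / 2) * lc N1 m j + (-15 * ε / 2) ^ 2 * lc N2 m j : ℝ) : ℂ))
    rw [sub_add_cancel] at h6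
    have h7 : 146 * C * ε ^ 3 * X ≤ 146 * C * ε * X := by
      apply mul_le_mul_of_nonneg_right _ hXp.le
      apply mul_le_mul_of_nonneg_left _ (by positivity)
      have : ε ^ 2 ≤ 1 := pow_le_one₀ hε.le hε1
      nlinarith
    have h8 : 0 ≤ ε * X := by positivity
    calc ‖B4_e N ε p m j‖ ≤ 146 * C * ε * X + (8 * a1 * ε * X + 57 * a2 * ε * X) :=
          h6.trans (add_le_add (h4.trans h7) h5)
      _ ≤ (1 + 146 * C + 8 * a1 + 57 * a2) * ε * X := by nlinarith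
  · refine h4.trans ?_
    apply mul_le_mul_of_nonneg_right _ hXp.le
    apply mul_le_mul_of_nonneg_right _ hε3.le
    linarith

/-- the two coefficients together -/
noncomputable def B4_E (N : ℕ) (ε p : ℝ) (K n : ℕ) (j : ℤ) : ℂ :=
  B4_e N ε p ((K : ℤ) - n) j + B4_e N ε p ((K : ℤ) + n) j

theorem B4_E_le {C ε p : ℝ} {N : ℕ} (hC : 0 ≤ C) (hε : 0 ≤ ε)
    (h : ∀ m j : ℤ, ‖B4_e N ε p m j‖ ≤ C * ε * Real.exp (-(|(m:ℝ)| + |(j:ℝ)|) / 40))
    (K n : ℕ) (j : ℤ) :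
    ‖B4_E N ε p K n j‖ ≤ 2 * C * ε * Real.exp (-|(K:ℝ) - n| / 40) *
      Real.exp (-(1 / 40) * |(j:ℝ)|) := by
  have h1 := h ((K : ℤ) - n) j
  have h2 := h ((K : ℤ) + n) j
  push_cast at h1 h2
  have h3 : Real.exp (-(|(K:ℝ) - n| + |(j:ℝ)|) / 40) =
      Real.exp (-|(K:ℝ) - n| / 40) * Real.exp (-(1 / 40) * |(j:ℝ)|) := by
    rw [← Real.exp_add]; congr 1; ring
  have hKn : |(K:ℝ) - n| ≤ |(K:ℝ) + n| := by
    have hK : (0:ℝ) ≤ K := Nat.cast_nonneg K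
    have hn : (0:ℝ) ≤ n := Nat.cast_nonneg n
    rw [abs_of_nonneg (by positivity : (0:ℝ) ≤ (K:ℝ) + n)]
    exact abs_le.2 ⟨by linarith, by linarith⟩
  have h4 : Real.exp (-(|(K:ℝ) + n| + |(j:ℝ)|) / 40) ≤
      Real.exp (-|(K:ℝ) - n| / 40) * Real.exp (-(1 / 40) * |(j:ℝ)|) := by
    rw [← h3]
    apply Real.exp_le_exp.2
    linarith
  unfold B4_E
  refine (norm_add_le _ _).trans ?_
  have h5 := mul_le_mul_of_nonneg_left h4 (mul_nonneg hC hε)
  rw [h3] at h1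
  linarith

theorem B4_BD_eq {C ε p : ℝ} {N : ℕ} (hC : 0 ≤ C) (H : B4_H ε p N)
    (h : ∀ m j : ℤ, ‖B4_e N ε p m j‖ ≤ C * ε * Real.exp (-(|(m:ℝ)| + |(j:ℝ)|) / 40))
    (K n : ℕ) (hK : 1 ≤ K) :
    Summable (fun j : ℤ => ‖B4_E N ε p K n j‖ * (1 + |(j:ℝ)|) ^ 3) ∧
    BD N ε p K n = ∑' j : ℤ, B4_E N ε p K n j * (Cn p ((K : ℤ) - j) : ℂ) := by
  have hsum : Summable (fun j : ℤ => ‖B4_E N ε p K n j‖ * (1 + |(j:ℝ)|) ^ 3) := by
    refine Summable.of_nonneg_of_le (fun j => by positivity) (fun j => ?_)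
      ((summable_cube (y := 1 / 40) (by norm_num) (by norm_num)).mul_left
        (2 * C * ε * Real.exp (-|(K:ℝ) - n| / 40)))
    have h1 := mul_le_mul_of_nonneg_right (B4_E_le hC H.e0.le h K n j)
      (by positivity : (0:ℝ) ≤ (1 + |(j:ℝ)|) ^ 3)
    refine h1.trans (le_of_eq ?_)
    ring
  refine ⟨hsum, ?_⟩
  have hs2 : Summable (fun j : ℤ => B4_E N ε p K n j * (Cn p ((K : ℤ) - j) : ℂ)) := by
    apply Summable.of_norm
    refine Summable.of_nonneg_of_le (fun j => by positivity) (fun j => ?_) (hsum.mul_left 10)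
    rw [norm_mul, Complex.norm_real, Real.norm_eq_abs]
    have h2 := Cn_abs_le H.p1 H.p2 ((K : ℤ) - j)
    have h3 : (1:ℝ) ≤ (1 + |(j:ℝ)|) ^ 3 := one_le_pow₀ (by linarith [abs_nonneg (j:ℝ)])
    have h4 := norm_nonneg (B4_E N ε p K n j)
    calc ‖B4_E N ε p K n j‖ * |Cn p ((K : ℤ) - j)| ≤ ‖B4_E N ε p K n j‖ * 10 :=
          mul_le_mul_of_nonneg_left h2 h4
      _ = 10 * (‖B4_E N ε p K n j‖ * 1) := by ring
      _ ≤ 10 * (‖B4_E N ε p K n j‖ * (1 + |(j:ℝ)|) ^ 3) := by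
          apply mul_le_mul_of_nonneg_left _ (by norm_num)
          exact mul_le_mul_of_nonneg_left h3 h4
  have hterm : ∀ j : ℤ, (fc (MM p N (rr (aB ε))) ((K : ℤ) - n) j +
      fc (MM p N (rr (aB ε))) ((K : ℤ) + n) j) * (Cn p ((K : ℤ) - j) : ℂ) =
      (if j = 0 then (if K = n then (Cn p K : ℂ) else 0) else 0) +
        B4_E N ε p K n j * (Cn p ((K : ℤ) - j) : ℂ) := by
    intro j
    have h1 : fc (MM p N (rr (aB ε))) ((K : ℤ) - n) j =
        (if (K : ℤ) - n = 0 ∧ j = 0 then 1 else 0) + B4_e N ε p ((K : ℤ) - n) j := by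
      unfold B4_e; ring
    have h2 : fc (MM p N (rr (aB ε))) ((K : ℤ) + n) j = B4_e N ε p ((K : ℤ) + n) j := by
      unfold B4_e
      rw [if_neg (by omega), sub_zero]
    rw [h1, h2]
    unfold B4_E
    by_cases hj : j = 0
    · subst hj
      by_cases hKn : K = n
      · subst hKn
        simp
        ring
      · have : ¬ ((K : ℤ) - n = 0) := by omega
        simp [hKn, this]
    · simp [hj]
  have hs1 : Summable (fun j : ℤ => (if j = 0 then (if K = n then (Cn p K : ℂ) else 0) else 0)) :=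
    summable_of_ne_finset_zero (s := {0}) (by
      intro j hj
      rw [if_neg (by simpa using hj)])
  unfold BD DD
  simp only [hterm]
  rw [hs1.tsum_add hs2, tsum_ite_eq]
  ring

/-- the three term part -/
noncomputable def B4_F (N : ℕ) (ε p : ℝ) (K n : ℕ) : ℂ :=
  2 * Real.pi * B4_E N ε p K n K - Real.pi * B4_E N ε p K n (K - 1)
    - Real.pi * B4_E N ε p K n (K + 1)

theorem B4_C0_sum (f : ℤ → ℂ) (K : ℤ) :
    ∑' j : ℤ, f j * (C0 (K - j) : ℂ) =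
      2 * Real.pi * f K - Real.pi * f (K - 1) - Real.pi * f (K + 1) := by
  rw [tsum_eq_sum (s := {K, K - 1, K + 1})]
  · rw [Finset.sum_insert (by simp; omega), Finset.sum_insert (by simp; omega),
      Finset.sum_singleton]
    have h1 : C0 (K - K) = 2 * Real.pi := by simp [C0]
    have h2 : C0 (K - (K - 1)) = -Real.pi := by
      have : K - (K - 1) = 1 := by ring
      rw [this]; simp [C0]
    have h3 : C0 (K - (K + 1)) = -Real.pi := by
      have : K - (K + 1) = -1 := by ring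
      rw [this]; simp [C0]
    rw [h1, h2, h3]
    push_cast
    ring
  · intro j hj
    simp only [Finset.mem_insert, Finset.mem_singleton, not_or] at hj
    have : C0 (K - j) = 0 := by
      unfold C0
      rw [if_neg (by omega), if_neg (by omega)]
    rw [this]
    simp

theorem B4_split {C ε p : ℝ} {N : ℕ} (hC : 0 ≤ C) (H : B4_H ε p N)
    (h : ∀ m j : ℤ, ‖B4_e N ε p m j‖ ≤ C * ε * Real.exp (-(|(m:ℝ)| + |(j:ℝ)|) / 40))
    (K n : ℕ) (hK : 2 ≤ K) :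
    ‖BD N ε p K n - B4_F N ε p K n‖ ≤
      10 * C * (∑' j : ℤ, (1 + |(j : ℝ)|) ^ 3 * Real.exp (-(1 / 40) * |(j : ℝ)|)) * ε *
        |Cn p K| * Real.exp (-|(K:ℝ) - n| / 40) := by
  obtain ⟨hsum, hBD⟩ := B4_BD_eq hC H h K n (by omega)
  have hd : ∀ j : ℤ, ‖B4_E N ε p K n j * ((Cn p ((K : ℤ) - j) - C0 ((K : ℤ) - j) : ℝ) : ℂ)‖ ≤
      5 * |Cn p K| * (‖B4_E N ε p K n j‖ * (1 + |(j:ℝ)|) ^ 3) := by
    intro j
    rw [norm_mul, Complex.norm_real, Real.norm_eq_abs]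
    have h1 := Cn_5c H.p1 H.p2 (n := (K : ℤ) - j) (K := (K : ℤ)) (by exact_mod_cast hK)
    have h2 : |((K : ℤ) : ℝ) - (((K : ℤ) - j : ℤ) : ℝ)| = |(j:ℝ)| := by
      push_cast
      congr 1
      ring
    rw [h2] at h1
    calc ‖B4_E N ε p K n j‖ * |Cn p ((K : ℤ) - j) - C0 ((K : ℤ) - j)| ≤
        ‖B4_E N ε p K n j‖ * (5 * |Cn p K| * (1 + |(j:ℝ)|) ^ 3) :=
          mul_le_mul_of_nonneg_left h1 (norm_nonneg _)
      _ = _ := by ring
  have hsd : Summable (fun j : ℤ =>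
      ‖B4_E N ε p K n j * ((Cn p ((K : ℤ) - j) - C0 ((K : ℤ) - j) : ℝ) : ℂ)‖) :=
    Summable.of_nonneg_of_le (fun j => norm_nonneg _) hd (hsum.mul_left _)
  have hs0 : Summable (fun j : ℤ => B4_E N ε p K n j * (C0 ((K : ℤ) - j) : ℂ)) := by
    apply summable_of_ne_finset_zero (s := {(K : ℤ), (K : ℤ) - 1, (K : ℤ) + 1})
    intro j hj
    simp only [Finset.mem_insert, Finset.mem_singleton, not_or] at hj
    have : C0 ((K : ℤ) - j) = 0 := by
      unfold C0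
      rw [if_neg (by omega), if_neg (by omega)]
    rw [this]
    simp
  have hF : B4_F N ε p K n = ∑' j : ℤ, B4_E N ε p K n j * (C0 ((K : ℤ) - j) : ℂ) := by
    rw [B4_C0_sum]
    rfl
  have hdiff : BD N ε p K n - B4_F N ε p K n =
      ∑' j : ℤ, B4_E N ε p K n j * ((Cn p ((K : ℤ) - j) - C0 ((K : ℤ) - j) : ℝ) : ℂ) := by
    have h1 : ∀ j : ℤ, B4_E N ε p K n j * (Cn p ((K : ℤ) - j) : ℂ) =
        B4_E N ε p K n j * ((Cn p ((K : ℤ) - j) - C0 ((K : ℤ) - j) : ℝ) : ℂ) +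
          B4_E N ε p K n j * (C0 ((K : ℤ) - j) : ℂ) := by
      intro j
      push_cast
      ring
    rw [hBD, hF]
    simp only [h1]
    rw [hsd.of_norm.tsum_add hs0]
    ring
  rw [hdiff]
  refine (norm_tsum_le_tsum_norm hsd).trans ?_
  refine (hsd.tsum_le_tsum hd (hsum.mul_left _)).trans ?_
  rw [tsum_mul_left]
  have h3 : ∑' j : ℤ, ‖B4_E N ε p K n j‖ * (1 + |(j:ℝ)|) ^ 3 ≤
      2 * C * ε * Real.exp (-|(K:ℝ) - n| / 40) *
        ∑' j : ℤ, (1 + |(j : ℝ)|) ^ 3 * Real.exp (-(1 / 40) * |(j : ℝ)|) := by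
    rw [← tsum_mul_left]
    refine hsum.tsum_le_tsum (fun j => ?_)
      ((summable_cube (y := 1 / 40) (by norm_num) (by norm_num)).mul_left _)
    have h1 := mul_le_mul_of_nonneg_right (B4_E_le hC H.e0.le h K n j)
      (by positivity : (0:ℝ) ≤ (1 + |(j:ℝ)|) ^ 3)
    refine h1.trans (le_of_eq ?_)
    ring
  calc 5 * |Cn p K| * ∑' j : ℤ, ‖B4_E N ε p K n j‖ * (1 + |(j:ℝ)|) ^ 3 ≤
      5 * |Cn p K| * (2 * C * ε * Real.exp (-|(K:ℝ) - n| / 40) *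
        ∑' j : ℤ, (1 + |(j : ℝ)|) ^ 3 * Real.exp (-(1 / 40) * |(j : ℝ)|)) :=
        mul_le_mul_of_nonneg_left h3 (by positivity)
    _ = _ := by ring

/-- the three term part, expanded -/
theorem B4_F_exp {C ε p : ℝ} {N : ℕ} (hC : 0 ≤ C) (hε : 0 ≤ ε)
    (h : ∀ m j : ℤ,
      ‖B4_e N ε p m j - (((-15 * ε / 2) * lc N1 m j + (-15 * ε / 2) ^ 2 * lc N2 m j : ℝ) : ℂ)‖ ≤
      C * ε ^ 3 * Real.exp (-(|(m:ℝ)| + |(j:ℝ)|) / 40))
    (K n : ℕ) (hK : 1 ≤ K) :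
    ‖B4_F N ε p K n - (((-15 * ε / 2) * B4_s N1 K n + (-15 * ε / 2) ^ 2 * B4_s N2 K n : ℝ) : ℂ)‖ ≤
      32 * C * ε ^ 3 * Real.exp (-|(K:ℝ) - n| / 40) * Real.exp (-((K:ℝ) - 1) / 40) := by
  set Y : ℝ := Real.exp (-|(K:ℝ) - n| / 40) * Real.exp (-((K:ℝ) - 1) / 40) with hY
  have hKn : |(K:ℝ) - n| ≤ |(K:ℝ) + n| := by
    have hK : (0:ℝ) ≤ K := Nat.cast_nonneg K
    have hn : (0:ℝ) ≤ n := Nat.cast_nonneg n
    rw [abs_of_nonneg (by positivity : (0:ℝ) ≤ (K:ℝ) + n)]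
    exact abs_le.2 ⟨by linarith, by linarith⟩
  have hε3 : 0 ≤ ε ^ 3 := pow_nonneg hε 3
  have key : ∀ m j : ℤ, (m = (K:ℤ) - n ∨ m = (K:ℤ) + n) → (K:ℤ) - 1 ≤ j →
      ‖B4_e N ε p m j - (((-15 * ε / 2) * lc N1 m j + (-15 * ε / 2) ^ 2 * lc N2 m j : ℝ) : ℂ)‖ ≤
      C * ε ^ 3 * Y := by
    intro m j hm hj
    refine (h m j).trans ?_
    apply mul_le_mul_of_nonneg_left _ (mul_nonneg hC hε3)
    rw [hY, ← Real.exp_add]
    apply Real.exp_le_exp.2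
    have h1 : |(K:ℝ) - n| ≤ |(m:ℝ)| := by
      rcases hm with rfl | rfl
      · push_cast; exact le_refl _
      · push_cast; exact hKn
    have h2 : ((K:ℝ) - 1) ≤ |(j:ℝ)| := by
      refine le_trans ?_ (le_abs_self _)
      exact_mod_cast hj
    linarith
  have e1 := key ((K:ℤ) - n) K (Or.inl rfl) (by omega)
  have e2 := key ((K:ℤ) + n) K (Or.inr rfl) (by omega)
  have e3 := key ((K:ℤ) - n) ((K:ℤ) - 1) (Or.inl rfl) (by omega)
  have e4 := key ((K:ℤ) + n) ((K:ℤ) - 1) (Or.inr rfl) (by omega)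
  have e5 := key ((K:ℤ) - n) ((K:ℤ) + 1) (Or.inl rfl) (by omega)
  have e6 := key ((K:ℤ) + n) ((K:ℤ) + 1) (Or.inr rfl) (by omega)
  set L : ℤ → ℤ → ℂ := fun m j =>
    (((-15 * ε / 2) * lc N1 m j + (-15 * ε / 2) ^ 2 * lc N2 m j : ℝ) : ℂ) with hL
  have hid : B4_F N ε p K n -
      (((-15 * ε / 2) * B4_s N1 K n + (-15 * ε / 2) ^ 2 * B4_s N2 K n : ℝ) : ℂ) =
      2 * Real.pi * ((B4_e N ε p ((K:ℤ) - n) K - L ((K:ℤ) - n) K) +
        (B4_e N ε p ((K:ℤ) + n) K - L ((K:ℤ) + n) K)) -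
      Real.pi * ((B4_e N ε p ((K:ℤ) - n) ((K:ℤ) - 1) - L ((K:ℤ) - n) ((K:ℤ) - 1)) +
        (B4_e N ε p ((K:ℤ) + n) ((K:ℤ) - 1) - L ((K:ℤ) + n) ((K:ℤ) - 1))) -
      Real.pi * ((B4_e N ε p ((K:ℤ) - n) ((K:ℤ) + 1) - L ((K:ℤ) - n) ((K:ℤ) + 1)) +
        (B4_e N ε p ((K:ℤ) + n) ((K:ℤ) + 1) - L ((K:ℤ) + n) ((K:ℤ) + 1))) := by
    simp only [hL, B4_F, B4_E, B4_s]
    push_cast
    ring
  rw [hid]
  have hpi : (0:ℝ) < Real.pi := Real.pi_pos
  have hpi4 : Real.pi ≤ 4 := by linarith [Real.pi_lt_d2]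
  have hCY : 0 ≤ C * ε ^ 3 * Y := by positivity
  have hpair : ∀ (c : ℝ) (u v : ℂ), 0 ≤ c → ‖u‖ ≤ C * ε ^ 3 * Y → ‖v‖ ≤ C * ε ^ 3 * Y →
      ‖(c : ℂ) * (u + v)‖ ≤ c * (2 * (C * ε ^ 3 * Y)) := by
    intro c u v hc hu hv
    rw [norm_mul, Complex.norm_real, Real.norm_eq_abs, abs_of_nonneg hc]
    apply mul_le_mul_of_nonneg_left _ hc
    exact (norm_add_le _ _).trans (by linarith)
  have f1 := hpair (2 * Real.pi) _ _ (by positivity) e1 e2
  have f2 := hpair Real.pi _ _ hpi.le e3 e4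
  have f3 := hpair Real.pi _ _ hpi.le e5 e6
  rw [Complex.ofReal_mul, Complex.ofReal_ofNat] at f1
  refine (norm_sub_le _ _).trans ((add_le_add ((norm_sub_le _ _).trans (add_le_add f1 f2)) f3).trans ?_)
  have : 32 * C * ε ^ 3 * Real.exp (-|(K:ℝ) - n| / 40) * Real.exp (-((K:ℝ) - 1) / 40) =
      32 * (C * ε ^ 3 * Y) := by rw [hY]; ring
  rw [this]
  nlinarith

/-- `ε²` times a decaying factor is controlled by `|Cn p K|` -/
theorem B4_low {ε p : ℝ} {N : ℕ} (H : B4_H ε p N) {K : ℕ} (hK : 1 ≤ K) :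
    ε ^ 2 * Real.exp (-((K:ℝ) - 1) / 40) ≤ 7000000 * |Cn p K| := by
  have h1 := Cn_low H.p1 H.p2 (K := (K:ℤ)) (by exact_mod_cast hK)
  have h2 : ε ^ 2 ≤ |Cn p K| * (K:ℝ) ^ 3 := by
    have h3 := H.lo
    have h4 : (((K:ℤ) : ℤ) : ℝ) = (K:ℝ) := by push_cast; rfl
    rw [h4] at h1
    nlinarith [sq_nonneg ε]
  have hC := abs_nonneg (Cn p K)
  have hK1 : (1:ℝ) ≤ K := by exact_mod_cast hK
  have h5 : (K:ℝ) ^ 3 * Real.exp (-((K:ℝ) - 1) / 40) ≤ 7000000 := by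
    have h6 := cube_exp_le (y := 1 / 40) (t := (K:ℝ) - 1) (by norm_num) (by norm_num) (by linarith)
    have h7 : (1 + ((K:ℝ) - 1)) = K := by ring
    rw [h7] at h6
    have h8 : -(1 / 40) * ((K:ℝ) - 1) = -((K:ℝ) - 1) / 40 := by ring
    rw [h8] at h6
    refine h6.trans ?_
    have h9 : Real.exp (-(1 / 40 / 2) * ((K:ℝ) - 1)) ≤ 1 := by
      rw [Real.exp_le_one_iff]
      nlinarith
    calc 96 / (1 / 40 : ℝ) ^ 3 * Real.exp (-(1 / 40 / 2) * ((K:ℝ) - 1)) ≤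
        96 / (1 / 40 : ℝ) ^ 3 * 1 := mul_le_mul_of_nonneg_left h9 (by positivity)
      _ ≤ 6144000 := by norm_num
      _ ≤ _ := by norm_num
  calc ε ^ 2 * Real.exp (-((K:ℝ) - 1) / 40) ≤
      |Cn p K| * (K:ℝ) ^ 3 * Real.exp (-((K:ℝ) - 1) / 40) :=
        mul_le_mul_of_nonneg_right h2 (Real.exp_pos _).le
    _ = |Cn p K| * ((K:ℝ) ^ 3 * Real.exp (-((K:ℝ) - 1) / 40)) := by ring
    _ ≤ |Cn p K| * 7000000 := mul_le_mul_of_nonneg_left h5 hC
    _ = _ := by ring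

theorem B4_Esum {C ε p : ℝ} {N : ℕ} (hC : 0 ≤ C) (H : B4_H ε p N)
    (h : ∀ m j : ℤ, ‖B4_e N ε p m j‖ ≤ C * ε * Real.exp (-(|(m:ℝ)| + |(j:ℝ)|) / 40))
    (K n : ℕ) (hK : 1 ≤ K) :
    ∑' j : ℤ, ‖B4_E N ε p K n j‖ * (1 + |(j:ℝ)|) ^ 3 ≤
      2 * C * ε * Real.exp (-|(K:ℝ) - n| / 40) *
        ∑' j : ℤ, (1 + |(j : ℝ)|) ^ 3 * Real.exp (-(1 / 40) * |(j : ℝ)|) := by
  obtain ⟨hsum, -⟩ := B4_BD_eq hC H h K n hK
  rw [← tsum_mul_left]
  refine hsum.tsum_le_tsum (fun j => ?_)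
    ((summable_cube (y := 1 / 40) (by norm_num) (by norm_num)).mul_left _)
  have h1 := mul_le_mul_of_nonneg_right (B4_E_le hC H.e0.le h K n j)
    (by positivity : (0:ℝ) ≤ (1 + |(j:ℝ)|) ^ 3)
  refine h1.trans (le_of_eq ?_)
  ring

/-- trivial bound -/
theorem B4_triv {C ε p : ℝ} {N : ℕ} (hC : 0 ≤ C) (H : B4_H ε p N)
    (h : ∀ m j : ℤ, ‖B4_e N ε p m j‖ ≤ C * ε * Real.exp (-(|(m:ℝ)| + |(j:ℝ)|) / 40))
    (K n : ℕ) (hK : 1 ≤ K) :
    ‖BD N ε p K n‖ ≤ 20 * C * (∑' j : ℤ, (1 + |(j : ℝ)|) ^ 3 * Real.exp (-(1 / 40) * |(j : ℝ)|)) *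
      ε * Real.exp (-|(K:ℝ) - n| / 40) := by
  obtain ⟨hsum, hBD⟩ := B4_BD_eq hC H h K n hK
  have hd : ∀ j : ℤ, ‖B4_E N ε p K n j * (Cn p ((K : ℤ) - j) : ℂ)‖ ≤
      10 * (‖B4_E N ε p K n j‖ * (1 + |(j:ℝ)|) ^ 3) := by
    intro j
    rw [norm_mul, Complex.norm_real, Real.norm_eq_abs]
    have h2 := Cn_abs_le H.p1 H.p2 ((K : ℤ) - j)
    have h3 : (1:ℝ) ≤ (1 + |(j:ℝ)|) ^ 3 := one_le_pow₀ (by linarith [abs_nonneg (j:ℝ)])
    have h4 := norm_nonneg (B4_E N ε p K n j)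
    calc ‖B4_E N ε p K n j‖ * |Cn p ((K : ℤ) - j)| ≤ ‖B4_E N ε p K n j‖ * 10 :=
          mul_le_mul_of_nonneg_left h2 h4
      _ = 10 * (‖B4_E N ε p K n j‖ * 1) := by ring
      _ ≤ 10 * (‖B4_E N ε p K n j‖ * (1 + |(j:ℝ)|) ^ 3) := by
          apply mul_le_mul_of_nonneg_left _ (by norm_num)
          exact mul_le_mul_of_nonneg_left h3 h4
  have hs : Summable (fun j : ℤ => ‖B4_E N ε p K n j * (Cn p ((K : ℤ) - j) : ℂ)‖) :=
    Summable.of_nonneg_of_le (fun j => norm_nonneg _) hd (hsum.mul_left _)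
  rw [hBD]
  refine (norm_tsum_le_tsum_norm hs).trans ((hs.tsum_le_tsum hd (hsum.mul_left _)).trans ?_)
  rw [tsum_mul_left]
  have := mul_le_mul_of_nonneg_left (B4_Esum hC H h K n hK) (by norm_num : (0:ℝ) ≤ 10)
  refine this.trans (le_of_eq ?_)
  ring

theorem B4_s2_le (K n : ℤ) : |B4_s N2 K n| ≤
    32 * ((N2.map fun t => |t.2.2|).sum * Real.exp (11 / 40)) := by
  set A : ℝ := (N2.map fun t => |t.2.2|).sum * Real.exp (11 / 40) with hA
  have hsum : 0 ≤ (N2.map fun t : ℤ × ℤ × ℝ => |t.2.2|).sum := by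
    apply List.sum_nonneg
    intro x hx
    obtain ⟨t, _, rfl⟩ := List.mem_map.1 hx
    exact abs_nonneg _
  have hA0 : 0 ≤ A := mul_nonneg hsum (Real.exp_pos _).le
  have h : ∀ m j : ℤ, |lc N2 m j| ≤ A := by
    intro m j
    refine (B4_lc_le N2 B4_N2_supp m j).trans ?_
    rw [hA, ← mul_assoc]
    have h1 : Real.exp (-(|(m:ℝ)| + |(j:ℝ)|) / 40) ≤ 1 := by
      rw [Real.exp_le_one_iff]
      have := abs_nonneg (m:ℝ)
      have := abs_nonneg (j:ℝ)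
      linarith
    calc (N2.map fun t : ℤ × ℤ × ℝ => |t.2.2|).sum * Real.exp (11 / 40) *
          Real.exp (-(|(m:ℝ)| + |(j:ℝ)|) / 40) ≤
        (N2.map fun t : ℤ × ℤ × ℝ => |t.2.2|).sum * Real.exp (11 / 40) * 1 :=
          mul_le_mul_of_nonneg_left h1 (mul_nonneg hsum (Real.exp_pos _).le)
      _ = _ := mul_one _
  have hpi : (0:ℝ) < Real.pi := Real.pi_pos
  have hpi4 : Real.pi ≤ 4 := by linarith [Real.pi_lt_d2]
  have hpair : ∀ (c u v : ℝ), 0 ≤ c → |u| ≤ A → |v| ≤ A → |c * (u + v)| ≤ c * (2 * A) := by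
    intro c u v hc hu hv
    rw [abs_mul, abs_of_nonneg hc]
    apply mul_le_mul_of_nonneg_left _ hc
    exact (abs_add_le _ _).trans (by linarith)
  have f1 := hpair (2 * Real.pi) _ _ (by positivity) (h (K - n) K) (h (K + n) K)
  have f2 := hpair Real.pi _ _ hpi.le (h (K - n) (K - 1)) (h (K + n) (K - 1))
  have f3 := hpair Real.pi _ _ hpi.le (h (K - n) (K + 1)) (h (K + n) (K + 1))
  unfold B4_s
  refine (abs_sub _ _).trans ((add_le_add ((abs_sub _ _).trans (add_le_add f1 f2)) f3).trans ?_)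
  nlinarith

theorem B4_exp_small {x : ℝ} (h : x ≤ 1 / 2) : Real.exp x ≤ 2 := by
  have h3 : Real.exp x ≤ Real.exp (1 / 2) := Real.exp_le_exp.2 h
  have h4 : Real.exp (1 / 2) ^ 2 ≤ 2 ^ 2 := by
    rw [← Real.exp_nat_mul]
    norm_num
    linarith [Real.exp_one_lt_d9]
  exact h3.trans (le_of_pow_le_pow_left₀ (by norm_num) (by norm_num) h4)

theorem base_DD : ∃ C : ℝ, 1 ≤ C ∧ ∃ ε0 : ℝ, 0 < ε0 ∧ ∀ ε : ℝ, 0 < ε → ε ≤ ε0 →
    ∀ p : ℝ, 143 * ε ^ 2 ≤ 2 - p → 2 - p ≤ 145 * ε ^ 2 → ∀ N : ℕ, 2 ≤ N →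
      (∀ n : ℕ, Odd n → ‖BD N ε p 1 n‖ ≤ C * ε * Real.exp (-(n : ℝ) / 80)) ∧
      (∀ K n : ℕ, Odd K → 3 ≤ K → Odd n → 5 ≤ n →
        ‖BD N ε p K n‖ ≤ C * ε * |Cn p K| * Real.exp (-|(K : ℝ) - n| / 80)) ∧
      (∀ K n : ℕ, Odd K → 3 ≤ K → (n = 1 ∨ n = 3) →
        ‖BD N ε p K n‖ ≤ C * |Cn p K| * Real.exp (-(K : ℝ) / 80)) ∧
      ‖BD N ε p 3 3 - ((6 * Real.pi * ε ^ 2 : ℝ) : ℂ)‖ ≤ C * ε ^ 3 := by
  obtain ⟨C1, hC1, hcoef⟩ := B4_coef
  set S : ℝ := ∑' j : ℤ, (1 + |(j : ℝ)|) ^ 3 * Real.exp (-(1 / 40) * |(j : ℝ)|) with hS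
  have hS0 : 0 ≤ S := tsum_nonneg fun j => by positivity
  set A : ℝ := 32 * ((N2.map fun t => |t.2.2|).sum * Real.exp (11 / 40)) with hA
  have hA0 : 0 ≤ A := (abs_nonneg _).trans (B4_s2_le 0 0)
  have hC10 : 0 ≤ C1 := by linarith
  set Ct : ℝ := 1 + 20000 * C1 * S + 400000000000 * C1 + 3000000000 * A with hCt
  have hCS : 0 ≤ C1 * S := mul_nonneg hC10 hS0
  refine ⟨Ct, by rw [hCt]; nlinarith, 1 / 20000, by norm_num, ?_⟩
  intro ε hε hε1 p hlo hhi N hN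
  have hε2 : ε ^ 2 ≤ (1 / 20000) ^ 2 := pow_le_pow_left₀ hε.le hε1 2
  have hε2' : 0 < ε ^ 2 := pow_pos hε 2
  have H : B4_H ε p N := ⟨hε, hε1, by norm_num at hε2 ⊢; linarith, by linarith, hlo, hhi, hN⟩
  have hb : ∀ m j : ℤ, ‖B4_e N ε p m j‖ ≤ C1 * ε * Real.exp (-(|(m:ℝ)| + |(j:ℝ)|) / 40) :=
    fun m j => (hcoef ε p N H m j).1
  have hb2 : ∀ m j : ℤ,
      ‖B4_e N ε p m j - (((-15 * ε / 2) * lc N1 m j + (-15 * ε / 2) ^ 2 * lc N2 m j : ℝ) : ℂ)‖ ≤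
      C1 * ε ^ 3 * Real.exp (-(|(m:ℝ)| + |(j:ℝ)|) / 40) :=
    fun m j => (hcoef ε p N H m j).2
  have hε1' : ε ≤ 1 := hε1.trans (by norm_num)
  -- the general estimate
  have gen : ∀ K n : ℕ, K % 2 = 1 → 3 ≤ K → n % 2 = 1 →
      ‖BD N ε p K n - ((225 / 4 * ε ^ 2 * B4_s N2 K n : ℝ) : ℂ)‖ ≤
        (10 * C1 * S + 224000000 * C1) * (ε * |Cn p K| * Real.exp (-|(K:ℝ) - n| / 40)) := by
    intro K n hKo hK hno
    have h1 := B4_split hC10 H hb K n (by omega)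
    have h2 := B4_F_exp hC10 hε.le hb2 K n (by omega)
    rw [B4_s1 (K := (K:ℤ)) (n := (n:ℤ)) (by omega) (by omega) (by omega) (by omega)] at h2
    have h3 : (-15 * ε / 2) * 0 + (-15 * ε / 2) ^ 2 * B4_s N2 K n =
        225 / 4 * ε ^ 2 * B4_s N2 K n := by ring
    rw [h3] at h2
    have h4 := B4_low H (K := K) (by omega)
    have hX : 0 < Real.exp (-|(K:ℝ) - n| / 40) := Real.exp_pos _
    have h5 : 32 * C1 * ε ^ 3 * Real.exp (-|(K:ℝ) - n| / 40) * Real.exp (-((K:ℝ) - 1) / 40) ≤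
        224000000 * C1 * (ε * |Cn p K| * Real.exp (-|(K:ℝ) - n| / 40)) := by
      have h6 : 0 ≤ 32 * C1 * ε * Real.exp (-|(K:ℝ) - n| / 40) := by positivity
      calc 32 * C1 * ε ^ 3 * Real.exp (-|(K:ℝ) - n| / 40) * Real.exp (-((K:ℝ) - 1) / 40) =
          32 * C1 * ε * Real.exp (-|(K:ℝ) - n| / 40) *
            (ε ^ 2 * Real.exp (-((K:ℝ) - 1) / 40)) := by ring
        _ ≤ 32 * C1 * ε * Real.exp (-|(K:ℝ) - n| / 40) * (7000000 * |Cn p K|) :=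
            mul_le_mul_of_nonneg_left h4 h6
        _ = _ := by ring
    have h7 : BD N ε p K n - ((225 / 4 * ε ^ 2 * B4_s N2 K n : ℝ) : ℂ) =
        (BD N ε p K n - B4_F N ε p K n) +
          (B4_F N ε p K n - ((225 / 4 * ε ^ 2 * B4_s N2 K n : ℝ) : ℂ)) := by ring
    rw [h7]
    refine (norm_add_le _ _).trans ((add_le_add h1 (h2.trans h5)).trans (le_of_eq ?_))
    rw [← hS]
    ring
  refine ⟨?_, ?_, ?_, ?_⟩
  · intro n hn
    have h1 := B4_triv hC10 H hb 1 n le_rfl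
    rw [← hS] at h1
    refine h1.trans ?_
    have h2 : Real.exp (-|((1:ℕ):ℝ) - n| / 40) ≤ 2 * Real.exp (-(n:ℝ) / 80) := by
      have hn0 : (0:ℝ) ≤ n := Nat.cast_nonneg n
      have h3 : (n:ℝ) - 1 ≤ |((1:ℕ):ℝ) - n| := by
        rw [abs_sub_comm]
        push_cast
        exact le_abs_self _
      have h4 : -|((1:ℕ):ℝ) - n| / 40 ≤ 1 / 40 + -(n:ℝ) / 80 := by
        generalize |((1:ℕ):ℝ) - (n:ℝ)| = z at h3 ⊢
        linarith
      calc Real.exp (-|((1:ℕ):ℝ) - n| / 40) ≤ Real.exp (1 / 40 + -(n:ℝ) / 80) :=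
            Real.exp_le_exp.2 h4
        _ = Real.exp (1 / 40) * Real.exp (-(n:ℝ) / 80) := Real.exp_add _ _
        _ ≤ 2 * Real.exp (-(n:ℝ) / 80) :=
            mul_le_mul_of_nonneg_right (B4_exp_small (by norm_num)) (Real.exp_pos _).le
    calc 20 * C1 * S * ε * Real.exp (-|((1:ℕ):ℝ) - n| / 40) ≤
        20 * C1 * S * ε * (2 * Real.exp (-(n:ℝ) / 80)) :=
          mul_le_mul_of_nonneg_left h2 (by positivity)
      _ = (40 * C1 * S) * ε * Real.exp (-(n:ℝ) / 80) := by ring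
      _ ≤ Ct * ε * Real.exp (-(n:ℝ) / 80) := by
          apply mul_le_mul_of_nonneg_right _ (Real.exp_pos _).le
          apply mul_le_mul_of_nonneg_right _ hε.le
          rw [hCt]
          nlinarith
  · intro K n hKo hK hno hn
    have h1 := gen K n (Nat.odd_iff.1 hKo) hK (Nat.odd_iff.1 hno)
    have hKo' := Nat.odd_iff.1 hKo
    have hno' := Nat.odd_iff.1 hno
    rw [B4_s2_zero (K := (K:ℤ)) (n := (n:ℤ)) (by omega) (by omega) (by omega) (by omega)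
      (Or.inl (by omega)), mul_zero, Complex.ofReal_zero, sub_zero] at h1
    refine h1.trans ?_
    have h2 : Real.exp (-|(K:ℝ) - n| / 40) ≤ Real.exp (-|(K:ℝ) - n| / 80) := by
      apply Real.exp_le_exp.2
      linarith [abs_nonneg ((K:ℝ) - n)]
    calc (10 * C1 * S + 224000000 * C1) * (ε * |Cn p K| * Real.exp (-|(K:ℝ) - n| / 40)) ≤
        (10 * C1 * S + 224000000 * C1) * (ε * |Cn p K| * Real.exp (-|(K:ℝ) - n| / 80)) := by
          apply mul_le_mul_of_nonneg_left _ (by positivity)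
          exact mul_le_mul_of_nonneg_left h2 (by positivity)
      _ ≤ Ct * (ε * |Cn p K| * Real.exp (-|(K:ℝ) - n| / 80)) := by
          apply mul_le_mul_of_nonneg_right _ (by positivity)
          rw [hCt]
          nlinarith
      _ = _ := by ring
  · intro K n hKo hK hn
    have hKo' := Nat.odd_iff.1 hKo
    have hno' : n % 2 = 1 := by rcases hn with rfl | rfl <;> rfl
    have h1 := gen K n hKo' hK hno'
    have hn3 : (n:ℝ) ≤ 3 := by rcases hn with rfl | rfl <;> norm_num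
    have hK3 : (3:ℝ) ≤ K := by exact_mod_cast hK
    have h2 : Real.exp (-|(K:ℝ) - n| / 40) ≤ 2 * Real.exp (-(K:ℝ) / 80) := by
      have h3 : (K:ℝ) - 3 ≤ |(K:ℝ) - n| := le_trans (by linarith) (le_abs_self _)
      have h4 : -|(K:ℝ) - n| / 40 ≤ 3 / 40 + -(K:ℝ) / 80 := by linarith
      calc Real.exp (-|(K:ℝ) - n| / 40) ≤ Real.exp (3 / 40 + -(K:ℝ) / 80) :=
            Real.exp_le_exp.2 h4
        _ = Real.exp (3 / 40) * Real.exp (-(K:ℝ) / 80) := Real.exp_add _ _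
        _ ≤ 2 * Real.exp (-(K:ℝ) / 80) :=
            mul_le_mul_of_nonneg_right (B4_exp_small (by norm_num)) (Real.exp_pos _).le
    set Y : ℝ := Real.exp (-(K:ℝ) / 80) with hY
    have hY0 : 0 < Y := Real.exp_pos _
    have hCn : 0 ≤ |Cn p K| := abs_nonneg _
    have h5 : (10 * C1 * S + 224000000 * C1) *
        (ε * |Cn p K| * Real.exp (-|(K:ℝ) - n| / 40)) ≤
        (20 * C1 * S + 448000000 * C1) * (|Cn p K| * Y) := by
      have h6 : ε * |Cn p K| * Real.exp (-|(K:ℝ) - n| / 40) ≤ 1 * |Cn p K| * (2 * Y) := by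
        apply mul_le_mul (mul_le_mul_of_nonneg_right hε1' hCn) h2 (Real.exp_pos _).le
          (by positivity)
      calc _ ≤ (10 * C1 * S + 224000000 * C1) * (1 * |Cn p K| * (2 * Y)) :=
            mul_le_mul_of_nonneg_left h6 (by positivity)
        _ = _ := by ring
    have h7 : ‖((225 / 4 * ε ^ 2 * B4_s N2 K n : ℝ) : ℂ)‖ ≤ 3000000000 * A * (|Cn p K| * Y) := by
      by_cases hK9 : 9 ≤ K
      · rw [B4_s2_zero (K := (K:ℤ)) (n := (n:ℤ)) (by omega) (by omega) (by omega) (by omega)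
          (Or.inr (by omega)), mul_zero, Complex.ofReal_zero, norm_zero]
        positivity
      · have hK8 : (K:ℝ) ≤ 8 := by
          have : K ≤ 8 := by omega
          exact_mod_cast this
        rw [Complex.norm_real, Real.norm_eq_abs, abs_mul,
          abs_of_nonneg (by positivity : (0:ℝ) ≤ 225 / 4 * ε ^ 2)]
        have h8 := B4_s2_le (K:ℤ) (n:ℤ)
        rw [← hA] at h8
        have h9 := B4_low H (K := K) (by omega)
        have h10 : 1 ≤ 2 * Real.exp (-((K:ℝ) - 1) / 40) := by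
          have e1 : Real.exp (((K:ℝ) - 1) / 40) ≤ 2 := B4_exp_small (by linarith)
          have e2 : Real.exp (((K:ℝ) - 1) / 40) * Real.exp (-((K:ℝ) - 1) / 40) = 1 := by
            rw [← Real.exp_add]
            have : ((K:ℝ) - 1) / 40 + -((K:ℝ) - 1) / 40 = 0 := by ring
            rw [this, Real.exp_zero]
          have e3 := mul_le_mul_of_nonneg_right e1 (Real.exp_pos (-((K:ℝ) - 1) / 40)).le
          linarith
        have h11 : 1 ≤ 2 * Y := by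
          have e1 : Real.exp ((K:ℝ) / 80) ≤ 2 := B4_exp_small (by linarith)
          have e2 : Real.exp ((K:ℝ) / 80) * Y = 1 := by
            rw [hY, ← Real.exp_add]
            have : (K:ℝ) / 80 + -(K:ℝ) / 80 = 0 := by ring
            rw [this, Real.exp_zero]
          have e3 := mul_le_mul_of_nonneg_right e1 hY0.le
          linarith
        have h12 : ε ^ 2 ≤ 14000000 * |Cn p K| := by nlinarith
        have h13 : ε ^ 2 ≤ 28000000 * (|Cn p K| * Y) := by nlinarith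
        calc 225 / 4 * ε ^ 2 * |B4_s N2 K n| ≤ 225 / 4 * ε ^ 2 * A :=
              mul_le_mul_of_nonneg_left h8 (by positivity)
          _ = 225 / 4 * A * ε ^ 2 := by ring
          _ ≤ 225 / 4 * A * (28000000 * (|Cn p K| * Y)) :=
              mul_le_mul_of_nonneg_left h13 (by positivity)
          _ = 1575000000 * A * (|Cn p K| * Y) := by ring
          _ ≤ 3000000000 * A * (|Cn p K| * Y) := by
              apply mul_le_mul_of_nonneg_right _ (by positivity)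
              linarith
    have h14 := norm_add_le (BD N ε p K n - ((225 / 4 * ε ^ 2 * B4_s N2 K n : ℝ) : ℂ))
      (((225 / 4 * ε ^ 2 * B4_s N2 K n : ℝ) : ℂ))
    rw [sub_add_cancel] at h14
    have h15 : 0 ≤ |Cn p K| * Y := by positivity
    calc ‖BD N ε p K n‖ ≤ (20 * C1 * S + 448000000 * C1) * (|Cn p K| * Y) +
          3000000000 * A * (|Cn p K| * Y) := h14.trans (add_le_add (h1.trans h5) h7)
      _ = (20 * C1 * S + 448000000 * C1 + 3000000000 * A) * (|Cn p K| * Y) := by ring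
      _ ≤ Ct * (|Cn p K| * Y) := by
          apply mul_le_mul_of_nonneg_right _ h15
          rw [hCt]
          nlinarith
      _ = Ct * |Cn p K| * Y := by ring
  · have h1 := gen 3 3 (by norm_num) (by norm_num) (by norm_num)
    have h2 : 225 / 4 * ε ^ 2 * B4_s N2 ((3:ℕ):ℤ) ((3:ℕ):ℤ) = 6 * Real.pi * ε ^ 2 := by
      have : B4_s N2 ((3:ℕ):ℤ) ((3:ℕ):ℤ) = 8 * Real.pi / 75 := B4_s2_33
      rw [this]
      ring
    rw [h2] at h1
    refine h1.trans ?_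
    have h3 : |Cn p ((3:ℕ):ℤ)| ≤ 1450 * ε ^ 2 := by
      have h4 := Cn_close H.p1 H.p2 3
      have h5 : C0 3 = 0 := by simp [C0]
      rw [h5, sub_zero] at h4
      have h6 : |Cn p ((3:ℕ):ℤ)| = |Cn p 3| := rfl
      rw [h6]
      linarith
    have h4 : Real.exp (-|((3:ℕ):ℝ) - ((3:ℕ):ℝ)| / 40) = 1 := by simp
    rw [h4, mul_one]
    calc (10 * C1 * S + 224000000 * C1) * (ε * |Cn p ((3:ℕ):ℤ)|) ≤
        (10 * C1 * S + 224000000 * C1) * (ε * (1450 * ε ^ 2)) := by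
          apply mul_le_mul_of_nonneg_left _ (by positivity)
          exact mul_le_mul_of_nonneg_left h3 hε.le
      _ = (14500 * C1 * S + 324800000000 * C1) * ε ^ 3 := by ring
      _ ≤ Ct * ε ^ 3 := by
          apply mul_le_mul_of_nonneg_right _ (by positivity)
          rw [hCt]
          nlinarith

end Pool.Agent.H53.RM
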