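import Pool.Agent.H65.RM.Fou
import Pool.Agent.H65.RM.Cn

/-!
# MP_e2b817_gt: definitions (helper53)

Paper proof: team-store `h53_radial_mean.md`.  Half indices: all functions of the angle are
`π`-periodic, mode `n` means `e^{2inθ}`.  Section 2 and section 5 of the paper are done in
`Pool/Agent/H65/RM` (helper65): `q, qs, chi, wt, Sm, EE, mm, rh, MM, ga, ro, ex, mr, bb, el, fc, KT, Cn, C0`.
`ex θ = e^{iθ}`, `ga N r` boundary curve, `ro N r` curvature radius, `el` chord length, `bb` end of the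
chord, `MM p N r U w` the kernel, `fc` torus Fourier coefficient, `Cn p n = ∫_0^π (2 sin t)^p cos 2nt dt`.
-/

namespace Pool.Agent.H53.RM

open Complex MeasureTheory Pool.Agent.H65.RM

noncomputable section

/-! ### Bodies given by a function of the angle -/

/-- the outer unit normal with tangent angle `θ` -/
def nu (θ : ℝ) : ℂ := -I * ex θ

/-- the body `{x : Re (x * conj (ν θ)) ≤ h θ for all θ}` -/
def KK (h : ℝ → ℝ) : Set ℂ := {x | ∀ θ : ℝ, (x * (starRingEnd ℂ) (nu θ)).re ≤ h θ}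

/-- radial function -/
def rad (L : Set ℂ) (u : ℂ) : ℝ := sSup {l : ℝ | 0 ≤ l ∧ (l : ℂ) * u ∈ L}

/-- `F(h, φ) = ∫_{K_h} ρ_{K_h - x}(e^{iφ})^p dx` -/
def FF (p : ℝ) (h : ℝ → ℝ) (φ : ℝ) : ℝ :=
  ∫ x in KK h, (rad ((fun y => y - x) '' KK h) (ex φ)) ^ p

/-- Fourier coefficient of `F(h, ·)` for the mode `K` (frequency `2K`) -/
def Fc (p : ℝ) (h : ℝ → ℝ) (K : ℤ) : ℂ :=
  ((1 / (2 * Real.pi) : ℝ) : ℂ) *
    ∫ φ in (0:ℝ)..(2 * Real.pi), (FF p h φ : ℂ) * ex (-(2 * K * φ))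

/-- admissible functions `h` -/
structure HOK (h : ℝ → ℝ) : Prop where
  cont : Continuous h
  lo : ∀ θ, 1 / 2 ≤ h θ
  hi : ∀ θ, h θ ≤ 2
  per : ∀ θ, h (θ + Real.pi) = h θ

/-! ### Trigonometric bodies -/

/-- support function `1 + ∑ a_i cos 2iθ` -/
def hh (N : ℕ) (a : ℕ → ℝ) (θ : ℝ) : ℝ :=
  1 + ∑ i ∈ Finset.Icc 1 N, a i * Real.cos (2 * i * θ)

/-- curvature coefficients `r_i = (1 - 4 i²) a_i / 2` -/
def rr (a : ℕ → ℝ) (i : ℕ) : ℝ := (1 - 4 * (i : ℝ) ^ 2) * a i / 2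

/-- the smallness condition on a body (strict): `∑ i |r_i| < 1/1000` -/
def Sml (N : ℕ) (a : ℕ → ℝ) : Prop := wt N (rr a) 1 < 1 / 1000

/-- the derivative of `F_K` in the direction `cos 2nθ` -/
def DD (N : ℕ) (r : ℕ → ℝ) (p : ℝ) (K n : ℤ) : ℂ :=
  ∑' j : ℤ, (fc (MM p N r) (K - n) j + fc (MM p N r) (K + n) j) * (Cn p (K - j) : ℂ)

/-- the body parameters of the base body `h = 1 + ε cos 4θ` -/
def aB (ε : ℝ) (i : ℕ) : ℝ := if i = 2 then ε else 0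

/-- `f(z) = |z|^{p-2} (conj z / z)^K` -/
def ff (K : ℕ) (p : ℝ) (z : ℂ) : ℂ := ((‖z‖ ^ (p - 2) : ℝ) : ℂ) * ((starRingEnd ℂ) z / z) ^ K

/-- `γ'` -/
def gp (N : ℕ) (a : ℕ → ℝ) (θ : ℝ) : ℂ := (ro N (rr a) θ : ℂ) * ex θ

/-- `J_K` -/
def JJ (N : ℕ) (a : ℕ → ℝ) (p : ℝ) (K : ℕ) : ℂ :=
  ∫ α in (0:ℝ)..(2 * Real.pi), ∫ β in (0:ℝ)..(2 * Real.pi),
    ff K p (ga N (rr a) β - ga N (rr a) α) * (ga N (rr a) β - ga N (rr a) α) *
      (starRingEnd ℂ) (ga N (rr a) β - ga N (rr a) α) * (starRingEnd ℂ) (gp N a α) * gp N a β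

/-- the right hand side of the variation formula:
`∫ ρ(α) η(α) ∫ f(Z) Im(conj Z γ'(β)) dβ dα`, `η(α) = ∑ η_i cos 2iα = hh N η α - 1` -/
def LL (N : ℕ) (a η : ℕ → ℝ) (p : ℝ) (K : ℕ) : ℂ :=
  ∫ α in (0:ℝ)..(2 * Real.pi), ((ro N (rr a) α * (hh N η α - 1) : ℝ) : ℂ) *
    ∫ β in (0:ℝ)..(2 * Real.pi), ff K p (ga N (rr a) β - ga N (rr a) α) *
      ((((starRingEnd ℂ) (ga N (rr a) β - ga N (rr a) α) * gp N a β).im : ℝ) : ℂ)

end

end Pool.Agent.H53.RM
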