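import Mathlib

/-!
# F1: contraction + intermediate value theorem

For `d ∈ [d0,d1]` the map `T d` is a contraction of the closed box, `y(d)` its fixed point
(`ContractingWith`), continuous in `d`: `|y(d)-y(d')| ≤ 2 |T d y(d') - T d' y(d')|`.  Then `d ↦ G d (y d)` is
continuous, positive at `d0`, negative at `d1`: intermediate value theorem.
-/

namespace Pool.Agent.H53.RM

theorem solve {n : ℕ} (R : Fin n → ℝ) (hR : ∀ i, 0 ≤ R i) (T : ℝ → (Fin n → ℝ) → (Fin n → ℝ))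
    (G : ℝ → (Fin n → ℝ) → ℝ) {d0 d1 : ℝ} (hd : d0 < d1)
    (hmap : ∀ d ∈ Set.Icc d0 d1, ∀ y, (∀ i, |y i| ≤ R i) → ∀ i, |T d y i| ≤ R i)
    (hcon : ∀ d ∈ Set.Icc d0 d1, ∀ y y', (∀ i, |y i| ≤ R i) → (∀ i, |y' i| ≤ R i) →
      dist (T d y) (T d y') ≤ dist y y' / 2)
    (hT : ∀ y, (∀ i, |y i| ≤ R i) → ContinuousOn (fun d => T d y) (Set.Icc d0 d1))
    (hG : ContinuousOn (fun x : ℝ × (Fin n → ℝ) => G x.1 x.2)
      (Set.Icc d0 d1 ×ˢ {y | ∀ i, |y i| ≤ R i}))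
    (h0 : ∀ y, (∀ i, |y i| ≤ R i) → 0 < G d0 y) (h1 : ∀ y, (∀ i, |y i| ≤ R i) → G d1 y < 0) :
    ∃ d ∈ Set.Icc d0 d1, ∃ y : Fin n → ℝ, (∀ i, |y i| ≤ R i) ∧ T d y = y ∧ G d y = 0 := by
  have hfix : ∀ d ∈ Set.Icc d0 d1, ∃ y : Fin n → ℝ, (∀ i, |y i| ≤ R i) ∧ T d y = y := by
    intro d hd'
    have hBc : IsClosed {y : Fin n → ℝ | ∀ i, |y i| ≤ R i} := by
      have : {y : Fin n → ℝ | ∀ i, |y i| ≤ R i} = ⋂ i, {y : Fin n → ℝ | |y i| ≤ R i} := by
        ext y; simp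
      rw [this]
      exact isClosed_iInter fun i => isClosed_le (by fun_prop) continuous_const
    have : CompleteSpace {y : Fin n → ℝ | ∀ i, |y i| ≤ R i} := hBc.completeSpace_coe
    have : Nonempty {y : Fin n → ℝ | ∀ i, |y i| ≤ R i} :=
      ⟨⟨0, fun i => by simpa using hR i⟩⟩
    let f : {y : Fin n → ℝ | ∀ i, |y i| ≤ R i} → {y : Fin n → ℝ | ∀ i, |y i| ≤ R i} :=
      fun y => ⟨T d y, hmap d hd' y y.2⟩
    have hf : ContractingWith (1 / 2 : NNReal) f := by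
      refine ⟨by norm_num, LipschitzWith.of_dist_le_mul fun y y' => ?_⟩
      have := hcon d hd' y y' y.2 y'.2
      rw [Subtype.dist_eq, Subtype.dist_eq]
      push_cast
      linarith
    exact ⟨(hf.fixedPoint f : {y : Fin n → ℝ | ∀ i, |y i| ≤ R i}), (hf.fixedPoint f).2,
      congrArg Subtype.val hf.fixedPoint_isFixedPt⟩
  choose! y hyB hyT using hfix
  have hyc : ContinuousOn y (Set.Icc d0 d1) := by
    intro d' hd'
    have hb : ∀ d ∈ Set.Icc d0 d1, dist (y d) (y d') ≤ 2 * dist (T d (y d')) (T d' (y d')) := by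
      intro d hd''
      have h2 : dist (y d) (y d') = dist (T d (y d)) (T d' (y d')) := by
        rw [hyT d hd'', hyT d' hd']
      have h3 := dist_triangle (T d (y d)) (T d (y d')) (T d' (y d'))
      have h4 := hcon d hd'' (y d) (y d') (hyB d hd'') (hyB d' hd')
      linarith
    have hlim : Filter.Tendsto (fun d => 2 * dist (T d (y d')) (T d' (y d')))
        (nhdsWithin d' (Set.Icc d0 d1)) (nhds 0) := by
      have h5 := hT (y d') (hyB d' hd') d' hd'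
      have h6 := (tendsto_iff_dist_tendsto_zero.1 h5).const_mul 2
      simpa using h6
    refine tendsto_iff_dist_tendsto_zero.2 (squeeze_zero' ?_ ?_ hlim)
    · exact Filter.Eventually.of_forall fun _ => dist_nonneg
    · filter_upwards [self_mem_nhdsWithin] with d hd''
      exact hb d hd''
  have hGc : ContinuousOn (fun d => G d (y d)) (Set.Icc d0 d1) :=
    hG.comp (f := fun d => (d, y d)) (continuousOn_id.prodMk hyc) fun d hd' => ⟨hd', hyB d hd'⟩
  have hl : d0 ∈ Set.Icc d0 d1 := ⟨le_rfl, hd.le⟩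
  have hr : d1 ∈ Set.Icc d0 d1 := ⟨hd.le, le_rfl⟩
  obtain ⟨d, hd', h⟩ := intermediate_value_Icc' hd.le hGc
    ⟨(h1 _ (hyB d1 hr)).le, (h0 _ (hyB d0 hl)).le⟩
  exact ⟨d, hd', y d, hyB d hd', hyT d hd', h⟩

end Pool.Agent.H53.RM
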