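import Pool.Agent.H53.RM.S4_Fc
import Pool.Agent.H53.RM.B4_Base

/-!
# F2: the maps `T` and `G`, and their estimates

`p` fixed, `ε = √((2-p)/d)`, `d ∈ [143,145]`.  Unknowns `y_i`, `i` odd `≤ N`, `i ≠ 3`; `y_3 = 1`;
`w_i = ε³ ω_i y_i`, `ω_1 = √ε`, `ω_i = 1` for `i ≥ 3`.
With `Fc_exp`, `w_n = ε³ ω_n y_n`, `DD = C·[K=n] + BD`:
`T_K = y_K - Re F_K/(ε³ C(K) ω_K) = -∑_n ω_n y_n Re BD_{K,n}/(C(K) ω_K) + O(A² ε K^{-12}/ω_K)`.
`K ≥ 5`: `n = 3`: `C e^{-K/80}`; `n = 1`: `√ε A C e^{-K/80}`; `n ≥ 5`: `C ε A ∑ n^{-12} e^{-|K-n|/80} ≤ C ε A K^{-12}` (`sum_c`).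
`K = 1`: `(1/√ε)·C ε·A ∑ e^{-n/80} + C A² √ε`.  So with `A` large (depending on the constants) and then `δ0`
small, `|T_K| ≤ A/K^12`.  Contraction: `Fc_lip` in the same way.  `G = Re F_3/ε^5 = π(6 - d/24) + O_A(√ε)` by
`Cn_5d` (`C(3)/ε² = -π d/24 + O(ε²)`) and the last two items of `base_DD`.
-/

namespace Pool.Agent.H53.RM

open Pool.Agent.H65.RM

noncomputable section

def om (ε : ℝ) (i : ℕ) : ℝ := if i = 1 then Real.sqrt ε else 1

/-- the perturbation for the unknowns `y` -/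
def wv (ε : ℝ) (N : ℕ) (y : ℕ → ℝ) (i : ℕ) : ℝ :=
  if i = 3 then ε ^ 3 else if Odd i ∧ i ≤ N then ε ^ 3 * om ε i * y i else 0

def ep (p d : ℝ) : ℝ := Real.sqrt ((2 - p) / d)

def TK (p d : ℝ) (N : ℕ) (y : ℕ → ℝ) (K : ℕ) : ℝ :=
  y K - (Fc p (hh N (fun i => aB (ep p d) i + wv (ep p d) N y i)) K).re /
    (ep p d ^ 3 * Cn p K * om (ep p d) K)

def GG (p d : ℝ) (N : ℕ) (y : ℕ → ℝ) : ℝ :=
  (Fc p (hh N (fun i => aB (ep p d) i + wv (ep p d) N y i)) 3).re / ep p d ^ 5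

/-- the extended unknown -/
private def F2_Y (N : ℕ) (y : ℕ → ℝ) (i : ℕ) : ℝ :=
  if i = 3 then 1 else if Odd i ∧ i ≤ N then y i else 0

private lemma F2_wv (ε : ℝ) (N : ℕ) (y : ℕ → ℝ) (i : ℕ) :
    wv ε N y i = ε ^ 3 * (om ε i * F2_Y N y i) := by
  unfold wv F2_Y
  by_cases h3 : i = 3
  · simp [h3, om]
  · rw [if_neg h3, if_neg h3]
    split_ifs <;> ring

private lemma F2_sumDD (N : ℕ) (ε p : ℝ) (w : ℕ → ℝ) {K : ℕ} (hK : 1 ≤ K) (hKN : K ≤ N) :
    ∑ n ∈ Finset.Icc 1 N, (w n : ℂ) * DD N (rr (aB ε)) p K n =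
      ∑ n ∈ Finset.Icc 1 N, (w n : ℂ) * BD N ε p K n + (w K : ℂ) * (Cn p K : ℂ) := by
  have h : ∀ n ∈ Finset.Icc 1 N, (w n : ℂ) * DD N (rr (aB ε)) p K n =
      (w n : ℂ) * BD N ε p K n + (if K = n then (w n : ℂ) * (Cn p K : ℂ) else 0) := by
    intro n _
    unfold BD
    split_ifs <;> ring
  rw [Finset.sum_congr rfl h, Finset.sum_add_distrib, Finset.sum_ite_eq,
    if_pos (Finset.mem_Icc.2 ⟨hK, hKN⟩)]

private lemma F2_om_nonneg (ε : ℝ) (i : ℕ) : 0 ≤ om ε i := by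
  unfold om
  split_ifs
  · exact Real.sqrt_nonneg _
  · norm_num

private lemma F2_om_le {ε : ℝ} (h1 : ε ≤ 1) (i : ℕ) : om ε i ≤ 1 := by
  unfold om
  split_ifs
  · exact Real.sqrt_le_one.2 h1
  · exact le_rfl

/-- bound of the off-diagonal part, `K ≥ 3` -/
private lemma F2_high {N : ℕ} {ε p C : ℝ} (hε : 0 < ε) (hC : 0 ≤ C) {K : ℕ}
    (h5 : ∀ n : ℕ, Odd n → 5 ≤ n →
        ‖BD N ε p K n‖ ≤ C * ε * |Cn p K| * Real.exp (-|(K : ℝ) - n| / 80))
    (h13 : ∀ n : ℕ, (n = 1 ∨ n = 3) →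
        ‖BD N ε p K n‖ ≤ C * |Cn p K| * Real.exp (-(K : ℝ) / 80))
    (u : ℕ → ℝ) (hu : ∀ n, ¬ Odd n → u n = 0) :
    ‖∑ n ∈ Finset.Icc 1 N, ((ε ^ 3 * (om ε n * u n) : ℝ) : ℂ) * BD N ε p K n‖ ≤
      ε ^ 3 * |Cn p K| * (C * ((Real.sqrt ε * |u 1| + |u 3|) * Real.exp (-(K : ℝ) / 80) +
        ε * ∑ n ∈ Finset.Icc 1 N, |u n| * Real.exp (-|(K : ℝ) - n| / 80))) := by
  have hpt : ∀ n ∈ Finset.Icc 1 N, ‖((ε ^ 3 * (om ε n * u n) : ℝ) : ℂ) * BD N ε p K n‖ ≤
      ε ^ 3 * |Cn p K| * (C * ((if n = 1 then Real.sqrt ε * |u 1| * Real.exp (-(K : ℝ) / 80) else 0) +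
        (if n = 3 then |u 3| * Real.exp (-(K : ℝ) / 80) else 0) +
        ε * (|u n| * Real.exp (-|(K : ℝ) - n| / 80)))) := by
    intro n _
    rw [norm_mul, Complex.norm_real, Real.norm_eq_abs, abs_mul, abs_mul,
      abs_of_pos (pow_pos hε 3), abs_of_nonneg (F2_om_nonneg ε n)]
    have hCn : 0 ≤ |Cn p K| := abs_nonneg _
    have hpos : 0 ≤ ε * (|u n| * Real.exp (-|(K : ℝ) - n| / 80)) := by positivity
    by_cases hodd : Odd n
    · by_cases n1 : n = 1
      · subst n1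
        have h := h13 1 (Or.inl rfl)
        rw [if_pos rfl, if_neg (by norm_num)]
        have e : om ε 1 = Real.sqrt ε := by simp [om]
        rw [e]
        calc ε ^ 3 * (Real.sqrt ε * |u 1|) * ‖BD N ε p K 1‖ ≤
            ε ^ 3 * (Real.sqrt ε * |u 1|) * (C * |Cn p K| * Real.exp (-(K : ℝ) / 80)) :=
              mul_le_mul_of_nonneg_left h (by positivity)
          _ = ε ^ 3 * |Cn p K| * (C * (Real.sqrt ε * |u 1| * Real.exp (-(K : ℝ) / 80))) := by ring
          _ ≤ _ := by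
              apply mul_le_mul_of_nonneg_left _ (by positivity)
              apply mul_le_mul_of_nonneg_left _ hC
              linarith
      · by_cases n3 : n = 3
        · subst n3
          have h := h13 3 (Or.inr rfl)
          rw [if_neg (by norm_num), if_pos rfl]
          have e : om ε 3 = 1 := by simp [om]
          rw [e, one_mul]
          calc ε ^ 3 * |u 3| * ‖BD N ε p K 3‖ ≤
              ε ^ 3 * |u 3| * (C * |Cn p K| * Real.exp (-(K : ℝ) / 80)) :=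
                mul_le_mul_of_nonneg_left h (by positivity)
            _ = ε ^ 3 * |Cn p K| * (C * (|u 3| * Real.exp (-(K : ℝ) / 80))) := by ring
            _ ≤ _ := by
                apply mul_le_mul_of_nonneg_left _ (by positivity)
                apply mul_le_mul_of_nonneg_left _ hC
                linarith
        · have hn5 : 5 ≤ n := by
            obtain ⟨k, hk⟩ := hodd
            omega
          have h := h5 n hodd hn5
          rw [if_neg n1, if_neg n3]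
          have e : om ε n = 1 := by simp [om, n1]
          rw [e, one_mul]
          calc ε ^ 3 * |u n| * ‖BD N ε p K n‖ ≤
              ε ^ 3 * |u n| * (C * ε * |Cn p K| * Real.exp (-|(K : ℝ) - n| / 80)) :=
                mul_le_mul_of_nonneg_left h (by positivity)
            _ = _ := by ring
    · have h1 : n ≠ 1 := by
        rintro rfl; exact hodd (by decide)
      have h3 : n ≠ 3 := by
        rintro rfl; exact hodd (by decide)
      rw [if_neg h1, if_neg h3, hu n hodd]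
      simp
  refine (norm_sum_le _ _).trans ((Finset.sum_le_sum hpt).trans ?_)
  rw [← Finset.mul_sum, ← Finset.mul_sum, Finset.sum_add_distrib, Finset.sum_add_distrib,
    ← Finset.mul_sum]
  apply mul_le_mul_of_nonneg_left _ (by positivity)
  apply mul_le_mul_of_nonneg_left _ hC
  have s1 : ∑ n ∈ Finset.Icc 1 N, (if n = 1 then Real.sqrt ε * |u 1| * Real.exp (-(K : ℝ) / 80) else 0) ≤
      Real.sqrt ε * |u 1| * Real.exp (-(K : ℝ) / 80) := by
    rw [Finset.sum_ite_eq']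
    split_ifs
    · exact le_rfl
    · positivity
  have s3 : ∑ n ∈ Finset.Icc 1 N, (if n = 3 then |u 3| * Real.exp (-(K : ℝ) / 80) else 0) ≤
      |u 3| * Real.exp (-(K : ℝ) / 80) := by
    rw [Finset.sum_ite_eq']
    split_ifs
    · exact le_rfl
    · positivity
  linarith

/-- bound of the off-diagonal part, `K = 1` -/
private lemma F2_one {N : ℕ} {ε p C : ℝ} (hε : 0 < ε) (hε1 : ε ≤ 1)
    (h1 : ∀ n : ℕ, Odd n → ‖BD N ε p 1 n‖ ≤ C * ε * Real.exp (-(n : ℝ) / 80))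
    (u : ℕ → ℝ) (hu : ∀ n, ¬ Odd n → u n = 0) :
    ‖∑ n ∈ Finset.Icc 1 N, ((ε ^ 3 * (om ε n * u n) : ℝ) : ℂ) * BD N ε p 1 n‖ ≤
      ε ^ 3 * (C * (ε * ∑ n ∈ Finset.Icc 1 N, |u n| * Real.exp (-(n : ℝ) / 80))) := by
  have hpt : ∀ n ∈ Finset.Icc 1 N, ‖((ε ^ 3 * (om ε n * u n) : ℝ) : ℂ) * BD N ε p 1 n‖ ≤
      ε ^ 3 * (C * (ε * (|u n| * Real.exp (-(n : ℝ) / 80)))) := by
    intro n _
    rw [norm_mul, Complex.norm_real, Real.norm_eq_abs, abs_mul, abs_mul,
      abs_of_pos (pow_pos hε 3), abs_of_nonneg (F2_om_nonneg ε n)]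
    by_cases hodd : Odd n
    · have h := h1 n hodd
      calc ε ^ 3 * (om ε n * |u n|) * ‖BD N ε p 1 n‖ ≤
          ε ^ 3 * (1 * |u n|) * (C * ε * Real.exp (-(n : ℝ) / 80)) := by
            apply mul_le_mul _ h (norm_nonneg _) (by positivity)
            apply mul_le_mul_of_nonneg_left _ (by positivity)
            exact mul_le_mul_of_nonneg_right (F2_om_le hε1 n) (abs_nonneg _)
        _ = _ := by ring
    · rw [hu n hodd]
      simp
  refine (norm_sum_le _ _).trans ((Finset.sum_le_sum hpt).trans ?_)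
  rw [← Finset.mul_sum, ← Finset.mul_sum, ← Finset.mul_sum]

/-- comparison of one component -/
private lemma F2_comp {N : ℕ} {ε p Err : ℝ} (hε : 0 < ε) {K : ℕ} (hK : 1 ≤ K) (hKN : K ≤ N)
    (hC : Cn p K ≠ 0) (u : ℕ → ℝ) (Φ : ℂ)
    (h : ‖Φ - ∑ n ∈ Finset.Icc 1 N, ((ε ^ 3 * (om ε n * u n) : ℝ) : ℂ) *
      DD N (rr (aB ε)) p K n‖ ≤ Err) :
    |u K - Φ.re / (ε ^ 3 * Cn p K * om ε K)| ≤
      (Err + ‖∑ n ∈ Finset.Icc 1 N, ((ε ^ 3 * (om ε n * u n) : ℝ) : ℂ) * BD N ε p K n‖) /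
        (ε ^ 3 * |Cn p K| * om ε K) := by
  have hom : 0 < om ε K := by
    unfold om
    split_ifs
    · exact Real.sqrt_pos.2 hε
    · norm_num
  have hCp : 0 < |Cn p K| := abs_pos.2 hC
  have hE : 0 < ε ^ 3 * |Cn p K| * om ε K := by positivity
  rw [le_div_iff₀ hE]
  have hE' : ε ^ 3 * |Cn p K| * om ε K = |ε ^ 3 * Cn p K * om ε K| := by
    rw [abs_mul, abs_mul, abs_of_pos hom, abs_of_pos (pow_pos hε 3)]
  have hne : ε ^ 3 * Cn p K * om ε K ≠ 0 := by
    rw [← abs_pos, ← hE']; exact hE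
  rw [hE', ← abs_mul]
  have e1 : (u K - Φ.re / (ε ^ 3 * Cn p K * om ε K)) * (ε ^ 3 * Cn p K * om ε K) =
      -((Φ - ((ε ^ 3 * (om ε K * u K) : ℝ) : ℂ) * (Cn p K : ℂ)).re) := by
    rw [sub_mul, div_mul_cancel₀ _ hne, Complex.sub_re, ← Complex.ofReal_mul, Complex.ofReal_re]
    ring
  rw [e1, abs_neg]
  refine (Complex.abs_re_le_norm _).trans ?_
  rw [F2_sumDD N ε p (fun n => ε ^ 3 * (om ε n * u n)) hK hKN] at h
  set S := ∑ n ∈ Finset.Icc 1 N, ((ε ^ 3 * (om ε n * u n) : ℝ) : ℂ) * BD N ε p K n with hS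
  have e2 : Φ - ((ε ^ 3 * (om ε K * u K) : ℝ) : ℂ) * (Cn p K : ℂ) =
      (Φ - (S + ((ε ^ 3 * (om ε K * u K) : ℝ) : ℂ) * (Cn p K : ℂ))) + S := by ring
  rw [e2]
  exact (norm_add_le _ _).trans (by linarith)

private lemma F2_exp12 (K : ℕ) (hK : 1 ≤ K) :
    Real.exp (-(K : ℝ) / 80) ≤ ((Nat.factorial 12 : ℝ) * 80 ^ 12) / (K : ℝ) ^ 12 := by
  have hK' : (0 : ℝ) < K := by exact_mod_cast hK
  have h := Real.pow_div_factorial_le_exp ((K : ℝ) / 80) (by positivity) 12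
  have hf : (0 : ℝ) < (Nat.factorial 12 : ℝ) := by exact_mod_cast Nat.factorial_pos 12
  rw [le_div_iff₀ (by positivity)]
  have h1 : (K : ℝ) ^ 12 ≤ (Nat.factorial 12 : ℝ) * 80 ^ 12 * Real.exp ((K : ℝ) / 80) := by
    rw [div_le_iff₀ hf, div_pow, div_le_iff₀ (by positivity)] at h
    linarith
  have h2 : Real.exp (-(K : ℝ) / 80) * Real.exp ((K : ℝ) / 80) = 1 := by
    rw [← Real.exp_add, ← Real.exp_zero]
    congr 1
    ring
  calc Real.exp (-(K : ℝ) / 80) * (K : ℝ) ^ 12 ≤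
      Real.exp (-(K : ℝ) / 80) * ((Nat.factorial 12 : ℝ) * 80 ^ 12 * Real.exp ((K : ℝ) / 80)) :=
        mul_le_mul_of_nonneg_left h1 (Real.exp_pos _).le
    _ = (Nat.factorial 12 : ℝ) * 80 ^ 12 * (Real.exp (-(K : ℝ) / 80) * Real.exp ((K : ℝ) / 80)) := by
        ring
    _ = _ := by rw [h2, mul_one]

private lemma F2_Y_even (N : ℕ) (y : ℕ → ℝ) (n : ℕ) (hn : ¬ Odd n) : F2_Y N y n = 0 := by
  unfold F2_Y
  have h3 : n ≠ 3 := by
    rintro rfl; exact hn (by decide)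
  rw [if_neg h3, if_neg (fun h => hn h.1)]

private lemma F2_Y_le {N : ℕ} {y : ℕ → ℝ} {A : ℝ} (hA : (3 : ℝ) ^ 12 ≤ A)
    (hy : ∀ i, 1 ≤ i → |y i| ≤ A / (i : ℝ) ^ 12) (i : ℕ) (hi : 1 ≤ i) :
    |F2_Y N y i| ≤ A / (i : ℝ) ^ 12 := by
  have hA0 : 0 ≤ A := le_trans (by positivity) hA
  unfold F2_Y
  split_ifs with h3 h
  · subst h3
    rw [abs_one, le_div_iff₀ (by positivity)]
    push_cast
    linarith
  · exact hy i hi
  · rw [abs_zero]; positivity

private lemma F2_HW {A ε : ℝ} {N : ℕ} {y : ℕ → ℝ} (hN : 3 ≤ N) (hε : 0 < ε) (hε1 : ε ≤ 1)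
    (hA : (3 : ℝ) ^ 12 ≤ A) (hy : ∀ i, 1 ≤ i → |y i| ≤ A / (i : ℝ) ^ 12) :
    HW A ε N (wv ε N y) where
  supp := by
    intro i hi
    by_contra hc
    apply hi
    unfold wv
    have h3 : i ≠ 3 := by
      rintro rfl
      exact hc ⟨by decide, hN⟩
    rw [if_neg h3, if_neg hc]
  size := by
    intro i hi
    rw [F2_wv, abs_mul, abs_mul, abs_of_pos (pow_pos hε 3), abs_of_nonneg (F2_om_nonneg ε i)]
    have h := F2_Y_le (N := N) hA hy i hi
    calc ε ^ 3 * (om ε i * |F2_Y N y i|) ≤ ε ^ 3 * (1 * (A / (i : ℝ) ^ 12)) := by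
          apply mul_le_mul_of_nonneg_left _ (by positivity)
          exact mul_le_mul (F2_om_le hε1 i) h (abs_nonneg _) zero_le_one
      _ = _ := by ring

private lemma F2_fin {c e X Y Err Sn : ℝ} (hc : 0 < c) (h1 : Err ≤ c * e) (h2 : Sn ≤ c * X)
    (h3 : e + X ≤ Y) : (Err + Sn) / c ≤ Y := by
  rw [div_le_iff₀ hc]
  calc Err + Sn ≤ c * (e + X) := by linarith
    _ ≤ c * Y := mul_le_mul_of_nonneg_left h3 hc.le
    _ = Y * c := mul_comm _ _

private lemma F2_C3 {p d ε : ℝ} (hp1 : 1.9 < p) (hp2 : p < 2) (hd1 : 143 ≤ d) (hd2 : d ≤ 145)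
    (hε : 0 < ε) (hs : 21025 * ε ≤ 1 / 10000) (he : d * ε ^ 2 = 2 - p) :
    |Cn p 3| ≤ 20 * ε ^ 2 ∧ |Cn p 3 / ε ^ 2 + Real.pi * d / 24| ≤ 1 / 100 := by
  have h := Cn_5d hp1 hp2
  rw [← he] at h
  have hpi := Real.pi_lt_d2
  have hpi0 := Real.pi_pos
  have hd0 : 0 < d := by linarith
  have hε2 : 0 < ε ^ 2 := by positivity
  have hdd : d ^ 2 ≤ 21025 := by nlinarith
  have h1 : (d * ε ^ 2) ^ 2 ≤ ε ^ 2 * (1 / 100) := by
    have : (d * ε ^ 2) ^ 2 = ε ^ 2 * (d ^ 2 * ε * ε) := by ring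
    rw [this]
    apply mul_le_mul_of_nonneg_left _ hε2.le
    have a1 : d ^ 2 * ε ≤ 1 / 10000 := (mul_le_mul_of_nonneg_right hdd hε.le).trans hs
    have a2 : ε ≤ 1 := by linarith
    have a3 : 0 ≤ d ^ 2 * ε := by positivity
    nlinarith
  constructor
  · have h2 : |Real.pi * (d * ε ^ 2) / 24| ≤ 19.1 * ε ^ 2 := by
      rw [abs_of_nonneg (by positivity)]
      have : Real.pi * d ≤ 3.15 * 145 := mul_le_mul hpi.le hd2 hd0.le (by norm_num)
      nlinarith
    have h3 : Cn p 3 = (Cn p 3 + Real.pi * (d * ε ^ 2) / 24) - Real.pi * (d * ε ^ 2) / 24 := by ring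
    rw [h3]
    refine (abs_sub _ _).trans ?_
    linarith
  · have h3 : Cn p 3 / ε ^ 2 + Real.pi * d / 24 = (Cn p 3 + Real.pi * (d * ε ^ 2) / 24) / ε ^ 2 := by
      field_simp
    rw [h3, abs_div, abs_of_pos hε2, div_le_iff₀ hε2]
    linarith

theorem TG_est : ∃ A : ℝ, 1 ≤ A ∧ ∃ δ0 : ℝ, 0 < δ0 ∧ δ0 ≤ 1 / 100 ∧ ∀ p : ℝ, 2 - δ0 < p → p < 2 →
    ∀ d : ℝ, 143 ≤ d → d ≤ 145 → ∀ N : ℕ, 3 ≤ N →
      0 < ep p d ∧ ep p d ≤ 1 / 100000 ∧ A * ep p d ≤ 1 ∧
      (∀ y : ℕ → ℝ, (∀ i, 1 ≤ i → |y i| ≤ A / (i : ℝ) ^ 12) →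
        HW A (ep p d) N (wv (ep p d) N y) ∧
        (∀ K : ℕ, Odd K → K ≠ 3 → K ≤ N → |TK p d N y K| ≤ A / (K : ℝ) ^ 12) ∧
        (d = 143 → 0 < GG p d N y) ∧ (d = 145 → GG p d N y < 0)) ∧
      (∀ y y' : ℕ → ℝ, (∀ i, 1 ≤ i → |y i| ≤ A / (i : ℝ) ^ 12) →
        (∀ i, 1 ≤ i → |y' i| ≤ A / (i : ℝ) ^ 12) → ∀ z : ℝ, 0 ≤ z → (∀ i, |y i - y' i| ≤ z) →
        ∀ K : ℕ, Odd K → K ≠ 3 → K ≤ N → |TK p d N y K - TK p d N y' K| ≤ z / 2) := by
  obtain ⟨B, hB1, ε0, hε0, hBD⟩ := base_DD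
  obtain ⟨F, hF1, hF⟩ := Fc_exp
  obtain ⟨L, hL1, hL⟩ := Fc_lip
  obtain ⟨S, hS1, hS⟩ := sum_c
  obtain ⟨H, hH1, hH⟩ := sum_exp_abs
  obtain ⟨M, hMdef⟩ : ∃ M : ℝ, M = (Nat.factorial 12 : ℝ) * 80 ^ 12 := ⟨_, rfl⟩
  have hM1 : 1 ≤ M := by
    rw [hMdef]
    have h1 : (1 : ℝ) ≤ (Nat.factorial 12 : ℝ) := by exact_mod_cast Nat.factorial_pos 12
    exact one_le_mul_of_one_le_of_one_le h1 (by norm_num)
  have hM0 : 0 < M := by linarith
  have hB0 : 0 < B := by linarith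
  have hF0 : 0 < F := by linarith
  have hL0 : 0 < L := by linarith
  have hS0 : 0 < S := by linarith
  have hH0 : 0 < H := by linarith
  obtain ⟨A, hAdef⟩ : ∃ A : ℝ, A = 3 ^ 12 + 4 * (B * M) := ⟨_, rfl⟩
  have hA3 : (3 : ℝ) ^ 12 ≤ A := by
    rw [hAdef]
    have : 0 < B * M := by positivity
    linarith
  have hA1 : 1 ≤ A := le_trans (by norm_num) hA3
  have hA0 : 0 < A := by linarith
  have hBM : B * M ≤ A / 4 := by
    rw [hAdef]
    have : (0 : ℝ) < 3 ^ 12 := by norm_num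
    linarith
  obtain ⟨D, hDdef⟩ : ∃ D : ℝ, D = 10000 * (A * B * M + A * B * S + F * A ^ 2 + A * B * H + L * A +
    B * H + 21025) := ⟨_, rfl⟩
  have q1 : 0 < A * B * M := by positivity
  have q2 : 0 < A * B * S := by positivity
  have q3 : 0 < F * A ^ 2 := by positivity
  have q4 : 0 < A * B * H := by positivity
  have q5 : 0 < L * A := by positivity
  have q6 : 0 < B * H := by positivity
  have hD1 : 1 ≤ D := by rw [hDdef]; linarith
  have hD0 : 0 < D := by linarith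
  have hm : 0 < min ε0 (1 / D ^ 2) := lt_min hε0 (by positivity)
  refine ⟨A, hA1, min (1 / 100) ((min ε0 (1 / D ^ 2)) ^ 2), lt_min (by norm_num) (by positivity),
    min_le_left _ _, ?_⟩
  intro p hp1 hp2 d hd1 hd2 N hN
  have hd0 : 0 < d := by linarith
  have hp19 : 1.9 < p := by
    have := min_le_left (1 / 100 : ℝ) ((min ε0 (1 / D ^ 2)) ^ 2)
    have h19 : (1.9 : ℝ) = 19 / 10 := by norm_num
    rw [h19]
    linarith
  obtain ⟨ε, hεdef⟩ : ∃ ε : ℝ, ε = ep p d := ⟨_, rfl⟩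
  rw [← hεdef]
  have hq : 0 < (2 - p) / d := div_pos (by linarith) hd0
  have hε : 0 < ε := by
    rw [hεdef]; exact Real.sqrt_pos.2 hq
  have hsq : ε ^ 2 = (2 - p) / d := by
    rw [hεdef]; exact Real.sq_sqrt hq.le
  have hdε : d * ε ^ 2 = 2 - p := by
    rw [hsq]; field_simp
  have hεm : ε ≤ min ε0 (1 / D ^ 2) := by
    have h1 : ε ^ 2 ≤ (min ε0 (1 / D ^ 2)) ^ 2 := by
      have h2 := min_le_right (1 / 100 : ℝ) ((min ε0 (1 / D ^ 2)) ^ 2)
      have h3 : 2 - p ≤ (min ε0 (1 / D ^ 2)) ^ 2 := by linarith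
      have h4 : ε ^ 2 ≤ d * ε ^ 2 := le_mul_of_one_le_left (by positivity) (by linarith)
      linarith
    exact (pow_le_pow_iff_left₀ hε.le hm.le two_ne_zero).1 h1
  have hεε0 : ε ≤ ε0 := hεm.trans (min_le_left _ _)
  have hεD : ε ≤ 1 / D ^ 2 := hεm.trans (min_le_right _ _)
  obtain ⟨s, hsdef⟩ : ∃ s : ℝ, s = Real.sqrt ε := ⟨_, rfl⟩
  have hs0 : 0 < s := by rw [hsdef]; exact Real.sqrt_pos.2 hε
  have hss : s * s = ε := by rw [hsdef]; exact Real.mul_self_sqrt hε.le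
  have hsD : s * D ≤ 1 := by
    have h1 : (s * D) ^ 2 ≤ 1 ^ 2 := by
      have : (s * D) ^ 2 = (s * s) * D ^ 2 := by ring
      rw [this, hss]
      rw [le_div_iff₀ (by positivity)] at hεD
      linarith
    exact (pow_le_pow_iff_left₀ (by positivity) zero_le_one two_ne_zero).1 h1
  have hsD' : s * (A * B * M) + s * (A * B * S) + s * (F * A ^ 2) + s * (A * B * H) + s * (L * A) +
      s * (B * H) + s * 21025 ≤ 1 / 10000 := by
    rw [hDdef] at hsD
    linarith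
  have r1 : 0 < s * (A * B * M) := by positivity
  have r2 : 0 < s * (A * B * S) := by positivity
  have r3 : 0 < s * (F * A ^ 2) := by positivity
  have r4 : 0 < s * (A * B * H) := by positivity
  have r5 : 0 < s * (L * A) := by positivity
  have r6 : 0 < s * (B * H) := by positivity
  have r7 : 0 < s * 21025 := by positivity
  have hs1 : s ≤ 1 := by linarith
  have hεs : ε ≤ s := by
    rw [← hss]; exact mul_le_of_le_one_left hs0.le hs1
  have hε1 : ε ≤ 1 := hεs.trans hs1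
  have hε5 : ε ≤ 1 / 100000 := by
    linarith
  have hBM1 : 1 ≤ B * M := one_le_mul_of_one_le_of_one_le hB1 hM1
  have hAε : A * ε ≤ 1 := by
    have h1 : A ≤ A * B * M := by
      rw [mul_assoc]; exact le_mul_of_one_le_right hA0.le hBM1
    have h2 : A * ε ≤ (A * B * M) * s := mul_le_mul h1 hεs hε.le (by positivity)
    linarith
  have hlo : 143 * ε ^ 2 ≤ 2 - p := by
    rw [← hdε]; exact mul_le_mul_of_nonneg_right hd1 (by positivity)
  have hhi : 2 - p ≤ 145 * ε ^ 2 := by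
    rw [← hdε]; exact mul_le_mul_of_nonneg_right hd2 (by positivity)
  obtain ⟨b1, b5, b13, b33⟩ := hBD ε hε hεε0 p hlo hhi N (by omega)
  have hom1 : om ε 1 = s := by rw [hsdef]; simp [om]
  have hom5 : ∀ K : ℕ, K ≠ 1 → om ε K = 1 := fun K hK => by simp [om, hK]
  -- general estimate for high modes
  have hhigh : ∀ (u : ℕ → ℝ), (∀ n, ¬ Odd n → u n = 0) → ∀ K : ℕ, Odd K → 3 ≤ K →
      ‖∑ n ∈ Finset.Icc 1 N, ((ε ^ 3 * (om ε n * u n) : ℝ) : ℂ) * BD N ε p K n‖ ≤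
      ε ^ 3 * |Cn p K| * (B * ((s * |u 1| + |u 3|) * Real.exp (-(K : ℝ) / 80) +
        ε * ∑ n ∈ Finset.Icc 1 N, |u n| * Real.exp (-|(K : ℝ) - n| / 80))) := by
    intro u hu K hKo hK3
    have := F2_high (N := N) (p := p) hε hB0.le (K := K) (fun n hn hn5 => b5 K n hKo hK3 hn hn5)
      (fun n hn => b13 K n hKo hK3 hn) u hu
    rw [← hsdef] at this
    exact this
  have hsumA : ∀ (u : ℕ → ℝ), (∀ i, 1 ≤ i → |u i| ≤ A / (i : ℝ) ^ 12) → ∀ K : ℕ, 1 ≤ K →
      ∑ n ∈ Finset.Icc 1 N, |u n| * Real.exp (-|(K : ℝ) - n| / 80) ≤ A * (S / (K : ℝ) ^ 12) := by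
    intro u hu K hK
    refine le_trans ?_ (mul_le_mul_of_nonneg_left (hS K N hK) hA0.le)
    rw [Finset.mul_sum]
    apply Finset.sum_le_sum
    intro n hn
    have := hu n (Finset.mem_Icc.1 hn).1
    calc |u n| * Real.exp (-|(K : ℝ) - n| / 80) ≤ A / (n : ℝ) ^ 12 * Real.exp (-|(K : ℝ) - n| / 80) :=
          mul_le_mul_of_nonneg_right this (Real.exp_pos _).le
      _ = _ := by ring
  have hsumz : ∀ (u : ℕ → ℝ) (z : ℝ), 0 ≤ z → (∀ i, |u i| ≤ z) → ∀ K : ℕ,
      ∑ n ∈ Finset.Icc 1 N, |u n| * Real.exp (-|(K : ℝ) - n| / 80) ≤ z * (H * 80) := by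
    intro u z hz hu K
    refine le_trans ?_ (mul_le_mul_of_nonneg_left (hH 80 (by norm_num) K N) hz)
    rw [Finset.mul_sum]
    apply Finset.sum_le_sum
    intro n _
    exact mul_le_mul_of_nonneg_right (hu n) (Real.exp_pos _).le
  have hsum1 : ∀ (u : ℕ → ℝ) (z : ℝ), 0 ≤ z → (∀ i, 1 ≤ i → |u i| ≤ z) →
      ∑ n ∈ Finset.Icc 1 N, |u n| * Real.exp (-(n : ℝ) / 80) ≤ z * (H * 80) := by
    intro u z hz hu
    have h0 := hH 80 (by norm_num) 0 N
    refine le_trans ?_ (mul_le_mul_of_nonneg_left h0 hz)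
    rw [Finset.mul_sum]
    apply Finset.sum_le_sum
    intro n hn
    have e : |(0 : ℝ) - n| = n := by
      rw [zero_sub, abs_neg, abs_of_nonneg (Nat.cast_nonneg n)]
    rw [e]
    exact mul_le_mul_of_nonneg_right (hu n (Finset.mem_Icc.1 hn).1) (Real.exp_pos _).le
  refine ⟨hε, hε5, hAε, ?_, ?_⟩
  · intro y hy
    have hHW := F2_HW hN hε hε1 hA3 hy
    have hYle := fun i hi => F2_Y_le (N := N) hA3 hy i hi
    have hYev := F2_Y_even N y
    have hYA : ∀ i, 1 ≤ i → |F2_Y N y i| ≤ A := by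
      intro i hi
      refine (hYle i hi).trans (div_le_self hA0.le ?_)
      exact one_le_pow₀ (by exact_mod_cast hi)
    have hY3 : F2_Y N y 3 = 1 := by simp [F2_Y]
    have hFK := fun K hKo => hF A ε hA1 hε hε5 hAε p hlo hhi N (by omega) _ hHW K hKo
    simp only [F2_wv] at hFK
    refine ⟨hHW, ?_, ?_⟩
    · intro K hKo hK3 hKN
      have hK1 : 1 ≤ K := hKo.pos
      have hCne : Cn p K ≠ 0 := Cn_ne_zero hp19 hp2 (by exact_mod_cast hK1)
      have hCp : 0 < |Cn p K| := abs_pos.2 hCne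
      have hcomp := F2_comp (N := N) hε hK1 hKN hCne (F2_Y N y) _ (hFK K hKo)
      have hTK : TK p d N y K = F2_Y N y K -
          (Fc p (hh N (fun i => aB ε i + ε ^ 3 * (om ε i * F2_Y N y i))) K).re /
          (ε ^ 3 * Cn p K * om ε K) := by
        unfold TK
        rw [← hεdef]
        simp only [F2_wv]
        have : F2_Y N y K = y K := by
          unfold F2_Y
          rw [if_neg hK3, if_pos ⟨hKo, hKN⟩]
        rw [this]
      rw [hTK]
      refine hcomp.trans ?_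
      by_cases hKone : K = 1
      · subst hKone
        have hC1 : 1 ≤ |Cn p ((1 : ℕ) : ℤ)| := by
          have := Cn_one_abs hp19 hp2
          push_cast
          linarith
        rw [hom1]
        apply F2_fin (c := ε ^ 3 * |Cn p ((1 : ℕ) : ℤ)| * s) (e := F * A ^ 2 * s)
          (X := s * (B * (A * (H * 80)))) (by positivity)
        · push_cast
          rw [one_pow, div_one, ← hss]
          apply le_of_eq
          ring
        · refine (F2_one hε hε1 b1 (F2_Y N y) hYev).trans ?_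
          have h1 := hsum1 (F2_Y N y) A hA0.le hYA
          calc ε ^ 3 * (B * (ε * ∑ n ∈ Finset.Icc 1 N, |F2_Y N y n| * Real.exp (-(n : ℝ) / 80)))
              ≤ ε ^ 3 * (B * (ε * (A * (H * 80)))) := by gcongr
            _ = ε ^ 3 * 1 * s * (s * (B * (A * (H * 80)))) := by rw [← hss]; ring
            _ ≤ ε ^ 3 * |Cn p ((1 : ℕ) : ℤ)| * s * (s * (B * (A * (H * 80)))) := by gcongr
        · push_cast
          rw [one_pow, div_one]
          have e1 : F * A ^ 2 * s = s * (F * A ^ 2) := by ring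
          have e2 : s * (B * (A * (H * 80))) = 80 * (s * (A * B * H)) := by ring
          rw [e1, e2]
          linarith
      · have hK5 : 5 ≤ K := by
          obtain ⟨k, hk⟩ := hKo
          omega
        rw [hom5 K hKone, mul_one]
        have hK12 : (0 : ℝ) < (K : ℝ) ^ 12 := by
          have : (0 : ℝ) < K := by exact_mod_cast hK1
          positivity
        apply F2_fin (c := ε ^ 3 * |Cn p K|) (e := F * A ^ 2 * ε / (K : ℝ) ^ 12)
          (X := (B * ((s * A + 1) * (M / (K : ℝ) ^ 12) + ε * (A * (S / (K : ℝ) ^ 12)))))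
          (by positivity)
        · apply le_of_eq
          ring
        · refine (hhigh (F2_Y N y) hYev K hKo (by omega)).trans ?_
          have h1 := hsumA (F2_Y N y) hYle K hK1
          have h2 := F2_exp12 K hK1
          rw [← hMdef] at h2
          have h3 := hYA 1 le_rfl
          rw [hY3, abs_one]
          gcongr
        · have e1 : F * A ^ 2 * ε / (K : ℝ) ^ 12 +
              (B * ((s * A + 1) * (M / (K : ℝ) ^ 12) + ε * (A * (S / (K : ℝ) ^ 12)))) =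
              (ε * (F * A ^ 2) + s * (A * B * M) + B * M + ε * (A * B * S)) / (K : ℝ) ^ 12 := by
            field_simp
            ring
          rw [e1]
          apply div_le_div_of_nonneg_right _ hK12.le
          have h1 : ε * (F * A ^ 2) ≤ s * (F * A ^ 2) := mul_le_mul_of_nonneg_right hεs q3.le
          have h2 : ε * (A * B * S) ≤ s * (A * B * S) := mul_le_mul_of_nonneg_right hεs q2.le
          linarith
    · -- the function `G`
      obtain ⟨hc3, hc3'⟩ := F2_C3 (ε := ε) hp19 hp2 hd1 hd2 hε (by linarith) hdε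
      have hF3 := hFK 3 (by decide)
      rw [F2_sumDD N ε p (fun n => ε ^ 3 * (om ε n * F2_Y N y n)) (by norm_num) hN] at hF3
      have hom3 : om ε 3 = 1 := hom5 3 (by norm_num)
      obtain ⟨u, hu⟩ : ∃ u : ℕ → ℝ, u = fun n => if n = 3 then 0 else F2_Y N y n := ⟨_, rfl⟩
      have hu3 : u 3 = 0 := by rw [hu]; simp
      have hule : ∀ i, |u i| ≤ |F2_Y N y i| := by
        intro i
        rw [hu]
        simp only
        split_ifs
        · rw [abs_zero]; exact abs_nonneg _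
        · exact le_rfl
      have hsplit : ∑ n ∈ Finset.Icc 1 N, ((ε ^ 3 * (om ε n * F2_Y N y n) : ℝ) : ℂ) * BD N ε p 3 n =
          ∑ n ∈ Finset.Icc 1 N, ((ε ^ 3 * (om ε n * u n) : ℝ) : ℂ) * BD N ε p 3 n +
            ((ε ^ 3 : ℝ) : ℂ) * BD N ε p 3 3 := by
        have h : ∀ n ∈ Finset.Icc 1 N, ((ε ^ 3 * (om ε n * F2_Y N y n) : ℝ) : ℂ) * BD N ε p 3 n =
            ((ε ^ 3 * (om ε n * u n) : ℝ) : ℂ) * BD N ε p 3 n +
              (if 3 = n then ((ε ^ 3 : ℝ) : ℂ) * BD N ε p 3 n else 0) := by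
          intro n _
          rw [hu]
          by_cases h3 : n = 3
          · subst h3
            simp [hom3, hY3]
          · have h3' : ¬ 3 = n := fun h => h3 h.symm
            simp [h3, h3']
        rw [Finset.sum_congr rfl h, Finset.sum_add_distrib, Finset.sum_ite_eq,
          if_pos (Finset.mem_Icc.2 ⟨by norm_num, hN⟩)]
      rw [hsplit, hom3, hY3, one_mul, mul_one] at hF3
      have huev : ∀ n, ¬ Odd n → u n = 0 := by
        intro n hn
        rw [hu]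
        simp only
        rw [hYev n hn]
        simp
      have huA : ∀ i, 1 ≤ i → |u i| ≤ A / (i : ℝ) ^ 12 := fun i hi => (hule i).trans (hYle i hi)
      have hSu := hhigh u huev 3 (by decide) le_rfl
      have h1 := hsumA u huA 3 (by norm_num)
      have hu1 : |u 1| ≤ A := (hule 1).trans (hYA 1 le_rfl)
      rw [hu3, abs_zero, add_zero] at hSu
      have hexp1 : Real.exp (-((3 : ℕ) : ℝ) / 80) ≤ 1 := Real.exp_le_one_iff.2 (by norm_num)
      have hSu' : ‖∑ n ∈ Finset.Icc 1 N, ((ε ^ 3 * (om ε n * u n) : ℝ) : ℂ) * BD N ε p 3 n‖ ≤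
          ε ^ 5 * (1 / 100) := by
        refine hSu.trans ?_
        have c3 : |Cn p ((3 : ℕ) : ℤ)| ≤ 20 * ε ^ 2 := by push_cast; exact hc3
        have h2 : ∑ n ∈ Finset.Icc 1 N, |u n| * Real.exp (-|((3 : ℕ) : ℝ) - n| / 80) ≤ A * S := by
          refine h1.trans ?_
          apply mul_le_mul_of_nonneg_left _ hA0.le
          exact div_le_self hS0.le (by norm_num)
        calc ε ^ 3 * |Cn p ((3 : ℕ) : ℤ)| * (B * (s * |u 1| * Real.exp (-((3 : ℕ) : ℝ) / 80) +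
              ε * ∑ n ∈ Finset.Icc 1 N, |u n| * Real.exp (-|((3 : ℕ) : ℝ) - n| / 80)))
            ≤ ε ^ 3 * (20 * ε ^ 2) * (B * (s * A * 1 + s * (A * S))) := by gcongr
          _ = ε ^ 5 * (20 * (s * (A * B * 1)) + 20 * (s * (A * B * S))) := by ring
          _ ≤ ε ^ 5 * (1 / 100) := by
              apply mul_le_mul_of_nonneg_left _ (by positivity)
              have : s * (A * B * 1) ≤ s * (A * B * M) := by gcongr
              linarith
      have hE' : F * A ^ 2 * ε ^ 4 * |Cn p ((3 : ℕ) : ℤ)| / ((3 : ℕ) : ℝ) ^ 12 ≤ ε ^ 5 * (1 / 100) := by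
        have c3 : |Cn p ((3 : ℕ) : ℤ)| ≤ 20 * ε ^ 2 := by push_cast; exact hc3
        calc F * A ^ 2 * ε ^ 4 * |Cn p ((3 : ℕ) : ℤ)| / ((3 : ℕ) : ℝ) ^ 12
            ≤ F * A ^ 2 * ε ^ 4 * |Cn p ((3 : ℕ) : ℤ)| := div_le_self (by positivity) (by norm_num)
          _ ≤ F * A ^ 2 * ε ^ 4 * (20 * ε ^ 2) := by gcongr
          _ = ε ^ 5 * (20 * (ε * (F * A ^ 2))) := by ring
          _ ≤ ε ^ 5 * (1 / 100) := by
              apply mul_le_mul_of_nonneg_left _ (by positivity)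
              have : ε * (F * A ^ 2) ≤ s * (F * A ^ 2) := by gcongr
              linarith
      have hB33 : ‖((ε ^ 3 : ℝ) : ℂ) * BD N ε p 3 3 - ((ε ^ 5 * (6 * Real.pi) : ℝ) : ℂ)‖ ≤
          ε ^ 5 * (1 / 100) := by
        have e : ((ε ^ 3 : ℝ) : ℂ) * BD N ε p 3 3 - ((ε ^ 5 * (6 * Real.pi) : ℝ) : ℂ) =
            ((ε ^ 3 : ℝ) : ℂ) * (BD N ε p 3 3 - ((6 * Real.pi * ε ^ 2 : ℝ) : ℂ)) := by
          push_cast; ring
        rw [e, norm_mul, Complex.norm_real, Real.norm_eq_abs, abs_of_pos (pow_pos hε 3)]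
        calc ε ^ 3 * ‖BD N ε p 3 3 - ((6 * Real.pi * ε ^ 2 : ℝ) : ℂ)‖ ≤ ε ^ 3 * (B * ε ^ 3) := by
              gcongr
          _ = ε ^ 5 * (ε * (B * 1)) := by ring
          _ ≤ ε ^ 5 * (1 / 100) := by
              apply mul_le_mul_of_nonneg_left _ (by positivity)
              have h3 : ε * (B * 1) ≤ s * (B * H) := by gcongr
              linarith
      obtain ⟨Φ, hΦ⟩ : ∃ Φ : ℂ, Φ = Fc p (hh N (fun i => aB ε i + ε ^ 3 * (om ε i * F2_Y N y i))) 3 :=
        ⟨_, rfl⟩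
      have hmain : |Φ.re - ε ^ 3 * Cn p 3 - ε ^ 5 * (6 * Real.pi)| ≤ ε ^ 5 * (3 / 100) := by
        have hF3' := hF3
        push_cast at hF3'
        set Tu := ∑ n ∈ Finset.Icc 1 N, ((ε ^ 3 * (om ε n * u n) : ℝ) : ℂ) * BD N ε p 3 n with hTu
        have e : ((Φ.re - ε ^ 3 * Cn p 3 - ε ^ 5 * (6 * Real.pi) : ℝ) : ℝ) =
            ((Φ - (Tu + ((ε ^ 3 : ℝ) : ℂ) * BD N ε p 3 3 + ((ε ^ 3 : ℝ) : ℂ) * (Cn p 3 : ℂ))) + Tu +
              (((ε ^ 3 : ℝ) : ℂ) * BD N ε p 3 3 - ((ε ^ 5 * (6 * Real.pi) : ℝ) : ℂ))).re := by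
          have e2 : (Φ - (Tu + ((ε ^ 3 : ℝ) : ℂ) * BD N ε p 3 3 + ((ε ^ 3 : ℝ) : ℂ) * (Cn p 3 : ℂ))) + Tu +
              (((ε ^ 3 : ℝ) : ℂ) * BD N ε p 3 3 - ((ε ^ 5 * (6 * Real.pi) : ℝ) : ℂ)) =
              Φ - ((ε ^ 3 * Cn p 3 + ε ^ 5 * (6 * Real.pi) : ℝ) : ℂ) := by
            push_cast; ring
          rw [e2, Complex.sub_re, Complex.ofReal_re]
          ring
        rw [e]
        refine (Complex.abs_re_le_norm _).trans ((norm_add_le _ _).trans ?_)
        have h4 : ‖(Φ - (Tu + ((ε ^ 3 : ℝ) : ℂ) * BD N ε p 3 3 + ((ε ^ 3 : ℝ) : ℂ) * (Cn p 3 : ℂ)))‖ ≤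
            ε ^ 5 * (1 / 100) := by
          refine le_trans ?_ hE'
          rw [hΦ]
          exact hF3
        have h5 := norm_add_le (Φ - (Tu + ((ε ^ 3 : ℝ) : ℂ) * BD N ε p 3 3 + ((ε ^ 3 : ℝ) : ℂ) * (Cn p 3 : ℂ))) Tu
        linarith
      have hGG : GG p d N y = Φ.re / ε ^ 5 := by
        unfold GG
        rw [← hεdef, hΦ]
        simp only [F2_wv]
      have hε5' : 0 < ε ^ 5 := by positivity
      have hGd : |GG p d N y - Real.pi * (6 - d / 24)| ≤ 4 / 100 := by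
        rw [hGG]
        have e : Φ.re / ε ^ 5 - Real.pi * (6 - d / 24) =
            (Φ.re - ε ^ 3 * Cn p 3 - ε ^ 5 * (6 * Real.pi)) / ε ^ 5 +
              (Cn p 3 / ε ^ 2 + Real.pi * d / 24) := by
          field_simp
          ring
        rw [e]
        refine (abs_add_le _ _).trans ?_
        have : |(Φ.re - ε ^ 3 * Cn p 3 - ε ^ 5 * (6 * Real.pi)) / ε ^ 5| ≤ 3 / 100 := by
          rw [abs_div, abs_of_pos hε5', div_le_iff₀ hε5']
          linarith
        linarith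
      have hpi := Real.pi_gt_d2
      obtain ⟨g1, g2⟩ := abs_le.1 hGd
      constructor
      · intro h143
        rw [h143] at g1 g2 ⊢
        linarith
      · intro h145
        rw [h145] at g1 g2 ⊢
        linarith
  · intro y y' hy hy' z hz hyz K hKo hK3 hKN
    have hHW := F2_HW hN hε hε1 hA3 hy
    have hHW' := F2_HW hN hε hε1 hA3 hy'
    have hK1 : 1 ≤ K := hKo.pos
    have hCne : Cn p K ≠ 0 := Cn_ne_zero hp19 hp2 (by exact_mod_cast hK1)
    have hCp : 0 < |Cn p K| := abs_pos.2 hCne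
    obtain ⟨v, hv⟩ : ∃ v : ℕ → ℝ, v = fun n => F2_Y N y n - F2_Y N y' n := ⟨_, rfl⟩
    have hvz : ∀ i, |v i| ≤ z := by
      intro i
      rw [hv]
      simp only
      unfold F2_Y
      split_ifs
      · rw [sub_self, abs_zero]; exact hz
      · exact hyz i
      · rw [sub_self, abs_zero]; exact hz
    have hvev : ∀ n, ¬ Odd n → v n = 0 := by
      intro n hn
      rw [hv]
      simp only
      rw [F2_Y_even N y n hn, F2_Y_even N y' n hn, sub_self]
    have hv3 : v 3 = 0 := by rw [hv]; simp [F2_Y]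
    have hwz : ∀ i, |wv ε N y i - wv ε N y' i| ≤ ε ^ 3 * z := by
      intro i
      rw [F2_wv, F2_wv, ← mul_sub, ← mul_sub, abs_mul, abs_mul, abs_of_pos (pow_pos hε 3),
        abs_of_nonneg (F2_om_nonneg ε i)]
      apply mul_le_mul_of_nonneg_left _ (by positivity)
      have h1 := hvz i
      rw [hv] at h1
      calc om ε i * |F2_Y N y i - F2_Y N y' i| ≤ 1 * z :=
            mul_le_mul (F2_om_le hε1 i) h1 (abs_nonneg _) zero_le_one
        _ = z := one_mul z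
    have hLK := hL A ε hA1 hε hε5 hAε p hlo hhi N (by omega) _ _ hHW hHW' z hz hwz K hKo
    have hLK' : ‖Fc p (hh N (fun i => aB ε i + ε ^ 3 * (om ε i * F2_Y N y i))) K -
        Fc p (hh N (fun i => aB ε i + ε ^ 3 * (om ε i * F2_Y N y' i))) K -
        ∑ n ∈ Finset.Icc 1 N, ((ε ^ 3 * (om ε n * v n) : ℝ) : ℂ) * DD N (rr (aB ε)) p K n‖ ≤
        L * A * ε ^ 4 * z * |Cn p K| := by
      have e : ∀ n ∈ Finset.Icc 1 N, ((ε ^ 3 * (om ε n * v n) : ℝ) : ℂ) * DD N (rr (aB ε)) p K n =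
          ((wv ε N y n - wv ε N y' n : ℝ) : ℂ) * DD N (rr (aB ε)) p K n := by
        intro n _
        rw [F2_wv, F2_wv, hv, ← mul_sub, ← mul_sub]
      rw [Finset.sum_congr rfl e]
      simp only [F2_wv] at hLK ⊢
      exact hLK
    have hcomp := F2_comp (N := N) hε hK1 hKN hCne v _ hLK'
    have hTK : TK p d N y K - TK p d N y' K = v K -
        (Fc p (hh N (fun i => aB ε i + ε ^ 3 * (om ε i * F2_Y N y i))) K -
          Fc p (hh N (fun i => aB ε i + ε ^ 3 * (om ε i * F2_Y N y' i))) K).re /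
        (ε ^ 3 * Cn p K * om ε K) := by
      unfold TK
      rw [← hεdef]
      simp only [F2_wv]
      have : v K = y K - y' K := by
        rw [hv]
        simp only
        unfold F2_Y
        rw [if_neg hK3, if_pos ⟨hKo, hKN⟩, if_neg hK3, if_pos ⟨hKo, hKN⟩]
      rw [this, Complex.sub_re]
      ring
    rw [hTK]
    refine hcomp.trans ?_
    by_cases hKone : K = 1
    · subst hKone
      have hC1 : 1 ≤ |Cn p ((1 : ℕ) : ℤ)| := by
        have := Cn_one_abs hp19 hp2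
        push_cast
        linarith
      rw [hom1]
      apply F2_fin (c := ε ^ 3 * |Cn p ((1 : ℕ) : ℤ)| * s) (e := L * A * z * s)
        (X := s * (B * (z * (H * 80)))) (by positivity)
      · rw [← hss]
        apply le_of_eq
        ring
      · refine (F2_one hε hε1 b1 v hvev).trans ?_
        have h1 := hsum1 v z hz (fun i _ => hvz i)
        calc ε ^ 3 * (B * (ε * ∑ n ∈ Finset.Icc 1 N, |v n| * Real.exp (-(n : ℝ) / 80)))
            ≤ ε ^ 3 * (B * (ε * (z * (H * 80)))) := by gcongr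
          _ = ε ^ 3 * 1 * s * (s * (B * (z * (H * 80)))) := by rw [← hss]; ring
          _ ≤ ε ^ 3 * |Cn p ((1 : ℕ) : ℤ)| * s * (s * (B * (z * (H * 80)))) := by gcongr
      · have e1 : L * A * z * s + s * (B * (z * (H * 80))) =
            z * (s * (L * A) + 80 * (s * (B * H))) := by ring
        rw [e1]
        have : s * (L * A) + 80 * (s * (B * H)) ≤ 1 / 2 := by linarith
        calc z * (s * (L * A) + 80 * (s * (B * H))) ≤ z * (1 / 2) :=
              mul_le_mul_of_nonneg_left this hz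
          _ = z / 2 := by ring
    · have hK5 : 5 ≤ K := by
        obtain ⟨k, hk⟩ := hKo
        omega
      rw [hom5 K hKone, mul_one]
      apply F2_fin (c := ε ^ 3 * |Cn p K|) (e := L * A * ε * z)
        (X := (B * (s * z * 1 + ε * (z * (H * 80))))) (by positivity)
      · apply le_of_eq
        ring
      · refine (hhigh v hvev K hKo (by omega)).trans ?_
        have h1 := hsumz v z hz hvz K
        have hexp1 : Real.exp (-(K : ℝ) / 80) ≤ 1 := by
          apply Real.exp_le_one_iff.2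
          have : (0 : ℝ) ≤ K := Nat.cast_nonneg K
          linarith
        have h3 := hvz 1
        rw [hv3, abs_zero, add_zero]
        gcongr
      · have e1 : L * A * ε * z + B * (s * z * 1 + ε * (z * (H * 80))) =
            z * (ε * (L * A) + s * (B * 1) + 80 * (ε * (B * H))) := by ring
        rw [e1]
        have h1 : ε * (L * A) ≤ s * (L * A) := by gcongr
        have h2 : ε * (B * H) ≤ s * (B * H) := by gcongr
        have h3 : s * (B * 1) ≤ s * (B * H) := by gcongr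
        have : ε * (L * A) + s * (B * 1) + 80 * (ε * (B * H)) ≤ 1 / 2 := by linarith
        calc z * (ε * (L * A) + s * (B * 1) + 80 * (ε * (B * H))) ≤ z * (1 / 2) :=
              mul_le_mul_of_nonneg_left this hz
          _ = z / 2 := by ring

end

end Pool.Agent.H53.RM
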