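import Pool.Agent.H53.RM.F1_Solve
import Pool.Agent.H53.RM.F2_Maps

/-!
# F3: the truncated system has a solution

`solve` with `n = N + 1`, `R i = A/i^12` if `i` is odd, `≠ 3`, and `R i = 0` otherwise,
`T d y i = TK p d N ŷ i` for such `i`, `0` otherwise (`ŷ` = extension of `y` by `0`), `G d y = GG p d N ŷ`.
Continuity in `(d, y)`: `hh` depends continuously (uniformly in `θ`) on `(d,y)`, and `Fc_near`.
`T d y = y` gives `Re F_K = 0` for odd `K ≤ N`, `K ≠ 3` (`Cn p K ≠ 0`), `G = 0` gives `K = 3`, and `Im F_K = 0` by `Fc_real`.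
-/

namespace Pool.Agent.H53.RM

open Pool.Agent.H65.RM

theorem F3_hh_sub (N : ℕ) (a a' : ℕ → ℝ) (θ : ℝ) :
    |hh N a θ - hh N a' θ| ≤ ∑ i ∈ Finset.Icc 1 N, |a i - a' i| := by
  have h : hh N a θ - hh N a' θ = ∑ i ∈ Finset.Icc 1 N, (a i - a' i) * Real.cos (2 * i * θ) := by
    unfold hh
    rw [add_sub_add_left_eq_sub, ← Finset.sum_sub_distrib]
    exact Finset.sum_congr rfl fun i _ => by ring
  rw [h]
  refine (Finset.abs_sum_le_sum_abs _ _).trans (Finset.sum_le_sum fun i _ => ?_)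
  rw [abs_mul]
  exact mul_le_of_le_one_right (abs_nonneg _) (Real.abs_cos_le_one _)

theorem F3_cont {X : Type*} [TopologicalSpace X] {S : Set X} {N : ℕ} (a : X → ℕ → ℝ)
    (ha : ∀ x ∈ S, Sml N (a x)) (hc : ∀ i, ContinuousOn (fun x => a x i) S) {p : ℝ}
    (hp1 : 1 ≤ p) (hp2 : p ≤ 2) (K : ℤ) :
    ContinuousOn (fun x => Fc p (hh N (a x)) K) S := by
  intro x hx
  have hsum : ContinuousWithinAt (fun y => ∑ i ∈ Finset.Icc 1 N, |a y i - a x i|) S x := by
    have : ContinuousOn (fun y => ∑ i ∈ Finset.Icc 1 N, |a y i - a x i|) S := by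
      apply continuousOn_finsetSum
      intro i _
      exact ((hc i).sub continuousOn_const).abs
    exact this x hx
  rw [Metric.continuousWithinAt_iff'] at hsum ⊢
  intro e he
  have h1 := hsum (min (1 / 10) (e / 20000)) (by positivity)
  filter_upwards [h1, self_mem_nhdsWithin] with y hy hyS
  have h0 : (∑ i ∈ Finset.Icc 1 N, |a x i - a x i|) = 0 := by simp
  rw [h0, Real.dist_eq, sub_zero, abs_of_nonneg (Finset.sum_nonneg fun i _ => abs_nonneg _)] at hy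
  have h2 := Fc_near (hh_HOK (ha y hyS)) (hh_HOK (ha x hx)) hp1 hp2
    (η := ∑ i ∈ Finset.Icc 1 N, |a y i - a x i|) (hy.le.trans (min_le_left _ _))
    (fun θ => F3_hh_sub N _ _ θ) K
  rw [dist_eq_norm]
  have h3 := hy.trans_le (min_le_right _ _)
  linarith

/-- extension by zero -/
noncomputable def F3_ext {N : ℕ} (y : Fin (N + 1) → ℝ) (i : ℕ) : ℝ :=
  if h : i < N + 1 then y ⟨i, h⟩ else 0

theorem F3_ext_cont {N : ℕ} (i : ℕ) : Continuous (fun y : Fin (N + 1) → ℝ => F3_ext y i) := by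
  unfold F3_ext
  split_ifs with h
  · exact continuous_apply _
  · exact continuous_const


theorem F3_cont1 {A δ0 p : ℝ} {N : ℕ}
    (H : ∀ p : ℝ, 2 - δ0 < p → p < 2 →
    ∀ d : ℝ, 143 ≤ d → d ≤ 145 → ∀ N : ℕ, 3 ≤ N →
      0 < ep p d ∧ ep p d ≤ 1 / 100000 ∧ A * ep p d ≤ 1 ∧
      (∀ y : ℕ → ℝ, (∀ i, 1 ≤ i → |y i| ≤ A / (i : ℝ) ^ 12) →
        HW A (ep p d) N (wv (ep p d) N y) ∧
        (∀ K : ℕ, Odd K → K ≠ 3 → K ≤ N → |TK p d N y K| ≤ A / (K : ℝ) ^ 12) ∧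
        (d = 143 → 0 < GG p d N y) ∧ (d = 145 → GG p d N y < 0)) ∧
      (∀ y y' : ℕ → ℝ, (∀ i, 1 ≤ i → |y i| ≤ A / (i : ℝ) ^ 12) →
        (∀ i, 1 ≤ i → |y' i| ≤ A / (i : ℝ) ^ 12) → ∀ z : ℝ, 0 ≤ z → (∀ i, |y i - y' i| ≤ z) →
        ∀ K : ℕ, Odd K → K ≠ 3 → K ≤ N → |TK p d N y K - TK p d N y' K| ≤ z / 2))
    (hA : 1 ≤ A) (hp : 2 - δ0 < p) (hp2 : p < 2) (hp1 : 1 ≤ p) (hN : 3 ≤ N)
    (hepc : ContinuousOn (fun d : ℝ => ep p d) (Set.Icc 143 145)) (z : ℕ → ℝ)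
    (hz : ∀ i : ℕ, 1 ≤ i → |z i| ≤ A / (i : ℝ) ^ 12) (K : ℤ) :
    ContinuousOn (fun d : ℝ => Fc p (hh N (fun j => aB (ep p d) j + wv (ep p d) N z j)) K)
      (Set.Icc 143 145) := by
  refine F3_cont (fun d : ℝ => fun j => aB (ep p d) j + wv (ep p d) N z j) ?_ ?_ hp1 hp2.le K
  · intro d hd
    obtain ⟨e0, e1, e2, e3, -⟩ := H p hp hp2 d hd.1 hd.2 N hN
    exact HW_Sml hA e0 e1 e2 (e3 _ hz).1 N
  · intro i
    apply ContinuousOn.add
    · unfold aB
      split_ifs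
      · exact hepc
      · exact continuousOn_const
    · unfold wv om
      split_ifs
      · exact hepc.pow 3
      · exact ((hepc.pow 3).mul hepc.sqrt).mul continuousOn_const
      · exact ((hepc.pow 3).mul continuousOn_const).mul continuousOn_const
      · exact continuousOn_const

theorem trunc : ∃ A : ℝ, 1 ≤ A ∧ ∃ δ0 : ℝ, 0 < δ0 ∧ δ0 ≤ 1 / 100 ∧ ∀ p : ℝ, 2 - δ0 < p → p < 2 →
    ∀ N : ℕ, 3 ≤ N → ∃ d : ℝ, 143 ≤ d ∧ d ≤ 145 ∧ ∃ w : ℕ → ℝ, HW A (ep p d) N w ∧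
      0 < ep p d ∧ ep p d ≤ 1 / 100000 ∧ A * ep p d ≤ 1 ∧ w 3 = ep p d ^ 3 ∧
      ∀ K : ℕ, Odd K → K ≤ N → Fc p (hh N (fun i => aB (ep p d) i + w i)) K = 0 := by
  obtain ⟨A, hA, δ0, h0, h1, H⟩ := TG_est
  refine ⟨A, hA, δ0, h0, h1, fun p hp hp2 N hN => ?_⟩
  have hp1 : 1 ≤ p := by linarith
  have hp19 : 1.9 < p := by norm_num; linarith
  classical
  set R : Fin (N + 1) → ℝ := fun i =>
    if Odd (i : ℕ) ∧ (i : ℕ) ≠ 3 then A / ((i : ℕ) : ℝ) ^ 12 else 0 with hR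
  set T : ℝ → (Fin (N + 1) → ℝ) → (Fin (N + 1) → ℝ) := fun d y i =>
    if Odd (i : ℕ) ∧ (i : ℕ) ≠ 3 then TK p d N (F3_ext y) i else 0 with hT
  set G : ℝ → (Fin (N + 1) → ℝ) → ℝ := fun d y => GG p d N (F3_ext y) with hG
  have hR0 : ∀ i, 0 ≤ R i := by
    intro i
    simp only [hR]
    split_ifs
    · positivity
    · exact le_rfl
  -- the extension is in the box
  have hbox : ∀ y : Fin (N + 1) → ℝ, (∀ i, |y i| ≤ R i) → ∀ i : ℕ, 1 ≤ i →
      |F3_ext y i| ≤ A / (i : ℝ) ^ 12 := by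
    intro y hy i hi
    unfold F3_ext
    split_ifs with h
    · refine (hy ⟨i, h⟩).trans ?_
      simp only [hR]
      split_ifs
      · exact le_rfl
      · positivity
    · rw [abs_zero]; positivity
  have hextd : ∀ y y' : Fin (N + 1) → ℝ, ∀ i : ℕ, |F3_ext y i - F3_ext y' i| ≤ dist y y' := by
    intro y y' i
    unfold F3_ext
    split_ifs with h
    · exact dist_le_pi_dist y y' ⟨i, h⟩
    · simp
  have hcond : ∀ d ∈ Set.Icc (143 : ℝ) 145, 0 < d := fun d hd => by linarith [hd.1]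
  have hepc : ContinuousOn (fun d : ℝ => ep p d) (Set.Icc 143 145) := by
    unfold ep
    apply ContinuousOn.sqrt
    exact continuousOn_const.div continuousOn_id (fun d hd => (hcond d hd).ne')
  -- continuity of the body parameters
  have hbody : ∀ i : ℕ, ContinuousOn (fun x : ℝ × (Fin (N + 1) → ℝ) =>
      aB (ep p x.1) i + wv (ep p x.1) N (F3_ext x.2) i)
      (Set.Icc (143 : ℝ) 145 ×ˢ {y | ∀ i, |y i| ≤ R i}) := by
    intro i
    have he : ContinuousOn (fun x : ℝ × (Fin (N + 1) → ℝ) => ep p x.1)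
        (Set.Icc (143 : ℝ) 145 ×ˢ {y | ∀ i, |y i| ≤ R i}) :=
      hepc.comp continuousOn_fst (fun x hx => hx.1)
    apply ContinuousOn.add
    · unfold aB
      split_ifs
      · exact he
      · exact continuousOn_const
    · unfold wv om
      split_ifs
      · exact he.pow 3
      · exact ((he.pow 3).mul he.sqrt).mul ((F3_ext_cont i).comp continuous_snd).continuousOn
      · exact ((he.pow 3).mul continuousOn_const).mul
          ((F3_ext_cont i).comp continuous_snd).continuousOn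
      · exact continuousOn_const
  have hFc : ∀ K : ℤ, ContinuousOn (fun x : ℝ × (Fin (N + 1) → ℝ) =>
      Fc p (hh N (fun i => aB (ep p x.1) i + wv (ep p x.1) N (F3_ext x.2) i)) K)
      (Set.Icc (143 : ℝ) 145 ×ˢ {y | ∀ i, |y i| ≤ R i}) := by
    intro K
    refine F3_cont (fun x : ℝ × (Fin (N + 1) → ℝ) => fun i =>
      aB (ep p x.1) i + wv (ep p x.1) N (F3_ext x.2) i) ?_ hbody hp1 hp2.le K
    rintro ⟨d, y⟩ ⟨hd, hy⟩
    obtain ⟨e0, e1, e2, e3, -⟩ := H p hp hp2 d hd.1 hd.2 N hN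
    exact HW_Sml hA e0 e1 e2 (e3 _ (hbox y hy)).1 N
  have hmap : ∀ d ∈ Set.Icc (143 : ℝ) 145, ∀ y, (∀ i, |y i| ≤ R i) → ∀ i, |T d y i| ≤ R i := by
    intro d hd y hy i
    obtain ⟨e0, e1, e2, e3, -⟩ := H p hp hp2 d hd.1 hd.2 N hN
    have h := (e3 _ (hbox y hy)).2.1 i
    simp only [hT, hR]
    split_ifs with hi
    · exact h hi.1 hi.2 (Nat.lt_succ_iff.1 i.2)
    · simp
  have hcon : ∀ d ∈ Set.Icc (143 : ℝ) 145, ∀ y y', (∀ i, |y i| ≤ R i) → (∀ i, |y' i| ≤ R i) →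
      dist (T d y) (T d y') ≤ dist y y' / 2 := by
    intro d hd y y' hy hy'
    obtain ⟨e0, e1, e2, -, e4⟩ := H p hp hp2 d hd.1 hd.2 N hN
    rw [dist_pi_le_iff (by positivity)]
    intro i
    have h := e4 _ _ (hbox y hy) (hbox y' hy') (dist y y') dist_nonneg (hextd y y') i
    simp only [hT]
    split_ifs with hi
    · rw [Real.dist_eq]
      exact h hi.1 hi.2 (Nat.lt_succ_iff.1 i.2)
    · rw [dist_self]; positivity
  have hTc : ∀ y, (∀ i, |y i| ≤ R i) → ContinuousOn (fun d => T d y) (Set.Icc 143 145) := by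
    intro y hy
    rw [continuousOn_pi]
    intro i
    simp only [hT]
    split_ifs with hi
    · unfold TK
      have h2 := F3_cont1 H hA hp hp2 hp1 hN hepc (F3_ext y) (hbox y hy) ((i : ℕ) : ℤ)
      have h3 : ContinuousOn (fun d : ℝ => ep p d ^ 3 * Cn p (i : ℕ) * om (ep p d) i)
          (Set.Icc 143 145) := by
        apply ((hepc.pow 3).mul continuousOn_const).mul
        unfold om
        split_ifs
        · exact hepc.sqrt
        · exact continuousOn_const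
      refine continuousOn_const.sub ((Complex.continuous_re.comp_continuousOn h2).div h3 ?_)
      intro d hd
      obtain ⟨e0, -⟩ := H p hp hp2 d hd.1 hd.2 N hN
      have hi1 : (1 : ℤ) ≤ (i : ℕ) := by
        have := hi.1.pos
        omega
      have hc := Cn_ne_zero hp19 hp2 hi1
      have ho : om (ep p d) i ≠ 0 := by
        unfold om
        split_ifs
        · exact (Real.sqrt_pos.2 e0).ne'
        · exact one_ne_zero
      exact mul_ne_zero (mul_ne_zero (pow_ne_zero _ e0.ne') hc) ho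
    · exact continuousOn_const
  have hGc : ContinuousOn (fun x : ℝ × (Fin (N + 1) → ℝ) => G x.1 x.2)
      (Set.Icc (143 : ℝ) 145 ×ˢ {y | ∀ i, |y i| ≤ R i}) := by
    simp only [hG]
    unfold GG
    have he : ContinuousOn (fun x : ℝ × (Fin (N + 1) → ℝ) => ep p x.1)
        (Set.Icc (143 : ℝ) 145 ×ˢ {y | ∀ i, |y i| ≤ R i}) :=
      hepc.comp continuousOn_fst (fun x hx => hx.1)
    refine (Complex.continuous_re.comp_continuousOn (hFc 3)).div (he.pow 5) ?_
    rintro ⟨d, y⟩ ⟨hd, hy⟩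
    obtain ⟨e0, -⟩ := H p hp hp2 d hd.1 hd.2 N hN
    exact pow_ne_zero _ e0.ne'
  have hG0 : ∀ y, (∀ i, |y i| ≤ R i) → 0 < G 143 y := by
    intro y hy
    obtain ⟨-, -, -, e3, -⟩ := H p hp hp2 143 le_rfl (by norm_num) N hN
    exact (e3 _ (hbox y hy)).2.2.1 rfl
  have hG1 : ∀ y, (∀ i, |y i| ≤ R i) → G 145 y < 0 := by
    intro y hy
    obtain ⟨-, -, -, e3, -⟩ := H p hp hp2 145 (by norm_num) le_rfl N hN
    exact (e3 _ (hbox y hy)).2.2.2 rfl
  obtain ⟨d, hd, y, hy, hTy, hGy⟩ :=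
    solve R hR0 T G (by norm_num : (143 : ℝ) < 145) hmap hcon hTc hGc hG0 hG1
  obtain ⟨e0, e1, e2, e3, -⟩ := H p hp hp2 d hd.1 hd.2 N hN
  obtain ⟨hW, -⟩ := e3 _ (hbox y hy)
  refine ⟨d, hd.1, hd.2, wv (ep p d) N (F3_ext y), hW, e0, e1, e2, by simp [wv], ?_⟩
  intro K hK hKN
  have hS : Sml N (fun i => aB (ep p d) i + wv (ep p d) N (F3_ext y) i) :=
    HW_Sml hA e0 e1 e2 hW N
  have him := (Fc_real (hh_HOK hS) (hh_even N _) hp1 hp2.le (K : ℤ)).1
  apply Complex.ext _ (by simpa using him)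
  rw [Complex.zero_re]
  by_cases h3 : K = 3
  · subst h3
    simp only [hG, GG] at hGy
    have h5 : ep p d ^ 5 ≠ 0 := pow_ne_zero _ e0.ne'
    rcases div_eq_zero_iff.1 hGy with h | h
    · exact_mod_cast h
    · exact absurd h h5
  · have hlt : K < N + 1 := Nat.lt_succ_iff.2 hKN
    have h := congrFun hTy ⟨K, hlt⟩
    simp only [hT] at h
    rw [if_pos ⟨hK, h3⟩] at h
    unfold TK at h
    have hext : F3_ext y K = y ⟨K, hlt⟩ := by
      unfold F3_ext
      rw [dif_pos hlt]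
    rw [hext] at h
    have hz : (Fc p (hh N (fun i => aB (ep p d) i + wv (ep p d) N (F3_ext y) i)) K).re /
        (ep p d ^ 3 * Cn p K * om (ep p d) K) = 0 := by linarith
    have hi1 : (1 : ℤ) ≤ (K : ℕ) := by
      have := hK.pos
      omega
    have hc := Cn_ne_zero hp19 hp2 hi1
    have ho : om (ep p d) K ≠ 0 := by
      unfold om
      split_ifs
      · exact (Real.sqrt_pos.2 e0).ne'
      · exact one_ne_zero
    rcases div_eq_zero_iff.1 hz with h | h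
    · exact h
    · exact absurd h (mul_ne_zero (mul_ne_zero (pow_ne_zero _ e0.ne') hc) ho)

end Pool.Agent.H53.RM
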