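import Pool.Agent.H53.RM.F3_Trunc

/-!
# F4: the limit `N → ∞`

For `N ≥ 3` take `(d_N, w_N)` from `trunc`.  `d_N ∈ [143,145]`, `w_N(i) ∈ [-A/i^12, A/i^12]`: by compactness of the
product (`isCompact_univ_pi`, first countable: `IsCompact.tendsto_subseq`) a subsequence converges: `d_N → d`,
`w_N(i) → w(i)` for all `i`.  `h(θ) = 1 + ε cos 4θ + ∑' w_i cos 2iθ`; `h_N → h` uniformly (dominated convergence).
* `HOK h`, `h` even; `Fc p h K = lim Fc p h_N K = 0` for odd `K ≥ 1` (`Fc_near`), for negative `K` by `Fc_real`.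
* support property: `γ_N(θ) ∈ K_{h_N}` and `(1-s)K_{h_N} ⊆ K_h` for `s` small: `x = (1-s)γ_N(θ)` has
  `Re(x conj ν) = (1-s)h_N(θ) > s₀`.
* mode 3: `∫_0^{2π} h cos 6θ = π w(3) = π ε³ ≠ 0`; if `h(θ+π/2) = h(θ)` for all `θ` this integral would be `0`.
-/

namespace Pool.Agent.H53.RM

open Pool.Agent.H65.RM Filter Topology

private theorem F4_zero {A ε : ℝ} {N : ℕ} {w : ℕ → ℝ} (hw : HW A ε N w) {i : ℕ}
    (hi : i ∉ Finset.Icc 1 N) : w i = 0 := by
  by_contra h
  obtain ⟨ho, hN⟩ := hw.supp i h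
  apply hi
  rw [Finset.mem_Icc]
  exact ⟨ho.pos, hN⟩

private theorem F4_hh {A ε : ℝ} {N : ℕ} (hN : 3 ≤ N) {w : ℕ → ℝ} (hw : HW A ε N w) (θ : ℝ) :
    hh N (fun i => aB ε i + w i) θ =
      1 + ε * Real.cos (4 * θ) + ∑' i : ℕ, w i * Real.cos (2 * i * θ) := by
  have e1 : ∑' i : ℕ, w i * Real.cos (2 * i * θ) =
      ∑ i ∈ Finset.Icc 1 N, w i * Real.cos (2 * i * θ) := by
    apply tsum_eq_sum
    intro i hi
    rw [F4_zero hw hi, zero_mul]
  have e2 : ∑ i ∈ Finset.Icc 1 N, aB ε i * Real.cos (2 * i * θ) = ε * Real.cos (4 * θ) := by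
    rw [Finset.sum_eq_single 2]
    · simp only [aB, if_true]
      congr 2
      push_cast
      ring
    · intro i _ hi
      simp [aB, hi]
    · intro h
      exfalso
      apply h
      rw [Finset.mem_Icc]
      omega
  rw [e1]
  unfold hh
  simp only [add_mul, Finset.sum_add_distrib]
  rw [e2]
  ring

private theorem F4_abs {w w' : ℕ → ℝ} {B : ℕ → ℝ} (hB : Summable B) (hw : ∀ i, |w i| ≤ B i)
    (hw' : ∀ i, |w' i| ≤ B i) (θ : ℝ) :
    |∑' i : ℕ, w i * Real.cos (2 * i * θ) - ∑' i : ℕ, w' i * Real.cos (2 * i * θ)| ≤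
      ∑' i : ℕ, |w i - w' i| := by
  have c1 : ∀ (v : ℕ → ℝ), (∀ i, |v i| ≤ B i) → Summable (fun i : ℕ => v i * Real.cos (2 * i * θ)) := by
    intro v hv
    apply Summable.of_norm_bounded hB
    intro i
    rw [Real.norm_eq_abs, abs_mul]
    calc |v i| * |Real.cos (2 * i * θ)| ≤ |v i| * 1 :=
          mul_le_mul_of_nonneg_left (Real.abs_cos_le_one _) (abs_nonneg _)
      _ ≤ B i := by rw [mul_one]; exact hv i
  have s2 : Summable (fun i : ℕ => |w i - w' i|) := by
    apply Summable.of_norm_bounded (hB.add hB)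
    intro i
    rw [Real.norm_eq_abs, abs_abs]
    have := abs_sub (w i) (w' i)
    have h1 := hw i
    have h2 := hw' i
    linarith
  rw [← (c1 w hw).tsum_sub (c1 w' hw')]
  have s3 : Summable (fun i : ℕ => ‖w i * Real.cos (2 * i * θ) - w' i * Real.cos (2 * i * θ)‖) :=
    ((c1 w hw).sub (c1 w' hw')).norm
  rw [← Real.norm_eq_abs]
  refine (norm_tsum_le_tsum_norm s3).trans ?_
  apply s3.tsum_le_tsum _ s2
  intro i
  rw [← sub_mul, Real.norm_eq_abs, abs_mul]
  calc |w i - w' i| * |Real.cos (2 * i * θ)| ≤ |w i - w' i| * 1 :=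
        mul_le_mul_of_nonneg_left (Real.abs_cos_le_one _) (abs_nonneg _)
    _ = _ := mul_one _

private theorem F4_int (m : ℤ) : ∫ θ in (0:ℝ)..(2 * Real.pi), Real.cos (m * θ) =
    if m = 0 then 2 * Real.pi else 0 := by
  split_ifs with h
  · subst h; simp
  · have hm : (m : ℝ) ≠ 0 := by exact_mod_cast h
    rw [intervalIntegral.integral_comp_mul_left (fun x => Real.cos x) hm]
    rw [integral_cos]
    have : (m : ℝ) * (2 * Real.pi) = m * (2 * Real.pi) := rfl
    have h1 : Real.sin ((m : ℝ) * (2 * Real.pi)) = 0 := by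
      have := Real.sin_int_mul_pi (2 * m)
      push_cast at this
      rw [← this]
      congr 1
      ring
    rw [h1]
    simp

private theorem F4_orth (i : ℕ) : ∫ θ in (0:ℝ)..(2 * Real.pi),
    Real.cos (2 * i * θ) * Real.cos (6 * θ) = if i = 3 then Real.pi else 0 := by
  have e : ∀ θ : ℝ, Real.cos (2 * i * θ) * Real.cos (6 * θ) =
      (1 / 2) * Real.cos (((2 * (i : ℤ) - 6 : ℤ) : ℝ) * θ) +
      (1 / 2) * Real.cos (((2 * (i : ℤ) + 6 : ℤ) : ℝ) * θ) := by
    intro θ
    push_cast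
    rw [sub_mul, add_mul, Real.cos_sub, Real.cos_add]
    ring
  simp only [e]
  rw [intervalIntegral.integral_add, intervalIntegral.integral_const_mul,
    intervalIntegral.integral_const_mul, F4_int, F4_int]
  · by_cases h : i = 3
    · subst h
      norm_num
      ring
    · have h1 : ¬ (2 * (i : ℤ) - 6 = 0) := by omega
      have h2 : ¬ (2 * (i : ℤ) + 6 = 0) := by omega
      rw [if_neg h1, if_neg h2, if_neg h]
      ring
  · apply Continuous.intervalIntegrable
    fun_prop
  · apply Continuous.intervalIntegrable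
    fun_prop

private theorem F4_mode {A ε : ℝ} {N : ℕ} (hN : 3 ≤ N) {w : ℕ → ℝ} (hw : HW A ε N w) {z : ℝ}
    (hz : ∀ θ : ℝ, |∑' i : ℕ, w i * Real.cos (2 * i * θ)| ≤ z) : |w 3| ≤ 2 * z := by
  have e1 : ∀ θ : ℝ, ∑' i : ℕ, w i * Real.cos (2 * i * θ) =
      ∑ i ∈ Finset.Icc 1 N, w i * Real.cos (2 * i * θ) := by
    intro θ
    apply tsum_eq_sum
    intro i hi
    rw [F4_zero hw hi, zero_mul]
  have e2 : ∫ θ in (0:ℝ)..(2 * Real.pi),
      (∑ i ∈ Finset.Icc 1 N, w i * Real.cos (2 * i * θ)) * Real.cos (6 * θ) = w 3 * Real.pi := by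
    simp only [Finset.sum_mul]
    rw [intervalIntegral.integral_finsetSum]
    · rw [Finset.sum_eq_single 3]
      · simp only [mul_assoc]
        rw [intervalIntegral.integral_const_mul]
        have := F4_orth 3
        simp only [mul_assoc] at this
        rw [this]
        simp
      · intro i _ hi
        simp only [mul_assoc]
        rw [intervalIntegral.integral_const_mul]
        have := F4_orth i
        simp only [mul_assoc] at this
        rw [this, if_neg hi, mul_zero]
      · intro h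
        exfalso
        apply h
        rw [Finset.mem_Icc]
        omega
    · intro i _
      apply Continuous.intervalIntegrable
      fun_prop
  have e3 : ‖∫ θ in (0:ℝ)..(2 * Real.pi),
      (∑ i ∈ Finset.Icc 1 N, w i * Real.cos (2 * i * θ)) * Real.cos (6 * θ)‖ ≤
      z * |2 * Real.pi - 0| := by
    apply intervalIntegral.norm_integral_le_of_norm_le_const
    intro θ _
    rw [← e1, norm_mul, Real.norm_eq_abs, Real.norm_eq_abs]
    calc |∑' i : ℕ, w i * Real.cos (2 * i * θ)| * |Real.cos (6 * θ)| ≤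
          |∑' i : ℕ, w i * Real.cos (2 * i * θ)| * 1 :=
          mul_le_mul_of_nonneg_left (Real.abs_cos_le_one _) (abs_nonneg _)
      _ ≤ z := by rw [mul_one]; exact hz θ
  rw [e2, Real.norm_eq_abs, abs_mul, abs_of_pos Real.pi_pos, sub_zero,
    abs_of_pos (by positivity : (0:ℝ) < 2 * Real.pi)] at e3
  have hpi := Real.pi_pos
  nlinarith

private theorem F4_shift {A ε : ℝ} {N : ℕ} {w : ℕ → ℝ} (hw : HW A ε N w) (θ : ℝ) :
    ∑' i : ℕ, w i * Real.cos (2 * i * (θ + Real.pi / 2)) =
      - ∑' i : ℕ, w i * Real.cos (2 * i * θ) := by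
  rw [← tsum_neg]
  congr 1
  funext i
  by_cases h : w i = 0
  · rw [h]; ring
  · obtain ⟨⟨j, hj⟩, _⟩ := hw.supp i h
    have : (2 : ℝ) * i * (θ + Real.pi / 2) = 2 * i * θ + Real.pi + j * (2 * Real.pi) := by
      rw [hj]; push_cast; ring
    rw [this, Real.cos_add_nat_mul_two_pi, Real.cos_add_pi]
    ring

theorem exists_h : ∃ δ0 : ℝ, 0 < δ0 ∧ δ0 ≤ 1 / 100 ∧ ∀ p : ℝ, 2 - δ0 < p → p < 2 →
    ∃ h : ℝ → ℝ, HOK h ∧ (∀ θ, h (-θ) = h θ) ∧ (∀ K : ℤ, Odd K → Fc p h K = 0) ∧
      (∀ θ s : ℝ, s < h θ → ∃ x ∈ KK h, s < (x * (starRingEnd ℂ) (nu θ)).re) ∧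
      ∃ θ : ℝ, h (θ + Real.pi / 2) ≠ h θ := by
  obtain ⟨A, hA, δ0, h0, h1, H⟩ := trunc
  refine ⟨δ0, h0, h1, fun p hp1 hp2 => ?_⟩
  have hpa : 1 ≤ p := by linarith
  have hpb : p ≤ 2 := hp2.le
  have H' := H p hp1 hp2
  choose d hd1 hd2 w hw he0 he1 he2 hw3 hFc using fun k : ℕ => H' (k + 3) (by omega)
  -- bounds
  set B : ℕ → ℝ := fun i => 1 / (i : ℝ) ^ 12 with hBdef
  have hB : Summable B := by
    rw [hBdef]
    exact Real.summable_one_div_nat_pow.2 (by norm_num)
  have hwB : ∀ k i, |w k i| ≤ B i := by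
    intro k i
    rcases Nat.eq_zero_or_pos i with hi | hi
    · rw [F4_zero (hw k) (by rw [hi]; simp), abs_zero]
      rw [hBdef]
      positivity
    · refine ((hw k).size i hi).trans ?_
      rw [hBdef]
      apply div_le_div_of_nonneg_right _ (by positivity)
      have a1 := he0 k
      have a2 := he1 k
      have a3 := he2 k
      calc A * ep p (d k) ^ 3 = (A * ep p (d k)) * ep p (d k) ^ 2 := by ring
        _ ≤ 1 * 1 := by
          apply mul_le_mul a3 _ (by positivity) (by norm_num)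
          exact pow_le_one₀ a1.le (by linarith)
        _ = 1 := by norm_num
  -- compactness
  have hS : IsCompact (Set.Icc (143:ℝ) 145 ×ˢ Set.univ.pi (fun i : ℕ => Set.Icc (-(B i)) (B i))) :=
    isCompact_Icc.prod (isCompact_univ_pi fun i => isCompact_Icc)
  obtain ⟨⟨d', w'⟩, hmem, φ, hφ, hlim⟩ := hS.tendsto_subseq (x := fun k => (d k, w k)) (by
    intro k
    refine ⟨⟨hd1 k, hd2 k⟩, ?_⟩
    intro i _
    exact abs_le.1 (hwB k i))
  have hdl : Tendsto (fun k => d (φ k)) atTop (𝓝 d') :=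
    (continuous_fst.tendsto _).comp hlim
  have hwl : ∀ i, Tendsto (fun k => w (φ k) i) atTop (𝓝 (w' i)) := by
    intro i
    exact ((continuous_apply i).tendsto _).comp ((continuous_snd.tendsto _).comp hlim)
  have hd'1 : 143 ≤ d' := hmem.1.1
  have hd'2 : d' ≤ 145 := hmem.1.2
  have hw'B : ∀ i, |w' i| ≤ B i := fun i => abs_le.2 (hmem.2 i (Set.mem_univ i))
  have hel : Tendsto (fun k => ep p (d (φ k))) atTop (𝓝 (ep p d')) := by
    unfold ep
    exact (tendsto_const_nhds.div hdl (by linarith)).sqrt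
  -- the error
  set e : ℕ → ℝ := fun k => |ep p (d (φ k)) - ep p d'| + ∑' i : ℕ, |w (φ k) i - w' i| with hedef
  have he : Tendsto e atTop (𝓝 0) := by
    have t1 : Tendsto (fun k => |ep p (d (φ k)) - ep p d'|) atTop (𝓝 0) := by
      have := (hel.sub_const (ep p d')).abs
      simpa using this
    have t2 : Tendsto (fun k => ∑' i : ℕ, |w (φ k) i - w' i|) atTop (𝓝 (∑' _ : ℕ, (0:ℝ))) := by
      apply tendsto_tsum_of_dominated_convergence (hB.add hB)
      · intro i
        have := ((hwl i).sub_const (w' i)).abs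
        simpa using this
      · refine Filter.Eventually.of_forall (fun k i => ?_)
        rw [Real.norm_eq_abs, abs_abs]
        have := abs_sub (w (φ k) i) (w' i)
        have h1 := hwB (φ k) i
        have h2 := hw'B i
        linarith
    rw [tsum_zero] at t2
    have := t1.add t2
    simpa using this
  have he_nonneg : ∀ k, 0 ≤ e k := by
    intro k
    apply add_nonneg (abs_nonneg _)
    exact tsum_nonneg (fun i => abs_nonneg _)
  -- the functions
  set hk : ℕ → ℝ → ℝ := fun k => hh (φ k + 3) (fun i => aB (ep p (d (φ k))) i + w (φ k) i) with hkdef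
  set h : ℝ → ℝ := fun θ => 1 + ep p d' * Real.cos (4 * θ) + ∑' i : ℕ, w' i * Real.cos (2 * i * θ)
    with hdef
  have hSml : ∀ k, Sml (φ k + 3) (fun i => aB (ep p (d (φ k))) i + w (φ k) i) := fun k =>
    HW_Sml hA (he0 _) (he1 _) (he2 _) (hw (φ k)) _
  have hkOK : ∀ k, HOK (hk k) := fun k => hh_HOK (hSml k)
  have hk_eq : ∀ k θ, hk k θ = 1 + ep p (d (φ k)) * Real.cos (4 * θ) +
      ∑' i : ℕ, w (φ k) i * Real.cos (2 * i * θ) := fun k θ =>
    F4_hh (by omega) (hw (φ k)) θ
  have hclose : ∀ k θ, |h θ - hk k θ| ≤ e k := by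
    intro k θ
    rw [hk_eq, hdef, hedef]
    simp only
    have a1 := F4_abs hB (hwB (φ k)) hw'B θ
    have a2 : |(ep p (d (φ k)) - ep p d') * Real.cos (4 * θ)| ≤ |ep p (d (φ k)) - ep p d'| := by
      rw [abs_mul]
      calc _ ≤ |ep p (d (φ k)) - ep p d'| * 1 :=
            mul_le_mul_of_nonneg_left (Real.abs_cos_le_one _) (abs_nonneg _)
        _ = _ := mul_one _
    rw [abs_sub_comm]
    have e4 : (1 + ep p (d (φ k)) * Real.cos (4 * θ) + ∑' i : ℕ, w (φ k) i * Real.cos (2 * i * θ)) -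
        (1 + ep p d' * Real.cos (4 * θ) + ∑' i : ℕ, w' i * Real.cos (2 * i * θ)) =
        (ep p (d (φ k)) - ep p d') * Real.cos (4 * θ) +
        (∑' i : ℕ, w (φ k) i * Real.cos (2 * i * θ) - ∑' i : ℕ, w' i * Real.cos (2 * i * θ)) := by
      ring
    rw [e4]
    exact (abs_add_le _ _).trans (add_le_add a2 a1)
  have hlimh : ∀ θ, Tendsto (fun k => hk k θ) atTop (𝓝 (h θ)) := by
    intro θ
    rw [tendsto_iff_dist_tendsto_zero]
    refine squeeze_zero (fun k => dist_nonneg) (fun k => ?_) he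
    rw [Real.dist_eq, abs_sub_comm]
    exact hclose k θ
  have hOK : HOK h := by
    refine ⟨?_, ?_, ?_, ?_⟩
    · rw [hdef]
      refine Continuous.add (by fun_prop) ?_
      refine continuous_tsum (fun i => by fun_prop) hB ?_
      intro i θ
      rw [Real.norm_eq_abs, abs_mul]
      calc |w' i| * |Real.cos (2 * i * θ)| ≤ |w' i| * 1 :=
            mul_le_mul_of_nonneg_left (Real.abs_cos_le_one _) (abs_nonneg _)
        _ ≤ B i := by rw [mul_one]; exact hw'B i
    · intro θ
      exact ge_of_tendsto (hlimh θ) (Filter.Eventually.of_forall (fun k => (hkOK k).lo θ))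
    · intro θ
      exact le_of_tendsto (hlimh θ) (Filter.Eventually.of_forall (fun k => (hkOK k).hi θ))
    · intro θ
      refine tendsto_nhds_unique (hlimh (θ + Real.pi)) ?_
      simp only [fun k => (hkOK k).per θ]
      exact hlimh θ
  have heven : ∀ θ, h (-θ) = h θ := by
    intro θ
    refine tendsto_nhds_unique (hlimh (-θ)) ?_
    have : ∀ k, hk k (-θ) = hk k θ := fun k => hh_even _ _ θ
    simp only [this]
    exact hlimh θ
  have hsmall : ∀ r : ℝ, 0 < r → ∀ᶠ k in atTop, e k < r := fun r hr => he.eventually (gt_mem_nhds hr)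
  have hFnat : ∀ K : ℕ, Odd K → Fc p h K = 0 := by
    intro K hK
    rw [← norm_le_zero_iff]
    have t : Tendsto (fun k => 10000 * e k) atTop (𝓝 0) := by
      simpa using he.const_mul (10000 : ℝ)
    refine ge_of_tendsto t ?_
    have hev : ∀ᶠ k in atTop, K ≤ φ k + 3 := by
      filter_upwards [eventually_ge_atTop K] with k hk
      have := hφ.id_le k
      simp only [id] at this
      omega
    filter_upwards [hsmall (1 / 10) (by norm_num), hev] with k hk1 hk2
    have := Fc_near hOK (hkOK k) hpa hpb hk1.le (hclose k) K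
    rw [hkdef] at this
    simp only at this
    rw [hFc (φ k) K hK hk2, sub_zero] at this
    exact this
  refine ⟨h, hOK, heven, ?_, ?_, ?_⟩
  · intro K hK
    rcases Int.le_total 0 K with hK0 | hK0
    · lift K to ℕ using hK0
      exact hFnat K (by exact_mod_cast hK)
    · obtain ⟨n, hn⟩ := Int.eq_ofNat_of_zero_le (neg_nonneg.2 hK0)
      have hK' : K = -(n : ℤ) := by omega
      have hn' : Odd n := by
        rw [hK', odd_neg] at hK
        exact_mod_cast hK
      rw [hK', (Fc_real hOK heven hpa hpb n).2]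
      exact hFnat n hn'
  · intro θ s hs
    have hpos : 0 < (h θ - s) / 5 := by linarith
    obtain ⟨k, hk1, hk2⟩ := ((hsmall _ hpos).and (hsmall (1 / 4) (by norm_num))).exists
    have hek := he_nonneg k
    refine ⟨((1 - 2 * e k : ℝ) : ℂ) * ga (φ k + 3) (rr (fun i => aB (ep p (d (φ k))) i + w (φ k) i)) θ,
      ?_, ?_⟩
    · intro θ'
      have hm := ga_mem (hSml k) θ θ'
      rw [mul_assoc, Complex.re_ofReal_mul]
      have h3 : hk k θ' ≤ h θ' + e k := by
        have := abs_le.1 (hclose k θ')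
        linarith [this.1]
      have h4 := (hkOK k).lo θ'
      have h5 : (1 - 2 * e k) * (ga (φ k + 3) (rr (fun i => aB (ep p (d (φ k))) i + w (φ k) i)) θ *
          (starRingEnd ℂ) (nu θ')).re ≤ (1 - 2 * e k) * hk k θ' :=
        mul_le_mul_of_nonneg_left hm (by linarith)
      refine h5.trans ?_
      nlinarith
    · rw [mul_assoc, Complex.re_ofReal_mul, ga_nu]
      have h3 : h θ - e k ≤ hk k θ := by
        have := abs_le.1 (hclose k θ)
        linarith [this.2]
      have h4 := (hkOK k).hi θ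
      have h6 : hk k θ = hh (φ k + 3) (fun i => aB (ep p (d (φ k))) i + w (φ k) i) θ := rfl
      rw [← h6]
      nlinarith
  · by_contra hcon
    push Not at hcon
    have hz : ∀ k θ, |∑' i : ℕ, w (φ k) i * Real.cos (2 * i * θ)| ≤ e k := by
      intro k θ
      have a1 := hclose k θ
      have a2 := hclose k (θ + Real.pi / 2)
      rw [hcon θ] at a2
      rw [hk_eq] at a1 a2
      rw [F4_shift (hw (φ k)) θ] at a2
      have e5 : Real.cos (4 * (θ + Real.pi / 2)) = Real.cos (4 * θ) := by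
        have : 4 * (θ + Real.pi / 2) = 4 * θ + 2 * Real.pi := by ring
        rw [this, Real.cos_add_two_pi]
      rw [e5] at a2
      rw [abs_le] at a1 a2 ⊢
      constructor <;> linarith [a1.1, a1.2, a2.1, a2.2]
    have hlow : ∀ k, ep p (d (φ k)) ^ 3 ≤ 2 * e k := by
      intro k
      have := F4_mode (by omega) (hw (φ k)) (hz k)
      rw [hw3 (φ k), abs_of_nonneg (by have := he0 (φ k); positivity)] at this
      exact this
    have hle : ep p d' ^ 3 ≤ 0 := by
      refine le_of_tendsto_of_tendsto' (hel.pow 3) ?_ hlow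
      simpa using he.const_mul (2 : ℝ)
    have hpos : 0 < ep p d' := by
      unfold ep
      apply Real.sqrt_pos.2
      apply div_pos <;> linarith
    have : 0 < ep p d' ^ 3 := by positivity
    linarith

end Pool.Agent.H53.RM
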