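import Pool.Agent.H53.RM.F4_Limit

/-!
# F5: the planar theorem in `ℂ`

`K = KK h`, `D = KK (fun θ => h (θ + π/2))` (`= -i K`).  `FF p (h(·+π/2)) φ = FF p h (φ+π/2) = FF p h φ`
(`FF_rot`, `FF_halfturn`).  Equal areas (`KK_rot`).  `K ≠ D`: by the support property the value `h(θ)` is the supremum
of `Re(x conj ν(θ))` over `K`, and every `x ∈ D` has `Re(x conj ν(θ)) ≤ h(θ+π/2)`; so `K = D` would give
`h(θ) ≤ h(θ+π/2)` for all `θ`, and then equality by `π`-periodicity.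
-/

namespace Pool.Agent.H53.RM

open MeasureTheory Pool.Agent.H65.RM

lemma F5_shift {h : ℝ → ℝ} (hh : HOK h) (α : ℝ) : HOK (fun θ => h (θ + α)) where
  cont := hh.cont.comp (continuous_id.add continuous_const)
  lo θ := hh.lo _
  hi θ := hh.hi _
  per θ := by
    rw [show θ + Real.pi + α = (θ + α) + Real.pi by ring]
    exact hh.per _

lemma F5_int {h : ℝ → ℝ} (hh : HOK h) : (interior (KK h)).Nonempty :=
  ⟨0, interior_mono (KK_ball hh) (Metric.ball_subset_interior_closedBall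
    (Metric.mem_ball_self (by norm_num)))⟩

lemma F5_vol {h : ℝ → ℝ} (α : ℝ) :
    volume (KK (fun θ => h (θ + α))) = volume (KK h) := by
  have h1 : KK (fun θ => h (θ + α)) = (rotation (Circle.exp α)) ⁻¹' KK h := by
    ext x
    rw [KK_rot, Set.mem_preimage, rotation_apply, Circle.coe_exp, ex, mul_comm Complex.I]
  rw [h1]
  exact (LinearIsometryEquiv.measurePreserving _).measure_preimage
    (KK_closed h).measurableSet.nullMeasurableSet

lemma F5_ex {u : ℂ} (hu : ‖u‖ = 1) : ∃ φ : ℝ, u = ex φ := by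
  refine ⟨Complex.arg u, ?_⟩
  unfold ex
  rw [mul_comm]
  have := Complex.norm_mul_exp_arg_mul_I u
  rw [hu, Complex.ofReal_one, one_mul] at this
  exact this.symm

theorem planar : ∃ δ0 : ℝ, 0 < δ0 ∧ δ0 ≤ 1 / 100 ∧ ∀ p : ℝ, 2 - δ0 < p → p < 2 →
    ∃ K D : Set ℂ, Convex ℝ K ∧ IsCompact K ∧ (interior K).Nonempty ∧ (∀ x ∈ K, -x ∈ K) ∧
      Convex ℝ D ∧ IsCompact D ∧ (interior D).Nonempty ∧ (∀ x ∈ D, -x ∈ D) ∧ K ≠ D ∧
      volume K = volume D ∧
      ∀ u : ℂ, ‖u‖ = 1 →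
        ∫ x in K, (rad ((fun y => y - x) '' K) u) ^ p =
          ∫ x in D, (rad ((fun y => y - x) '' D) u) ^ p := by
  obtain ⟨δ0, hδ, hδ1, H⟩ := exists_h
  refine ⟨δ0, hδ, hδ1, fun p hp1 hp2 => ?_⟩
  obtain ⟨h, hh, -, hF, hsup, θ0, hne⟩ := H p hp1 hp2
  have hh' := F5_shift hh (Real.pi / 2)
  refine ⟨KK h, KK (fun θ => h (θ + Real.pi / 2)), KK_convex _, KK_compact hh, F5_int hh,
    fun x hx => KK_symm hh hx, KK_convex _, KK_compact hh', F5_int hh',
    fun x hx => KK_symm hh' hx, ?_, (F5_vol _).symm, ?_⟩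
  · intro hKD
    have hle : ∀ θ, h θ ≤ h (θ + Real.pi / 2) := by
      intro θ
      by_contra hcon
      push Not at hcon
      obtain ⟨x, hx, hs⟩ := hsup θ _ hcon
      rw [hKD] at hx
      exact absurd (hx θ) (not_le.2 hs)
    apply hne
    refine le_antisymm ?_ (hle θ0)
    have := hle (θ0 + Real.pi / 2)
    rwa [show θ0 + Real.pi / 2 + Real.pi / 2 = θ0 + Real.pi by ring, hh.per] at this
  · intro u hu
    obtain ⟨φ, rfl⟩ := F5_ex hu
    have hp1' : 1 ≤ p := by linarith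
    have h1 := FF_rot h p (Real.pi / 2) φ
    rw [FF_halfturn hh hp1' hp2.le hF] at h1
    exact h1.symm

end Pool.Agent.H53.RM
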