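import Pool.Agent.H53.RM.Defs

/-!
# G1: the bodies `K_h`

`KK h` is an intersection of closed half planes.  For `x ≠ 0` choose `θ` with `ν(θ) = x/|x|`:
`|x| = Re(x conj ν) ≤ h ≤ 2`.  `‖x‖ ≤ 1/2` implies `x ∈ KK h`.
Symmetry: `ν(θ+π) = -ν(θ)` and `h(θ+π) = h(θ)`.
For `x ∈ K = KK h`, `|u| = 1`: `S = {l ≥ 0 : l u ∈ K - x} = {l ≥ 0 : x + l u ∈ K}` is a compact
interval `[0, rad]` (convexity), contained in `[0,4]`.
-/

namespace Pool.Agent.H53.RM

open Complex MeasureTheory Pool.Agent.H65.RM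

variable {h h' : ℝ → ℝ}

lemma G1_nu_norm (θ : ℝ) : ‖nu θ‖ = 1 := by
  unfold nu
  rw [norm_mul, ex_norm, norm_neg, norm_I, mul_one]

lemma G1_re_le (x : ℂ) (θ : ℝ) : (x * (starRingEnd ℂ) (nu θ)).re ≤ ‖x‖ := by
  refine (re_le_norm _).trans (le_of_eq ?_)
  rw [norm_mul, RCLike.norm_conj, G1_nu_norm, mul_one]

lemma G1_nu_arg (x : ℂ) : (x * (starRingEnd ℂ) (nu (x.arg + Real.pi / 2))).re = ‖x‖ := by
  have h1 : nu (x.arg + Real.pi / 2) = exp (x.arg * I) := by
    unfold nu ex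
    rw [show I * ((x.arg + Real.pi / 2 : ℝ) : ℂ) = x.arg * I + Real.pi / 2 * I by push_cast; ring,
      exp_add, exp_pi_div_two_mul_I]
    have := I_mul_I
    linear_combination (-exp (x.arg * I)) * this
  have h2 : x * (starRingEnd ℂ) (nu (x.arg + Real.pi / 2)) = (‖x‖ : ℂ) := by
    rw [h1]
    nth_rewrite 1 [← norm_mul_exp_arg_mul_I x]
    rw [mul_assoc, mul_conj, normSq_eq_norm_sq, norm_exp_ofReal_mul_I]
    norm_num
  rw [h2, ofReal_re]

theorem KK_closed (h : ℝ → ℝ) : IsClosed (KK h) := by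
  have : KK h = ⋂ θ : ℝ, {x : ℂ | (x * (starRingEnd ℂ) (nu θ)).re ≤ h θ} := by
    ext x; simp [KK]
  rw [this]
  exact isClosed_iInter fun θ => isClosed_le (continuous_re.comp (continuous_id.mul
    continuous_const)) continuous_const

theorem KK_convex (h : ℝ → ℝ) : Convex ℝ (KK h) := by
  intro x hx y hy a b ha hb hab θ
  have h1 := mul_le_mul_of_nonneg_left (hx θ) ha
  have h2 := mul_le_mul_of_nonneg_left (hy θ) hb
  have h3 : ((a • x + b • y) * (starRingEnd ℂ) (nu θ)).re =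
      a * (x * (starRingEnd ℂ) (nu θ)).re + b * (y * (starRingEnd ℂ) (nu θ)).re := by
    rw [add_mul, add_re, real_smul, real_smul, mul_assoc, mul_assoc, re_ofReal_mul, re_ofReal_mul]
  rw [h3]
  have h4 : a * h θ + b * h θ = h θ := by rw [← add_mul, hab, one_mul]
  linarith

theorem KK_bdd (hh : HOK h) : KK h ⊆ Metric.closedBall 0 2 := by
  intro x hx
  rw [mem_closedBall_zero_iff, ← G1_nu_arg x]
  exact (hx _).trans (hh.hi _)

theorem KK_ball (hh : HOK h) : Metric.closedBall (0:ℂ) (1 / 2) ⊆ KK h := by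
  intro x hx θ
  rw [mem_closedBall_zero_iff] at hx
  exact (G1_re_le x θ).trans (hx.trans (hh.lo θ))

theorem KK_compact (hh : HOK h) : IsCompact (KK h) :=
  Metric.isCompact_of_isClosed_isBounded (KK_closed h)
    (Metric.isBounded_closedBall.subset (KK_bdd hh))

theorem KK_symm (hh : HOK h) {x : ℂ} (hx : x ∈ KK h) : -x ∈ KK h := by
  intro θ
  have h1 : nu (θ + Real.pi) = -nu θ := by
    unfold nu ex
    rw [show I * ((θ + Real.pi : ℝ) : ℂ) = I * θ + Real.pi * I by push_cast; ring, exp_add,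
      exp_pi_mul_I]
    ring
  have h2 := hx (θ + Real.pi)
  rw [h1, hh.per] at h2
  rw [map_neg] at h2
  rwa [neg_mul, ← mul_neg]

theorem KK_vol_pos (hh : HOK h) : 0 < volume (KK h) ∧ volume (KK h) < ⊤ := by
  refine ⟨lt_of_lt_of_le ?_ (measure_mono (KK_ball hh)), (KK_compact hh).measure_lt_top⟩
  exact lt_of_lt_of_le (Metric.measure_ball_pos volume (0 : ℂ) (by norm_num : (0 : ℝ) < 1 / 2))
    (measure_mono Metric.ball_subset_closedBall)

lemma G1_mem_iff (K : Set ℂ) (x z : ℂ) : z ∈ (fun y => y - x) '' K ↔ x + z ∈ K := by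
  constructor
  · rintro ⟨y, hy, rfl⟩
    simpa using hy
  · intro hz
    exact ⟨x + z, hz, by simp⟩

lemma G1_bound {K : Set ℂ} {M : ℝ} (hK : K ⊆ Metric.closedBall 0 M) {x u : ℂ} (hx : x ∈ K)
    (hu : ‖u‖ = 1) {l : ℝ} (hl : 0 ≤ l) (h : x + l * u ∈ K) : l ≤ 2 * M := by
  have h1 : ‖x‖ ≤ M := by simpa using hK hx
  have h2 : ‖x + l * u‖ ≤ M := by simpa using hK h
  have h3 : ‖(l : ℂ) * u‖ = l := by rw [norm_mul, hu, mul_one, norm_real, Real.norm_of_nonneg hl]
  have h4 : ‖(l : ℂ) * u‖ ≤ ‖x + l * u‖ + ‖x‖ := by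
    have := norm_sub_le (x + l * u) x
    simpa using this
  linarith

/-- description of the radial function of `K - x` (compactness is the only thing needed) -/
theorem rad_iff (hK : IsCompact (KK h)) {x u : ℂ} (hx : x ∈ KK h) (hu : ‖u‖ = 1) {c : ℝ} (hc : 0 ≤ c) :
    c ≤ rad ((fun y => y - x) '' KK h) u ↔ x + c * u ∈ KK h := by
  obtain ⟨M, hM⟩ := hK.isBounded.subset_closedBall (0 : ℂ)
  have hS : {l : ℝ | 0 ≤ l ∧ (l : ℂ) * u ∈ (fun y => y - x) '' KK h} =
      {l : ℝ | 0 ≤ l ∧ x + (l : ℂ) * u ∈ KK h} := by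
    ext l
    simp only [Set.mem_ofPred_eq, G1_mem_iff]
  have hbdd : BddAbove {l : ℝ | 0 ≤ l ∧ x + (l : ℂ) * u ∈ KK h} :=
    ⟨2 * M, fun l hl => G1_bound hM hx hu hl.1 hl.2⟩
  have h0 : (0 : ℝ) ∈ {l : ℝ | 0 ≤ l ∧ x + (l : ℂ) * u ∈ KK h} := ⟨le_rfl, by simpa using hx⟩
  have hclosed : IsClosed {l : ℝ | 0 ≤ l ∧ x + (l : ℂ) * u ∈ KK h} := by
    refine IsClosed.inter (isClosed_le continuous_const continuous_id) ?_
    exact hK.isClosed.preimage (by fun_prop)
  unfold rad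
  rw [hS]
  constructor
  · intro hcm
    have hm := hclosed.csSup_mem ⟨0, h0⟩ hbdd
    set m := sSup {l : ℝ | 0 ≤ l ∧ x + (l : ℂ) * u ∈ KK h} with hmdef
    rcases eq_or_lt_of_le hm.1 with hm0 | hm0
    · have : c = 0 := le_antisymm (by rw [hm0]; exact hcm) hc
      rw [this]; simpa using hx
    · have h1 := KK_convex h hx hm.2 (a := 1 - c / m) (b := c / m)
        (by rw [sub_nonneg, div_le_one hm0]; exact hcm) (by positivity) (by ring)
      have h2 : (1 - c / m) • x + (c / m) • (x + m * u) = x + c * u := by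
        have hmc : (m : ℂ) ≠ 0 := by exact_mod_cast hm0.ne'
        rw [real_smul, real_smul]
        push_cast
        field_simp
        ring
      rwa [h2] at h1
  · intro h1
    exact le_csSup hbdd ⟨hc, h1⟩

theorem rad_nonneg (L : Set ℂ) (u : ℂ) : 0 ≤ rad L u :=
  Real.sSup_nonneg fun _ hl => hl.1

lemma G1_rad_le (hK : IsCompact (KK h)) {M : ℝ} (hM : KK h ⊆ Metric.closedBall 0 M) {x u : ℂ}
    (hx : x ∈ KK h) (hu : ‖u‖ = 1) : rad ((fun y => y - x) '' KK h) u ≤ 2 * M :=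
  G1_bound hM hx hu (rad_nonneg _ _) ((rad_iff hK hx hu (rad_nonneg _ _)).1 le_rfl)

theorem rad_le (hh : HOK h) {x u : ℂ} (hx : x ∈ KK h) (hu : ‖u‖ = 1) :
    rad ((fun y => y - x) '' KK h) u ≤ 4 := by
  have := G1_rad_le (KK_compact hh) (KK_bdd hh) hx hu
  linarith

/-- measurability on `K`: for `c > 0` the set `{x ∈ K : c ≤ rad} = {x ∈ K : x + c u ∈ K}` is closed -/
theorem rad_meas (hK : IsCompact (KK h)) {u : ℂ} (hu : ‖u‖ = 1) :
    Measurable ((KK h).indicator (fun x => rad ((fun y => y - x) '' KK h) u)) := by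
  refine measurable_of_Ici fun c => ?_
  rcases le_or_gt c 0 with hc | hc
  · have : (KK h).indicator (fun x => rad ((fun y => y - x) '' KK h) u) ⁻¹' Set.Ici c =
        Set.univ := by
      rw [Set.eq_univ_iff_forall]
      intro x
      rw [Set.mem_preimage, Set.mem_Ici]
      exact hc.trans (Set.indicator_nonneg (fun _ _ => rad_nonneg _ _) x)
    rw [this]
    exact MeasurableSet.univ
  · have : (KK h).indicator (fun x => rad ((fun y => y - x) '' KK h) u) ⁻¹' Set.Ici c =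
        KK h ∩ (fun x : ℂ => x + c * u) ⁻¹' KK h := by
      ext x
      rw [Set.mem_preimage, Set.mem_Ici, Set.mem_inter_iff, Set.mem_preimage]
      by_cases hx : x ∈ KK h
      · rw [Set.indicator_of_mem hx, rad_iff hK hx hu hc.le]
        exact ⟨fun h1 => ⟨hx, h1⟩, fun h1 => h1.2⟩
      · rw [Set.indicator_of_notMem hx]
        exact ⟨fun h1 => absurd h1 (not_le.2 hc), fun h1 => absurd h1.1 hx⟩
    rw [this]
    exact (hK.isClosed.inter (hK.isClosed.preimage (by fun_prop))).measurableSet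

theorem FF_integrable (hK : IsCompact (KK h)) {p : ℝ} (hp : 0 < p) (φ : ℝ) :
    IntegrableOn (fun x => (rad ((fun y => y - x) '' KK h) (ex φ)) ^ p) (KK h) := by
  obtain ⟨M, hM⟩ := hK.isBounded.subset_closedBall (0 : ℂ)
  have hmeas : AEMeasurable (fun x => rad ((fun y => y - x) '' KK h) (ex φ))
      (volume.restrict (KK h)) :=
    (aemeasurable_indicator_iff hK.isClosed.measurableSet).1 (rad_meas hK (ex_norm φ)).aemeasurable
  have : IsFiniteMeasure (volume.restrict (KK h)) :=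
    ⟨by rw [Measure.restrict_apply_univ]; exact hK.measure_lt_top⟩
  refine Integrable.of_bound (hmeas.pow_const p).aestronglyMeasurable ((2 * M) ^ p) ?_
  filter_upwards [ae_restrict_mem hK.isClosed.measurableSet] with x hx
  have h1 := rad_nonneg ((fun y => y - x) '' KK h) (ex φ)
  rw [Real.norm_of_nonneg (Real.rpow_nonneg h1 p)]
  exact Real.rpow_le_rpow h1 (G1_rad_le hK hM hx (ex_norm φ)) hp.le

end Pool.Agent.H53.RM
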