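import Pool.Agent.H53.RM.G1_Body

/-!
# G2: monotonicity, homogeneity, continuity of `F(h, φ)` in `h` and `φ`

* monotone: `h ≤ h'` gives `KK h ⊆ KK h'`, `rad` increases (for `x ∈ KK h`), so `FF p h φ ≤ FF p h' φ`.
* homogeneous: `KK (s h) = s KK h`, `rad` scales by `s`, the area by `s²`: `FF p (s h) φ = s^{p+2} FF p h φ`
  (`s > 0`; `s h` need not be `HOK`; prove it directly from the definitions by change of variables
  `MeasureTheory.Measure.setIntegral_comp_smul_of_pos` or `integral_comp_smul`).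
* sandwich; `0 ≤ FF ≤ 4^p · area ≤ 16 · 4π ≤ 210` for `p ≤ 2`.
* rotation `KK (h(·+α)) = e^{-iα} KK h` gives `FF p (fun θ => h (θ+α)) φ = FF p h (φ+α)`.
* `h` uniformly continuous, `h ≥ 1/2`: `(1-s) h ≤ h(·+α) ≤ (1+s) h` for `α` small.
-/

namespace Pool.Agent.H53.RM

open Complex MeasureTheory Pool.Agent.H65.RM Pointwise

variable {h h' : ℝ → ℝ} {p : ℝ}

theorem G2_KK_sub (hle : ∀ θ, h θ ≤ h' θ) : KK h ⊆ KK h' := fun _ hx θ => (hx θ).trans (hle θ)

theorem G2_norm_ex (φ : ℝ) : ‖ex φ‖ = 1 := by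
  simp [ex, Complex.norm_exp]

theorem FF_mono (hK' : IsCompact (KK h')) (hp : 0 < p) (hle : ∀ θ, h θ ≤ h' θ) (φ : ℝ) :
    FF p h φ ≤ FF p h' φ := by
  have hsub : KK h ⊆ KK h' := G2_KK_sub hle
  have hK : IsCompact (KK h) := hK'.of_isClosed_subset (KK_closed h) hsub
  have hu : ‖ex φ‖ = 1 := G2_norm_ex φ
  have hi := FF_integrable hK hp φ
  have hi' := FF_integrable hK' hp φ
  unfold FF
  calc ∫ x in KK h, (rad ((fun y => y - x) '' KK h) (ex φ)) ^ p
      ≤ ∫ x in KK h, (rad ((fun y => y - x) '' KK h') (ex φ)) ^ p := by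
        refine setIntegral_mono_on hi (hi'.mono_set hsub) (KK_closed h).measurableSet ?_
        intro x hx
        refine Real.rpow_le_rpow (rad_nonneg _ _) ?_ hp.le
        have h1 := (rad_iff hK hx hu (rad_nonneg _ _)).1 le_rfl
        exact (rad_iff hK' (hsub hx) hu (rad_nonneg _ _)).2 (hsub h1)
    _ ≤ ∫ x in KK h', (rad ((fun y => y - x) '' KK h') (ex φ)) ^ p := by
        refine setIntegral_mono_set hi' ?_ (Filter.Eventually.of_forall hsub)
        exact Filter.Eventually.of_forall fun x => Real.rpow_nonneg (rad_nonneg _ _) _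

theorem G2_KK_scale (h : ℝ → ℝ) {s : ℝ} (hs : 0 < s) : KK (fun θ => s * h θ) = s • KK h := by
  ext x
  rw [Set.mem_smul_set_iff_inv_smul_mem₀ hs.ne']
  constructor
  · intro hx θ
    have h1 := hx θ
    have h2 : ((s⁻¹ • x) * (starRingEnd ℂ) (nu θ)).re = s⁻¹ * (x * (starRingEnd ℂ) (nu θ)).re := by
      rw [smul_mul_assoc, Complex.smul_re, smul_eq_mul]
    rw [h2]
    calc s⁻¹ * (x * (starRingEnd ℂ) (nu θ)).re ≤ s⁻¹ * (s * h θ) :=
          mul_le_mul_of_nonneg_left h1 (inv_nonneg.2 hs.le)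
      _ = h θ := by field_simp
  · intro hx θ
    have h1 := hx θ
    have h2 : ((s⁻¹ • x) * (starRingEnd ℂ) (nu θ)).re = s⁻¹ * (x * (starRingEnd ℂ) (nu θ)).re := by
      rw [smul_mul_assoc, Complex.smul_re, smul_eq_mul]
    rw [h2] at h1
    calc (x * (starRingEnd ℂ) (nu θ)).re = s * (s⁻¹ * (x * (starRingEnd ℂ) (nu θ)).re) := by
          field_simp
      _ ≤ s * h θ := mul_le_mul_of_nonneg_left h1 hs.le

theorem G2_rad_scale (h : ℝ → ℝ) {s : ℝ} (hs : 0 < s) (x u : ℂ) :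
    rad ((fun y => y - s • x) '' KK (fun θ => s * h θ)) u = s * rad ((fun y => y - x) '' KK h) u := by
  unfold rad
  rw [← smul_eq_mul, ← Real.sSup_smul_of_nonneg hs.le, G2_KK_scale h hs]
  congr 1
  ext l
  rw [Set.mem_smul_set_iff_inv_smul_mem₀ hs.ne']
  simp only [Set.mem_ofPred_eq, Set.mem_image, smul_eq_mul]
  constructor
  · rintro ⟨hl, y, hy, hyx⟩
    rw [Set.mem_smul_set_iff_inv_smul_mem₀ hs.ne'] at hy
    refine ⟨by positivity, s⁻¹ • y, hy, ?_⟩
    have : y = (l:ℂ) * u + s • x := by rw [← hyx]; ring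
    rw [this, smul_add, smul_smul, inv_mul_cancel₀ hs.ne', one_smul]
    simp only [Complex.real_smul]
    push_cast
    ring
  · rintro ⟨hl, y, hy, hyx⟩
    refine ⟨?_, s • y, Set.smul_mem_smul_set hy, ?_⟩
    · have := mul_nonneg hs.le hl
      rwa [← mul_assoc, mul_inv_cancel₀ hs.ne', one_mul] at this
    · have : y = ((s⁻¹ * l : ℝ) : ℂ) * u + x := by rw [← hyx]; ring
      rw [this]
      simp only [Complex.real_smul]
      have hsc : (s : ℂ) ≠ 0 := by exact_mod_cast hs.ne'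
      push_cast
      field_simp
      ring

theorem FF_scale (h : ℝ → ℝ) (hp : 0 < p) {s : ℝ} (hs : 0 < s) (φ : ℝ) :
    FF p (fun θ => s * h θ) φ = s ^ (p + 2) * FF p h φ := by
  have key := Measure.setIntegral_comp_smul_of_pos (μ := (volume : Measure ℂ))
    (fun x => (rad ((fun y => y - x) '' KK (fun θ => s * h θ)) (ex φ)) ^ p) (KK h) hs
  rw [Complex.finrank_real_complex, ← G2_KK_scale h hs] at key
  unfold FF
  have h1 : ∀ x : ℂ, (rad ((fun y => y - s • x) '' KK (fun θ => s * h θ)) (ex φ)) ^ p =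
      s ^ p * (rad ((fun y => y - x) '' KK h) (ex φ)) ^ p := by
    intro x
    rw [G2_rad_scale h hs, Real.mul_rpow hs.le (rad_nonneg _ _)]
  simp only [h1] at key
  rw [integral_const_mul, smul_eq_mul] at key
  rw [Real.rpow_add hs, Real.rpow_two]
  have h2 : ∫ x in KK (fun θ => s * h θ),
      (rad ((fun y => y - x) '' KK (fun θ => s * h θ)) (ex φ)) ^ p =
      s ^ 2 * (s ^ p * ∫ x in KK h, (rad ((fun y => y - x) '' KK h) (ex φ)) ^ p) := by
    rw [key, ← mul_assoc, mul_inv_cancel₀ (by positivity), one_mul]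
  rw [h2]
  ring

theorem G2_compact_scale (hh : HOK h) {s : ℝ} (hs : 0 < s) : IsCompact (KK (fun θ => s * h θ)) := by
  rw [G2_KK_scale h hs]
  exact (KK_compact hh).smul s

theorem FF_sandwich (hh : HOK h) (hh' : HOK h') (hp : 0 < p) {s : ℝ} (hs0 : 0 ≤ s) (hs : s < 1)
    (h1 : ∀ θ, (1 - s) * h θ ≤ h' θ) (h2 : ∀ θ, h' θ ≤ (1 + s) * h θ) (φ : ℝ) :
    (1 - s) ^ (p + 2) * FF p h φ ≤ FF p h' φ ∧ FF p h' φ ≤ (1 + s) ^ (p + 2) * FF p h φ := by
  have e1 : (0:ℝ) < 1 - s := by linarith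
  have e2 : (0:ℝ) < 1 + s := by linarith
  constructor
  · rw [← FF_scale h hp e1]
    exact FF_mono (KK_compact hh') hp h1 φ
  · rw [← FF_scale h hp e2]
    exact FF_mono (G2_compact_scale hh e2) hp h2 φ

theorem FF_bounds (hh : HOK h) (hp1 : 1 ≤ p) (hp2 : p ≤ 2) (φ : ℝ) :
    0 ≤ FF p h φ ∧ FF p h φ ≤ 210 := by
  have hu : ‖ex φ‖ = 1 := G2_norm_ex φ
  constructor
  · unfold FF
    exact setIntegral_nonneg (KK_closed h).measurableSet
      fun x _ => Real.rpow_nonneg (rad_nonneg _ _) _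
  · have hb : ∀ x ∈ KK h, ‖(rad ((fun y => y - x) '' KK h) (ex φ)) ^ p‖ ≤ 16 := by
      intro x hx
      rw [Real.norm_of_nonneg (Real.rpow_nonneg (rad_nonneg _ _) _)]
      calc (rad ((fun y => y - x) '' KK h) (ex φ)) ^ p ≤ (4:ℝ) ^ p :=
            Real.rpow_le_rpow (rad_nonneg _ _) (rad_le hh hx hu) (by linarith)
        _ ≤ (4:ℝ) ^ (2:ℝ) := Real.rpow_le_rpow_of_exponent_le (by norm_num) hp2
        _ = 16 := by rw [Real.rpow_two]; norm_num
    have h3 : ‖∫ x in KK h, (rad ((fun y => y - x) '' KK h) (ex φ)) ^ p‖ ≤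
        16 * (volume : Measure ℂ).real (KK h) :=
      norm_setIntegral_le_of_norm_le_const (KK_vol_pos hh).2 hb
    have h4 : (volume : Measure ℂ).real (KK h) ≤ 4 * Real.pi := by
      have h5 : (volume : Measure ℂ).real (KK h) ≤
          (volume : Measure ℂ).real (Metric.closedBall (0:ℂ) 2) := by
        refine measureReal_mono (KK_bdd hh) ?_
        exact (isCompact_closedBall (0:ℂ) 2).measure_lt_top.ne
      refine h5.trans (le_of_eq ?_)
      rw [Measure.real, Complex.volume_closedBall]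
      rw [ENNReal.toReal_mul, ENNReal.toReal_pow, ENNReal.toReal_ofReal (by norm_num)]
      simp
      norm_num
    have h6 := Real.pi_lt_d2
    unfold FF
    calc ∫ x in KK h, (rad ((fun y => y - x) '' KK h) (ex φ)) ^ p
        ≤ ‖∫ x in KK h, (rad ((fun y => y - x) '' KK h) (ex φ)) ^ p‖ := Real.le_norm_self _
      _ ≤ 16 * (volume : Measure ℂ).real (KK h) := h3
      _ ≤ 210 := by nlinarith

/-- quantitative continuity in `h` -/
theorem FF_near (hh : HOK h) (hh' : HOK h') (hp1 : 1 ≤ p) (hp2 : p ≤ 2) {η : ℝ}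
    (hη : η ≤ 1 / 10) (hd : ∀ θ, |h θ - h' θ| ≤ η) (φ : ℝ) :
    |FF p h φ - FF p h' φ| ≤ 10000 * η := by
  have hη0 : 0 ≤ η := (abs_nonneg _).trans (hd 0)
  have hs0 : (0:ℝ) ≤ 2 * η := by linarith
  have hs1 : 2 * η < 1 := by linarith
  have a1 : ∀ θ, (1 - 2 * η) * h θ ≤ h' θ := by
    intro θ
    have := (abs_le.1 (hd θ)).2
    nlinarith [hh.lo θ]
  have a2 : ∀ θ, h' θ ≤ (1 + 2 * η) * h θ := by
    intro θ
    have := (abs_le.1 (hd θ)).1
    nlinarith [hh.lo θ]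
  obtain ⟨b1, b2⟩ := FF_sandwich hh hh' (by linarith : 0 < p) hs0 hs1 a1 a2 φ
  obtain ⟨c1, c2⟩ := FF_bounds hh hp1 hp2 φ
  have d1 : 1 - 8 * η ≤ (1 - 2 * η) ^ (p + 2) := by
    calc 1 - 8 * η ≤ (1 - 2 * η) ^ 4 := by nlinarith [sq_nonneg η, mul_nonneg hη0 (sq_nonneg η)]
      _ = (1 - 2 * η) ^ (4:ℝ) := by rw [← Real.rpow_natCast]; norm_num
      _ ≤ (1 - 2 * η) ^ (p + 2) :=
          Real.rpow_le_rpow_of_exponent_ge (by linarith) (by linarith) (by linarith)
  have d2 : (1 + 2 * η) ^ (p + 2) ≤ 1 + 12 * η := by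
    calc (1 + 2 * η) ^ (p + 2) ≤ (1 + 2 * η) ^ (4:ℝ) :=
          Real.rpow_le_rpow_of_exponent_le (by linarith) (by linarith)
      _ = (1 + 2 * η) ^ 4 := by rw [← Real.rpow_natCast]; norm_num
      _ ≤ 1 + 12 * η := by
          have e1 : η ^ 2 ≤ η * (1 / 10) := by nlinarith
          have e2 : η ^ 3 ≤ η * (1 / 100) := by nlinarith [sq_nonneg η]
          have e3 : η ^ 4 ≤ η * (1 / 1000) := by nlinarith [sq_nonneg η, mul_nonneg hη0 (sq_nonneg η)]
          nlinarith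
  rw [abs_le]
  constructor
  · nlinarith
  · nlinarith

end Pool.Agent.H53.RM
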