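import Pool.Agent.H53.RM.G2_Sandwich

/-!
# G3: symmetries of `F` and of its Fourier coefficients

* rotation: `x ↦ e^{-iα} x` maps `KK h` onto `KK (h(·+α))` and preserves area.
* `φ ↦ φ + π`: use `x ↦ -x` (`K = -K`).
* reflection `x ↦ conj x` maps `KK h` to `KK (θ ↦ h(π-θ))`, `= KK h` if `h` is even and `π`-periodic.
* `F(h,·)` is continuous: rotation formula and `FF_near`.
-/

namespace Pool.Agent.H53.RM

open Complex MeasureTheory Pool.Agent.H65.RM

variable {h h' : ℝ → ℝ} {p : ℝ}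

theorem G3_ex_conj (a : ℝ) : (starRingEnd ℂ) (ex a) * ex a = 1 := by
  rw [ex_conj, inv_mul_cancel₀ (ex_ne a)]

theorem KK_rot (h : ℝ → ℝ) (α : ℝ) (x : ℂ) :
    x ∈ KK (fun θ => h (θ + α)) ↔ ex α * x ∈ KK h := by
  have key : ∀ θ : ℝ, ex α * x * (starRingEnd ℂ) (nu (θ + α)) = x * (starRingEnd ℂ) (nu θ) := by
    intro θ
    unfold nu
    rw [ex_add, map_mul, map_mul, map_mul]
    linear_combination x * (starRingEnd ℂ) (-I) * (starRingEnd ℂ) (ex θ) * (G3_ex_conj α)
  constructor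
  · intro hx θ
    have h1 : (x * (starRingEnd ℂ) (nu (θ - α))).re ≤ h (θ - α + α) := hx (θ - α)
    rw [← key (θ - α), sub_add_cancel] at h1
    exact h1
  · intro hx θ
    have := hx (θ + α)
    rw [key θ] at this
    exact this

/-- the radial function of `K - x` in terms of `K` -/
theorem G3_rad (K : Set ℂ) (x u : ℂ) :
    rad ((fun y => y - x) '' K) u = sSup {l : ℝ | 0 ≤ l ∧ x + (l : ℂ) * u ∈ K} := by
  unfold rad
  congr 1
  ext l
  constructor
  · rintro ⟨h0, y, hy, hyl⟩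
    refine ⟨h0, ?_⟩
    have : x + (l : ℂ) * u = y := by
      have : y - x = (l : ℂ) * u := hyl
      rw [← this]; ring
    rw [this]; exact hy
  · rintro ⟨h0, hy⟩
    exact ⟨h0, x + (l : ℂ) * u, hy, by simp⟩

/-- change of variables by a linear isometry -/
theorem G3_change (T : ℂ ≃ₗᵢ[ℝ] ℂ) (K K' : Set ℂ) (hK : ∀ x, x ∈ K' ↔ T x ∈ K) (u u' : ℂ)
    (hu : T u' = u) (p : ℝ) :
    ∫ x in K', (rad ((fun y => y - x) '' K') u') ^ p = ∫ x in K, (rad ((fun y => y - x) '' K) u) ^ p := by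
  have hmp : MeasurePreserving T volume volume := T.measurePreserving
  have hemb : MeasurableEmbedding T := T.toHomeomorph.measurableEmbedding
  have hpre : K' = T ⁻¹' K := by
    ext x; exact hK x
  have h1 := hmp.setIntegral_preimage_emb hemb (fun x => (rad ((fun y => y - x) '' K) u) ^ p) K
  rw [← h1, ← hpre]
  congr 1
  ext x
  congr 1
  rw [G3_rad, G3_rad]
  congr 1
  ext l
  simp only [Set.mem_ofPred_eq]
  rw [hK, map_add]
  have : T ((l : ℂ) * u') = (l : ℂ) * u := by
    rw [← hu, ← Complex.real_smul, map_smul, Complex.real_smul]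
  rw [this]

theorem FF_rot (h : ℝ → ℝ) (p : ℝ) (α φ : ℝ) :
    FF p (fun θ => h (θ + α)) φ = FF p h (φ + α) := by
  have hc : ‖ex α‖ = 1 := ex_norm α
  let c : Circle := ⟨ex α, by simpa [Submonoid.unitSphere, mem_sphere_zero_iff_norm] using hc⟩
  have hT : ∀ x, rotation c x = ex α * x := fun x => rotation_apply c x
  unfold FF
  apply G3_change (rotation c)
  · intro x
    rw [KK_rot, hT]
  · rw [hT, ex_add, mul_comm]

theorem G3_rot_OK (hh : HOK h) (α : ℝ) : HOK (fun θ => h (θ + α)) := by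
  refine ⟨hh.cont.comp (continuous_id.add continuous_const), fun θ => hh.lo _, fun θ => hh.hi _, ?_⟩
  intro θ
  have := hh.per (θ + α)
  rw [← this]
  congr 1
  ring

theorem FF_pi (hh : HOK h) (φ : ℝ) : FF p h (φ + Real.pi) = FF p h φ := by
  rw [← FF_rot]
  have : (fun θ => h (θ + Real.pi)) = h := by
    ext θ; exact hh.per θ
  rw [this]

theorem G3_conj_KK (hh : HOK h) (he : ∀ θ, h (-θ) = h θ) (x : ℂ) :
    x ∈ KK h ↔ Complex.conjLIE x ∈ KK h := by
  have key : ∀ x : ℂ, ∀ θ : ℝ, ((starRingEnd ℂ) x * (starRingEnd ℂ) (nu (-θ - Real.pi))).re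
      = (x * (starRingEnd ℂ) (nu θ)).re := by
    intro x θ
    have h1 : nu (-θ - Real.pi) = (starRingEnd ℂ) (nu θ) := by
      unfold nu
      rw [map_mul, map_neg, conj_I, ex_conj, sub_eq_add_neg, ex_add, ex_neg, ex_neg]
      have : ex Real.pi = -1 := by
        unfold ex
        rw [mul_comm, exp_pi_mul_I]
      rw [this]
      ring
    rw [h1, ← map_mul, conj_re, ← conj_re (x * (starRingEnd ℂ) (nu θ))]
  have hper' : ∀ θ, h (-θ - Real.pi) = h θ := by
    intro θ
    have h1 : -θ - Real.pi = -(θ + Real.pi) := by ring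
    rw [h1, he, hh.per]
  constructor
  · intro hx θ
    have h1 := hx (-θ - Real.pi)
    rw [hper'] at h1
    have h2 := key x (-θ - Real.pi)
    have h3 : -(-θ - Real.pi) - Real.pi = θ := by ring
    rw [h3] at h2
    show ((starRingEnd ℂ) x * (starRingEnd ℂ) (nu θ)).re ≤ h θ
    rw [h2]; exact h1
  · intro hx θ
    have h1 : ((starRingEnd ℂ) x * (starRingEnd ℂ) (nu (-θ - Real.pi))).re ≤ h (-θ - Real.pi) :=
      hx (-θ - Real.pi)
    rw [key, hper'] at h1
    exact h1

theorem FF_even (hh : HOK h) (he : ∀ θ, h (-θ) = h θ) (φ : ℝ) : FF p h (-φ) = FF p h φ := by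
  unfold FF
  apply G3_change Complex.conjLIE
  · exact G3_conj_KK hh he
  · show (starRingEnd ℂ) (ex (-φ)) = ex φ
    rw [ex_conj, ← ex_neg, neg_neg]

/-- uniform continuity -/
theorem G3_unif (hh : HOK h) {ε : ℝ} (hε : 0 < ε) :
    ∃ δ > 0, ∀ α : ℝ, |α| < δ → ∀ θ, |h (θ + α) - h θ| ≤ ε := by
  have hper : Function.Periodic h Real.pi := hh.per
  have : Fact (0 < Real.pi) := ⟨Real.pi_pos⟩
  have hcl : Continuous (hper.lift : AddCircle Real.pi → ℝ) := by
    exact continuous_coinduced_dom.mpr hh.cont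
  have hu : UniformContinuous (hper.lift : AddCircle Real.pi → ℝ) :=
    CompactSpace.uniformContinuous_of_continuous hcl
  rw [Metric.uniformContinuous_iff] at hu
  obtain ⟨δ, hδ, hd⟩ := hu ε hε
  refine ⟨δ, hδ, fun α hα θ => ?_⟩
  have h1 : dist ((θ + α : ℝ) : AddCircle Real.pi) (θ : AddCircle Real.pi) < δ := by
    rw [dist_eq_norm, ← AddCircle.coe_sub]
    refine lt_of_le_of_lt ?_ hα
    have : θ + α - θ = α := by ring
    rw [this]
    exact QuotientAddGroup.norm_mk_le_norm (M := ℝ)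
  have h2 := hd h1
  rw [Real.dist_eq] at h2
  exact h2.le

theorem FF_cont (hh : HOK h) (hp1 : 1 ≤ p) (hp2 : p ≤ 2) : Continuous (FF p h) := by
  rw [Metric.continuous_iff]
  intro φ ε hε
  obtain ⟨δ, hδ, hd⟩ := G3_unif hh (show 0 < min (1 / 10) (ε / 20000) by positivity)
  refine ⟨δ, hδ, fun ψ hψ => ?_⟩
  rw [Real.dist_eq] at hψ ⊢
  have h1 : FF p h ψ = FF p (fun θ => h (θ + (ψ - φ))) φ := by
    rw [FF_rot]; congr 1; ring
  rw [h1]
  have h2 := FF_near (G3_rot_OK hh (ψ - φ)) hh hp1 hp2 (min_le_left (1 / 10) (ε / 20000))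
    (fun θ => hd (ψ - φ) hψ θ) φ
  have h3 := min_le_right (1 / 10) (ε / 20000)
  calc _ ≤ 10000 * min (1 / 10) (ε / 20000) := h2
    _ ≤ 10000 * (ε / 20000) := by gcongr
    _ < ε := by linarith

theorem G3_ex_cont (c : ℝ) : Continuous fun φ : ℝ => ex (c * φ) :=
  continuous_ex.comp (continuous_const.mul continuous_id)

theorem G3_int_cont (hh : HOK h) (hp1 : 1 ≤ p) (hp2 : p ≤ 2) (K : ℤ) :
    Continuous fun φ : ℝ => (FF p h φ : ℂ) * ex (-(2 * K * φ)) := by
  have h1 : Continuous fun φ : ℝ => ex (-(2 * K * φ)) :=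
    continuous_ex.comp (by fun_prop)
  exact (Complex.continuous_ofReal.comp (FF_cont hh hp1 hp2)).mul h1

theorem G3_ex_per (K : ℤ) (φ : ℝ) : ex (-(2 * K * (φ + Real.pi))) = ex (-(2 * K * φ)) := by
  have h1 : -(2 * K * (φ + Real.pi)) = -(2 * K * φ) + ((-K : ℤ) : ℝ) * (2 * Real.pi) := by
    push_cast; ring
  rw [h1, ex_add, ← ex_zpow, ex_two_pi, one_zpow, mul_one]

/-- the integrand is `π`-periodic -/
theorem G3_per (hh : HOK h) (K : ℤ) :
    Function.Periodic (fun φ : ℝ => (FF p h φ : ℂ) * ex (-(2 * K * φ))) Real.pi := by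
  intro φ
  show (FF p h (φ + Real.pi) : ℂ) * ex (-(2 * K * (φ + Real.pi))) = _
  rw [FF_pi hh, G3_ex_per]

theorem G3_per2 (hh : HOK h) (K : ℤ) :
    Function.Periodic (fun φ : ℝ => (FF p h φ : ℂ) * ex (-(2 * K * φ))) (2 * Real.pi) := by
  have := (G3_per (p := p) hh K).nsmul 2
  simpa using this

/-- the Fourier coefficients are real and even in `K` if `h` is even -/
theorem Fc_real (hh : HOK h) (he : ∀ θ, h (-θ) = h θ) (hp1 : 1 ≤ p) (hp2 : p ≤ 2) (K : ℤ) :
    (Fc p h K).im = 0 ∧ Fc p h (-K) = Fc p h K := by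
  have heven : Fc p h (-K) = Fc p h K := by
    unfold Fc
    congr 1
    have h1 : ∀ φ : ℝ, (FF p h φ : ℂ) * ex (-(2 * (-K : ℤ) * φ))
        = (fun φ : ℝ => (FF p h φ : ℂ) * ex (-(2 * K * φ))) (-φ) := by
      intro φ
      show _ = (FF p h (-φ) : ℂ) * ex (-(2 * K * (-φ)))
      rw [FF_even hh he]
      congr 2
      push_cast; ring
    simp_rw [h1]
    rw [intervalIntegral.integral_comp_neg (fun φ : ℝ => (FF p h φ : ℂ) * ex (-(2 * K * φ)))]
    have h2 := (G3_per2 (p := p) hh K).intervalIntegral_add_eq (-(2 * Real.pi)) 0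
    rw [neg_add_cancel, zero_add] at h2
    rw [neg_zero]
    exact h2
  refine ⟨?_, heven⟩
  have hconj : (starRingEnd ℂ) (Fc p h K) = Fc p h (-K) := by
    unfold Fc
    rw [map_mul, conj_ofReal]
    congr 1
    rw [← intervalIntegral.intervalIntegral_conj]
    congr 1
    ext φ
    rw [map_mul, conj_ofReal, ex_conj, ← ex_neg]
    congr 2
    push_cast; ring
  rw [heven] at hconj
  exact Complex.conj_eq_iff_im.mp hconj

/-- continuity of the coefficients in `h` -/
theorem Fc_near (hh : HOK h) (hh' : HOK h') (hp1 : 1 ≤ p) (hp2 : p ≤ 2) {η : ℝ}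
    (hη : η ≤ 1 / 10) (hd : ∀ θ, |h θ - h' θ| ≤ η) (K : ℤ) :
    ‖Fc p h K - Fc p h' K‖ ≤ 10000 * η := by
  unfold Fc
  rw [← mul_sub, ← intervalIntegral.integral_sub
    ((G3_int_cont hh hp1 hp2 K).intervalIntegrable _ _)
    ((G3_int_cont hh' hp1 hp2 K).intervalIntegrable _ _)]
  rw [norm_mul]
  have h1 : ‖∫ φ in (0:ℝ)..(2 * Real.pi), ((FF p h φ : ℂ) * ex (-(2 * K * φ))
      - (FF p h' φ : ℂ) * ex (-(2 * K * φ)))‖ ≤ 10000 * η * |2 * Real.pi - 0| := by
    apply intervalIntegral.norm_integral_le_of_norm_le_const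
    intro φ _
    rw [← sub_mul, norm_mul, ex_norm, mul_one, ← ofReal_sub, norm_real, Real.norm_eq_abs]
    exact FF_near hh hh' hp1 hp2 hη hd φ
  have h2 : ‖((1 / (2 * Real.pi) : ℝ) : ℂ)‖ = 1 / (2 * Real.pi) := by
    rw [norm_real, Real.norm_eq_abs, abs_of_pos (by positivity)]
  rw [h2]
  have hpi := Real.pi_pos
  rw [sub_zero, abs_of_pos (by positivity)] at h1
  calc _ ≤ 1 / (2 * Real.pi) * (10000 * η * (2 * Real.pi)) := by gcongr
    _ = 10000 * η := by field_simp

theorem G3_shift (hh : HOK h) (K : ℤ) :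
    ∫ φ in (0:ℝ)..(2 * Real.pi), (FF p h (φ + Real.pi / 2) : ℂ) * ex (-(2 * K * φ))
      = ex (K * Real.pi) * ∫ φ in (0:ℝ)..(2 * Real.pi), (FF p h φ : ℂ) * ex (-(2 * K * φ)) := by
  have h1 : ∀ φ : ℝ, (FF p h (φ + Real.pi / 2) : ℂ) * ex (-(2 * K * φ))
      = ex (K * Real.pi) * (fun φ : ℝ => (FF p h φ : ℂ) * ex (-(2 * K * φ))) (φ + Real.pi / 2) := by
    intro φ
    show _ = ex (K * Real.pi) * ((FF p h (φ + Real.pi / 2) : ℂ) * ex (-(2 * K * (φ + Real.pi / 2))))
    have : ex (-(2 * K * φ)) = ex (K * Real.pi) * ex (-(2 * K * (φ + Real.pi / 2))) := by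
      rw [← ex_add]; congr 1; ring
    rw [this]; ring
  simp_rw [h1]
  rw [intervalIntegral.integral_const_mul]
  congr 1
  rw [intervalIntegral.integral_comp_add_right (fun φ : ℝ => (FF p h φ : ℂ) * ex (-(2 * K * φ)))]
  have h2 := (G3_per2 (p := p) hh K).intervalIntegral_add_eq (Real.pi / 2) 0
  rw [zero_add] at h2 ⊢
  rw [← h2]
  congr 1
  ring

theorem G3_ex_pi (K : ℤ) : ex (K * Real.pi) = (-1) ^ K := by
  rw [← ex_zpow]
  congr 1
  unfold ex
  rw [mul_comm, exp_pi_mul_I]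

/-- if `h(θ + π/2) = h(θ)` then the odd coefficients vanish -/
theorem Fc_fourfold (hh : HOK h) (h4 : ∀ θ, h (θ + Real.pi / 2) = h θ) (hp1 : 1 ≤ p) (hp2 : p ≤ 2)
    {K : ℤ} (hK : Odd K) : Fc p h K = 0 := by
  have h1 : ∀ φ, FF p h (φ + Real.pi / 2) = FF p h φ := by
    intro φ
    rw [← FF_rot]
    have : (fun θ => h (θ + Real.pi / 2)) = h := by
      ext θ; exact h4 θ
    rw [this]
  have h2 := G3_shift (p := p) hh K
  simp_rw [h1] at h2
  rw [G3_ex_pi, hK.neg_one_zpow] at h2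
  unfold Fc
  have h3 : ∫ φ in (0:ℝ)..(2 * Real.pi), (FF p h φ : ℂ) * ex (-(2 * K * φ)) = 0 := by
    have : (2 : ℂ) * ∫ φ in (0:ℝ)..(2 * Real.pi), (FF p h φ : ℂ) * ex (-(2 * K * φ)) = 0 := by
      linear_combination h2
    simpa using this
  rw [h3, mul_zero]

/-- Fourier uniqueness: if all odd coefficients vanish then `F(φ + π/2) = F(φ)` -/
theorem FF_halfturn (hh : HOK h) (hp1 : 1 ≤ p) (hp2 : p ≤ 2)
    (hF : ∀ K : ℤ, Odd K → Fc p h K = 0) (φ : ℝ) : FF p h (φ + Real.pi / 2) = FF p h φ := by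
  have hpi := Real.pi_pos
  have : Fact (0 < Real.pi) := ⟨Real.pi_pos⟩
  set G : ℝ → ℂ := fun φ => (FF p h (φ + Real.pi / 2) : ℂ) - FF p h φ with hG
  have hGc : Continuous G := by
    have hc := FF_cont hh hp1 hp2
    exact (Complex.continuous_ofReal.comp (hc.comp (continuous_id.add continuous_const))).sub
      (Complex.continuous_ofReal.comp hc)
  have hGp : Function.Periodic G Real.pi := by
    intro φ
    simp only [hG]
    have : φ + Real.pi + Real.pi / 2 = (φ + Real.pi / 2) + Real.pi := by ring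
    rw [this, FF_pi hh, FF_pi hh]
  have hcl : Continuous (hGp.lift : AddCircle Real.pi → ℂ) := by
    exact continuous_coinduced_dom.mpr hGc
  let f : C(AddCircle Real.pi, ℂ) := ⟨hGp.lift, hcl⟩
  have hcoef : ∀ n : ℤ, fourierCoeff f n = 0 := by
    intro n
    rw [fourierCoeff_eq_intervalIntegral f n 0]
    have h0 : ∫ φ in (0:ℝ)..(2 * Real.pi), G φ * ex (-(2 * n * φ)) = 0 := by
      have h1 : ∀ φ : ℝ, G φ * ex (-(2 * n * φ)) =
          (FF p h (φ + Real.pi / 2) : ℂ) * ex (-(2 * n * φ)) - (FF p h φ : ℂ) * ex (-(2 * n * φ)) := by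
        intro φ; simp only [hG]; ring
      simp_rw [h1]
      have hc1 : Continuous fun φ : ℝ => (FF p h (φ + Real.pi / 2) : ℂ) * ex (-(2 * n * φ)) :=
        (Complex.continuous_ofReal.comp ((FF_cont hh hp1 hp2).comp
          (continuous_id.add continuous_const))).mul (continuous_ex.comp (by fun_prop))
      rw [intervalIntegral.integral_sub (hc1.intervalIntegrable _ _)
        ((G3_int_cont hh hp1 hp2 n).intervalIntegrable _ _), G3_shift hh n, G3_ex_pi]
      rcases Int.even_or_odd n with hn | hn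
      · rw [hn.neg_one_zpow, one_mul, sub_self]
      · have h3 := hF n hn
        unfold Fc at h3
        have h4 : ((1 / (2 * Real.pi) : ℝ) : ℂ) ≠ 0 := by
          rw [ne_eq, ofReal_eq_zero]
          positivity
        have h5 := (mul_eq_zero.mp h3).resolve_left h4
        rw [h5]; simp
    have hp' : Function.Periodic (fun φ : ℝ => G φ * ex (-(2 * n * φ))) Real.pi := by
      intro φ
      show G (φ + Real.pi) * ex (-(2 * n * (φ + Real.pi))) = _
      rw [hGp, G3_ex_per]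
    have hc' : Continuous fun φ : ℝ => G φ * ex (-(2 * n * φ)) :=
      hGc.mul (continuous_ex.comp (by fun_prop))
    have h6 : ∫ φ in (0:ℝ)..Real.pi, G φ * ex (-(2 * n * φ)) = 0 := by
      have h7 := intervalIntegral.integral_add_adjacent_intervals
        (hc'.intervalIntegrable (μ := volume) 0 Real.pi)
        (hc'.intervalIntegrable (μ := volume) Real.pi (2 * Real.pi))
      rw [h0] at h7
      have h8 := hp'.intervalIntegral_add_eq Real.pi 0
      rw [zero_add, ← two_mul] at h8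
      rw [h8] at h7
      have : (2 : ℂ) * ∫ φ in (0:ℝ)..Real.pi, G φ * ex (-(2 * n * φ)) = 0 := by
        linear_combination h7
      simpa using this
    have h9 : ∫ x in (0:ℝ)..(0 + Real.pi), fourier (-n) (x : AddCircle Real.pi) • f (x : AddCircle Real.pi)
        = ∫ φ in (0:ℝ)..Real.pi, G φ * ex (-(2 * n * φ)) := by
      rw [zero_add]
      congr 1
      ext x
      rw [fourier_coe_apply, smul_eq_mul, mul_comm]
      have hf : f (x : AddCircle Real.pi) = G x := rfl
      rw [hf]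
      congr 1
      unfold ex
      congr 1
      have : (Real.pi : ℂ) ≠ 0 := by exact_mod_cast hpi.ne'
      push_cast
      field_simp
    rw [h9, h6, smul_zero]
  have hsum : Summable (fourierCoeff f) := by
    have : fourierCoeff f = fun _ => 0 := by ext n; exact hcoef n
    rw [this]; exact summable_zero
  have h10 := has_pointwise_sum_fourier_series_of_summable hsum (φ : AddCircle Real.pi)
  have h11 : f (φ : AddCircle Real.pi) = 0 := by
    have h12 : (fun i => fourierCoeff f i • fourier i (φ : AddCircle Real.pi)) = fun _ => 0 := by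
      ext i; rw [hcoef i, zero_smul]
    rw [h12] at h10
    exact (hasSum_zero.unique h10).symm
  have h13 : G φ = 0 := h11
  simp only [hG] at h13
  have h14 := sub_eq_zero.mp h13
  exact_mod_cast h14

end Pool.Agent.H53.RM
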