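import Pool.Agent.H53.RM.G1_Body

/-!
# G4: trigonometric bodies

`|a_i| = 2|r_i|/(4i²-1) ≤ |r_i|` (`i ≥ 1`), so `∑ |a_i| ≤ 1/1000`, `h ∈ [1/2, 2]`, `ρ ∈ [1/2, 2]`.
`ga N (rr a) θ = (h'(θ) - i h(θ)) e^{iθ}`, so `Re(γ(θ) conj ν(θ)) = h(θ)` (compare coefficients:
`r_i (-i/(2i+1) e^{2iiθ} + i/(2i-1) e^{-2iiθ})`, `r_i = (1-4i²)a_i/2`).
`hasDerivAt_ga`: `γ' = ρ e^{iθ}`.
`g(θ') = Re((γ(θ')-γ(θ)) conj ν(θ))`, `g'(θ') = -ρ(θ') sin(θ'-θ)`, `g(θ) = g(θ+2π) = 0`: negative on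
`(θ, θ+2π)`.
-/

namespace Pool.Agent.H53.RM

open Complex MeasureTheory Pool.Agent.H65.RM

variable {N : ℕ} {a : ℕ → ℝ}

theorem G4_sum_r (ha : Sml N a) : ∑ i ∈ Finset.Icc 1 N, |rr a i| ≤ 1 / 1000 := by
  refine le_trans ?_ (le_of_lt ha)
  unfold wt
  apply Finset.sum_le_sum
  intro i hi
  have h1 : (1:ℝ) ≤ i := by
    have := (Finset.mem_Icc.1 hi).1
    exact_mod_cast this
  rw [one_pow, mul_one]
  nlinarith [abs_nonneg (rr a i)]

theorem G4_sum_a (ha : Sml N a) : ∑ i ∈ Finset.Icc 1 N, |a i| ≤ 1 / 1000 := by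
  refine le_trans ?_ (G4_sum_r ha)
  apply Finset.sum_le_sum
  intro i hi
  have h1 : (1:ℝ) ≤ i := by
    have := (Finset.mem_Icc.1 hi).1
    exact_mod_cast this
  unfold rr
  rw [abs_div, abs_mul, abs_two]
  have h2 : |1 - 4 * (i:ℝ) ^ 2| = 4 * (i:ℝ) ^ 2 - 1 := by
    rw [abs_of_nonpos (by nlinarith)]; ring
  rw [h2]
  nlinarith [abs_nonneg (a i), mul_nonneg (abs_nonneg (a i)) (by nlinarith : (0:ℝ) ≤ (i:ℝ) ^ 2 - 1)]

theorem G4_abs_sum {c : ℕ → ℝ} {s : ℕ → ℝ} (hs : ∀ i, |s i| ≤ 1)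
    (hc : ∑ i ∈ Finset.Icc 1 N, |c i| ≤ 1 / 1000) :
    |∑ i ∈ Finset.Icc 1 N, c i * s i| ≤ 1 / 1000 := by
  refine le_trans (Finset.abs_sum_le_sum_abs _ _) (le_trans ?_ hc)
  apply Finset.sum_le_sum
  intro i _
  rw [abs_mul]
  calc |c i| * |s i| ≤ |c i| * 1 := mul_le_mul_of_nonneg_left (hs i) (abs_nonneg _)
    _ = |c i| := mul_one _

theorem G4_per (N : ℕ) (a : ℕ → ℝ) (θ : ℝ) : hh N a (θ + Real.pi) = hh N a θ := by
  unfold hh
  congr 1
  apply Finset.sum_congr rfl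
  intro i _
  congr 1
  have : 2 * (i : ℝ) * (θ + Real.pi) = 2 * i * θ + (i : ℝ) * (2 * Real.pi) := by ring
  rw [this, Real.cos_add_nat_mul_two_pi]

theorem hh_HOK (ha : Sml N a) : HOK (hh N a) where
  cont := by unfold hh; fun_prop
  lo θ := by
    have h := abs_le.1 (G4_abs_sum (N := N) (c := a) (s := fun i => Real.cos (2 * i * θ))
      (fun i => Real.abs_cos_le_one _) (G4_sum_a ha))
    unfold hh
    linarith [h.1]
  hi θ := by
    have h := abs_le.1 (G4_abs_sum (N := N) (c := a) (s := fun i => Real.cos (2 * i * θ))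
      (fun i => Real.abs_cos_le_one _) (G4_sum_a ha))
    unfold hh
    linarith [h.2]
  per := G4_per N a

theorem hh_even (N : ℕ) (a : ℕ → ℝ) (θ : ℝ) : hh N a (-θ) = hh N a θ := by
  unfold hh
  congr 1
  apply Finset.sum_congr rfl
  intro i _
  rw [mul_neg, Real.cos_neg]

theorem ro_bounds (ha : Sml N a) (θ : ℝ) : 1 / 2 ≤ ro N (rr a) θ ∧ ro N (rr a) θ ≤ 2 := by
  have h := abs_le.1 (G4_abs_sum (N := N) (c := rr a) (s := fun i => Real.cos (2 * i * θ))
    (fun i => Real.abs_cos_le_one _) (G4_sum_r ha))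
  unfold ro
  constructor
  · linarith [h.1]
  · linarith [h.2]

theorem G4_conj_nu (θ : ℝ) : (starRingEnd ℂ) (nu θ) = I * exp (-(I * θ)) := by
  unfold nu
  rw [map_mul, ex_conj, map_neg, conj_I, neg_neg]
  unfold ex
  rw [← Complex.exp_neg]

theorem G4_term (i : ℕ) (r θ : ℝ) :
    (((r : ℂ) * (-I / (2 * i + 1) * exp (I * ((2 * i + 1) * θ)) +
      I / (2 * i - 1) * exp (-(I * ((2 * i - 1) * θ))))) * (I * exp (-(I * θ)))).re =
    r * (1 / (2 * i + 1) - 1 / (2 * i - 1)) * Real.cos (2 * i * θ) := by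
  have e1 : exp (I * ((2 * i + 1) * θ)) * exp (-(I * θ)) = exp (((2 * i * θ : ℝ) : ℂ) * I) := by
    rw [← Complex.exp_add]; congr 1; push_cast; ring
  have e2 : exp (-(I * ((2 * i - 1) * θ))) * exp (-(I * θ)) =
      exp (((-(2 * i * θ) : ℝ) : ℂ) * I) := by
    rw [← Complex.exp_add]; congr 1; push_cast; ring
  have e3 : ((r : ℂ) * (-I / (2 * i + 1) * exp (I * ((2 * i + 1) * θ)) +
      I / (2 * i - 1) * exp (-(I * ((2 * i - 1) * θ))))) * (I * exp (-(I * θ))) =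
      ((r * (1 / (2 * i + 1)) : ℝ) : ℂ) * exp (((2 * i * θ : ℝ) : ℂ) * I) -
      ((r * (1 / (2 * i - 1)) : ℝ) : ℂ) * exp (((-(2 * i * θ) : ℝ) : ℂ) * I) := by
    rw [← e1, ← e2]
    push_cast
    have hI : I * I = -1 := I_mul_I
    linear_combination (-(r:ℂ) / (2 * i + 1) * (exp (I * ((2 * i + 1) * θ)) * exp (-(I * θ))) +
      (r:ℂ) / (2 * i - 1) * (exp (-(I * ((2 * i - 1) * θ))) * exp (-(I * θ)))) * hI
  rw [e3, Complex.sub_re, Complex.re_ofReal_mul, Complex.re_ofReal_mul,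
    Complex.exp_ofReal_mul_I_re, Complex.exp_ofReal_mul_I_re, Real.cos_neg]
  ring

theorem ga_nu (N : ℕ) (a : ℕ → ℝ) (θ : ℝ) :
    (ga N (rr a) θ * (starRingEnd ℂ) (nu θ)).re = hh N a θ := by
  rw [G4_conj_nu]
  unfold ga hh
  rw [add_mul, Finset.sum_mul, Complex.add_re, Complex.re_sum]
  congr 1
  · have e : -I * exp (I * θ) * (I * exp (-(I * θ))) = -(I * I) * (exp (I * θ) * exp (-(I * θ))) := by
      ring
    rw [e, ← Complex.exp_add, add_neg_cancel, Complex.exp_zero, I_mul_I]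
    simp
  · apply Finset.sum_congr rfl
    intro i hi
    rw [G4_term]
    have h1 : (1:ℝ) ≤ i := by
      have := (Finset.mem_Icc.1 hi).1
      exact_mod_cast this
    have h2 : (2 * (i:ℝ) + 1) ≠ 0 := by positivity
    have h3 : (2 * (i:ℝ) - 1) ≠ 0 := by
      have : 0 < 2 * (i:ℝ) - 1 := by linarith
      exact this.ne'
    have e1 : (1 / (2 * (i:ℝ) + 1) - 1 / (2 * (i:ℝ) - 1)) =
        -2 / ((2 * (i:ℝ) + 1) * (2 * (i:ℝ) - 1)) := by
      rw [div_sub_div _ _ h2 h3]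
      congr 1
      ring
    have e2 : rr a i = -((2 * (i:ℝ) + 1) * (2 * (i:ℝ) - 1)) * a i / 2 := by
      unfold rr
      ring
    have h4 : ((2 * (i:ℝ) + 1) * (2 * (i:ℝ) - 1)) ≠ 0 := mul_ne_zero h2 h3
    rw [e1, e2]
    congr 1
    field_simp

/-- the function `g` of the header -/
noncomputable def G4_g (N : ℕ) (a : ℕ → ℝ) (θ s : ℝ) : ℝ :=
  ((ga N (rr a) s - ga N (rr a) θ) * (starRingEnd ℂ) (nu θ)).re

theorem G4_deriv (N : ℕ) (a : ℕ → ℝ) (θ s : ℝ) :
    HasDerivAt (G4_g N a θ) (-(ro N (rr a) s * Real.sin (s - θ))) s := by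
  have h1 := ((hasDerivAt_ga (N := N) (r := rr a) s).sub_const (ga N (rr a) θ)).mul_const
    ((starRingEnd ℂ) (nu θ))
  have h2 := Complex.reCLM.hasFDerivAt.comp_hasDerivAt s h1
  refine HasDerivAt.congr_deriv h2 ?_
  rw [Complex.reCLM_apply, G4_conj_nu, mul_assoc, Complex.re_ofReal_mul]
  have e : ex s * (I * exp (-(I * θ))) = I * exp (((s - θ : ℝ) : ℂ) * I) := by
    unfold ex
    have : exp (((s - θ : ℝ) : ℂ) * I) = exp (I * s) * exp (-(I * θ)) := by
      rw [← Complex.exp_add]; congr 1; push_cast; ring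
    rw [this]; ring
  rw [e, Complex.I_mul_re, Complex.exp_ofReal_mul_I_im]
  ring

theorem G4_cont (N : ℕ) (a : ℕ → ℝ) (θ : ℝ) : Continuous (G4_g N a θ) :=
  continuous_iff_continuousAt.2 fun s => (G4_deriv N a θ s).continuousAt

theorem G4_zero (N : ℕ) (a : ℕ → ℝ) (θ : ℝ) : G4_g N a θ θ = 0 := by
  simp [G4_g]

theorem G4_zero2 (N : ℕ) (a : ℕ → ℝ) (θ : ℝ) : G4_g N a θ (θ + 2 * Real.pi) = 0 := by
  simp [G4_g, ga_periodic]

theorem G4_neg (ha : Sml N a) (θ : ℝ) {s : ℝ} (h1 : θ < s) (h2 : s < θ + 2 * Real.pi) :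
    G4_g N a θ s < 0 := by
  have hpi := Real.pi_pos
  rcases le_or_gt s (θ + Real.pi) with h | h
  · have hanti : StrictAntiOn (G4_g N a θ) (Set.Icc θ (θ + Real.pi)) := by
      apply strictAntiOn_of_deriv_neg (convex_Icc _ _) (G4_cont N a θ).continuousOn
      intro x hx
      rw [interior_Icc] at hx
      rw [(G4_deriv N a θ x).deriv]
      have := (ro_bounds ha x).1
      have := Real.sin_pos_of_pos_of_lt_pi (x := x - θ) (by linarith [hx.1]) (by linarith [hx.2])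
      have : 0 < ro N (rr a) x * Real.sin (x - θ) := by positivity
      linarith
    have := hanti (Set.left_mem_Icc.2 (by linarith)) ⟨h1.le, h⟩ h1
    rwa [G4_zero] at this
  · have hmono : StrictMonoOn (G4_g N a θ) (Set.Icc (θ + Real.pi) (θ + 2 * Real.pi)) := by
      apply strictMonoOn_of_deriv_pos (convex_Icc _ _) (G4_cont N a θ).continuousOn
      intro x hx
      rw [interior_Icc] at hx
      rw [(G4_deriv N a θ x).deriv]
      have h3 := (ro_bounds ha x).1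
      have h4 := Real.sin_pos_of_pos_of_lt_pi (x := x - θ - Real.pi) (by linarith [hx.1])
        (by linarith [hx.2])
      rw [Real.sin_sub_pi] at h4
      have : 0 < ro N (rr a) x * -Real.sin (x - θ) := by positivity
      linarith
    have := hmono ⟨h.le, h2.le⟩ (Set.right_mem_Icc.2 (by linarith)) h2
    rwa [G4_zero2] at this

/-- strict support property -/
theorem ga_strict (ha : Sml N a) {θ θ' : ℝ} (hne : ex θ' ≠ ex θ) :
    ((ga N (rr a) θ' - ga N (rr a) θ) * (starRingEnd ℂ) (nu θ)).re < 0 := by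
  have hpi := Real.two_pi_pos
  obtain ⟨k, hk, -⟩ := existsUnique_sub_zsmul_mem_Ico hpi θ' θ
  have pga : Function.Periodic (ga N (rr a)) (2 * Real.pi) := fun x => ga_periodic x
  have pex : Function.Periodic ex (2 * Real.pi) := fun x => by
    rw [ex_add, ex_two_pi, mul_one]
  have e1 : ga N (rr a) (θ' - k • (2 * Real.pi)) = ga N (rr a) θ' := pga.sub_zsmul_eq k
  have e2 : ex (θ' - k • (2 * Real.pi)) = ex θ' := pex.sub_zsmul_eq k
  have hlt : θ < θ' - k • (2 * Real.pi) := by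
    rcases hk.1.eq_or_lt with h | h
    · exfalso
      apply hne
      rw [← e2, ← h]
    · exact h
  have := G4_neg ha θ hlt hk.2
  unfold G4_g at this
  rwa [e1] at this

theorem ga_mem (ha : Sml N a) (θ : ℝ) : ga N (rr a) θ ∈ KK (hh N a) := by
  intro φ
  by_cases hne : ex θ = ex φ
  · have hnu : nu φ = nu θ := by unfold nu; rw [hne]
    rw [hnu, ga_nu]
    unfold ex at hne
    rw [Complex.exp_eq_exp_iff_exists_int] at hne
    obtain ⟨n, hn⟩ := hne
    have h1 : θ = φ + ((2 * n : ℤ) : ℝ) * Real.pi := by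
      have h2 : I * (θ:ℂ) = I * ((φ + ((2 * n : ℤ) : ℝ) * Real.pi : ℝ) : ℂ) := by
        rw [hn]; push_cast; ring
      exact_mod_cast mul_left_cancel₀ I_ne_zero h2
    have per : Function.Periodic (hh N a) Real.pi := G4_per N a
    rw [h1]
    exact (per.int_mul (2 * n) φ).le
  · have h := ga_strict (N := N) ha hne
    rw [sub_mul, Complex.sub_re, ga_nu] at h
    linarith

end Pool.Agent.H53.RM
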