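import Pool.Agent.H53.RM.G4_Trig
import Pool.Agent.H65.RM.Four

/-!
# G5: complements to the chord formula of `H65/RM/Chord4`

`Sml N a` gives `Sm N (rr a) R` for some `R > 1` (`wt` is continuous in `R`; `R ≤ 5/4`), in particular
`Sm.chord`, `Sm.bb_zero`, `Sm.bb_pi`, `Sm.bb_deriv`, `Sm.mr_bounds` (`0.97 ≤ m ≤ 1.03`) apply.
Joint continuity from `Sm.EE_cont`, `Sm.mm_cont` (`arg` is continuous near `1`: `‖E-1‖ ≤ 1/4`).
Kernel on real angles: `MM p N (rr a) (ex 2α) (ex 2t) = m^p ρ(α)` with `m` real (`Sm.mm_real`, `Sm.mr_eq`), so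
`(2 sin t)^p M = ell^p ρ`.
-/

namespace Pool.Agent.H53.RM

open Complex MeasureTheory Pool.Agent.H65.RM Filter Topology

variable {N : ℕ} {a : ℕ → ℝ}

theorem Sml_Sm (ha : Sml N a) : ∃ R : ℝ, 1 < R ∧ Sm N (rr a) R := by
  have hc : Continuous (fun R : ℝ => wt N (rr a) R) := by
    unfold wt
    fun_prop
  have h1 : ∀ᶠ R in 𝓝 (1:ℝ), wt N (rr a) R < 1 / 1000 :=
    hc.continuousAt.eventually_lt continuousAt_const ha
  have h2 : ∀ᶠ R in 𝓝 (1:ℝ), R < 5 / 4 := Iio_mem_nhds (by norm_num)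
  have h3 : ∀ᶠ R in 𝓝[>] (1:ℝ), wt N (rr a) R < 1 / 1000 ∧ R < 5 / 4 :=
    (h1.and h2).filter_mono nhdsWithin_le_nhds
  obtain ⟨R, ⟨h4, h5⟩, h6⟩ := (h3.and self_mem_nhdsWithin).exists
  exact ⟨R, h6, ⟨le_of_lt h6, h5.le, by linarith⟩⟩

theorem G5_dbl : Continuous fun x : ℝ × ℝ => (2 * x.1, 2 * x.2) := by fun_prop

theorem G5_c2 {F : ℂ → ℂ → ℂ} (h : Continuous fun x : ℝ × ℝ => F (ex x.1) (ex x.2)) :
    Continuous (fun x : ℝ × ℝ => F (ex (2 * x.1)) (ex (2 * x.2))) := h.comp G5_dbl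

theorem G5_argcont {F : ℝ × ℝ → ℂ} (hF : Continuous F) (h1 : ∀ x, ‖F x - 1‖ ≤ 1 / 4) :
    Continuous (fun x : ℝ × ℝ => x.1 + 2 * x.2 + arg (F x)) := by
  have harg : Continuous (fun x : ℝ × ℝ => arg (F x)) := by
    rw [continuous_iff_continuousAt]
    intro x
    have hs : F x ∈ slitPlane := by
      left
      have h4 := Complex.abs_re_le_norm (F x - 1)
      rw [Complex.sub_re, Complex.one_re] at h4
      have := (abs_le.1 (h4.trans (h1 x))).1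
      linarith
    exact ContinuousAt.comp (f := F) (continuousAt_arg hs) hF.continuousAt
  fun_prop

theorem bb_cont (ha : Sml N a) : Continuous (fun x : ℝ × ℝ => bb N (rr a) x.1 x.2) := by
  obtain ⟨R, hR, h⟩ := Sml_Sm ha
  have h1 := G5_argcont (G5_c2 h.EE_cont)
    (fun x => (h.EE_mem (ex_mem h.one_le (2 * x.1)) (ex_mem h.one_le (2 * x.2))).1)
  exact h1

theorem G5_mulcont {F : ℝ × ℝ → ℝ} (hF : Continuous F) :
    Continuous (fun x : ℝ × ℝ => 2 * F x * Real.sin x.2) := by fun_prop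

theorem G5_recont {F : ℝ × ℝ → ℂ} (hF : Continuous F) :
    Continuous (fun x : ℝ × ℝ => (F x).re) := Complex.continuous_re.comp hF

theorem G5_el (N : ℕ) (r : ℕ → ℝ) (x : ℝ × ℝ) : el N r x.1 x.2 =
    2 * (mm N r (ex (2 * x.1)) (ex (2 * x.2))).re * Real.sin x.2 := rfl

theorem el_cont (ha : Sml N a) : Continuous (fun x : ℝ × ℝ => el N (rr a) x.1 x.2) := by
  obtain ⟨R, hR, h⟩ := Sml_Sm ha
  have h1 := G5_mulcont (G5_recont (G5_c2 h.mm_cont))
  simp only [G5_el]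
  exact h1

theorem el_pos (ha : Sml N a) (α : ℝ) {t : ℝ} (h0 : 0 < t) (hp : t < Real.pi) :
    0 < el N (rr a) α t := by
  obtain ⟨R, hR, h⟩ := Sml_Sm ha
  unfold el
  have h2 := (h.mr_bounds α t).1
  have h3 := Real.sin_pos_of_pos_of_lt_pi h0 hp
  positivity

theorem el_nonneg (ha : Sml N a) (α : ℝ) {t : ℝ} (h0 : 0 ≤ t) (hp : t ≤ Real.pi) :
    0 ≤ el N (rr a) α t := by
  obtain ⟨R, hR, h⟩ := Sml_Sm ha
  exact h.el_nonneg α h0 hp

theorem el_per (N : ℕ) (r : ℕ → ℝ) (α t : ℝ) : el N r (α + 2 * Real.pi) t = el N r α t := by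
  unfold el mr
  have : ex (2 * (α + 2 * Real.pi)) = ex (2 * α) := by
    rw [show 2 * (α + 2 * Real.pi) = 2 * α + 2 * Real.pi + 2 * Real.pi by ring, ex_add, ex_add,
      ex_two_pi, mul_one, mul_one]
  rw [this]

theorem MM_el (ha : Sml N a) {p : ℝ} (hp : 0 < p) (α : ℝ) {t : ℝ} (h0 : 0 ≤ t)
    (hpi : t ≤ Real.pi) :
    (((2 * Real.sin t) ^ p : ℝ) : ℂ) * MM p N (rr a) (ex (2 * α)) (ex (2 * t)) =
      ((el N (rr a) α t ^ p * ro N (rr a) α : ℝ) : ℂ) := by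
  obtain ⟨R, hR, h⟩ := Sml_Sm ha
  rw [h.MM_torus, ← Complex.ofReal_mul]
  congr 1
  have h2 := (h.mr_bounds α t).1
  have h3 := Real.sin_nonneg_of_nonneg_of_le_pi h0 hpi
  have h4 := Real.mul_rpow (x := 2 * Real.sin t) (y := mr N (rr a) α t) (z := p) (by positivity)
    (by linarith)
  have h5 : el N (rr a) α t = 2 * Real.sin t * mr N (rr a) α t := by
    unfold el; ring
  rw [h5, h4]
  ring

end Pool.Agent.H53.RM
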