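import Pool.Agent.H53.RM.G5_Chord

/-!
# G6: slices of `K` and the chord length formula for `F`

Fix `φ`.  For `t ∈ [0,π]`, `α = φ - t`, `s(t) = Im(e^{-iφ} γ(φ-t))`: `s'(t) = ρ(φ-t) sin t`, `s` is strictly
increasing from `-h(φ)` to `h(φ)`.
For `t ∈ (0,π)` the slice `{λ : e^{iφ}(λ + i s(t)) ∈ K}` is `[λ₀, λ₀ + el(φ-t,t)]`, `λ₀ = Re(e^{-iφ}γ(φ-t))`:
both end points `γ(α)`, `γ(b)` are in `K` (`Sm.chord`, `ga_mem`); `Re(e^{iφ} conj ν(α)) = -sin t < 0`, and
`el Re(e^{iφ} conj ν(b)) = Re((γ(b)-γ(α)) conj ν(b)) > 0` (`ga_strict`; `ex b ≠ ex α` because `γ(b) ≠ γ(α)`).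
For `|s| > h(φ)` the slice is empty.  For `x = e^{iφ}(λ₀+μ+is)` with `0 ≤ μ ≤ el`: `rad = el - μ` (`rad_iff`).
Fubini (rotation by `e^{iφ}` and `Complex.measurableEquivRealProd` preserve the measure), then
`∫_0^el (el-μ)^p dμ = el^{p+1}/(p+1)`, then the change of variables `s = s(t)`
(`MeasureTheory.integral_image_eq_integral_abs_deriv_smul`).
-/

namespace Pool.Agent.H53.RM

open Complex MeasureTheory Pool.Agent.H65.RM

variable {N : ℕ} {a : ℕ → ℝ}

lemma G6_ex_nu (φ θ : ℝ) : ex φ * (starRingEnd ℂ) (nu θ) = I * ex (φ - θ) := by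
  unfold nu
  rw [map_mul, map_neg, conj_I, ex_conj, neg_neg, ← ex_neg, sub_eq_add_neg, ex_add]
  ring

lemma G6_ex_re (x : ℝ) : (ex x).re = Real.cos x := by
  unfold ex
  rw [mul_comm, exp_ofReal_mul_I_re]

lemma G6_ex_im (x : ℝ) : (ex x).im = Real.sin x := by
  unfold ex
  rw [mul_comm, exp_ofReal_mul_I_im]

theorem slice (ha : Sml N a) (φ : ℝ) {t : ℝ} (h0 : 0 < t) (hp : t < Real.pi) (μ : ℝ) :
    ga N (rr a) (φ - t) + μ * ex φ ∈ KK (hh N a) ↔
      0 ≤ μ ∧ μ ≤ el N (rr a) (φ - t) t := by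
  obtain ⟨R, hR, hSm⟩ := Sml_Sm ha
  have hchord := hSm.chord (φ - t) t
  rw [sub_add_cancel] at hchord
  have hel := el_pos ha (φ - t) h0 hp
  set α := φ - t with hα
  set b := bb N (rr a) α t with hb
  set e := el N (rr a) α t with he
  have hgb : ga N (rr a) b = ga N (rr a) α + e * ex φ := by rw [← hchord]; ring
  constructor
  · intro hx
    constructor
    · have h1 := hx α
      have h2 : ((ga N (rr a) α + μ * ex φ) * (starRingEnd ℂ) (nu α)).re =
          hh N a α - μ * Real.sin t := by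
        rw [add_mul, add_re, ga_nu, mul_assoc, G6_ex_nu, re_ofReal_mul,
          show φ - α = t by rw [hα]; ring]
        simp only [mul_re, I_re, I_im, G6_ex_re, G6_ex_im]
        ring
      rw [h2] at h1
      have h3 : 0 < Real.sin t := Real.sin_pos_of_pos_of_lt_pi h0 hp
      by_contra hneg
      push Not at hneg
      nlinarith
    · have hne : ex α ≠ ex b := by
        intro h
        have h1 := ga_sub (N := N) (r := rr a) α b
        have h2 : ex (b - α) = 1 := by
          rw [sub_eq_add_neg, ex_add, ex_neg, ← h]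
          exact mul_inv_cancel₀ (ex_ne α)
        rw [h2, sub_self, mul_zero, zero_mul, hgb, add_sub_cancel_left] at h1
        rcases mul_eq_zero.1 h1 with h3 | h3
        · exact hel.ne' (by exact_mod_cast h3)
        · exact ex_ne φ h3
      have h1 := ga_strict ha hne
      have h2 : ga N (rr a) α - ga N (rr a) b = ((-e : ℝ) : ℂ) * ex φ := by
        rw [hgb]; push_cast; ring
      rw [h2, mul_assoc, re_ofReal_mul] at h1
      have h3 := hx b
      have h4 : ga N (rr a) α + μ * ex φ = ga N (rr a) b + ((μ - e : ℝ) : ℂ) * ex φ := by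
        rw [hgb]; push_cast; ring
      rw [h4, add_mul, add_re, ga_nu, mul_assoc, re_ofReal_mul] at h3
      set k := (ex φ * (starRingEnd ℂ) (nu b)).re with hk
      have h5 : 0 < k := by
        by_contra hneg
        push Not at hneg
        nlinarith
      by_contra hneg
      push Not at hneg
      nlinarith
  · rintro ⟨h1, h2⟩
    have h3 := KK_convex (hh N a) (ga_mem ha α) (ga_mem ha b) (a := 1 - μ / e) (b := μ / e)
      (by rw [sub_nonneg, div_le_one hel]; exact h2) (by positivity) (by ring)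
    have h4 : (1 - μ / e) • ga N (rr a) α + (μ / e) • ga N (rr a) b =
        ga N (rr a) α + μ * ex φ := by
      have hec : (e : ℂ) ≠ 0 := by exact_mod_cast hel.ne'
      rw [hgb, real_smul, real_smul]
      push_cast
      field_simp
      ring
    rwa [h4] at h3

/-- height of the chord in direction `φ` starting at the angle `φ - t` -/
noncomputable def G6_s (N : ℕ) (a : ℕ → ℝ) (φ t : ℝ) : ℝ :=
  (ex (-φ) * ga N (rr a) (φ - t)).im

lemma G6_s_deriv (N : ℕ) (a : ℕ → ℝ) (φ t : ℝ) :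
    HasDerivAt (G6_s N a φ) (ro N (rr a) (φ - t) * Real.sin t) t := by
  have h1 : HasDerivAt (fun t : ℝ => φ - t) (-1) t := by
    simpa using (hasDerivAt_id t).const_sub φ
  have h2 := (hasDerivAt_ga (N := N) (r := rr a) (φ - t)).scomp t h1
  have h3 := h2.const_mul (ex (-φ))
  have h4 := imCLM.hasFDerivAt.comp_hasDerivAt t h3
  refine h4.congr_deriv ?_
  have h5 : ex (-φ) * ((-1 : ℝ) • ((ro N (rr a) (φ - t) : ℂ) * ex (φ - t))) =
      ((-ro N (rr a) (φ - t) : ℝ) : ℂ) * ex (-t) := by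
    rw [show (-t : ℝ) = -φ + (φ - t) by ring, ex_add (-φ), real_smul]
    push_cast
    ring
  rw [h5, imCLM_apply, im_ofReal_mul, G6_ex_im, Real.sin_neg]
  ring

lemma G6_im_nu (x : ℂ) (φ : ℝ) : (ex (-φ) * x).im = -(x * (starRingEnd ℂ) (nu φ)).re := by
  have h1 : (starRingEnd ℂ) (nu φ) = I * ex (-φ) := by
    have := G6_ex_nu 0 φ
    rw [ex_zero, one_mul, zero_sub] at this
    exact this
  rw [h1, show x * (I * ex (-φ)) = I * (ex (-φ) * x) by ring, I_mul_re, neg_neg]

lemma G6_s_zero (N : ℕ) (a : ℕ → ℝ) (φ : ℝ) : G6_s N a φ 0 = -hh N a φ := by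
  unfold G6_s
  rw [G6_im_nu, sub_zero, ga_nu]

lemma G6_s_pi (N : ℕ) (a : ℕ → ℝ) (φ : ℝ) : G6_s N a φ Real.pi = hh N a φ := by
  unfold G6_s
  have h1 := ga_half (N := N) (r := rr a) (φ - Real.pi)
  rw [sub_add_cancel] at h1
  rw [G6_im_nu, show ga N (rr a) (φ - Real.pi) = -ga N (rr a) φ by rw [h1, neg_neg], neg_mul,
    neg_re, ga_nu, neg_neg]

lemma G6_s_mono (ha : Sml N a) (φ : ℝ) : StrictMonoOn (G6_s N a φ) (Set.Icc 0 Real.pi) := by
  refine strictMonoOn_of_deriv_pos (convex_Icc _ _)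
    (fun t _ => (G6_s_deriv N a φ t).continuousAt.continuousWithinAt) fun t ht => ?_
  rw [interior_Icc] at ht
  rw [(G6_s_deriv N a φ t).deriv]
  exact mul_pos (by linarith [(ro_bounds ha (φ - t)).1])
    (Real.sin_pos_of_pos_of_lt_pi ht.1 ht.2)

lemma G6_image (ha : Sml N a) (φ : ℝ) :
    G6_s N a φ '' Set.Ioo 0 Real.pi = Set.Ioo (-hh N a φ) (hh N a φ) := by
  have hm := G6_s_mono ha φ
  have hpi := Real.pi_pos
  apply Set.Subset.antisymm
  · rintro _ ⟨t, ht, rfl⟩
    rw [← G6_s_zero, ← G6_s_pi]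
    exact ⟨hm ⟨le_rfl, hpi.le⟩ ⟨ht.1.le, ht.2.le⟩ ht.1, hm ⟨ht.1.le, ht.2.le⟩ ⟨hpi.le, le_rfl⟩ ht.2⟩
  · have h1 := intermediate_value_Ioo hpi.le
      (f := G6_s N a φ) (fun t _ => (G6_s_deriv N a φ t).continuousAt.continuousWithinAt)
    rwa [G6_s_zero, G6_s_pi] at h1

/-- the radial function along a slice -/
lemma G6_rad (ha : Sml N a) (φ : ℝ) {t : ℝ} (h0 : 0 < t) (hp : t < Real.pi) {μ : ℝ}
    (hμ : 0 ≤ μ) (hμ' : μ ≤ el N (rr a) (φ - t) t) :
    rad ((fun y => y - (ga N (rr a) (φ - t) + μ * ex φ)) '' KK (hh N a)) (ex φ) =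
      el N (rr a) (φ - t) t - μ := by
  have hx : ga N (rr a) (φ - t) + μ * ex φ ∈ KK (hh N a) := (slice ha φ h0 hp μ).2 ⟨hμ, hμ'⟩
  have hK := KK_compact (hh_HOK ha)
  have h1 : ∀ c : ℝ, 0 ≤ c → (c ≤ rad ((fun y => y - (ga N (rr a) (φ - t) + μ * ex φ)) ''
      KK (hh N a)) (ex φ) ↔ c ≤ el N (rr a) (φ - t) t - μ) := by
    intro c hc
    rw [rad_iff hK hx (ex_norm φ) hc]
    have h2 : ga N (rr a) (φ - t) + μ * ex φ + c * ex φ =
        ga N (rr a) (φ - t) + ((μ + c : ℝ) : ℂ) * ex φ := by push_cast; ring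
    rw [h2, slice ha φ h0 hp]
    constructor
    · intro h3; linarith [h3.2]
    · intro h3; exact ⟨by positivity, by linarith⟩
  apply le_antisymm
  · exact (h1 _ (rad_nonneg _ _)).1 le_rfl
  · exact (h1 _ (by linarith)).2 le_rfl

/-- integral over a slice -/
lemma G6_inner (ha : Sml N a) {p : ℝ} (hpp : 0 < p) (φ : ℝ) {t : ℝ} (h0 : 0 < t)
    (hp : t < Real.pi) :
    ∫ l : ℝ, (KK (hh N a)).indicator
      (fun x => (rad ((fun y => y - x) '' KK (hh N a)) (ex φ)) ^ p)
      (ex φ * (l + G6_s N a φ t * I)) = el N (rr a) (φ - t) t ^ (p + 1) / (p + 1) := by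
  have hel := el_pos ha (φ - t) h0 hp
  set e := el N (rr a) (φ - t) t with he
  set l0 := (ex (-φ) * ga N (rr a) (φ - t)).re with hl0
  have hga : ex φ * (l0 + G6_s N a φ t * I) = ga N (rr a) (φ - t) := by
    have h1 : (l0 : ℂ) + G6_s N a φ t * I = ex (-φ) * ga N (rr a) (φ - t) := by
      rw [hl0]; exact re_add_im _
    rw [h1, ← mul_assoc, ← ex_add, add_neg_cancel, ex_zero, one_mul]
  have hfun : ∀ l : ℝ, (KK (hh N a)).indicator
      (fun x => (rad ((fun y => y - x) '' KK (hh N a)) (ex φ)) ^ p)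
      (ex φ * (l + G6_s N a φ t * I)) =
      (fun μ : ℝ => (Set.Icc 0 e).indicator (fun μ => (e - μ) ^ p) μ) (l - l0) := by
    intro l
    have h1 : ex φ * (l + G6_s N a φ t * I) = ga N (rr a) (φ - t) + ((l - l0 : ℝ) : ℂ) * ex φ := by
      rw [← hga]; push_cast; ring
    rw [h1]
    simp only
    by_cases h2 : l - l0 ∈ Set.Icc 0 e
    · rw [Set.indicator_of_mem h2, Set.indicator_of_mem ((slice ha φ h0 hp _).2 h2),
        G6_rad ha φ h0 hp h2.1 h2.2]
    · rw [Set.indicator_of_notMem h2, Set.indicator_of_notMem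
        (fun h3 => h2 ((slice ha φ h0 hp _).1 h3))]
  simp only [hfun]
  rw [integral_sub_right_eq_self (fun μ : ℝ => (Set.Icc 0 e).indicator (fun μ => (e - μ) ^ p) μ) l0,
    integral_indicator measurableSet_Icc, integral_Icc_eq_integral_Ioc,
    ← intervalIntegral.integral_of_le hel.le]
  have h3 := intervalIntegral.integral_comp_sub_left (fun x : ℝ => x ^ p) e (a := 0) (b := e)
  rw [h3, sub_self, sub_zero, integral_rpow (Or.inl (by linarith)),
    Real.zero_rpow (by linarith), sub_zero]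

theorem FF_chord (ha : Sml N a) {p : ℝ} (hp : 0 < p) (φ : ℝ) :
    FF p (hh N a) φ = (1 / (p + 1)) *
      ∫ t in (0:ℝ)..Real.pi, el N (rr a) (φ - t) t ^ (p + 1) * ro N (rr a) (φ - t) * Real.sin t := by
  have hK := KK_compact (hh_HOK ha)
  set f : ℂ → ℝ := fun x => (rad ((fun y => y - x) '' KK (hh N a)) (ex φ)) ^ p with hf
  set g : ℂ → ℝ := (KK (hh N a)).indicator f with hg
  have hgi : Integrable g := (integrable_indicator_iff hK.isClosed.measurableSet).2
    (FF_integrable hK hp φ)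
  -- rotation
  have hrot : MeasurePreserving (fun x : ℂ => ex φ * x) := by
    have h1 := (rotation (Circle.exp φ)).measurePreserving
    have h2 : (rotation (Circle.exp φ) : ℂ → ℂ) = fun x : ℂ => ex φ * x := by
      funext x
      rw [rotation_apply, Circle.coe_exp]
      unfold ex
      rw [mul_comm (φ : ℂ) I]
    rwa [h2] at h1
  have hemb : MeasurableEmbedding (fun x : ℂ => ex φ * x) :=
    (Homeomorph.mulLeft₀ (ex φ) (ex_ne φ)).measurableEmbedding
  have h1 : FF p (hh N a) φ = ∫ x : ℂ, g (ex φ * x) := by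
    rw [hrot.integral_comp hemb g, hg, integral_indicator hK.isClosed.measurableSet]
    rfl
  have hgi' : Integrable (fun x : ℂ => g (ex φ * x)) :=
    (hrot.integrable_comp_emb hemb).2 hgi
  -- coordinates
  have hvp := Complex.volume_preserving_equiv_real_prod.symm
  have hsymm : ∀ z : ℝ × ℝ, Complex.measurableEquivRealProd.symm z = (z.1 : ℂ) + z.2 * I := by
    intro z
    rw [← Complex.mk_eq_add_mul_I]
    rfl
  have h2 : ∫ x : ℂ, g (ex φ * x) = ∫ z : ℝ × ℝ, g (ex φ * (z.1 + z.2 * I)) := by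
    rw [← hvp.integral_comp (Complex.measurableEquivRealProd.symm.measurableEmbedding)
      (fun x => g (ex φ * x))]
    simp only [hsymm]
  have hgi2 : Integrable (fun z : ℝ × ℝ => g (ex φ * (z.1 + z.2 * I)))
      ((volume : Measure ℝ).prod volume) := by
    have := (hvp.integrable_comp_emb
      (Complex.measurableEquivRealProd.symm.measurableEmbedding)).2 hgi'
    simp only [Function.comp_def, hsymm] at this
    exact this
  have h3 : ∫ z : ℝ × ℝ, g (ex φ * (z.1 + z.2 * I)) =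
      ∫ s : ℝ, ∫ l : ℝ, g (ex φ * (l + s * I)) := by
    exact integral_prod_symm _ hgi2
  set G : ℝ → ℝ := fun s => ∫ l : ℝ, g (ex φ * (l + s * I)) with hG
  have hG0 : ∀ s, s ∉ Set.Icc (-hh N a φ) (hh N a φ) → G s = 0 := by
    intro s hs
    have h4 : ∀ l : ℝ, g (ex φ * (l + s * I)) = 0 := by
      intro l
      refine Set.indicator_of_notMem (fun hx => hs ?_) _
      have h5 : ex (-φ) * (ex φ * (l + s * I)) = l + s * I := by
        rw [← mul_assoc, ← ex_add, neg_add_cancel, ex_zero, one_mul]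
      have h6 := hx φ
      have h7 := hx (φ + Real.pi)
      have h8 := G6_im_nu (ex φ * (l + s * I)) φ
      have h9 : nu (φ + Real.pi) = -nu φ := by
        unfold nu
        rw [ex_add]
        have : ex Real.pi = -1 := by
          unfold ex
          rw [mul_comm, exp_pi_mul_I]
        rw [this]
        ring
      rw [h5] at h8
      rw [h9, (hh_HOK ha).per, map_neg, mul_neg, neg_re] at h7
      have h10 : ((l : ℂ) + s * I).im = s := by simp
      rw [h10] at h8
      exact ⟨by linarith, by linarith⟩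
    rw [hG]
    simp only [h4]
    exact integral_zero _ _
  have h4 : ∫ s : ℝ, G s = ∫ s in Set.Ioo (-hh N a φ) (hh N a φ), G s := by
    rw [← integral_Icc_eq_integral_Ioo]
    exact (setIntegral_eq_integral_of_forall_compl_eq_zero hG0).symm
  have h5 : ∫ s in Set.Ioo (-hh N a φ) (hh N a φ), G s =
      ∫ t in Set.Ioo 0 Real.pi, |ro N (rr a) (φ - t) * Real.sin t| • G (G6_s N a φ t) := by
    rw [← G6_image ha φ]
    exact integral_image_eq_integral_abs_deriv_smul measurableSet_Ioo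
      (fun t _ => (G6_s_deriv N a φ t).hasDerivWithinAt)
      ((G6_s_mono ha φ).injOn.mono Set.Ioo_subset_Icc_self) G
  rw [h1, h2, h3, h4, h5, intervalIntegral.integral_of_le Real.pi_pos.le,
    ← integral_Ioc_eq_integral_Ioo, ← integral_const_mul]
  rw [integral_Ioc_eq_integral_Ioo, integral_Ioc_eq_integral_Ioo]
  refine setIntegral_congr_fun measurableSet_Ioo fun t ht => ?_
  have h6 : G (G6_s N a φ t) = el N (rr a) (φ - t) t ^ (p + 1) / (p + 1) :=
    G6_inner ha hp φ ht.1 ht.2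
  have h7 : 0 ≤ ro N (rr a) (φ - t) * Real.sin t :=
    mul_nonneg (by linarith [(ro_bounds ha (φ - t)).1])
      (Real.sin_pos_of_pos_of_lt_pi ht.1 ht.2).le
  simp only [h6, abs_of_nonneg h7, smul_eq_mul]
  ring

end Pool.Agent.H53.RM
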