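import Pool.Agent.H53.RM.G6_Slice

/-!
# G7: Fourier coefficients of `F` in the coordinates `(α, t)`

Insert `FF_chord`, exchange the integrals (continuous integrand), substitute `φ = α + t` and use
periodicity in `α` (period `2π`).
-/

namespace Pool.Agent.H53.RM

open Complex MeasureTheory Pool.Agent.H65.RM

variable {N : ℕ} {a : ℕ → ℝ}

/-- exchange of two integrals of a continuous function over intervals -/
lemma G7_swap {f : ℝ → ℝ → ℂ} (hf : Continuous (Function.uncurry f)) {a b c d : ℝ} (hab : a ≤ b)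
    (hcd : c ≤ d) :
    ∫ x in a..b, ∫ y in c..d, f x y = ∫ y in c..d, ∫ x in a..b, f x y := by
  simp only [intervalIntegral.integral_of_le hab, intervalIntegral.integral_of_le hcd]
  refine integral_integral_swap ?_
  have h1 : IntegrableOn (Function.uncurry f) (Set.Icc a b ×ˢ Set.Icc c d)
      ((volume : Measure ℝ).prod volume) :=
    (hf.continuousOn.integrableOn_compact (isCompact_Icc.prod isCompact_Icc))
  rw [Measure.prod_restrict]
  exact h1.mono_set (Set.prod_mono Set.Ioc_subset_Icc_self Set.Ioc_subset_Icc_self)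

lemma G7_ro_per (N : ℕ) (r : ℕ → ℝ) (α : ℝ) : ro N r (α + 2 * Real.pi) = ro N r α := by
  unfold ro
  congr 2
  refine Finset.sum_congr rfl fun i _ => ?_
  congr 1
  rw [show 2 * (i : ℝ) * (α + 2 * Real.pi) = 2 * i * α + ((2 * i : ℕ) : ℝ) * (2 * Real.pi) by
    push_cast; ring, Real.cos_add_nat_mul_two_pi]

lemma G7_ex_int (n : ℤ) : ex (n * (2 * Real.pi)) = 1 := by
  unfold ex
  rw [Complex.exp_eq_one_iff]
  exact ⟨n, by push_cast; ring⟩

theorem Fc_formula (ha : Sml N a) {p : ℝ} (hp : 0 < p) (K : ℤ) :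
    Fc p (hh N a) K = ((1 / (2 * Real.pi * (p + 1)) : ℝ) : ℂ) *
      ∫ α in (0:ℝ)..(2 * Real.pi), ∫ t in (0:ℝ)..Real.pi,
        ex (-(2 * K * (α + t))) *
          ((el N (rr a) α t ^ (p + 1) * ro N (rr a) α * Real.sin t : ℝ) : ℂ) := by
  have hpi : (0 : ℝ) ≤ Real.pi := Real.pi_pos.le
  have h2pi : (0 : ℝ) ≤ 2 * Real.pi := by linarith
  -- the integrand
  set G : ℝ → ℝ → ℂ := fun α t => ex (-(2 * K * (α + t))) *
          ((el N (rr a) α t ^ (p + 1) * ro N (rr a) α * Real.sin t : ℝ) : ℂ) with hG
  have hGc : Continuous (Function.uncurry G) := by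
    have h1 : Continuous (fun x : ℝ × ℝ => el N (rr a) x.1 x.2 ^ (p + 1)) :=
      (el_cont ha).rpow_const (fun _ => Or.inr (by linarith))
    have h2 : Continuous (fun x : ℝ × ℝ => ro N (rr a) x.1) := continuous_ro.comp continuous_fst
    have h3 : Continuous (fun x : ℝ × ℝ => Real.sin x.2) := Real.continuous_sin.comp continuous_snd
    have h4 : Continuous (fun x : ℝ × ℝ => ex (-(2 * K * (x.1 + x.2)))) :=
      continuous_ex.comp (by fun_prop)
    exact h4.mul (continuous_ofReal.comp ((h1.mul h2).mul h3))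
  have hper : ∀ t : ℝ, Function.Periodic (fun α => G α t) (2 * Real.pi) := by
    intro t α
    simp only [hG, el_per, G7_ro_per]
    congr 1
    rw [show -(2 * (K : ℝ) * (α + 2 * Real.pi + t)) = -(2 * K * (α + t)) +
      ((-(2 * K) : ℤ) : ℝ) * (2 * Real.pi) by push_cast; ring, ex_add, G7_ex_int, mul_one]
  unfold Fc
  -- insert the chord formula
  have h1 : ∀ φ : ℝ, (FF p (hh N a) φ : ℂ) * ex (-(2 * K * φ)) =
      ((1 / (p + 1) : ℝ) : ℂ) * ∫ t in (0:ℝ)..Real.pi, G (φ - t) t := by
    intro φ
    rw [FF_chord ha hp, ofReal_mul, ← intervalIntegral.integral_ofReal, mul_assoc,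
      ← intervalIntegral.integral_mul_const]
    congr 1
    refine intervalIntegral.integral_congr fun t _ => ?_
    simp only [hG]
    rw [show φ - t + t = φ by ring]
    ring
  simp_rw [h1]
  rw [intervalIntegral.integral_const_mul, ← mul_assoc]
  congr 1
  · rw [← ofReal_mul]
    congr 1
    have : p + 1 ≠ 0 := by linarith
    field_simp
  · rw [G7_swap (f := fun φ t => G (φ - t) t) ?_ h2pi hpi, G7_swap hGc h2pi hpi]
    · refine intervalIntegral.integral_congr fun t _ => ?_
      rw [intervalIntegral.integral_comp_sub_right (fun α => G α t) t]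
      have := (hper t).intervalIntegral_add_eq (-t) 0
      rw [zero_add] at this
      rw [← this]
      congr 1 <;> ring
    · exact hGc.comp ((continuous_fst.sub continuous_snd).prodMk continuous_snd)

end Pool.Agent.H53.RM
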