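import Pool.Agent.H53.RM.F5_Planar

/-!
# R1: transport from `ℂ` to `EuclideanSpace ℝ (Fin 2)`
-/

namespace Pool.Agent.H53.RM

open MeasureTheory Pool.Agent.H65.RM

/-- convex body: compact convex set with nonempty interior -/
def IsConvexBody {n : ℕ} (K : Set (EuclideanSpace ℝ (Fin n))) : Prop :=
  Convex ℝ K ∧ IsCompact K ∧ (interior K).Nonempty

/-- `K = -K` -/
def OriginSymmetric {n : ℕ} (K : Set (EuclideanSpace ℝ (Fin n))) : Prop := ∀ x ∈ K, -x ∈ K

/-- radial function `ρ_L(u) = sup {l ≥ 0 : l u ∈ L}` -/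
noncomputable def radial {n : ℕ} (L : Set (EuclideanSpace ℝ (Fin n)))
    (u : EuclideanSpace ℝ (Fin n)) : ℝ := sSup {l : ℝ | 0 ≤ l ∧ l • u ∈ L}

/-- radial function of the radial `p`-th mean body (`p ≠ 0`) -/
noncomputable def radialMean {n : ℕ} (p : ℝ) (K : Set (EuclideanSpace ℝ (Fin n)))
    (u : EuclideanSpace ℝ (Fin n)) : ℝ :=
  ((volume K).toReal⁻¹ * ∫ x in K, (radial ((fun y => y - x) '' K) u) ^ p) ^ (1 / p)

/-- the radial `p`-th mean body: the star body with radial function `radialMean p K` -/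
def RMean {n : ℕ} (p : ℝ) (K : Set (EuclideanSpace ℝ (Fin n))) :
    Set (EuclideanSpace ℝ (Fin n)) :=
  {z | ∃ u, ‖u‖ = 1 ∧ ∃ l : ℝ, 0 ≤ l ∧ l ≤ radialMean p K u ∧ z = l • u}

/-- the isometry -/
noncomputable def iso : ℂ ≃ₗᵢ[ℝ] EuclideanSpace ℝ (Fin 2) := Complex.orthonormalBasisOneI.repr

theorem iso_mp : MeasurePreserving iso (volume : Measure ℂ) volume :=
  iso.measurePreserving

theorem radial_iso (L : Set ℂ) (u : ℂ) : radial (iso '' L) (iso u) = rad L u := by
  unfold radial rad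
  congr 1
  ext l
  simp only [Set.mem_setOf_eq, Set.mem_image]
  constructor
  · rintro ⟨h0, y, hy, hyl⟩
    refine ⟨h0, ?_⟩
    have : iso ((l : ℂ) * u) = l • iso u := by
      rw [← iso.map_smul]; simp
    rw [← this] at hyl
    have := iso.injective hyl
    rwa [← this]
  · rintro ⟨h0, hl⟩
    refine ⟨h0, _, hl, ?_⟩
    rw [← iso.map_smul]; simp

theorem integral_iso (K : Set ℂ) (p : ℝ) (u : ℂ) :
    ∫ x in iso '' K, (radial ((fun y => y - x) '' (iso '' K)) (iso u)) ^ p =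
      ∫ x in K, (rad ((fun y => y - x) '' K) u) ^ p := by
  have hme : MeasurableEmbedding iso := iso.toHomeomorph.measurableEmbedding
  have h1 : ∫ x in iso '' K, (radial ((fun y => y - x) '' (iso '' K)) (iso u)) ^ p
      = ∫ x in K, (radial ((fun y => y - iso x) '' (iso '' K)) (iso u)) ^ p :=
    iso_mp.setIntegral_image_emb hme _ _
  rw [h1]
  congr 1
  ext x
  have h2 : (fun y => y - iso x) '' (iso '' K) = iso '' ((fun y => y - x) '' K) := by
    ext z
    simp only [Set.mem_image]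
    constructor
    · rintro ⟨_, ⟨y, hy, rfl⟩, rfl⟩
      exact ⟨y - x, ⟨y, hy, rfl⟩, by rw [map_sub]⟩
    · rintro ⟨_, ⟨y, hy, rfl⟩, rfl⟩
      exact ⟨iso y, ⟨y, hy, rfl⟩, by rw [map_sub]⟩
  rw [h2, radial_iso]

theorem final : ∃ p0 : ℝ, 0 < p0 ∧ p0 < 2 ∧ ∀ p : ℝ, p0 < p → p < 2 →
    ∃ K D : Set (EuclideanSpace ℝ (Fin 2)), IsConvexBody K ∧ IsConvexBody D ∧
      OriginSymmetric K ∧ OriginSymmetric D ∧ K ≠ D ∧
      (∀ u : EuclideanSpace ℝ (Fin 2), ‖u‖ = 1 → radialMean p K u = radialMean p D u) ∧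
      RMean p K = RMean p D := by
  obtain ⟨δ0, h0, h1, H⟩ := planar
  refine ⟨2 - δ0, by linarith, by linarith, fun p hp hp2 => ?_⟩
  obtain ⟨K, D, hKc, hKk, hKi, hKs, hDc, hDk, hDi, hDs, hne, hvol, hint⟩ := H p hp hp2
  have hbody : ∀ K : Set ℂ, Convex ℝ K → IsCompact K → (interior K).Nonempty →
      IsConvexBody (iso '' K) := by
    intro K hc hk hi
    refine ⟨hc.linear_image iso.toLinearEquiv.toLinearMap, hk.image iso.continuous, ?_⟩
    have : interior (iso '' K) = iso '' interior K :=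
      (iso.toHomeomorph.image_interior K).symm
    rw [this]
    exact hi.image _
  have hsym : ∀ K : Set ℂ, (∀ x ∈ K, -x ∈ K) → OriginSymmetric (iso '' K) := by
    rintro K hs _ ⟨x, hx, rfl⟩
    exact ⟨-x, hs x hx, by rw [map_neg]⟩
  have hvol' : volume (iso '' K) = volume (iso '' D) := by
    have hme : MeasurableEmbedding iso := iso.toHomeomorph.measurableEmbedding
    have e1 : ∀ S : Set ℂ, volume (iso '' S) = volume S := by
      intro S
      have := iso_mp.measure_preimage_emb hme (iso '' S)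
      rw [Set.preimage_image_eq _ iso.injective] at this
      exact this.symm
    rw [e1, e1, hvol]
  have hrad : ∀ u : EuclideanSpace ℝ (Fin 2), ‖u‖ = 1 →
      radialMean p (iso '' K) u = radialMean p (iso '' D) u := by
    intro u hu
    obtain ⟨v, rfl⟩ := iso.surjective u
    have hv : ‖v‖ = 1 := by rwa [iso.norm_map] at hu
    unfold radialMean
    rw [integral_iso, integral_iso, hvol', hint v hv]
  refine ⟨iso '' K, iso '' D, hbody K hKc hKk hKi, hbody D hDc hDk hDi, hsym K hKs, hsym D hDs,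
    ?_, hrad, ?_⟩
  · intro h
    exact hne (iso.injective.image_injective h)
  · ext z
    unfold RMean
    constructor
    · rintro ⟨u, hu, l, hl0, hl, rfl⟩
      exact ⟨u, hu, l, hl0, by rwa [← hrad u hu], rfl⟩
    · rintro ⟨u, hu, l, hl0, hl, rfl⟩
      exact ⟨u, hu, l, hl0, by rwa [hrad u hu], rfl⟩

end Pool.Agent.H53.RM
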