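import Pool.Agent.H53.RM.Defs

/-!
# S1: kernel differences, modes added one after the other

`w` supported on odd `i ≤ J`, `|w_i| ≤ A ε³ / i^12`.  `|rr w i| ≤ 2 i² |w_i|`.  Induct on `J`: the bodies
`aB ε + w·[i ≤ J-1]` and `aB ε + w·[i ≤ J]` differ in the mode `J` only, both have `r_i = 0` for
`i > max(J,2)`, and `max(J,2) ≤ 2J`; `KT` with `max(J,2)` gives
`≤ 210·J·2J²·Aε³J^{-12}·exp(-(|m|+|j|)/(20·2J))`.
Smallness: `∑ i |rr (aB + w) i| ≤ 15 ε + 2Aε³ ∑ i^{-9} ≤ 1/1000`.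
-/

namespace Pool.Agent.H53.RM

open Pool.Agent.H65.RM

/-- admissible odd perturbations -/
structure HW (A ε : ℝ) (J : ℕ) (w : ℕ → ℝ) : Prop where
  supp : ∀ i, w i ≠ 0 → Odd i ∧ i ≤ J
  size : ∀ i, 1 ≤ i → |w i| ≤ A * ε ^ 3 / (i : ℝ) ^ 12

theorem S1_Ker_rr (v : ℕ → ℝ) {i : ℕ} (hi : 1 ≤ i) : |rr v i| ≤ 2 * (i : ℝ) ^ 2 * |v i| := by
  have h1 : (1 : ℝ) ≤ i := by exact_mod_cast hi
  unfold rr
  rw [abs_div, abs_mul, abs_of_nonpos (show (1 : ℝ) - 4 * (i : ℝ) ^ 2 ≤ 0 by nlinarith),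
    abs_of_pos (show (0 : ℝ) < 2 by norm_num)]
  have h2 := abs_nonneg (v i)
  nlinarith

theorem S1_Ker_rr_add (a w : ℕ → ℝ) (i : ℕ) :
    rr (fun i => a i + w i) i = rr a i + rr w i := by
  unfold rr; ring

theorem S1_Ker_sum (N : ℕ) : ∑ i ∈ Finset.Icc 1 N, 1 / (i : ℝ) ^ 9 ≤ 2 - 1 / ((N : ℝ) + 1) := by
  induction N with
  | zero => norm_num
  | succ N ih =>
    rw [Finset.sum_Icc_succ_top (by omega)]
    have hN : (0 : ℝ) ≤ N := Nat.cast_nonneg N
    push_cast
    have h1 : 1 / ((N : ℝ) + 1) ^ 9 ≤ 1 / ((N : ℝ) + 1) - 1 / ((N : ℝ) + 1 + 1) ∨ N = 0 := by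
      rcases Nat.eq_zero_or_pos N with h | h
      · right; exact h
      · left
        have hN1 : (1 : ℝ) ≤ N := by exact_mod_cast h
        have h2 : 1 / ((N : ℝ) + 1) - 1 / ((N : ℝ) + 1 + 1) =
          1 / (((N : ℝ) + 1) * ((N : ℝ) + 1 + 1)) := by
          field_simp
          ring
        rw [h2]
        apply one_div_le_one_div_of_le (by positivity)
        have h3 : ((N : ℝ) + 1) ^ 9 = ((N : ℝ) + 1) * ((N : ℝ) + 1) ^ 8 := by ring
        rw [h3]
        apply mul_le_mul_of_nonneg_left _ (by positivity)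
        have h4 : ((N : ℝ) + 1) ^ 2 ≤ ((N : ℝ) + 1) ^ 8 :=
          pow_le_pow_right₀ (by linarith) (by norm_num)
        nlinarith
    rcases h1 with h1 | h1
    · linarith
    · subst h1
      norm_num

theorem S1_Ker_term {A ε : ℝ} {J : ℕ} {w : ℕ → ℝ} (hw : HW A ε J w) {i : ℕ} (hi : 1 ≤ i) :
    (i : ℝ) * |rr w i| ≤ 2 * (A * ε ^ 3) * (1 / (i : ℝ) ^ 9) := by
  have h0 : (0 : ℝ) < i := by exact_mod_cast hi
  have h1 := S1_Ker_rr w hi
  have h2 := hw.size i hi
  calc (i : ℝ) * |rr w i| ≤ (i : ℝ) * (2 * (i : ℝ) ^ 2 * |w i|) := by gcongr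
    _ ≤ (i : ℝ) * (2 * (i : ℝ) ^ 2 * (A * ε ^ 3 / (i : ℝ) ^ 12)) := by gcongr
    _ = 2 * (A * ε ^ 3) * (1 / (i : ℝ) ^ 9) := by
      field_simp

theorem S1_Ker_aB {ε : ℝ} (hε : 0 < ε) (N : ℕ) :
    ∑ i ∈ Finset.Icc 1 N, (i : ℝ) * |rr (aB ε) i| ≤ 15 * ε := by
  have h1 : ∀ i ∈ Finset.Icc 1 N, (i : ℝ) * |rr (aB ε) i| = if i = 2 then 15 * ε else 0 := by
    intro i _
    unfold rr aB
    split_ifs with h
    · subst h
      rw [show (1 - 4 * ((2 : ℕ) : ℝ) ^ 2) * ε / 2 = -(15 / 2 * ε) by push_cast; ring, abs_neg,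
        abs_of_pos (by positivity)]
      push_cast
      ring
    · simp
  rw [Finset.sum_congr rfl h1, Finset.sum_ite_eq']
  split_ifs
  · exact le_refl _
  · positivity

theorem S1_Ker_wt {A ε : ℝ} {J : ℕ} {w : ℕ → ℝ} (hA : 1 ≤ A) (hε : 0 < ε)
    (hAε : A * ε ≤ 1) (hw : HW A ε J w) (N : ℕ) :
    wt N (rr (fun i => aB ε i + w i)) 1 ≤ 15 * ε + 4 * ε ^ 2 := by
  unfold wt
  have h1 : ∀ i ∈ Finset.Icc 1 N, (i : ℝ) * |rr (fun i => aB ε i + w i) i| * 1 ^ (5 * i) ≤
      (i : ℝ) * |rr (aB ε) i| + 2 * (A * ε ^ 3) * (1 / (i : ℝ) ^ 9) := by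
    intro i hi
    have hi1 := (Finset.mem_Icc.1 hi).1
    have h2 := S1_Ker_term hw hi1
    rw [S1_Ker_rr_add, one_pow, mul_one]
    have h3 : (i : ℝ) * |rr (aB ε) i + rr w i| ≤ (i : ℝ) * (|rr (aB ε) i| + |rr w i|) :=
      mul_le_mul_of_nonneg_left (abs_add_le _ _) (Nat.cast_nonneg i)
    linarith
  refine (Finset.sum_le_sum h1).trans ?_
  rw [Finset.sum_add_distrib, ← Finset.mul_sum]
  have h4 := S1_Ker_aB hε N
  have h5 := S1_Ker_sum N
  have h6 : (0 : ℝ) < 1 / ((N : ℝ) + 1) := by positivity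
  have h7 : ∑ i ∈ Finset.Icc 1 N, 1 / (i : ℝ) ^ 9 ≤ 2 := by linarith
  have h8 : A * ε ^ 3 ≤ ε ^ 2 := by
    have := mul_le_mul_of_nonneg_right hAε (sq_nonneg ε)
    nlinarith
  have h9 : 0 ≤ 2 * (A * ε ^ 3) := by positivity
  have h10 := mul_le_mul_of_nonneg_left h7 h9
  linarith

theorem S1_Ker_aBwt {ε : ℝ} (hε : 0 < ε) (N : ℕ) : wt N (rr (aB ε)) 1 ≤ 15 * ε := by
  unfold wt
  simp only [one_pow, mul_one]
  exact S1_Ker_aB hε N

theorem HW_Sml {A ε : ℝ} {J : ℕ} {w : ℕ → ℝ} (hA : 1 ≤ A) (hε : 0 < ε) (hε1 : ε ≤ 1 / 100000)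
    (hAε : A * ε ≤ 1) (hw : HW A ε J w) (N : ℕ) : Sml N (fun i => aB ε i + w i) := by
  unfold Sml
  have h1 := S1_Ker_wt hA hε hAε hw N
  have h2 : ε ^ 2 ≤ 1 := by nlinarith
  nlinarith

theorem aB_Sml {ε : ℝ} (hε : 0 < ε) (hε1 : ε ≤ 1 / 100000) (N : ℕ) : Sml N (aB ε) := by
  unfold Sml
  have h1 := S1_Ker_aBwt hε N
  linarith

theorem S1_Ker_rr_zero {v : ℕ → ℝ} {i : ℕ} (h : v i = 0) : rr v i = 0 := by
  unfold rr
  rw [h]
  ring

theorem ker_diff : ∃ C : ℝ, 1 ≤ C ∧ ∀ A ε : ℝ, 1 ≤ A → 0 < ε → ε ≤ 1 / 100000 → A * ε ≤ 1 →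
    ∀ p : ℝ, 1.9 < p → p < 2 → ∀ N J : ℕ, ∀ w : ℕ → ℝ, HW A ε J w → ∀ m j : ℤ,
      ‖fc (MM p N (rr (fun i => aB ε i + w i))) m j - fc (MM p N (rr (aB ε))) m j‖ ≤
        C * A * ε ^ 3 * ∑ i ∈ Finset.Icc 1 J,
          Real.exp (-(|(m:ℝ)| + |(j:ℝ)|) / (40 * i)) / (i : ℝ) ^ 9 := by
  refine ⟨420, by norm_num, ?_⟩
  intro A ε hA hε hε1 hAε p hp1 hp2 N J
  induction J with
  | zero =>
    intro w hw m j
    have h1 : (fun i => aB ε i + w i) = aB ε := by
      funext i
      by_cases h : w i = 0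
      · simp [h]
      · obtain ⟨h2, h3⟩ := hw.supp i h
        have h4 : i = 0 := by omega
        subst h4
        simp at h2
    rw [h1]
    simp
  | succ J ih =>
    intro w hw m j
    have hw' : HW A ε J (fun i => if i ≤ J then w i else 0) := by
      refine ⟨?_, ?_⟩
      · intro i h
        split_ifs at h with h1
        · exact ⟨(hw.supp i h).1, h1⟩
        · exact absurd rfl h
      · intro i hi
        split_ifs with h1
        · exact hw.size i hi
        · rw [abs_zero]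
          positivity
    have h1 := ih _ hw' m j
    have hK := KT (p := p) (N := N) (J := max (J + 1) 2)
      (r := rr (fun i => aB ε i + w i))
      (r' := rr (fun i => aB ε i + (if i ≤ J then w i else 0))) hp1 hp2 (by omega)
      (by
        intro i hi
        apply S1_Ker_rr_zero
        have h2 : w i = 0 := by
          by_contra h
          have := (hw.supp i h).2
          omega
        have h3 : i ≠ 2 := by omega
        simp [aB, h2, h3])
      (by
        intro i hi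
        apply S1_Ker_rr_zero
        have h2 : ¬ i ≤ J := by omega
        have h3 : i ≠ 2 := by omega
        simp [aB, h2, h3])
      (HW_Sml hA hε hε1 hAε hw N).le (HW_Sml hA hε hε1 hAε hw' N).le m j
    have hJ0 : (0 : ℝ) < (J : ℝ) + 1 := by positivity
    have hwt : wt N (fun i => rr (fun i => aB ε i + w i) i -
        rr (fun i => aB ε i + (if i ≤ J then w i else 0)) i) 1 ≤
        2 * (A * ε ^ 3) * (1 / ((J : ℝ) + 1) ^ 9) := by
      unfold wt
      have h2 : ∀ i ∈ Finset.Icc 1 N, (i : ℝ) * |rr (fun i => aB ε i + w i) i -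
          rr (fun i => aB ε i + (if i ≤ J then w i else 0)) i| * 1 ^ (5 * i) ≤
          if i = J + 1 then 2 * (A * ε ^ 3) * (1 / ((J : ℝ) + 1) ^ 9) else 0 := by
        intro i hi
        have hi1 := (Finset.mem_Icc.1 hi).1
        rw [one_pow, mul_one, S1_Ker_rr_add, S1_Ker_rr_add]
        split_ifs with h3
        · subst h3
          have h4 : rr (fun i => if i ≤ J then w i else 0) (J + 1) = 0 := by
            apply S1_Ker_rr_zero
            simp
          rw [h4, add_zero, add_sub_cancel_left]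
          have h5 := S1_Ker_term hw hi1
          push_cast at h5 ⊢
          exact h5
        · have h4 : rr (fun i => if i ≤ J then w i else 0) i = rr w i := by
            unfold rr
            beta_reduce
            split_ifs with h5
            · rfl
            · have h6 : w i = 0 := by
                by_contra h
                have := (hw.supp i h).2
                omega
              rw [h6]
          rw [h4, sub_self, abs_zero, mul_zero]
      refine (Finset.sum_le_sum h2).trans ?_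
      rw [Finset.sum_ite_eq']
      split_ifs
      · exact le_refl _
      · positivity
    have hexp : Real.exp (-(|(m : ℝ)| + |(j : ℝ)|) / (20 * (max (J + 1) 2 : ℕ))) ≤
        Real.exp (-(|(m : ℝ)| + |(j : ℝ)|) / (40 * ((J : ℝ) + 1))) := by
      apply Real.exp_le_exp.2
      rw [neg_div, neg_div]
      apply neg_le_neg
      apply div_le_div_of_nonneg_left (by positivity)
      · have : 1 ≤ max (J + 1) 2 := by omega
        have : (1 : ℝ) ≤ (max (J + 1) 2 : ℕ) := by exact_mod_cast this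
        linarith
      · have h3 : max (J + 1) 2 ≤ 2 * (J + 1) := by omega
        have h4 : ((max (J + 1) 2 : ℕ) : ℝ) ≤ 2 * ((J : ℝ) + 1) := by exact_mod_cast h3
        linarith
    have h5 : ‖fc (MM p N (rr (fun i => aB ε i + w i))) m j -
        fc (MM p N (rr (fun i => aB ε i + (if i ≤ J then w i else 0)))) m j‖ ≤
        420 * A * ε ^ 3 * (Real.exp (-(|(m : ℝ)| + |(j : ℝ)|) / (40 * ((J : ℝ) + 1))) /
          ((J : ℝ) + 1) ^ 9) := by
      refine hK.trans ?_
      calc 210 * wt N (fun i => rr (fun i => aB ε i + w i) i -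
            rr (fun i => aB ε i + (if i ≤ J then w i else 0)) i) 1 *
            Real.exp (-(|(m : ℝ)| + |(j : ℝ)|) / (20 * (max (J + 1) 2 : ℕ)))
          ≤ 210 * (2 * (A * ε ^ 3) * (1 / ((J : ℝ) + 1) ^ 9)) *
            Real.exp (-(|(m : ℝ)| + |(j : ℝ)|) / (40 * ((J : ℝ) + 1))) := by
            apply mul_le_mul _ hexp (Real.exp_pos _).le (by positivity)
            linarith
        _ = _ := by ring
    rw [Finset.sum_Icc_succ_top (by omega), mul_add]
    push_cast
    have h6 : fc (MM p N (rr (fun i => aB ε i + w i))) m j - fc (MM p N (rr (aB ε))) m j =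
      (fc (MM p N (rr (fun i => aB ε i + w i))) m j -
        fc (MM p N (rr (fun i => aB ε i + (if i ≤ J then w i else 0)))) m j) +
      (fc (MM p N (rr (fun i => aB ε i + (if i ≤ J then w i else 0)))) m j -
        fc (MM p N (rr (aB ε))) m j) := by ring
    rw [h6]
    refine (norm_add_le _ _).trans ?_
    linarith

end Pool.Agent.H53.RM
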