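import Pool.Agent.H53.RM.S1_Ker
import Pool.Agent.H53.RM.A10_Inv

/-!
# S2: differences of the derivative matrices

`DD = ∑'_j (M_{K-n,j} + M_{K+n,j}) Cn p (K-j)`; `ker_diff`, `|K+n| ≥ |K-n|`, `Cn_5b`:
`|Cn p (K-j)| ≤ 5/(2-p) |Cn p K| (1+|j|)^3 ≤ ε^{-2} |Cn p K| (1+|j|)^3`, and
`∑_j (1+|j|)^3 e^{-|j|/(40i)} ≤ C i^4`  (`(1+|j|)^3 e^{-|j|/(80 i)} ≤ C i^3`, `∑_j e^{-|j|/(80i)} ≤ C i`).
-/

namespace Pool.Agent.H53.RM

open Pool.Agent.H65.RM

/-- geometric series over the integers -/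
lemma S2_geo {i : ℕ} (hi : 1 ≤ i) :
    Summable (fun j : ℤ => Real.exp (-|(j:ℝ)| / (80 * i))) ∧
    ∑' j : ℤ, Real.exp (-|(j:ℝ)| / (80 * i)) ≤ 162 * (i : ℝ) := by
  have hi0 : (1 : ℝ) ≤ i := by exact_mod_cast hi
  set x : ℝ := 1 / (80 * i) with hx
  have hx0 : 0 < x := by positivity
  have hr1 : Real.exp (-x) < 1 := by
    rw [Real.exp_lt_one_iff]
    linarith
  have hr0 : 0 ≤ Real.exp (-x) := (Real.exp_pos _).le
  have hg := summable_geometric_of_lt_one hr0 hr1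
  have hgs := tsum_geometric_of_lt_one hr0 hr1
  have hb : (1 - Real.exp (-x))⁻¹ ≤ 81 * (i : ℝ) := by
    have h1 : Real.exp (-x) ≤ 1 / (1 + x) := by
      rw [Real.exp_neg, ← one_div]
      apply one_div_le_one_div_of_le (by linarith)
      linarith [Real.add_one_le_exp x]
    have h2 : x / (1 + x) ≤ 1 - Real.exp (-x) := by
      have : x / (1 + x) = 1 - 1 / (1 + x) := by
        field_simp
        ring
      linarith
    have h3 : 0 < x / (1 + x) := by positivity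
    calc (1 - Real.exp (-x))⁻¹ ≤ (x / (1 + x))⁻¹ := inv_anti₀ h3 h2
      _ = 1 + 1 / x := by
        field_simp
        ring
      _ = 1 + 80 * i := by
        rw [hx]
        field_simp
      _ ≤ 81 * i := by linarith
  have e1 : ∀ n : ℕ, Real.exp (-|((n : ℤ):ℝ)| / (80 * i)) = Real.exp (-x) ^ n := by
    intro n
    rw [← Real.exp_nat_mul]
    congr 1
    rw [hx, Int.cast_natCast, abs_of_nonneg (Nat.cast_nonneg n)]
    ring
  have e2 : ∀ n : ℕ, Real.exp (-|((-(n + 1 : ℤ) : ℤ):ℝ)| / (80 * i)) =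
      Real.exp (-x) * Real.exp (-x) ^ n := by
    intro n
    rw [← Real.exp_nat_mul, ← Real.exp_add]
    congr 1
    have : |((-(n + 1 : ℤ) : ℤ):ℝ)| = (n : ℝ) + 1 := by
      push_cast
      rw [abs_neg, abs_of_nonneg (by positivity)]
    rw [this, hx]
    ring
  have s1 : Summable (fun n : ℕ => Real.exp (-|((n : ℤ):ℝ)| / (80 * i))) := by
    simp only [e1]
    exact hg
  have s2 : Summable (fun n : ℕ => Real.exp (-|((-(n + 1 : ℤ) : ℤ):ℝ)| / (80 * i))) := by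
    simp only [e2]
    exact hg.mul_left _
  have s3 : Summable (fun j : ℤ => Real.exp (-|(j:ℝ)| / (80 * i))) :=
    Summable.of_nat_of_neg_add_one s1 s2
  refine ⟨s3, ?_⟩
  rw [tsum_of_nat_of_neg_add_one s1 s2]
  simp only [e1, e2]
  rw [tsum_mul_left, hgs]
  have h4 : 0 ≤ (1 - Real.exp (-x))⁻¹ := by
    apply inv_nonneg.2
    linarith
  nlinarith

lemma S2_cube {i : ℕ} (hi : 1 ≤ i) (x : ℝ) (hx : 0 ≤ x) :
    (1 + x) ^ 3 * Real.exp (-x / (40 * i)) ≤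
      12288004 * (i : ℝ) ^ 3 * Real.exp (-x / (80 * i)) := by
  have hi0 : (1 : ℝ) ≤ i := by exact_mod_cast hi
  set y : ℝ := x / (80 * i) with hy
  have hy0 : 0 ≤ y := by positivity
  have e1 : -x / (40 * i) = -y + -y := by
    rw [hy]
    field_simp
    ring
  have e2 : -x / (80 * i) = -y := by
    rw [hy]
    ring
  have e3 : x = 80 * i * y := by
    rw [hy]
    field_simp
  rw [e1, e2, Real.exp_add, ← mul_assoc]
  refine mul_le_mul_of_nonneg_right ?_ (Real.exp_pos _).le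
  have h1 : y ^ 3 / 6 ≤ Real.exp y := by
    have := Real.pow_div_factorial_le_exp y hy0 3
    norm_num [Nat.factorial] at this
    exact this
  have h2 : (1 : ℝ) ≤ Real.exp y := Real.one_le_exp hy0
  have h3 : (1 + x) ^ 3 ≤ 4 * (1 + x ^ 3) := by
    nlinarith [mul_nonneg (by linarith : 0 ≤ 1 + x) (sq_nonneg (x - 1))]
  have h4 : x ^ 3 = 512000 * (i : ℝ) ^ 3 * y ^ 3 := by
    rw [e3]
    ring
  have hi3 : (1 : ℝ) ≤ (i : ℝ) ^ 3 := one_le_pow₀ hi0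
  have h5 : (1 + x) ^ 3 ≤ 12288004 * (i : ℝ) ^ 3 * Real.exp y := by
    have h6 : x ^ 3 ≤ 3072000 * (i : ℝ) ^ 3 * Real.exp y := by
      rw [h4]
      have : y ^ 3 ≤ 6 * Real.exp y := by linarith
      calc 512000 * (i : ℝ) ^ 3 * y ^ 3 ≤ 512000 * (i : ℝ) ^ 3 * (6 * Real.exp y) := by
            apply mul_le_mul_of_nonneg_left this (by positivity)
        _ = 3072000 * (i : ℝ) ^ 3 * Real.exp y := by ring
    have h7 : (1 : ℝ) ≤ (i : ℝ) ^ 3 * Real.exp y := by nlinarith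
    nlinarith
  rw [Real.exp_neg, ← div_eq_mul_inv, div_le_iff₀ (Real.exp_pos _)]
  exact h5

theorem sum_cube_exp : ∃ C : ℝ, 1 ≤ C ∧ ∀ i : ℕ, 1 ≤ i →
    Summable (fun j : ℤ => (1 + |(j:ℝ)|) ^ 3 * Real.exp (-|(j:ℝ)| / (40 * i))) ∧
    ∑' j : ℤ, (1 + |(j:ℝ)|) ^ 3 * Real.exp (-|(j:ℝ)| / (40 * i)) ≤ C * (i : ℝ) ^ 4 := by
  refine ⟨12288004 * 162, by norm_num, ?_⟩
  intro i hi
  obtain ⟨h1, h2⟩ := S2_geo hi
  have h3 : ∀ j : ℤ, (1 + |(j:ℝ)|) ^ 3 * Real.exp (-|(j:ℝ)| / (40 * i)) ≤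
      12288004 * (i : ℝ) ^ 3 * Real.exp (-|(j:ℝ)| / (80 * i)) := fun j =>
    S2_cube hi |(j:ℝ)| (abs_nonneg _)
  have h4 : Summable (fun j : ℤ => 12288004 * (i : ℝ) ^ 3 *
      Real.exp (-|(j:ℝ)| / (80 * i))) := h1.mul_left _
  have h5 : Summable (fun j : ℤ => (1 + |(j:ℝ)|) ^ 3 * Real.exp (-|(j:ℝ)| / (40 * i))) :=
    Summable.of_nonneg_of_le (fun j => by positivity) h3 h4
  refine ⟨h5, ?_⟩
  calc ∑' j : ℤ, (1 + |(j:ℝ)|) ^ 3 * Real.exp (-|(j:ℝ)| / (40 * i))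
      ≤ ∑' j : ℤ, 12288004 * (i : ℝ) ^ 3 * Real.exp (-|(j:ℝ)| / (80 * i)) :=
        h5.tsum_le_tsum h3 h4
    _ = 12288004 * (i : ℝ) ^ 3 * ∑' j : ℤ, Real.exp (-|(j:ℝ)| / (80 * i)) := tsum_mul_left
    _ ≤ 12288004 * (i : ℝ) ^ 3 * (162 * (i : ℝ)) := by
        apply mul_le_mul_of_nonneg_left h2 (by positivity)
    _ = 12288004 * 162 * (i : ℝ) ^ 4 := by ring

theorem DD_diff : ∃ C : ℝ, 1 ≤ C ∧ ∀ A ε : ℝ, 1 ≤ A → 0 < ε → ε ≤ 1 / 100000 → A * ε ≤ 1 →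
    ∀ p : ℝ, 143 * ε ^ 2 ≤ 2 - p → 2 - p ≤ 145 * ε ^ 2 → ∀ N J : ℕ, 1 ≤ N →
    ∀ w : ℕ → ℝ, HW A ε J w → ∀ K n : ℕ, 1 ≤ K → 1 ≤ n →
      ‖DD N (rr (fun i => aB ε i + w i)) p K n - DD N (rr (aB ε)) p K n‖ ≤
        C * A * ε * |Cn p K| * ∑ i ∈ Finset.Icc 1 J,
          Real.exp (-|(K : ℝ) - n| / (40 * i)) / (i : ℝ) ^ 5 := by
  obtain ⟨C₀, hC0, hker⟩ := ker_diff
  obtain ⟨C₁, hC1, hsum⟩ := sum_cube_exp
  refine ⟨2 * C₀ * C₁, by nlinarith, ?_⟩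
  intro A ε hA hε hε1 hAε p hp1 hp2 N J hN w hw K n hK hn
  have hε2 : 0 < ε ^ 2 := by positivity
  have hpl : p < 2 := by nlinarith
  have hpg : 1.9 < p := by nlinarith
  have hS1 : Sml N (fun i => aB ε i + w i) := HW_Sml hA hε hε1 hAε hw N
  have hS2 : Sml N (aB ε) := aB_Sml hε hε1 N
  set r1 : ℕ → ℝ := rr (fun i => aB ε i + w i) with hr1
  set r2 : ℕ → ℝ := rr (aB ε) with hr2
  have hK' : (1 : ℝ) ≤ K := by exact_mod_cast hK
  have hn' : (1 : ℝ) ≤ n := by exact_mod_cast hn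
  -- summability
  have sm : ∀ r : ℕ → ℝ, wt N r 1 ≤ 1 / 1000 →
      Summable (fun j : ℤ => (fc (MM p N r) ((K : ℤ) - n) j + fc (MM p N r) ((K : ℤ) + n) j) *
        (Cn p ((K : ℤ) - j) : ℂ)) := by
    intro r hr
    have a1 := (DD_summable hN hpg hpl hr K ((K : ℤ) - n)).of_norm
    have a2 := (DD_summable hN hpg hpl hr K ((K : ℤ) + n)).of_norm
    have a3 := a1.add a2
    refine a3.congr ?_
    intro j
    ring
  have s1 := sm r1 hS1.le
  have s2 := sm r2 hS2.le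
  have hdd : DD N r1 p K n - DD N r2 p K n =
      ∑' j : ℤ, (((fc (MM p N r1) ((K : ℤ) - n) j + fc (MM p N r1) ((K : ℤ) + n) j) *
        (Cn p ((K : ℤ) - j) : ℂ)) -
        ((fc (MM p N r2) ((K : ℤ) - n) j + fc (MM p N r2) ((K : ℤ) + n) j) *
        (Cn p ((K : ℤ) - j) : ℂ))) := (s1.tsum_sub s2).symm
  rw [hdd]
  -- the bound
  let c : ℕ → ℝ := fun i => 2 * C₀ * A * ε * |Cn p K| *
    (Real.exp (-|(K : ℝ) - n| / (40 * i)) / (i : ℝ) ^ 9)
  let h : ℕ → ℤ → ℝ := fun i j => (1 + |(j:ℝ)|) ^ 3 * Real.exp (-|(j:ℝ)| / (40 * i))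
  have hc0 : ∀ i, 0 ≤ c i := by
    intro i
    positivity
  have hHS : HasSum (fun j : ℤ => ∑ i ∈ Finset.Icc 1 J, c i * h i j)
      (∑ i ∈ Finset.Icc 1 J, c i * ∑' j, h i j) := by
    apply hasSum_sum
    intro i hi
    exact ((hsum i (Finset.mem_Icc.1 hi).1).1.hasSum).mul_left _
  refine (tsum_of_norm_bounded hHS ?_).trans ?_
  · intro j
    have hCn : |Cn p ((K : ℤ) - j)| ≤ 1 / ε ^ 2 * |Cn p K| * (1 + |(j : ℝ)|) ^ 3 := by
      have h1 := Cn_5b hpg hpl (n := (K : ℤ) - j) (K := (K : ℤ)) (by exact_mod_cast hK)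
      have h2 : |(((K : ℤ) : ℤ) : ℝ) - (((K : ℤ) - j : ℤ) : ℝ)| = |(j : ℝ)| := by
        push_cast
        congr 1
        ring
      rw [h2] at h1
      refine h1.trans ?_
      apply mul_le_mul_of_nonneg_right _ (by positivity)
      apply mul_le_mul_of_nonneg_right _ (abs_nonneg _)
      rw [div_le_div_iff₀ (by linarith) hε2]
      linarith
    have hk1 := hker A ε hA hε hε1 hAε p hpg hpl N J w hw ((K : ℤ) - n) j
    have hk2 := hker A ε hA hε hε1 hAε p hpg hpl N J w hw ((K : ℤ) + n) j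
    have hsplit : ∀ m : ℤ, |(K : ℝ) - n| ≤ |(m : ℝ)| →
        C₀ * A * ε ^ 3 * ∑ i ∈ Finset.Icc 1 J,
          Real.exp (-(|(m:ℝ)| + |(j:ℝ)|) / (40 * i)) / (i : ℝ) ^ 9 ≤
        C₀ * A * ε ^ 3 * ∑ i ∈ Finset.Icc 1 J,
          Real.exp (-|(K : ℝ) - n| / (40 * i)) / (i : ℝ) ^ 9 *
            Real.exp (-|(j:ℝ)| / (40 * i)) := by
      intro m hm
      apply mul_le_mul_of_nonneg_left _ (by positivity)
      apply Finset.sum_le_sum
      intro i hi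
      have hi1 : (1 : ℝ) ≤ i := by exact_mod_cast (Finset.mem_Icc.1 hi).1
      rw [div_mul_eq_mul_div, ← Real.exp_add]
      apply div_le_div_of_nonneg_right _ (by positivity)
      apply Real.exp_le_exp.2
      rw [← add_div]
      apply div_le_div_of_nonneg_right _ (by positivity)
      linarith
    have hm1 : |(K : ℝ) - n| ≤ |(((K : ℤ) - n : ℤ) : ℝ)| := by
      push_cast
      exact le_rfl
    have hm2 : |(K : ℝ) - n| ≤ |(((K : ℤ) + n : ℤ) : ℝ)| := by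
      push_cast
      rw [abs_of_nonneg (show (0:ℝ) ≤ (K : ℝ) + n by linarith), abs_le]
      constructor <;> linarith
    have hk1' := hk1.trans (hsplit _ hm1)
    have hk2' := hk2.trans (hsplit _ hm2)
    set S : ℝ := ∑ i ∈ Finset.Icc 1 J,
          Real.exp (-|(K : ℝ) - n| / (40 * i)) / (i : ℝ) ^ 9 *
            Real.exp (-|(j:ℝ)| / (40 * i)) with hS
    have hS0 : 0 ≤ S := by
      apply Finset.sum_nonneg
      intro i _
      positivity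
    have e1 : ((fc (MM p N r1) ((K : ℤ) - n) j + fc (MM p N r1) ((K : ℤ) + n) j) *
        (Cn p ((K : ℤ) - j) : ℂ)) -
        ((fc (MM p N r2) ((K : ℤ) - n) j + fc (MM p N r2) ((K : ℤ) + n) j) *
        (Cn p ((K : ℤ) - j) : ℂ)) =
        ((fc (MM p N r1) ((K : ℤ) - n) j - fc (MM p N r2) ((K : ℤ) - n) j) +
          (fc (MM p N r1) ((K : ℤ) + n) j - fc (MM p N r2) ((K : ℤ) + n) j)) *
          (Cn p ((K : ℤ) - j) : ℂ) := by ring
    rw [e1, norm_mul]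
    have e2 : ‖((Cn p ((K : ℤ) - j) : ℝ) : ℂ)‖ = |Cn p ((K : ℤ) - j)| := by
      rw [Complex.norm_real, Real.norm_eq_abs]
    rw [e2]
    have h3 : ‖(fc (MM p N r1) ((K : ℤ) - n) j - fc (MM p N r2) ((K : ℤ) - n) j) +
          (fc (MM p N r1) ((K : ℤ) + n) j - fc (MM p N r2) ((K : ℤ) + n) j)‖ ≤
        2 * (C₀ * A * ε ^ 3 * S) := by
      refine (norm_add_le _ _).trans ?_
      linarith
    have hb0 : 0 ≤ 2 * (C₀ * A * ε ^ 3 * S) := by positivity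
    calc _ ≤ 2 * (C₀ * A * ε ^ 3 * S) * (1 / ε ^ 2 * |Cn p K| * (1 + |(j : ℝ)|) ^ 3) :=
          mul_le_mul h3 hCn (abs_nonneg _) hb0
      _ = (2 * C₀ * A * ε * |Cn p K| * (1 + |(j : ℝ)|) ^ 3) * S := by
          field_simp
      _ = ∑ i ∈ Finset.Icc 1 J, c i * h i j := by
          rw [hS, Finset.mul_sum]
          apply Finset.sum_congr rfl
          intro i _
          simp only [c, h]
          ring
  · rw [Finset.mul_sum]
    apply Finset.sum_le_sum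
    intro i hi
    have hi1 : (1 : ℝ) ≤ i := by exact_mod_cast (Finset.mem_Icc.1 hi).1
    have h5 := (hsum i (Finset.mem_Icc.1 hi).1).2
    calc c i * ∑' j, h i j ≤ c i * (C₁ * (i : ℝ) ^ 4) :=
          mul_le_mul_of_nonneg_left h5 (hc0 i)
      _ = 2 * C₀ * C₁ * A * ε * |Cn p K| *
          (Real.exp (-|(K : ℝ) - n| / (40 * i)) / (i : ℝ) ^ 5) := by
          simp only [c]
          field_simp

end Pool.Agent.H53.RM
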