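import Mathlib

/-!
# S3: two elementary sums

(a) For `i ≤ n`: `n^{-12} e^{-|K-n|/(40i)} ≤ C K^{-12} e^{-|K-n|/(80i)}` because `K/n ≤ 1 + |K-n|/n ≤ 1 + |K-n|/i =: 1+z`
and `(1+z)^12 e^{-z/80} ≤ C`.  Then `∑_n e^{-|K-n|/(80i)} ≤ C i`, `∑_i i^{-4} < ∞`.
(b) `∑_n e^{-|K-n|/(40i)} ≤ C i`, `∑_i i^{-4} < ∞`.
-/

namespace Pool.Agent.H53.RM

private theorem S3_inj {ι : Type*} (s : Finset ι) (g : ι → ℕ) (hg : Set.InjOn g s) {q : ℝ}
    (h0 : 0 ≤ q) (h1 : q < 1) : ∑ i ∈ s, q ^ g i ≤ (1 - q)⁻¹ := by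
  classical
  rw [← Finset.sum_image (f := fun k => q ^ k) hg, ← tsum_geometric_of_lt_one h0 h1]
  exact (summable_geometric_of_lt_one h0 h1).sum_le_tsum _ (fun i _ => pow_nonneg h0 i)

private theorem S3_int (m : ℤ) (N : ℕ) {q : ℝ} (h0 : 0 ≤ q) (h1 : q < 1) :
    ∑ n ∈ Finset.Icc 1 N, q ^ (m - (n : ℤ)).natAbs ≤ 2 * (1 - q)⁻¹ := by
  rw [← Finset.sum_filter_add_sum_filter_not _ (fun n : ℕ => (n : ℤ) ≤ m)]
  have a1 : ∑ n ∈ Finset.filter (fun n : ℕ => (n : ℤ) ≤ m) (Finset.Icc 1 N),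
      q ^ (m - (n : ℤ)).natAbs ≤ (1 - q)⁻¹ := by
    apply S3_inj _ _ _ h0 h1
    intro x hx y hy hxy
    simp only [Finset.coe_filter, Finset.mem_Icc, Set.mem_ofPred_eq] at hx hy
    simp only at hxy
    omega
  have a2 : ∑ n ∈ Finset.filter (fun n : ℕ => ¬ (n : ℤ) ≤ m) (Finset.Icc 1 N),
      q ^ (m - (n : ℤ)).natAbs ≤ (1 - q)⁻¹ := by
    apply S3_inj _ _ _ h0 h1
    intro x hx y hy hxy
    simp only [Finset.coe_filter, Finset.mem_Icc, Set.mem_ofPred_eq] at hx hy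
    simp only at hxy
    omega
  linarith

theorem sum_exp_abs : ∃ C : ℝ, 1 ≤ C ∧ ∀ c : ℝ, 1 ≤ c → ∀ K : ℝ, ∀ N : ℕ,
    ∑ n ∈ Finset.Icc 1 N, Real.exp (-|K - n| / c) ≤ C * c := by
  refine ⟨4 * Real.exp 1, ?_, ?_⟩
  · have := Real.add_one_le_exp (1 : ℝ)
    linarith
  intro c hc K N
  have hc0 : 0 < c := by linarith
  set q : ℝ := Real.exp (-(1 / c)) with hq
  have hq0 : 0 < q := Real.exp_pos _
  have hq1 : q < 1 := by
    rw [hq, Real.exp_lt_one_iff]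
    have : 0 < 1 / c := by positivity
    linarith
  have hq2 : q ≤ 1 - 1 / (2 * c) := by
    have h1 := Real.add_one_le_exp (1 / c)
    have h2 : q * Real.exp (1 / c) = 1 := by
      rw [hq, ← Real.exp_add]; simp
    have h3 : q * (1 / c + 1) ≤ 1 := by
      calc q * (1 / c + 1) ≤ q * Real.exp (1 / c) := mul_le_mul_of_nonneg_left h1 hq0.le
        _ = 1 := h2
    have h4 : q ≤ 1 / (1 / c + 1) := by
      rw [le_div_iff₀ (by positivity)]; exact h3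
    refine h4.trans ?_
    rw [div_le_iff₀ (by positivity)]
    have : (1 - 1 / (2 * c)) * (1 / c + 1) = 1 + (c - 1) / (2 * c ^ 2) := by
      field_simp; ring
    rw [this]
    have : 0 ≤ (c - 1) / (2 * c ^ 2) := div_nonneg (by linarith) (by positivity)
    linarith
  have hinv : (1 - q)⁻¹ ≤ 2 * c := by
    rw [inv_le_comm₀ (by linarith) (by positivity)]
    have : (2 * c)⁻¹ = 1 / (2 * c) := by rw [one_div]
    rw [this]
    linarith
  have hpt : ∀ n ∈ Finset.Icc 1 N, Real.exp (-|K - n| / c) ≤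
      Real.exp 1 * q ^ (⌊K⌋ - (n : ℤ)).natAbs := by
    intro n _
    rw [hq, ← Real.exp_nat_mul, ← Real.exp_add]
    apply Real.exp_le_exp.2
    have e1 : (((⌊K⌋ - (n : ℤ)).natAbs : ℕ) : ℝ) = |(⌊K⌋ : ℝ) - n| := by
      rw [Nat.cast_natAbs]; push_cast; rfl
    rw [e1]
    have e2 : |(⌊K⌋ : ℝ) - n| ≤ |K - n| + 1 := by
      have h1 := Int.floor_le K
      have h2 := Int.lt_floor_add_one K
      have e : (⌊K⌋ : ℝ) - n = (K - n) + (⌊K⌋ - K) := by ring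
      rw [e]
      refine (abs_add_le _ _).trans ?_
      have : |(⌊K⌋ : ℝ) - K| ≤ 1 := by rw [abs_le]; constructor <;> linarith
      linarith
    have e3 : -|K - n| / c ≤ -(|(⌊K⌋ : ℝ) - n| - 1) / c := by
      apply div_le_div_of_nonneg_right _ hc0.le
      linarith
    refine e3.trans ?_
    have e4 : -(|(⌊K⌋ : ℝ) - n| - 1) / c = 1 / c + |(⌊K⌋ : ℝ) - n| * -(1 / c) := by
      field_simp; ring
    rw [e4]
    have : 1 / c ≤ 1 := by rw [div_le_one hc0]; exact hc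
    linarith
  refine (Finset.sum_le_sum hpt).trans ?_
  rw [← Finset.mul_sum]
  have := S3_int ⌊K⌋ N hq0.le hq1
  have h5 : ∑ n ∈ Finset.Icc 1 N, q ^ (⌊K⌋ - (n : ℤ)).natAbs ≤ 4 * c := by linarith
  have := mul_le_mul_of_nonneg_left h5 (Real.exp_pos 1).le
  linarith

private theorem S3_four (J : ℕ) : ∑ i ∈ Finset.Icc 1 J, 1 / (i : ℝ) ^ 4 ≤ 3 := by
  have h : ∀ J : ℕ, ∑ i ∈ Finset.Icc 1 J, 1 / (i : ℝ) ^ 4 ≤ 3 - 2 / ((J : ℝ) + 1) := by
    intro J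
    induction J with
    | zero => simp; norm_num
    | succ J ih =>
      rw [Finset.sum_Icc_succ_top (by omega)]
      have e : 1 / ((J + 1 : ℕ) : ℝ) ^ 4 ≤ 2 / ((J : ℝ) + 1) - 2 / (((J + 1 : ℕ) : ℝ) + 1) := by
        have e1 : 2 / ((J : ℝ) + 1) - 2 / (((J + 1 : ℕ) : ℝ) + 1) =
            2 / (((J : ℝ) + 1) * (J + 2)) := by
          push_cast; field_simp; ring
        rw [e1]
        push_cast
        rw [div_le_div_iff₀ (by positivity) (by positivity)]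
        have : (0 : ℝ) ≤ J := Nat.cast_nonneg J
        have h2 : (J : ℝ) + 2 ≤ 2 * (J + 1) ^ 3 := by nlinarith [pow_nonneg this 2, pow_nonneg this 3]
        have h3 : 0 ≤ (J : ℝ) + 1 := by linarith
        nlinarith [mul_le_mul_of_nonneg_left h2 h3]
      linarith
  have := h J
  have h2 : 0 ≤ 2 / ((J : ℝ) + 1) := by positivity
  linarith

private theorem S3_pt {c : ℝ} (hc : 1 ≤ c) : ∃ C : ℝ, 1 ≤ C ∧ ∀ K n i : ℝ, 1 ≤ K → 1 ≤ i → i ≤ n →
    1 / n ^ 12 * Real.exp (-|K - n| / (c * i)) ≤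
      C / K ^ 12 * Real.exp (-|K - n| / (2 * c * i)) := by
  have hc0 : 0 < c := by linarith
  refine ⟨(Nat.factorial 12 : ℝ) * (2 * c) ^ 12 * Real.exp 1, ?_, ?_⟩
  · have h1 : (1 : ℝ) ≤ (Nat.factorial 12 : ℝ) := by
      exact_mod_cast Nat.factorial_pos 12
    have h2 : (1 : ℝ) ≤ (2 * c) ^ 12 := one_le_pow₀ (by linarith)
    have h3 : (1 : ℝ) ≤ Real.exp 1 := by
      have := Real.add_one_le_exp (1 : ℝ)
      linarith
    exact one_le_mul_of_one_le_of_one_le (one_le_mul_of_one_le_of_one_le h1 h2) h3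
  intro K n i hK hi hin
  have hi0 : 0 < i := by linarith
  have hn0 : 0 < n := by linarith
  have hK0 : 0 < K := by linarith
  set z : ℝ := |K - n| / i with hz
  have hz0 : 0 ≤ z := by positivity
  have e1 : -|K - n| / (c * i) = -(z / (2 * c)) + -(z / (2 * c)) := by
    rw [hz]; field_simp; ring
  have e2 : -|K - n| / (2 * c * i) = -(z / (2 * c)) := by
    rw [hz]; field_simp
  rw [e1, e2, Real.exp_add, ← mul_assoc]
  apply mul_le_mul_of_nonneg_right _ (Real.exp_pos _).le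
  have hkn : K / n ≤ 1 + z := by
    rw [div_le_iff₀ hn0]
    have h1 : K - n ≤ |K - n| := le_abs_self _
    have h2 : |K - n| ≤ z * n := by
      rw [hz, div_mul_eq_mul_div, le_div_iff₀ hi0]
      exact mul_le_mul_of_nonneg_left hin (abs_nonneg _)
    linarith
  have h12 : (K / n) ^ 12 ≤ (1 + z) ^ 12 := pow_le_pow_left₀ (by positivity) hkn 12
  have hfac : ((1 + z) / (2 * c)) ^ 12 / (Nat.factorial 12 : ℝ) ≤ Real.exp ((1 + z) / (2 * c)) :=
    Real.pow_div_factorial_le_exp _ (by positivity) 12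
  have hfp : (0 : ℝ) < (Nat.factorial 12 : ℝ) := by exact_mod_cast Nat.factorial_pos 12
  have h13 : (1 + z) ^ 12 ≤ (Nat.factorial 12 : ℝ) * (2 * c) ^ 12 * Real.exp ((1 + z) / (2 * c)) := by
    rw [div_le_iff₀ hfp, div_pow, div_le_iff₀ (by positivity)] at hfac
    calc (1 + z) ^ 12 ≤ _ := hfac
      _ = _ := by ring
  have h14 : Real.exp ((1 + z) / (2 * c)) ≤ Real.exp 1 * Real.exp (z / (2 * c)) := by
    rw [← Real.exp_add]
    apply Real.exp_le_exp.2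
    rw [add_div]
    have : 1 / (2 * c) ≤ 1 := by rw [div_le_one (by positivity)]; linarith
    linarith
  have h15 : (K / n) ^ 12 ≤ (Nat.factorial 12 : ℝ) * (2 * c) ^ 12 * Real.exp 1 *
      Real.exp (z / (2 * c)) := by
    refine (h12.trans h13).trans ?_
    have := mul_le_mul_of_nonneg_left h14 (by positivity : (0:ℝ) ≤ (Nat.factorial 12 : ℝ) * (2 * c) ^ 12)
    linarith
  have h16 : Real.exp (z / (2 * c)) * Real.exp (-(z / (2 * c))) = 1 := by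
    rw [← Real.exp_add]; simp
  rw [div_mul_eq_mul_div, one_mul, div_le_div_iff₀ (by positivity) (by positivity)]
  have h17 : K ^ 12 ≤ (Nat.factorial 12 : ℝ) * (2 * c) ^ 12 * Real.exp 1 *
      Real.exp (z / (2 * c)) * n ^ 12 := by
    rw [div_pow, div_le_iff₀ (by positivity)] at h15
    exact h15
  calc Real.exp (-(z / (2 * c))) * K ^ 12 ≤ Real.exp (-(z / (2 * c))) *
        ((Nat.factorial 12 : ℝ) * (2 * c) ^ 12 * Real.exp 1 * Real.exp (z / (2 * c)) * n ^ 12) :=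
        mul_le_mul_of_nonneg_left h17 (Real.exp_pos _).le
    _ = (Nat.factorial 12 : ℝ) * (2 * c) ^ 12 * Real.exp 1 * n ^ 12 *
        (Real.exp (z / (2 * c)) * Real.exp (-(z / (2 * c)))) := by ring
    _ = _ := by rw [h16, mul_one]

theorem sum_a : ∃ C : ℝ, 1 ≤ C ∧ ∀ K N : ℕ, 1 ≤ K →
    ∑ n ∈ Finset.Icc 1 N, (1 / (n : ℝ) ^ 12) * ∑ i ∈ Finset.Icc 1 n,
      Real.exp (-|(K : ℝ) - n| / (40 * i)) / (i : ℝ) ^ 5 ≤ C / (K : ℝ) ^ 12 := by
  obtain ⟨C1, hC1, h1⟩ := sum_exp_abs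
  obtain ⟨C2, hC2, h2⟩ := S3_pt (c := 40) (by norm_num)
  refine ⟨C2 * (C1 * 80 * 3), ?_, ?_⟩
  · exact one_le_mul_of_one_le_of_one_le hC2 (by linarith)
  intro K N hK
  have hK' : (1 : ℝ) ≤ K := by exact_mod_cast hK
  have hK0 : (0 : ℝ) < K := by linarith
  have s1 : ∀ n ∈ Finset.Icc 1 N, (1 / (n : ℝ) ^ 12) * ∑ i ∈ Finset.Icc 1 n,
      Real.exp (-|(K : ℝ) - n| / (40 * i)) / (i : ℝ) ^ 5 ≤
      ∑ i ∈ Finset.Icc 1 N, C2 / (K : ℝ) ^ 12 *
        Real.exp (-|(K : ℝ) - n| / (80 * i)) / (i : ℝ) ^ 5 := by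
    intro n hn
    rw [Finset.mem_Icc] at hn
    rw [Finset.mul_sum]
    calc ∑ i ∈ Finset.Icc 1 n, 1 / (n : ℝ) ^ 12 *
          (Real.exp (-|(K : ℝ) - n| / (40 * i)) / (i : ℝ) ^ 5)
        ≤ ∑ i ∈ Finset.Icc 1 n, C2 / (K : ℝ) ^ 12 *
          Real.exp (-|(K : ℝ) - n| / (80 * i)) / (i : ℝ) ^ 5 := by
          apply Finset.sum_le_sum
          intro i hi
          rw [Finset.mem_Icc] at hi
          have := h2 K n i hK' (by exact_mod_cast hi.1) (by exact_mod_cast hi.2)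
          rw [mul_div_assoc']
          apply div_le_div_of_nonneg_right _ (by positivity)
          have e80 : (2 : ℝ) * 40 * i = 80 * i := by ring
          rw [e80] at this
          exact this
      _ ≤ _ := by
          apply Finset.sum_le_sum_of_subset_of_nonneg
          · exact Finset.Icc_subset_Icc_right hn.2
          · intro i _ _
            positivity
  refine (Finset.sum_le_sum s1).trans ?_
  rw [Finset.sum_comm]
  have s2 : ∀ i ∈ Finset.Icc 1 N, ∑ n ∈ Finset.Icc 1 N, C2 / (K : ℝ) ^ 12 *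
      Real.exp (-|(K : ℝ) - n| / (80 * i)) / (i : ℝ) ^ 5 ≤
      C2 / (K : ℝ) ^ 12 * (C1 * 80) * (1 / (i : ℝ) ^ 4) := by
    intro i hi
    rw [Finset.mem_Icc] at hi
    have hi' : (1 : ℝ) ≤ i := by exact_mod_cast hi.1
    have hi0 : (0 : ℝ) < i := by linarith
    rw [← Finset.sum_div, ← Finset.mul_sum]
    have := h1 (80 * i) (by linarith) K N
    calc (C2 / (K : ℝ) ^ 12 * ∑ n ∈ Finset.Icc 1 N, Real.exp (-|(K : ℝ) - n| / (80 * i))) / (i : ℝ) ^ 5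
        ≤ (C2 / (K : ℝ) ^ 12 * (C1 * (80 * i))) / (i : ℝ) ^ 5 :=
          div_le_div_of_nonneg_right (mul_le_mul_of_nonneg_left this (by positivity)) (by positivity)
      _ = C2 / (K : ℝ) ^ 12 * (C1 * 80) * (1 / (i : ℝ) ^ 4) := by field_simp
  refine (Finset.sum_le_sum s2).trans ?_
  rw [← Finset.mul_sum]
  have h4 := S3_four N
  calc C2 / (K : ℝ) ^ 12 * (C1 * 80) * ∑ i ∈ Finset.Icc 1 N, 1 / (i : ℝ) ^ 4
      ≤ C2 / (K : ℝ) ^ 12 * (C1 * 80) * 3 := mul_le_mul_of_nonneg_left h4 (by positivity)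
    _ = _ := by ring

theorem sum_b : ∃ C : ℝ, 1 ≤ C ∧ ∀ K N J : ℕ,
    ∑ n ∈ Finset.Icc 1 N, ∑ i ∈ Finset.Icc 1 J,
      Real.exp (-|(K : ℝ) - n| / (40 * i)) / (i : ℝ) ^ 5 ≤ C := by
  obtain ⟨C1, hC1, h1⟩ := sum_exp_abs
  refine ⟨C1 * 40 * 3, by linarith, ?_⟩
  intro K N J
  rw [Finset.sum_comm]
  have s2 : ∀ i ∈ Finset.Icc 1 J, ∑ n ∈ Finset.Icc 1 N,
      Real.exp (-|(K : ℝ) - n| / (40 * i)) / (i : ℝ) ^ 5 ≤ (C1 * 40) * (1 / (i : ℝ) ^ 4) := by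
    intro i hi
    rw [Finset.mem_Icc] at hi
    have hi' : (1 : ℝ) ≤ i := by exact_mod_cast hi.1
    have hi0 : (0 : ℝ) < i := by linarith
    rw [← Finset.sum_div]
    have := h1 (40 * i) (by linarith) K N
    calc (∑ n ∈ Finset.Icc 1 N, Real.exp (-|(K : ℝ) - n| / (40 * i))) / (i : ℝ) ^ 5
        ≤ (C1 * (40 * i)) / (i : ℝ) ^ 5 := div_le_div_of_nonneg_right this (by positivity)
      _ = (C1 * 40) * (1 / (i : ℝ) ^ 4) := by field_simp
  refine (Finset.sum_le_sum s2).trans ?_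
  rw [← Finset.mul_sum]
  exact mul_le_mul_of_nonneg_left (S3_four J) (by positivity)

/-- convolution with a fixed exponential keeps the weight `n^{-12}` -/
theorem sum_c : ∃ C : ℝ, 1 ≤ C ∧ ∀ K N : ℕ, 1 ≤ K →
    ∑ n ∈ Finset.Icc 1 N, (1 / (n : ℝ) ^ 12) * Real.exp (-|(K : ℝ) - n| / 80) ≤
      C / (K : ℝ) ^ 12 := by
  obtain ⟨C1, hC1, h1⟩ := sum_exp_abs
  obtain ⟨C2, hC2, h2⟩ := S3_pt (c := 80) (by norm_num)
  refine ⟨C2 * (C1 * 160), ?_, ?_⟩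
  · exact one_le_mul_of_one_le_of_one_le hC2 (by linarith)
  intro K N hK
  have hK' : (1 : ℝ) ≤ K := by exact_mod_cast hK
  have hK0 : (0 : ℝ) < K := by linarith
  have s1 : ∀ n ∈ Finset.Icc 1 N, (1 / (n : ℝ) ^ 12) * Real.exp (-|(K : ℝ) - n| / 80) ≤
      C2 / (K : ℝ) ^ 12 * Real.exp (-|(K : ℝ) - n| / 160) := by
    intro n hn
    rw [Finset.mem_Icc] at hn
    have := h2 K n 1 hK' le_rfl (by exact_mod_cast hn.1)
    norm_num at this ⊢
    exact this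
  refine (Finset.sum_le_sum s1).trans ?_
  rw [← Finset.mul_sum]
  calc C2 / (K : ℝ) ^ 12 * ∑ n ∈ Finset.Icc 1 N, Real.exp (-|(K : ℝ) - n| / 160)
      ≤ C2 / (K : ℝ) ^ 12 * (C1 * 160) :=
        mul_le_mul_of_nonneg_left (h1 160 (by norm_num) K N) (by positivity)
    _ = _ := by ring

end Pool.Agent.H53.RM
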