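import Pool.Agent.H53.RM.T4_JDeriv

/-! # T4b: integration by parts, see the header of `T4_JDeriv` -/

namespace Pool.Agent.H53.RM

open Complex Pool.Agent.H65.RM

lemma T4b_et (N : ℕ) (η : ℕ → ℝ) (θ : ℝ) : et N (rr η) θ = hh N η θ - 1 := by
  unfold et hh rr
  rw [add_sub_cancel_left]
  apply Finset.sum_congr rfl
  intro i hi
  have h1 : (1 : ℝ) ≤ i := by exact_mod_cast (Finset.mem_Icc.1 hi).1
  have h2 : (4 * (i : ℝ) ^ 2 - 1) ≠ 0 := by
    have : (0 : ℝ) < 4 * (i : ℝ) ^ 2 - 1 := by nlinarith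
    exact this.ne'
  congr 1
  field_simp
  ring

theorem JJ_deriv (N : ℕ) (a η : ℕ → ℝ) {p : ℝ} (hp1 : 1 < p) (hp2 : p < 2) {K : ℕ} (hK : 1 ≤ K)
    (τ : ℝ) :
    HasDerivAt (fun τ : ℝ => JJ N (fun i => a i + τ * η i) p K)
      (((4 * ((K : ℝ) ^ 2 - (p / 2) ^ 2) / (p / 2) : ℝ) : ℂ) *
        LL N (fun i => a i + τ * η i) η p K) τ := by
  have _ := hp2
  have h := Pool.Agent.H65.RM.JJ_deriv' hK hp1 (cv_ga (N := N) (r := rr a))
    (cv_Vs (N := N) (rr η)) τ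
  have hf : (fun τ : ℝ => JJ N (fun i => a i + τ * η i) p K) = fun τ : ℝ =>
      Pool.Agent.H65.RM.JJ p K (fun θ => ga N (rr a) θ + τ * Vs N (rr η) θ)
      (fun θ => ga' N (rr a) θ + τ * Vs' N (rr η) θ) := funext fun τ => T4_JJ N a η p hK τ
  rw [hf]
  refine h.congr_deriv ?_
  have e3 : ∀ α : ℝ, ((ga' N (rr a) α + τ * Vs' N (rr η) α) *
      (starRingEnd ℂ) (Vs N (rr η) α)).im =
      ro N (rr fun i => a i + τ * η i) α * (hh N η α - 1) := by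
    intro α
    rw [← ga'_line, T4_rr]
    unfold ga'
    rw [mul_assoc, Complex.im_ofReal_mul, im_et, T4b_et]
  unfold LL Pool.Agent.H65.RM.LL
  simp only [T4_ga, T4_gp, T4_ff_eq hK, e3]
  push_cast
  ring

end Pool.Agent.H53.RM
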