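import Pool.Agent.H53.RM.T3_FcJ
import Pool.Agent.H53.RM.T4b_JDeriv
import Pool.Agent.H53.RM.A10_Inv
import Pool.Agent.H65.RM.Four

/-!
# T5: the derivative of `F_K` in terms of the Fourier coefficients of the kernel

`LL_DD`: the inner integral is `∫_0^π el^p e^{-2iK(α+t)} dt` (`Sm.inner_c` of helper65), and
`Sm.DD_eq` (helper65) is the double integral against `cos 2nα`.
`Fc_deriv`: `Fc_J` holds for all `τ'` near `τ` (`Sml` is open), so `dF_K/dτ = p/(8π(K²-P²)) · 4(K²-P²)/P · LL = (1/π) LL`.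
-/

namespace Pool.Agent.H53.RM

open Complex Pool.Agent.H65.RM

variable {N : ℕ} {a η : ℕ → ℝ}

/-- the two forms of `f` -/
theorem T5_ff {p : ℝ} {K : ℕ} (hK : 1 ≤ K) (z : ℂ) : ff K p z = Pool.Agent.H65.RM.ff p K z := by
  unfold ff Pool.Agent.H65.RM.ff
  by_cases hz : z = 0
  · subst hz
    rw [map_zero, zero_div, zero_pow (by omega : K ≠ 0), zero_pow (by omega : 2 * K ≠ 0), mul_zero,
      mul_zero]
  · have h0 : 0 < ‖z‖ := norm_pos_iff.2 hz
    have h1 : (starRingEnd ℂ) z / z = (starRingEnd ℂ) z ^ 2 / ((‖z‖ ^ 2 : ℝ) : ℂ) := by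
      have h2 : (((‖z‖ ^ 2 : ℝ) : ℂ)) = z * (starRingEnd ℂ) z := by
        rw [Complex.mul_conj, Complex.normSq_eq_norm_sq]
      have h3 : (starRingEnd ℂ) z ≠ 0 := by
        rw [Ne, map_eq_zero]
        exact hz
      rw [h2]
      field_simp
    rw [h1, div_pow, ← pow_mul, ← Complex.ofReal_pow, ← pow_mul]
    have h4 : ‖z‖ ^ (p - 2) = ‖z‖ ^ (p - 2 - 2 * K) * ‖z‖ ^ (2 * K) := by
      rw [← Real.rpow_natCast ‖z‖ (2 * K), ← Real.rpow_add h0]
      congr 1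
      push_cast
      ring
    rw [h4]
    have h5 : ((‖z‖ ^ (2 * K) : ℝ) : ℂ) ≠ 0 := by
      exact_mod_cast (pow_pos h0 _).ne'
    push_cast at h5 ⊢
    field_simp

theorem T5_cont {R : ℝ} {r : ℕ → ℝ} {p : ℝ} (h : Sm N r R) (hp : 1.9 < p) (K : ℕ) :
    Continuous fun α : ℝ => ∫ t in (0 : ℝ)..Real.pi,
      ex (-(2 * K * (α + t))) * ((el N r α t ^ p : ℝ) : ℂ) := by
  apply intervalIntegral.continuous_parametric_intervalIntegral_of_continuous'
  have k1 : Continuous fun x : ℝ × ℝ => mm N r (ex (2 * x.1)) (ex (2 * x.2)) :=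
    cont2 (F := mm N r) h.mm_cont (by fun_prop) (by fun_prop)
  have k2 : Continuous fun x : ℝ × ℝ => mr N r x.1 x.2 := Complex.continuous_re.comp k1
  have k3 : Continuous fun x : ℝ × ℝ => el N r x.1 x.2 := by
    unfold el
    exact (continuous_const.mul k2).mul (by fun_prop)
  have k4 : Continuous fun x : ℝ × ℝ => ((el N r x.1 x.2 ^ p : ℝ) : ℂ) :=
    Complex.continuous_ofReal.comp
      ((Real.continuous_rpow_const (by linarith : 0 ≤ p)).comp k3)
  have k5 : Continuous fun x : ℝ × ℝ => ex (-(2 * K * (x.1 + x.2))) :=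
    continuous_ex_comp (by fun_prop)
  exact k5.mul k4

theorem LL_DD (hN : 1 ≤ N) (ha : Sml N a) (η : ℕ → ℝ) {p : ℝ} (hp1 : 1.9 < p) (hp2 : p < 2)
    {K : ℕ} (hK : 1 ≤ K) :
    LL N a η p K = (Real.pi : ℂ) * ∑ n ∈ Finset.Icc 1 N, (η n : ℂ) * DD N (rr a) p K n := by
  obtain ⟨R, hR, h⟩ := Sml_Sm ha
  have hc := T5_cont (K := K) h hp1
  have hpi : (Real.pi : ℂ) ≠ 0 := by exact_mod_cast Real.pi_ne_zero
  have hD : ∀ n : ℕ, DD N (rr a) p K n = Pool.Agent.H65.RM.DD p N (rr a) K n := fun n => rfl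
  have hin : ∀ α : ℝ, (∫ β in (0:ℝ)..(2 * Real.pi), ff K p (ga N (rr a) β - ga N (rr a) α) *
      ((((starRingEnd ℂ) (ga N (rr a) β - ga N (rr a) α) * gp N a β).im : ℝ) : ℂ)) =
      ∫ t in (0 : ℝ)..Real.pi, ex (-(2 * K * (α + t))) * ((el N (rr a) α t ^ p : ℝ) : ℂ) := by
    intro α
    have h1 := h.inner_c hR hK (by linarith : 1 < p) α
    rw [← h1]
    congr 1
    funext β
    rw [T5_ff hK]
    rfl
  unfold LL
  simp only [hin]
  have e1 : ∀ α : ℝ, ((ro N (rr a) α * (hh N η α - 1) : ℝ) : ℂ) *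
      (∫ t in (0 : ℝ)..Real.pi, ex (-(2 * K * (α + t))) * ((el N (rr a) α t ^ p : ℝ) : ℂ)) =
      ∑ n ∈ Finset.Icc 1 N, (η n : ℂ) *
        (((ro N (rr a) α * Real.cos (2 * (n : ℤ) * α) : ℝ) : ℂ) *
        ∫ t in (0 : ℝ)..Real.pi, ex (-(2 * K * (α + t))) * ((el N (rr a) α t ^ p : ℝ) : ℂ)) := by
    intro α
    have h2 : hh N η α - 1 = ∑ i ∈ Finset.Icc 1 N, η i * Real.cos (2 * i * α) := by
      unfold hh
      ring
    rw [h2, Finset.mul_sum]
    push_cast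
    rw [Finset.sum_mul]
    apply Finset.sum_congr rfl
    intro n _
    ring
  simp only [e1]
  rw [intervalIntegral.integral_finsetSum]
  · rw [Finset.mul_sum]
    apply Finset.sum_congr rfl
    intro n _
    rw [intervalIntegral.integral_const_mul, hD, ← h.DD_eq hR hp1 hp2 K n]
    push_cast
    field_simp
  · intro n _
    apply Continuous.intervalIntegrable
    apply continuous_const.mul
    apply Continuous.mul _ hc
    apply Complex.continuous_ofReal.comp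
    exact continuous_ro.mul (by fun_prop)

/-- smallness is an open condition along a line -/
theorem T5_open (N : ℕ) (a η : ℕ → ℝ) (τ : ℝ) (ha : Sml N (fun i => a i + τ * η i)) :
    ∀ᶠ s in nhds τ, Sml N (fun i => a i + s * η i) := by
  unfold Sml at ha ⊢
  have hc : Continuous fun s : ℝ => wt N (rr (fun i => a i + s * η i)) 1 := by
    unfold wt rr
    fun_prop
  exact hc.continuousAt.eventually_lt continuousAt_const ha

theorem Fc_deriv (hN : 1 ≤ N) {p : ℝ} (hp1 : 1.9 < p) (hp2 : p < 2) {K : ℕ} (hK : 1 ≤ K) (τ : ℝ)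
    (ha : Sml N (fun i => a i + τ * η i)) :
    HasDerivAt (fun τ : ℝ => Fc p (hh N (fun i => a i + τ * η i)) K)
      (∑ n ∈ Finset.Icc 1 N, (η n : ℂ) * DD N (rr (fun i => a i + τ * η i)) p K n) τ := by
  have hp : 1 < p := by linarith
  have hpi : (Real.pi : ℂ) ≠ 0 := by exact_mod_cast Real.pi_ne_zero
  have h1 := (JJ_deriv N a η hp hp2 hK τ).const_mul
    (((p / (8 * Real.pi * ((K : ℝ) ^ 2 - (p / 2) ^ 2)) : ℝ) : ℂ))
  have hev : (fun τ : ℝ => Fc p (hh N (fun i => a i + τ * η i)) K) =ᶠ[nhds τ]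
      fun τ : ℝ => ((p / (8 * Real.pi * ((K : ℝ) ^ 2 - (p / 2) ^ 2)) : ℝ) : ℂ) *
        JJ N (fun i => a i + τ * η i) p K := by
    filter_upwards [T5_open N a η τ ha] with s hs
    exact Fc_J hs hp hp2 hK
  refine (h1.congr_of_eventuallyEq hev).congr_deriv ?_
  rw [LL_DD hN ha η hp1 hp2 hK]
  have hk : (K : ℝ) ^ 2 - (p / 2) ^ 2 ≠ 0 := by
    have hK1 : (1 : ℝ) ≤ K := by exact_mod_cast hK
    have : (p / 2) ^ 2 < (K : ℝ) ^ 2 := by
      apply pow_lt_pow_left₀ _ (by linarith) (by norm_num)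
      linarith
    linarith
  rw [← mul_assoc, ← mul_assoc]
  have e : ((p / (8 * Real.pi * ((K : ℝ) ^ 2 - (p / 2) ^ 2)) : ℝ) : ℂ) *
      ((4 * ((K : ℝ) ^ 2 - (p / 2) ^ 2) / (p / 2) : ℝ) : ℂ) * (Real.pi : ℂ) = 1 := by
    have : p / (8 * Real.pi * ((K : ℝ) ^ 2 - (p / 2) ^ 2)) *
      (4 * ((K : ℝ) ^ 2 - (p / 2) ^ 2) / (p / 2)) * Real.pi = 1 := by
      have hp0 : p ≠ 0 := by linarith
      have := Real.pi_ne_zero
      generalize (K : ℝ) ^ 2 - (p / 2) ^ 2 = D at hk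
      field_simp
      ring
    exact_mod_cast this
  rw [e, one_mul]

end Pool.Agent.H53.RM
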