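import Pool.Agent.H53.RM.S2_DD
import Pool.Agent.H53.RM.S3_Sums
import Pool.Agent.H53.RM.T5_FcDeriv
import Pool.Agent.H53.RM.G3_Symm

/-!
# S4: the two main estimates for `F_K`

(7c) `F_K(base) = 0` for odd `K` (`Fc_fourfold`).  Let `w^{(n)} = w·[i ≤ n]`.  For each `n ≤ N` the function
`τ ↦ Fc p (hh N (aB + w^{(n-1)} + τ w_n e_n)) K - τ w_n DD(base)_{K,n}` has derivative
`w_n (DD(body) - DD(base))_{K,n}` (`Fc_deriv` with `η = w_n e_n`), bounded by `DD_diff` with `J = n`;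
mean value inequality `norm_image_sub_le_of_norm_deriv_le_segment_01'`; sum over `n` (only odd `n` matter), `sum_a`.
(7d) the same along the segment from `w'` to `w`: `η = w - w'`, `DD_diff` with `J = N`, `sum_b`
(the bodies on the segment satisfy `HW A ε N`, by convexity).
-/

namespace Pool.Agent.H53.RM

open Pool.Agent.H65.RM

/-- mean value inequality along a segment of bodies -/
theorem S4_mv {N : ℕ} (hN : 1 ≤ N) {p : ℝ} (hp1 : 1.9 < p) (hp2 : p < 2) {K : ℕ} (hK : 1 ≤ K)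
    (a η : ℕ → ℝ) (D : ℕ → ℂ) {B : ℝ}
    (hs : ∀ τ ∈ Set.Icc (0:ℝ) 1, Sml N (fun i => a i + τ * η i))
    (hb : ∀ τ ∈ Set.Icc (0:ℝ) 1, ‖∑ n ∈ Finset.Icc 1 N,
      (η n : ℂ) * (DD N (rr (fun i => a i + τ * η i)) p K n - D n)‖ ≤ B) :
    ‖Fc p (hh N (fun i => a i + η i)) K - Fc p (hh N a) K
      - ∑ n ∈ Finset.Icc 1 N, (η n : ℂ) * D n‖ ≤ B := by
  set S : ℂ := ∑ n ∈ Finset.Icc 1 N, (η n : ℂ) * D n with hS
  have hf : ∀ τ ∈ Set.Icc (0:ℝ) 1, HasDerivWithinAt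
      (fun τ : ℝ => Fc p (hh N (fun i => a i + τ * η i)) K - (τ : ℂ) * S)
      (∑ n ∈ Finset.Icc 1 N, (η n : ℂ) * (DD N (rr (fun i => a i + τ * η i)) p K n - D n))
      (Set.Icc (0:ℝ) 1) τ := by
    intro τ hτ
    have h1 := Fc_deriv hN hp1 hp2 hK τ (hs τ hτ)
    have h2 : HasDerivAt (fun τ : ℝ => (τ : ℂ) * S) (1 * S) τ :=
      (Complex.ofRealCLM.hasDerivAt (x := τ)).mul_const S
    have h3 := (h1.sub h2).hasDerivWithinAt (s := Set.Icc (0:ℝ) 1)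
    refine h3.congr_deriv ?_
    rw [one_mul, hS, ← Finset.sum_sub_distrib]
    exact Finset.sum_congr rfl fun n _ => by ring
  have h4 := norm_image_sub_le_of_norm_deriv_le_segment_01' hf
    (fun τ hτ => hb τ ⟨hτ.1, hτ.2.le⟩)
  simp only [Complex.ofReal_one, Complex.ofReal_zero, one_mul, zero_mul, sub_zero, add_zero] at h4
  calc _ = ‖Fc p (hh N (fun i => a i + η i)) K - S - Fc p (hh N a) K‖ := by congr 1; ring
    _ ≤ B := h4

theorem S4_hh_congr {N : ℕ} {a b : ℕ → ℝ} (h : ∀ i, 1 ≤ i → i ≤ N → a i = b i) :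
    hh N a = hh N b := by
  funext θ
  unfold hh
  congr 1
  refine Finset.sum_congr rfl fun i hi => ?_
  rw [Finset.mem_Icc] at hi
  rw [h i hi.1 hi.2]

theorem S4_base_four {N : ℕ} (ε : ℝ) (θ : ℝ) :
    hh N (aB ε) (θ + Real.pi / 2) = hh N (aB ε) θ := by
  unfold hh
  congr 1
  refine Finset.sum_congr rfl fun i _ => ?_
  unfold aB
  split_ifs with h
  · subst h
    congr 1
    have : 2 * ((2:ℕ):ℝ) * (θ + Real.pi / 2) = 2 * ((2:ℕ):ℝ) * θ + 2 * Real.pi := by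
      push_cast; ring
    rw [this, Real.cos_add_two_pi]
  · ring

theorem S4_base_zero {N : ℕ} {ε : ℝ} (hε : 0 < ε) (hε1 : ε ≤ 1 / 100000) {p : ℝ} (hp1 : 1 ≤ p)
    (hp2 : p ≤ 2) {K : ℕ} (hK : Odd K) : Fc p (hh N (aB ε)) K = 0 :=
  Fc_fourfold (hh_HOK (aB_Sml hε hε1 N)) (S4_base_four ε) hp1 hp2 (by exact_mod_cast hK)

/-- convex combinations -/
theorem S4_HW_seg {A ε : ℝ} {J : ℕ} {w w' : ℕ → ℝ} (hw : HW A ε J w) (hw' : HW A ε J w') {τ : ℝ}
    (hτ : τ ∈ Set.Icc (0:ℝ) 1) : HW A ε J (fun i => w' i + τ * (w i - w' i)) := by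
  constructor
  · intro i hi
    by_cases h1 : w i = 0
    · by_cases h2 : w' i = 0
      · exact absurd (by simp [h1, h2]) hi
      · exact hw'.supp i h2
    · exact hw.supp i h1
  · intro i hi
    have h1 := hw.size i hi
    have h2 := hw'.size i hi
    have h3 : w' i + τ * (w i - w' i) = (1 - τ) * w' i + τ * w i := by ring
    rw [h3]
    calc |(1 - τ) * w' i + τ * w i| ≤ |(1 - τ) * w' i| + |τ * w i| := abs_add_le _ _
      _ = (1 - τ) * |w' i| + τ * |w i| := by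
          rw [abs_mul, abs_mul, abs_of_nonneg hτ.1, abs_of_nonneg (by linarith [hτ.2])]
      _ ≤ (1 - τ) * (A * ε ^ 3 / (i : ℝ) ^ 12) + τ * (A * ε ^ 3 / (i : ℝ) ^ 12) :=
          add_le_add (mul_le_mul_of_nonneg_left h2 (by linarith [hτ.2]))
            (mul_le_mul_of_nonneg_left h1 hτ.1)
      _ = A * ε ^ 3 / (i : ℝ) ^ 12 := by ring

/-- truncation -/
def S4_tr (w : ℕ → ℝ) (n : ℕ) (i : ℕ) : ℝ := if i ≤ n then w i else 0

theorem S4_HW_tr {A ε : ℝ} {J : ℕ} {w : ℕ → ℝ} (hA : 0 ≤ A) (hε : 0 ≤ ε) (hw : HW A ε J w) {n m : ℕ}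
    (hnm : n ≤ m) : HW A ε m (S4_tr w n) := by
  constructor
  · intro i hi
    unfold S4_tr at hi
    split_ifs at hi with h
    · exact ⟨(hw.supp i hi).1, h.trans hnm⟩
    · exact absurd rfl hi
  · intro i hi
    unfold S4_tr
    split_ifs with h
    · exact hw.size i hi
    · rw [abs_zero]; positivity

/-- one mode is added -/
theorem S4_step {C : ℝ} (hDD : ∀ A ε : ℝ, 1 ≤ A → 0 < ε → ε ≤ 1 / 100000 → A * ε ≤ 1 →
    ∀ p : ℝ, 143 * ε ^ 2 ≤ 2 - p → 2 - p ≤ 145 * ε ^ 2 → ∀ N J : ℕ, 1 ≤ N →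
    ∀ w : ℕ → ℝ, HW A ε J w → ∀ K n : ℕ, 1 ≤ K → 1 ≤ n →
      ‖DD N (rr (fun i => aB ε i + w i)) p K n - DD N (rr (aB ε)) p K n‖ ≤
        C * A * ε * |Cn p K| * ∑ i ∈ Finset.Icc 1 J,
          Real.exp (-|(K : ℝ) - n| / (40 * i)) / (i : ℝ) ^ 5)
    {A ε : ℝ} (hA : 1 ≤ A) (hε : 0 < ε) (hε1 : ε ≤ 1 / 100000) (hAε : A * ε ≤ 1)
    {p : ℝ} (hq1 : 143 * ε ^ 2 ≤ 2 - p) (hq2 : 2 - p ≤ 145 * ε ^ 2) {N : ℕ} (hN : 1 ≤ N)
    {w : ℕ → ℝ} (hw : HW A ε N w) {K : ℕ} (hK : 1 ≤ K) {n : ℕ} (hn : n + 1 ≤ N) :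
    ‖Fc p (hh N (fun i => aB ε i + S4_tr w (n + 1) i)) K
      - Fc p (hh N (fun i => aB ε i + S4_tr w n i)) K
      - (w (n + 1) : ℂ) * DD N (rr (aB ε)) p K ((n + 1 : ℕ) : ℤ)‖ ≤
      (A * ε ^ 3 / ((n + 1 : ℕ) : ℝ) ^ 12) * (C * A * ε * |Cn p K| * ∑ i ∈ Finset.Icc 1 (n + 1),
          Real.exp (-|(K : ℝ) - ((n + 1 : ℕ) : ℝ)| / (40 * i)) / (i : ℝ) ^ 5) := by
  have hε2 : ε ^ 2 ≤ 1 / 10000000000 := by nlinarith
  have hε3 : 0 < ε ^ 2 := by positivity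
  have hp2 : p < 2 := by linarith
  have hp1 : 1.9 < p := by norm_num; linarith
  set η : ℕ → ℝ := fun i => if i = n + 1 then w (n + 1) else 0 with hη
  set a : ℕ → ℝ := fun i => aB ε i + S4_tr w n i with ha
  -- bodies on the segment
  have hbody : ∀ τ : ℝ, (fun i => a i + τ * η i) =
      fun i => aB ε i + (S4_tr w n i + τ * (S4_tr w (n + 1) i - S4_tr w n i)) := by
    intro τ
    funext i
    simp only [ha, hη, S4_tr]
    by_cases h1 : i = n + 1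
    · subst h1
      simp
    · by_cases h2 : i ≤ n
      · rw [if_neg h1, if_pos h2, if_pos (by omega : i ≤ n + 1)]; ring
      · rw [if_neg h1, if_neg h2, if_neg (by omega : ¬ i ≤ n + 1)]; ring
  have hHW : ∀ τ ∈ Set.Icc (0:ℝ) 1,
      HW A ε (n + 1) (fun i => S4_tr w n i + τ * (S4_tr w (n + 1) i - S4_tr w n i)) := fun τ hτ =>
    S4_HW_seg (S4_HW_tr (by linarith) hε.le hw le_rfl)
      (S4_HW_tr (by linarith) hε.le hw (Nat.le_succ n)) hτ
  have hsumη : ∀ f : ℕ → ℂ, ∑ m ∈ Finset.Icc 1 N, (η m : ℂ) * f m = (w (n + 1) : ℂ) * f (n + 1) := by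
    intro f
    rw [Finset.sum_eq_single (n + 1)]
    · simp [hη]
    · intro m _ hm
      simp [hη, hm]
    · intro hm
      exact absurd (Finset.mem_Icc.2 ⟨by omega, hn⟩) hm
  have key := S4_mv hN hp1 hp2 hK a η (fun m => DD N (rr (aB ε)) p K m)
    (B := (A * ε ^ 3 / ((n + 1 : ℕ) : ℝ) ^ 12) * (C * A * ε * |Cn p K| * ∑ i ∈ Finset.Icc 1 (n + 1),
          Real.exp (-|(K : ℝ) - ((n + 1 : ℕ) : ℝ)| / (40 * i)) / (i : ℝ) ^ 5))
    (by
      intro τ hτ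
      rw [hbody τ]
      exact HW_Sml hA hε hε1 hAε (hHW τ hτ) N)
    (by
      intro τ hτ
      rw [hsumη (fun m => DD N (rr (fun i => a i + τ * η i)) p K m - DD N (rr (aB ε)) p K m),
        hbody τ, norm_mul, Complex.norm_real, Real.norm_eq_abs]
      refine mul_le_mul (hw.size (n + 1) (by omega)) ?_ (norm_nonneg _) (by positivity)
      exact hDD A ε hA hε hε1 hAε p hq1 hq2 N (n + 1) hN _ (hHW τ hτ) K (n + 1) hK (by omega))
  have e1 : (fun i => a i + η i) = fun i => aB ε i + S4_tr w (n + 1) i := by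
    have := hbody 1
    simp only [one_mul] at this
    rw [this]
    funext i
    ring
  rw [e1, hsumη (fun m => DD N (rr (aB ε)) p K m)] at key
  exact key

theorem Fc_exp : ∃ C : ℝ, 1 ≤ C ∧ ∀ A ε : ℝ, 1 ≤ A → 0 < ε → ε ≤ 1 / 100000 → A * ε ≤ 1 →
    ∀ p : ℝ, 143 * ε ^ 2 ≤ 2 - p → 2 - p ≤ 145 * ε ^ 2 → ∀ N : ℕ, 2 ≤ N →
    ∀ w : ℕ → ℝ, HW A ε N w → ∀ K : ℕ, Odd K →
      ‖Fc p (hh N (fun i => aB ε i + w i)) K
          - ∑ n ∈ Finset.Icc 1 N, (w n : ℂ) * DD N (rr (aB ε)) p K n‖ ≤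
        C * A ^ 2 * ε ^ 4 * |Cn p K| / (K : ℝ) ^ 12 := by
  obtain ⟨C, hC, hDD⟩ := DD_diff
  obtain ⟨C', hC', hsa⟩ := sum_a
  refine ⟨C * C', by nlinarith, ?_⟩
  intro A ε hA hε hε1 hAε p hq1 hq2 N hN w hw K hKo
  have hK : 1 ≤ K := hKo.pos
  have hε2 : ε ^ 2 ≤ 1 / 10000000000 := by nlinarith
  have hε3 : 0 < ε ^ 2 := by positivity
  have hN1 : 1 ≤ N := by omega
  -- induction over the modes
  have hind : ∀ n : ℕ, n ≤ N →
      ‖Fc p (hh N (fun i => aB ε i + S4_tr w n i)) K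
        - ∑ m ∈ Finset.Icc 1 n, (w m : ℂ) * DD N (rr (aB ε)) p K m‖ ≤
      ∑ m ∈ Finset.Icc 1 n, (A * ε ^ 3 / (m : ℝ) ^ 12) * (C * A * ε * |Cn p K| *
        ∑ i ∈ Finset.Icc 1 m, Real.exp (-|(K : ℝ) - m| / (40 * i)) / (i : ℝ) ^ 5) := by
    intro n
    induction n with
    | zero =>
      intro _
      have e1 : hh N (fun i => aB ε i + S4_tr w 0 i) = hh N (aB ε) := by
        refine S4_hh_congr fun i hi _ => ?_
        unfold S4_tr
        rw [if_neg (by omega)]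
        ring
      rw [e1, S4_base_zero hε hε1 (by linarith) (by linarith) hKo]
      simp
    | succ n ih =>
      intro hn
      have h1 := ih (by omega)
      have h2 := S4_step hDD hA hε hε1 hAε hq1 hq2 hN1 hw hK hn
      rw [Finset.sum_Icc_succ_top (by omega : 1 ≤ n + 1), Finset.sum_Icc_succ_top (by omega : 1 ≤ n + 1)]
      have h3 : Fc p (hh N (fun i => aB ε i + S4_tr w (n + 1) i)) K
          - (∑ m ∈ Finset.Icc 1 n, (w m : ℂ) * DD N (rr (aB ε)) p K m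
            + (w (n + 1) : ℂ) * DD N (rr (aB ε)) p K ((n + 1 : ℕ) : ℤ)) =
          (Fc p (hh N (fun i => aB ε i + S4_tr w n i)) K
            - ∑ m ∈ Finset.Icc 1 n, (w m : ℂ) * DD N (rr (aB ε)) p K m) +
          (Fc p (hh N (fun i => aB ε i + S4_tr w (n + 1) i)) K
            - Fc p (hh N (fun i => aB ε i + S4_tr w n i)) K
            - (w (n + 1) : ℂ) * DD N (rr (aB ε)) p K ((n + 1 : ℕ) : ℤ)) := by ring
      rw [h3]
      exact (norm_add_le _ _).trans (add_le_add h1 h2)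
  have hfin := hind N le_rfl
  have e1 : hh N (fun i => aB ε i + S4_tr w N i) = hh N (fun i => aB ε i + w i) := by
    refine S4_hh_congr fun i _ hi => ?_
    unfold S4_tr
    rw [if_pos hi]
  rw [e1] at hfin
  refine hfin.trans ?_
  have h5 := hsa K N hK
  calc ∑ m ∈ Finset.Icc 1 N, (A * ε ^ 3 / (m : ℝ) ^ 12) * (C * A * ε * |Cn p K| *
        ∑ i ∈ Finset.Icc 1 m, Real.exp (-|(K : ℝ) - m| / (40 * i)) / (i : ℝ) ^ 5)
      = (C * A ^ 2 * ε ^ 4 * |Cn p K|) * ∑ n ∈ Finset.Icc 1 N, (1 / (n : ℝ) ^ 12) *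
        ∑ i ∈ Finset.Icc 1 n, Real.exp (-|(K : ℝ) - n| / (40 * i)) / (i : ℝ) ^ 5 := by
        rw [Finset.mul_sum]
        exact Finset.sum_congr rfl fun m _ => by ring
    _ ≤ (C * A ^ 2 * ε ^ 4 * |Cn p K|) * (C' / (K : ℝ) ^ 12) := by
        refine mul_le_mul_of_nonneg_left h5 ?_
        have : (0:ℝ) ≤ C := by linarith
        positivity
    _ = C * C' * A ^ 2 * ε ^ 4 * |Cn p K| / (K : ℝ) ^ 12 := by ring

theorem Fc_lip : ∃ C : ℝ, 1 ≤ C ∧ ∀ A ε : ℝ, 1 ≤ A → 0 < ε → ε ≤ 1 / 100000 → A * ε ≤ 1 →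
    ∀ p : ℝ, 143 * ε ^ 2 ≤ 2 - p → 2 - p ≤ 145 * ε ^ 2 → ∀ N : ℕ, 2 ≤ N →
    ∀ w w' : ℕ → ℝ, HW A ε N w → HW A ε N w' → ∀ z : ℝ, 0 ≤ z → (∀ i, |w i - w' i| ≤ ε ^ 3 * z) →
    ∀ K : ℕ, Odd K →
      ‖Fc p (hh N (fun i => aB ε i + w i)) K - Fc p (hh N (fun i => aB ε i + w' i)) K
          - ∑ n ∈ Finset.Icc 1 N, ((w n - w' n : ℝ) : ℂ) * DD N (rr (aB ε)) p K n‖ ≤
        C * A * ε ^ 4 * z * |Cn p K| := by
  obtain ⟨C, hC, hDD⟩ := DD_diff
  obtain ⟨C', hC', hsb⟩ := sum_b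
  refine ⟨C * C', by nlinarith, ?_⟩
  intro A ε hA hε hε1 hAε p hq1 hq2 N hN w w' hw hw' z hz hwz K hKo
  have hK : 1 ≤ K := hKo.pos
  have hε2 : ε ^ 2 ≤ 1 / 10000000000 := by nlinarith
  have hε3 : 0 < ε ^ 2 := by positivity
  have hN1 : 1 ≤ N := by omega
  have hp2 : p < 2 := by linarith
  have hp1 : 1.9 < p := by norm_num; linarith
  have hC0 : (0:ℝ) ≤ C := by linarith
  set η : ℕ → ℝ := fun i => w i - w' i with hη
  set a : ℕ → ℝ := fun i => aB ε i + w' i with ha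
  have hbody : ∀ τ : ℝ, (fun i => a i + τ * η i) =
      fun i => aB ε i + (w' i + τ * (w i - w' i)) := by
    intro τ
    funext i
    simp only [ha, hη]
    ring
  have key := S4_mv hN1 hp1 hp2 hK a η (fun m => DD N (rr (aB ε)) p K m)
    (B := C * C' * A * ε ^ 4 * z * |Cn p K|)
    (by
      intro τ hτ
      rw [hbody τ]
      exact HW_Sml hA hε hε1 hAε (S4_HW_seg hw hw' hτ) N)
    (by
      intro τ hτ
      refine (norm_sum_le _ _).trans ?_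
      calc ∑ n ∈ Finset.Icc 1 N, ‖(η n : ℂ) * (DD N (rr (fun i => a i + τ * η i)) p K n
            - DD N (rr (aB ε)) p K n)‖
          ≤ ∑ n ∈ Finset.Icc 1 N, (ε ^ 3 * z) * (C * A * ε * |Cn p K| *
            ∑ i ∈ Finset.Icc 1 N, Real.exp (-|(K : ℝ) - n| / (40 * i)) / (i : ℝ) ^ 5) := by
            refine Finset.sum_le_sum fun n hn => ?_
            rw [Finset.mem_Icc] at hn
            rw [norm_mul, Complex.norm_real, Real.norm_eq_abs, hbody τ]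
            refine mul_le_mul (hwz n) ?_ (norm_nonneg _) (by positivity)
            exact hDD A ε hA hε hε1 hAε p hq1 hq2 N N hN1 _ (S4_HW_seg hw hw' hτ) K n hK hn.1
        _ = (C * A * ε ^ 4 * z * |Cn p K|) * ∑ n ∈ Finset.Icc 1 N, ∑ i ∈ Finset.Icc 1 N,
              Real.exp (-|(K : ℝ) - n| / (40 * i)) / (i : ℝ) ^ 5 := by
            rw [Finset.mul_sum]
            exact Finset.sum_congr rfl fun m _ => by ring
        _ ≤ (C * A * ε ^ 4 * z * |Cn p K|) * C' :=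
            mul_le_mul_of_nonneg_left (hsb K N N) (by positivity)
        _ = C * C' * A * ε ^ 4 * z * |Cn p K| := by ring)
  have e1 : (fun i => a i + η i) = fun i => aB ε i + w i := by
    funext i
    simp only [ha, hη]
    ring
  rw [e1] at key
  exact key

end Pool.Agent.H53.RM
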