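import Pool.Agent.H53.RM.Defs
import Pool.Agent.H65.RM.Phi

/-!
# T1: the functions `f z`, `f conj z`, `Φ = f z conj z`

`‖ff K p z‖ = ‖z‖^{p-2}` (`z ≠ 0`), so `‖f z‖ = ‖z‖^{p-1} → 0` at `0` (`p > 1`, `K ≥ 1` so that `ff K p 0 = 0`).
`Φ(z) = ‖z‖^p (conj z/z)^K`.  For `z ≠ 0`: derivative of `‖z‖^p` along a curve with velocity `v` is
`p ‖z‖^{p-2} Re(conj z v) = (p/2) ‖z‖^{p-2} (conj z v + z conj v)`, derivative of `(conj z/z)^K` is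
`K (conj z/z)^K (conj v/conj z - v/z)`.  At `z = 0`: `‖Φ(Z(s))‖ ≤ ‖Z(s)‖^p = O(|s-s₀|^p)`, `p > 1`.
-/

namespace Pool.Agent.H53.RM

open Complex Pool.Agent.H65.RM

variable {K : ℕ} {p : ℝ}

theorem T1_ff_eq (K : ℕ) (p : ℝ) (z : ℂ) : ff K p z = Pool.Agent.H65.RM.ff p K z := by
  unfold ff Pool.Agent.H65.RM.ff
  by_cases hz : z = 0
  · subst hz
    rcases Nat.eq_zero_or_pos K with rfl | hK
    · simp
    · rw [map_zero, zero_div, zero_pow (by omega), zero_pow (by omega), mul_zero, mul_zero]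
  · have h0 : 0 < ‖z‖ := norm_pos_iff.2 hz
    have h1 : z * (starRingEnd ℂ) z = ((‖z‖ ^ 2 : ℝ) : ℂ) := by
      rw [Complex.mul_conj, Complex.normSq_eq_norm_sq]
    have h2 : ‖z‖ ^ (p - 2) = ‖z‖ ^ (p - 2 - 2 * K) * (‖z‖ ^ 2) ^ K := by
      rw [← pow_mul, ← Real.rpow_natCast ‖z‖ (2 * K), ← Real.rpow_add h0]
      congr 1
      push_cast
      ring
    rw [h2, Complex.ofReal_mul, mul_assoc]
    congr 1
    rw [Complex.ofReal_pow, ← h1, ← mul_pow, pow_mul]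
    congr 1
    field_simp

theorem ff_z_cont (hK : 1 ≤ K) (hp : 1 < p) : Continuous (fun z : ℂ => ff K p z * z) := by
  have h := gB_cont (p := p) (K := K) hK hp
  refine h.congr fun z => ?_
  rw [T1_ff_eq]
  rfl

theorem ff_zc_cont (hK : 1 ≤ K) (hp : 1 < p) :
    Continuous (fun z : ℂ => ff K p z * (starRingEnd ℂ) z) := by
  have h := gA_cont (p := p) (K := K) hK hp
  refine h.congr fun z => ?_
  rw [T1_ff_eq]
  rfl

theorem ff_neg (K : ℕ) (p : ℝ) (z : ℂ) : ff K p (-z) = ff K p z := by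
  rw [T1_ff_eq, T1_ff_eq, Pool.Agent.H65.RM.ff_neg]

/-- values on rays: `ff (ℓ e^{iφ}) = ℓ^{p-2} e^{-2iKφ}` -/
theorem ff_ray (K : ℕ) (p : ℝ) {l : ℝ} (hl : 0 < l) (φ : ℝ) :
    ff K p ((l : ℂ) * ex φ) = ((l ^ (p - 2) : ℝ) : ℂ) * ex (-(2 * K * φ)) := by
  rw [T1_ff_eq, Pool.Agent.H65.RM.ff_ray hl]

theorem Phi_deriv (hK : 1 ≤ K) (hp : 1 < p) {Z : ℝ → ℂ} {Z' : ℂ} {s : ℝ}
    (hZ : HasDerivAt Z Z' s) :
    HasDerivAt (fun s => ff K p (Z s) * Z s * (starRingEnd ℂ) (Z s))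
      (((p / 2 - K : ℝ) : ℂ) * (ff K p (Z s) * (starRingEnd ℂ) (Z s)) * Z' +
        ((p / 2 + K : ℝ) : ℂ) * (ff K p (Z s) * Z s) * (starRingEnd ℂ) Z') s := by
  have h := Ph_deriv hK hp hZ
  have e1 : (fun s => ff K p (Z s) * Z s * (starRingEnd ℂ) (Z s)) = fun s => Ph p K (Z s) := by
    funext s
    rw [T1_ff_eq, mul_assoc]
    rfl
  rw [e1]
  refine h.congr_deriv ?_
  rw [T1_ff_eq]
  simp only [gA, gB]
  push_cast
  ring

end Pool.Agent.H53.RM
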