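import Pool.Agent.H53.RM.G5_Chord
import Pool.Agent.H53.RM.T1_Phi

/-!
# T2: the substitution `β = b(α,t)`

`∫_α^{α+2π} g(Z) Im(conj Z γ'(β)) dβ = ∫_0^π g(el e^{i(α+t)}) el² dt` by
`intervalIntegral.integral_comp_mul_deriv` with `b = bb N (rr a) α` (`Sm.bb_deriv`, `Sm.bb_zero`, `Sm.bb_pi`,
`Sm.chord`), and `∫_α^{α+2π} = ∫_0^{2π}` by periodicity of `γ, γ'`.
The integrand `g(Z) Im(conj Z γ'(β))` is continuous because `g(z) z` and `g(z) conj z` are.
-/

namespace Pool.Agent.H53.RM

open Complex Pool.Agent.H65.RM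

variable {N : ℕ} {a : ℕ → ℝ}

private lemma T2_ex_per (θ : ℝ) : ex (θ + 2 * Real.pi) = ex θ := by
  rw [ex_add, ex_two_pi, mul_one]

private lemma T2_ro_per (N : ℕ) (r : ℕ → ℝ) (θ : ℝ) : ro N r (θ + 2 * Real.pi) = ro N r θ := by
  unfold ro
  congr 2
  apply Finset.sum_congr rfl
  intro i _
  congr 1
  rw [show 2 * (i : ℝ) * (θ + 2 * Real.pi) = 2 * i * θ + ((2 * i : ℕ) : ℝ) * (2 * Real.pi) by
    push_cast; ring]
  exact Real.cos_add_nat_mul_two_pi _ _

private lemma T2_im (z w : ℂ) : (((((starRingEnd ℂ) z) * w).im : ℝ) : ℂ) =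
    ((starRingEnd ℂ) z * w - z * (starRingEnd ℂ) w) / (2 * I) := by
  rw [Complex.im_eq_sub_conj, map_mul, Complex.conj_conj]

theorem subst (ha : Sml N a) (α : ℝ) {g : ℂ → ℂ} (hg : Continuous (fun z => g z * z))
    (hgc : Continuous (fun z => g z * (starRingEnd ℂ) z)) :
    ∫ β in (0:ℝ)..(2 * Real.pi), g (ga N (rr a) β - ga N (rr a) α) *
        ((((starRingEnd ℂ) (ga N (rr a) β - ga N (rr a) α) * gp N a β).im : ℝ) : ℂ) =
      ∫ t in (0:ℝ)..Real.pi, g ((el N (rr a) α t : ℂ) * ex (α + t)) *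
        ((el N (rr a) α t ^ 2 : ℝ) : ℂ) := by
  obtain ⟨R, hR, hS⟩ := Sml_Sm ha
  obtain ⟨b', hb'c, hb', hb''⟩ := hS.bb_deriv hR α
  set G : ℝ → ℂ := fun β => g (ga N (rr a) β - ga N (rr a) α) *
        ((((starRingEnd ℂ) (ga N (rr a) β - ga N (rr a) α) * gp N a β).im : ℝ) : ℂ) with hG
  have hZ : Continuous (fun β => ga N (rr a) β - ga N (rr a) α) := continuous_ga.sub continuous_const
  have hgp : Continuous (gp N a) := by
    unfold gp
    exact (Complex.continuous_ofReal.comp continuous_ro).mul continuous_ex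
  have hGc : Continuous G := by
    have e : G = fun β => (g (ga N (rr a) β - ga N (rr a) α) *
        (starRingEnd ℂ) (ga N (rr a) β - ga N (rr a) α) * gp N a β -
        g (ga N (rr a) β - ga N (rr a) α) * (ga N (rr a) β - ga N (rr a) α) *
          (starRingEnd ℂ) (gp N a β)) / (2 * I) := by
      funext β
      rw [hG]
      simp only
      rw [T2_im]
      ring
    rw [e]
    have h1 : Continuous (fun β => g (ga N (rr a) β - ga N (rr a) α) *
        (starRingEnd ℂ) (ga N (rr a) β - ga N (rr a) α)) := hgc.comp hZ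
    have h2 : Continuous (fun β => g (ga N (rr a) β - ga N (rr a) α) *
        (ga N (rr a) β - ga N (rr a) α)) := hg.comp hZ
    exact ((h1.mul hgp).sub (h2.mul (Complex.continuous_conj.comp hgp))).div_const _
  have hGp : Function.Periodic G (2 * Real.pi) := by
    intro β
    simp only [hG]
    rw [ga_periodic]
    unfold gp
    rw [T2_ro_per, T2_ex_per]
  have h1 : ∫ β in (0:ℝ)..(2 * Real.pi), G β = ∫ β in α..(α + 2 * Real.pi), G β := by
    have := hGp.intervalIntegral_add_eq 0 α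
    rw [zero_add] at this
    exact this
  rw [h1]
  have h2 : ∫ t in (0:ℝ)..Real.pi, b' t • (G ∘ (bb N (rr a) α)) t =
      ∫ β in (bb N (rr a) α 0)..(bb N (rr a) α Real.pi), G β :=
    intervalIntegral.integral_deriv_smul_comp (fun t _ => hb' t) hb'c.continuousOn hGc
  rw [hS.bb_zero, hS.bb_pi] at h2
  rw [← h2]
  apply intervalIntegral.integral_congr
  intro t _
  simp only [Function.comp_apply, hG]
  rw [hS.chord α t, Complex.real_smul]
  have h3 := hb'' t
  rw [hS.chord α t] at h3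
  rw [← h3]
  unfold gp
  push_cast
  ring

end Pool.Agent.H53.RM
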