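import Pool.Agent.H53.RM.G7_Fc
import Pool.Agent.H53.RM.T2_Subst
import Pool.Agent.H65.RM.Pol

/-!
# T3: `F_K = p/(8π(K² - P²)) J_K`, `P = p/2`

`Fc_formula` (G7) identifies `Fc` with `H65.RM.FK`, and `H65.RM.Sm.FK_eq`, `H65.RM.Sm.inner_a` give the rest.
-/

namespace Pool.Agent.H53.RM

open Complex Pool.Agent.H65.RM

variable {N : ℕ} {a : ℕ → ℝ}

lemma T3_ff {K : ℕ} (hK : 1 ≤ K) (p : ℝ) (z : ℂ) :
    Pool.Agent.H53.RM.ff K p z = Pool.Agent.H65.RM.ff p K z := by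
  unfold Pool.Agent.H53.RM.ff Pool.Agent.H65.RM.ff
  by_cases hz : z = 0
  · subst hz
    have h1 : K ≠ 0 := by omega
    simp [h1]
  · have hn : 0 < ‖z‖ := norm_pos_iff.2 hz
    have hc : (starRingEnd ℂ) z ≠ 0 := by simpa using hz
    have h1 : (starRingEnd ℂ) z / z = (starRingEnd ℂ) z ^ 2 / ((‖z‖ ^ 2 : ℝ) : ℂ) := by
      have h2 : z * (starRingEnd ℂ) z = ((‖z‖ ^ 2 : ℝ) : ℂ) := by
        rw [Complex.mul_conj, Complex.normSq_eq_norm_sq]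
      rw [← h2]
      field_simp
    have h3 : ‖z‖ ^ (p - 2 - 2 * K) = ‖z‖ ^ (p - 2) * ((‖z‖ ^ 2) ^ K)⁻¹ := by
      rw [Real.rpow_sub hn (p - 2) (2 * K), div_eq_mul_inv]
      congr 2
      rw [← pow_mul]
      have : (2 * (K : ℝ)) = ((2 * K : ℕ) : ℝ) := by push_cast; ring
      rw [this, Real.rpow_natCast]
    rw [h1, div_pow, h3, ← pow_mul]
    push_cast
    rw [div_eq_mul_inv]
    ring

lemma T3_gp (θ : ℝ) : gp N a θ = ga' N (rr a) θ := rfl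

lemma T3_FK (ha : Sml N a) {p : ℝ} (hp1 : 1 < p) {K : ℕ} :
    Fc p (hh N a) K = Pool.Agent.H65.RM.FK p N (rr a) K := by
  rw [Fc_formula ha (by linarith) K]
  rfl

theorem Fc_torus (ha : Sml N a) {p : ℝ} (hp1 : 1 < p) {K : ℕ} (hK : 1 ≤ K) :
    Fc p (hh N a) K = ((1 / (2 * Real.pi * (p + 1)) : ℝ) : ℂ) *
      ∫ α in (0:ℝ)..(2 * Real.pi), ∫ β in (0:ℝ)..(2 * Real.pi),
        ff K p (ga N (rr a) β - ga N (rr a) α) *
          ((((starRingEnd ℂ) (gp N a α) * (ga N (rr a) β - ga N (rr a) α)).im : ℝ) : ℂ) *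
          ((((starRingEnd ℂ) (ga N (rr a) β - ga N (rr a) α) * gp N a β).im : ℝ) : ℂ) := by
  obtain ⟨R, hR, h⟩ := Sml_Sm ha
  rw [T3_FK ha hp1]
  unfold Pool.Agent.H65.RM.FK
  congr 2
  funext α
  rw [← h.inner_a hR hK hp1 α]
  congr 1
  funext b
  rw [T3_ff hK]
  rfl

theorem Fc_J (ha : Sml N a) {p : ℝ} (hp1 : 1 < p) (hp2 : p < 2) {K : ℕ} (hK : 1 ≤ K) :
    Fc p (hh N a) K =
      ((p / (8 * Real.pi * ((K : ℝ) ^ 2 - (p / 2) ^ 2)) : ℝ) : ℂ) * JJ N a p K := by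
  obtain ⟨R, hR, h⟩ := Sml_Sm ha
  have hK' : (1 : ℝ) ≤ K := by exact_mod_cast hK
  rw [T3_FK ha hp1, h.FK_eq hR hK hp1 (by linarith)]
  congr 1
  unfold Pool.Agent.H53.RM.JJ Pool.Agent.H65.RM.JJ
  congr 1
  funext α
  congr 1
  funext b
  unfold Ph
  rw [T3_ff hK, T3_gp, T3_gp]
  ring

end Pool.Agent.H53.RM
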