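import Pool.Agent.H53.RM.G4_Trig
import Pool.Agent.H53.RM.T1_Phi
import Pool.Agent.H65.RM.Pol

/-!
# T4: the derivative of `J_K` along a segment of bodies

`γ_τ = ga N (rr (a+τη))` is affine in `τ`, `V = dγ/dτ = (η' - i η) e^{iθ}` (`η(θ) = ∑ η_i cos 2iθ`),
`V' = dγ'/dτ = (η + η'') e^{iθ}`, `Im(γ'(α) conj V(α)) = ρ(α) η(α)`.
Differentiate under the (double) integral sign: the integrand `Φ(Z) conj γ'(α) γ'(β)` is `C^1` in `τ` with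
jointly continuous derivative (`Phi_deriv`), and then:
`dJ/dτ = ∬ [Φ_z (V(β)-V(α)) + Φ_{z̄} conj(V(β)-V(α))] conj γ'(α) γ'(β) + Φ (conj V'(α) γ'(β) + conj γ'(α) V'(β))`
with `Φ_z = (P-K) f conj Z`, `Φ_{z̄} = (P+K) f Z`.
Integrate by parts: in `α` the term `Φ conj V'(α) γ'(β)` becomes `(Φ_z γ'(α) + Φ_{z̄} conj γ'(α)) conj V(α) γ'(β)`,
in `β` the term `Φ conj γ'(α) V'(β)` becomes `-(Φ_z γ'(β) + Φ_{z̄} conj γ'(β)) conj γ'(α) V(β)`.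
Sum: `∬ Φ_z γ'(β) 2i Im(γ'(α) conj V(α)) + ∬ Φ_{z̄} conj γ'(α) · 2i ρ(β)η(β)`; exchange `α, β` in the second
(`Φ_{z̄}` is odd in `Z`): `dJ/dτ = 2i ∬ ρ(α)η(α) [ (P-K) f conj Z γ'(β) - (P+K) f Z conj γ'(β) ]`.
For fixed `α`: `∫ (P-K) f conj Z γ'(β) + (P+K) f Z conj γ'(β) dβ = 0`, and
`f Im(conj Z γ') = (1/2i)(f conj Z γ' - f Z conj γ')`; so
`dJ/dτ = (4 (K² - P²)/P) ∬ ρ(α) η(α) f Im(conj Z γ'(β))`.
This file is split in two: `JJ_diff` (differentiation under the integral sign) and `JJ_deriv`.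
-/

namespace Pool.Agent.H53.RM

open Complex Pool.Agent.H65.RM

variable {N : ℕ} {a η : ℕ → ℝ}

/-- `V = dγ/dτ` -/
noncomputable def VV (N : ℕ) (η : ℕ → ℝ) (θ : ℝ) : ℂ := ga N (rr η) θ + I * ex θ

/-- `V' = dγ'/dτ` -/
noncomputable def VP (N : ℕ) (η : ℕ → ℝ) (θ : ℝ) : ℂ := gp N η θ - ex θ

lemma T4_ff_eq {K : ℕ} (hK : 1 ≤ K) (p : ℝ) (z : ℂ) :
    ff K p z = Pool.Agent.H65.RM.ff p K z := by
  unfold ff Pool.Agent.H65.RM.ff
  by_cases hz : z = 0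
  · subst hz
    rw [map_zero, div_zero, zero_pow (by omega), zero_pow (by omega), mul_zero, mul_zero]
  · have hn : 0 < ‖z‖ := norm_pos_iff.2 hz
    have hn' : (‖z‖ : ℂ) ≠ 0 := by exact_mod_cast hn.ne'
    have h0 : z * (starRingEnd ℂ) z = (‖z‖ : ℂ) ^ 2 := Complex.mul_conj' z
    have h1 : (starRingEnd ℂ) z / z = (starRingEnd ℂ) z ^ 2 / (‖z‖ : ℂ) ^ 2 := by
      rw [← h0, div_eq_div_iff hz (by rw [h0]; exact pow_ne_zero 2 hn')]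
      ring
    have h2 : ‖z‖ ^ (p - 2 - 2 * (K : ℝ)) = ‖z‖ ^ (p - 2) / ‖z‖ ^ (2 * K) := by
      rw [Real.rpow_sub hn, show (2 * (K : ℝ)) = ((2 * K : ℕ) : ℝ) by push_cast; ring,
        Real.rpow_natCast]
    rw [h1, h2, div_pow, ← pow_mul, ← pow_mul]
    push_cast
    ring

lemma T4_rr (a η : ℕ → ℝ) (τ : ℝ) :
    rr (fun i => a i + τ * η i) = fun i => rr a i + τ * rr η i := by
  funext i
  unfold rr
  ring

lemma T4_VV (N : ℕ) (η : ℕ → ℝ) (θ : ℝ) : VV N η θ = Vs N (rr η) θ := by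
  unfold VV ga Vs ex
  ring

lemma T4_VP (N : ℕ) (η : ℕ → ℝ) (θ : ℝ) : VP N η θ = Vs' N (rr η) θ := by
  unfold VP gp Vs' ro
  push_cast
  ring

lemma T4_ga (N : ℕ) (a η : ℕ → ℝ) (τ θ : ℝ) : ga N (rr fun i => a i + τ * η i) θ =
    ga N (rr a) θ + τ * Vs N (rr η) θ := by
  rw [T4_rr, ga_line]

lemma T4_gp (N : ℕ) (a η : ℕ → ℝ) (τ θ : ℝ) : gp N (fun i => a i + τ * η i) θ =
    ga' N (rr a) θ + τ * Vs' N (rr η) θ := by
  have h : gp N (fun i => a i + τ * η i) θ = ga' N (rr fun i => a i + τ * η i) θ := rfl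
  rw [h, T4_rr, ga'_line]

lemma T4_JJ (N : ℕ) (a η : ℕ → ℝ) (p : ℝ) {K : ℕ} (hK : 1 ≤ K) (τ : ℝ) :
    JJ N (fun i => a i + τ * η i) p K = Pool.Agent.H65.RM.JJ p K
      (fun θ => ga N (rr a) θ + τ * Vs N (rr η) θ)
      (fun θ => ga' N (rr a) θ + τ * Vs' N (rr η) θ) := by
  unfold JJ Pool.Agent.H65.RM.JJ Ph
  simp only [T4_ga, T4_gp, T4_ff_eq hK]
  congr 1
  funext α
  congr 1
  funext β
  ring

theorem JJ_diff (N : ℕ) (a η : ℕ → ℝ) {p : ℝ} (hp1 : 1 < p) {K : ℕ} (hK : 1 ≤ K) (τ : ℝ) :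
    HasDerivAt (fun τ : ℝ => JJ N (fun i => a i + τ * η i) p K)
      (∫ α in (0:ℝ)..(2 * Real.pi), ∫ β in (0:ℝ)..(2 * Real.pi),
        let b : ℕ → ℝ := fun i => a i + τ * η i
        let Z : ℂ := ga N (rr b) β - ga N (rr b) α
        let V : ℂ := VV N η β - VV N η α
        (((p / 2 - K : ℝ) : ℂ) * (ff K p Z * (starRingEnd ℂ) Z) * V +
          ((p / 2 + K : ℝ) : ℂ) * (ff K p Z * Z) * (starRingEnd ℂ) V) *
            (starRingEnd ℂ) (gp N b α) * gp N b β +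
        ff K p Z * Z * (starRingEnd ℂ) Z *
          ((starRingEnd ℂ) (VP N η α) * gp N b β + (starRingEnd ℂ) (gp N b α) * VP N η β)) τ := by
  have h := Pool.Agent.H65.RM.JJ_deriv hK hp1 (cv_ga (N := N) (r := rr a))
    (cv_Vs (N := N) (rr η)) τ
  have hf : (fun τ : ℝ => JJ N (fun i => a i + τ * η i) p K) = fun τ : ℝ =>
      Pool.Agent.H65.RM.JJ p K (fun θ => ga N (rr a) θ + τ * Vs N (rr η) θ)
      (fun θ => ga' N (rr a) θ + τ * Vs' N (rr η) θ) := funext fun τ => T4_JJ N a η p hK τ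
  rw [hf]
  refine h.congr_deriv ?_
  simp only [T4_ga, T4_gp, T4_ff_eq hK, T4_VV, T4_VP]
  unfold dGt dG gA gB Ph
  congr 1
  funext α
  congr 1
  funext β
  push_cast
  ring

end Pool.Agent.H53.RM
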